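import Mathlib
import Pool.Agent.Helper12.Defs

/-!
MP_ecbc8a_al, helper12's plan, packet 111: `theorem star : Star`.
-/

set_option autoImplicit false

namespace Pool.Agent.Helper26.StarP

open Pool.Agent.Helper12.TwoLen
open scoped Pointwise

section basic

variable {K : Type*} [Group K]

lemma eq_one_of_E2_EO {x : K} (h2 : E2 x) (ho : EO x) : x = 1 := by
  obtain ⟨k, hk⟩ := h2
  obtain ⟨m, hm, hm1⟩ := ho
  have h1 : orderOf x ∣ 2 ^ k := orderOf_dvd_of_pow_eq_one hk
  have h3 : orderOf x ∣ m := orderOf_dvd_of_pow_eq_one hm1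
  have hc : Nat.Coprime (2 ^ k) m := by
    apply Nat.Coprime.pow_left
    exact (Nat.coprime_two_left).mpr hm
  have : orderOf x ∣ 1 := by
    have := Nat.dvd_gcd h1 h3
    rwa [hc] at this
  exact orderOf_eq_one_iff.mp (Nat.dvd_one.mp this)

/-- square root of an element of odd order inside the cyclic group it generates -/
lemma exists_sqrt {x : K} (ho : EO x) : ∃ n : ℕ, x ^ n * x ^ n = x := by
  obtain ⟨m, ⟨j, hj⟩, hm1⟩ := ho
  refine ⟨j + 1, ?_⟩
  rw [← pow_add]
  have : j + 1 + (j + 1) = m + 1 := by omega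
  rw [this, pow_succ, hm1, one_mul]

lemma sqrt_unique {x y : K} (hx : EO x) (hy : EO y) (h : x * x = y * y) : x = y := by
  obtain ⟨m, hm, hm1⟩ := hx
  obtain ⟨m', hm', hm1'⟩ := hy
  obtain ⟨j, hj⟩ := hm.mul hm'
  have hx1 : x ^ (m * m') = 1 := by rw [pow_mul, hm1, one_pow]
  have hy1 : y ^ (m * m') = 1 := by rw [mul_comm, pow_mul, hm1', one_pow]
  have key : ∀ z : K, z ^ (m * m') = 1 → z = (z * z) ^ (j + 1) := by
    intro z hz
    have : (z * z) ^ (j + 1) = z ^ (m * m' + 1) := by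
      rw [← pow_two, ← pow_mul]
      congr 1
      omega
    rw [this, pow_succ, hz, one_mul]
  rw [key x hx1, key y hy1, h]

lemma EO.inv {x : K} (h : EO x) : EO x⁻¹ := by
  obtain ⟨m, hm, h1⟩ := h
  exact ⟨m, hm, by rw [inv_pow, h1, inv_one]⟩

lemma EO.pow {x : K} (h : EO x) (n : ℕ) : EO (x ^ n) := by
  obtain ⟨m, hm, h1⟩ := h
  exact ⟨m, hm, by rw [← pow_mul, mul_comm, pow_mul, h1, one_pow]⟩

/-- square roots inside `U` -/
lemma sqrt_mem {U : Subgroup K} (hU : IsO U) {x : K} (hx : x ∈ U) : ∃ y ∈ U, y * y = x := by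
  obtain ⟨n, hn⟩ := exists_sqrt (hU x hx)
  exact ⟨x ^ n, U.pow_mem hx n, hn⟩

/-- the four-group lemma -/
lemma v4_aut (U : Subgroup K) (hU : IsO U) (α β : MulAut K)
    (hαU : ∀ u ∈ U, α u ∈ U) (hβU : ∀ u ∈ U, β u ∈ U)
    (hα : ∀ u ∈ U, α (α u) = u) (hβ : ∀ u ∈ U, β (β u) = u)
    (hc : ∀ u ∈ U, α (β u) = β (α u))
    (h1 : ∀ u ∈ U, β u = u → α u = u) (h2 : ∀ u ∈ U, α (β u) = u → α u = u) :
    ∀ u ∈ U, α u = u := by
  -- first: every `w ∈ U` inverted by `α` is trivial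
  have main : ∀ w ∈ U, α w = w⁻¹ → w = 1 := by
    intro w hw hαw
    -- y = w⁻¹ * β w, inverted by β
    have hyU : w⁻¹ * β w ∈ U := U.mul_mem (U.inv_mem hw) (hβU w hw)
    obtain ⟨v, hv, hvv⟩ := sqrt_mem hU hyU
    have hβy : β (w⁻¹ * β w) = (w⁻¹ * β w)⁻¹ := by
      rw [map_mul, map_inv, hβ w hw]; group
    have hβv : β v = v⁻¹ := by
      apply sqrt_unique (hU _ (hβU v hv)) (hU _ (U.inv_mem hv))
      rw [← map_mul, hvv, hβy, ← hvv]; group
    have hβw : β w = w * (v * v) := by rw [hvv]; group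
    have hβc : β (w * v) = w * v := by
      rw [map_mul, hβw, hβv]; group
    have hαc : α (w * v) = w * v := h1 _ (U.mul_mem hw hv) hβc
    have hαy : α (v * v) = w * (v * v)⁻¹ * w⁻¹ := by
      rw [hvv, map_mul, hc w hw, map_inv, hαw, map_inv, inv_inv]
      group
    have hαv : α v = w * v⁻¹ * w⁻¹ := by
      apply sqrt_unique (hU _ (hαU v hv))
        (hU _ (U.mul_mem (U.mul_mem hw (U.inv_mem hv)) (U.inv_mem hw)))
      rw [← map_mul, hαy]; group
    -- c = w * v satisfies c * c = 1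
    have hcc : (w * v) * (w * v) = 1 := by
      have h3 : α (w * v) = w⁻¹ * (w * v⁻¹ * w⁻¹) := by rw [map_mul, hαw, hαv]
      rw [hαc] at h3
      have h4 : w⁻¹ * (w * v⁻¹ * w⁻¹) = (w * v)⁻¹ := by group
      rw [h4] at h3
      calc (w * v) * (w * v) = (w * v)⁻¹ * (w * v) := by rw [← h3]
        _ = 1 := by group
    have hc1 : w * v = 1 := by
      apply eq_one_of_E2_EO _ (hU _ (U.mul_mem hw hv))
      exact ⟨1, by rw [pow_one, pow_two, hcc]⟩
    have hwv : v = w⁻¹ := (inv_eq_of_mul_eq_one_right hc1).symm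
    have hβw' : β w = w⁻¹ := by rw [hβw, hwv]; group
    have hαβ : α (β w) = w := by rw [hβw', map_inv, hαw, inv_inv]
    have h5 := h2 w hw hαβ
    rw [hαw] at h5
    apply eq_one_of_E2_EO _ (hU _ hw)
    refine ⟨1, ?_⟩
    rw [pow_one, pow_two]
    nth_rewrite 1 [← h5]
    group
  intro u hu
  have hzU : u⁻¹ * α u ∈ U := U.mul_mem (U.inv_mem hu) (hαU u hu)
  obtain ⟨w, hw, hww⟩ := sqrt_mem hU hzU
  have hαz : α (u⁻¹ * α u) = (u⁻¹ * α u)⁻¹ := by
    rw [map_mul, map_inv, hα u hu]; group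
  have hαw : α w = w⁻¹ := by
    apply sqrt_unique (hU _ (hαU w hw)) (hU _ (U.inv_mem hw))
    rw [← map_mul, hww, hαz, ← hww]; group
  have hw1 := main w hw hαw
  rw [hw1] at hww
  have : α u = u * (1 * 1) := by rw [hww]; group
  rw [this]; group

/-- the four-group lemma, conjugation form -/
lemma v4 (U : Subgroup K) (hU : IsO U) (e a : K) (he : e * e = 1) (ha : a * a = 1)
    (hea : e * a = a * e) (hne : ∀ u ∈ U, e * u * e⁻¹ ∈ U) (hna : ∀ u ∈ U, a * u * a⁻¹ ∈ U)
    (h1 : ∀ u ∈ U, a * u = u * a → e * u = u * e)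
    (h2 : ∀ u ∈ U, (a * e) * u = u * (a * e) → e * u = u * e) :
    ∀ u ∈ U, e * u = u * e := by
  have hei : e⁻¹ = e := inv_eq_of_mul_eq_one_right he
  have hai : a⁻¹ = a := inv_eq_of_mul_eq_one_right ha
  have key := v4_aut U hU (MulAut.conj e) (MulAut.conj a)
    (by intro u hu; simpa using hne u hu) (by intro u hu; simpa using hna u hu)
    (by
      intro u _
      simp only [MulAut.conj_apply, hei]
      calc e * (e * u * e) * e = (e * e) * u * (e * e) := by group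
        _ = u := by rw [he]; simp)
    (by
      intro u _
      simp only [MulAut.conj_apply, hai]
      calc a * (a * u * a) * a = (a * a) * u * (a * a) := by group
        _ = u := by rw [ha]; simp)
    (by
      intro u _
      simp only [MulAut.conj_apply]
      calc e * (a * u * a⁻¹) * e⁻¹ = (e * a) * u * (e * a)⁻¹ := by group
        _ = (a * e) * u * (a * e)⁻¹ := by rw [hea]
        _ = a * (e * u * e⁻¹) * a⁻¹ := by group)
    (by
      intro u hu h
      simp only [MulAut.conj_apply] at h ⊢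
      rw [mul_inv_eq_iff_eq_mul] at h ⊢
      exact h1 u hu h)
    (by
      intro u hu h
      simp only [MulAut.conj_apply] at h ⊢
      rw [mul_inv_eq_iff_eq_mul]
      apply h2 u hu
      have h3 : (e * a) * u * (e * a)⁻¹ = u := by
        rw [← h]
        have : e * (a * u * a⁻¹) * e⁻¹ = (e * a) * u * (e * a)⁻¹ := by group
        rw [this] at h
        rw [this, h, h]
      rw [mul_inv_eq_iff_eq_mul] at h3
      rw [← hea]
      exact h3)
  intro u hu
  have := key u hu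
  simp only [MulAut.conj_apply] at this
  rwa [mul_inv_eq_iff_eq_mul] at this

lemma countable_closure {s : Set K} (hs : s.Countable) : Countable (Subgroup.closure s) := by
  have h1 : (s ∪ s⁻¹).Countable :=
    hs.union (by rw [← Set.image_inv_eq_inv]; exact hs.image _)
  have : Countable ↥(s ∪ s⁻¹) := h1.to_subtype
  have h2 : (Set.range (fun L : List ↥(s ∪ s⁻¹) =>
      (L.map (Subtype.val : ↥(s ∪ s⁻¹) → K)).prod)).Countable := Set.countable_range _
  apply Set.Countable.to_subtype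
  apply h2.mono
  intro x hx
  have hx' : x ∈ (Subgroup.closure s).toSubmonoid := hx
  rw [Subgroup.closure_toSubmonoid] at hx'
  obtain ⟨L, hL, rfl⟩ := Submonoid.exists_list_of_mem_closure hx'
  refine ⟨L.pmap (fun y hy => ⟨y, hy⟩) hL, ?_⟩
  simp [List.map_pmap]

/-- The set `E * U` for `E` normalising `U`, as a subgroup. -/
def prodSub (E U : Subgroup K) (hn : Nrm E U) : Subgroup K where
  carrier := {x | ∃ e ∈ E, ∃ u ∈ U, x = e * u}
  one_mem' := ⟨1, E.one_mem, 1, U.one_mem, by simp⟩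
  mul_mem' := by
    rintro x y ⟨e, he, u, hu, rfl⟩ ⟨f, hf, v, hv, rfl⟩
    refine ⟨e * f, E.mul_mem he hf, f⁻¹ * u * f * v, U.mul_mem ?_ hv, by group⟩
    have := hn f⁻¹ (E.inv_mem hf) u hu
    simpa using this
  inv_mem' := by
    rintro x ⟨e, he, u, hu, rfl⟩
    refine ⟨e⁻¹, E.inv_mem he, e * u⁻¹ * e⁻¹, hn e he _ (U.inv_mem hu), by group⟩

lemma mem_prodSub {E U : Subgroup K} {hn : Nrm E U} {x : K} :
    x ∈ prodSub E U hn ↔ ∃ e ∈ E, ∃ u ∈ U, x = e * u := Iff.rfl

lemma le_prodSub_left {E U : Subgroup K} {hn : Nrm E U} : E ≤ prodSub E U hn :=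
  fun e he => ⟨e, he, 1, U.one_mem, by simp⟩

lemma le_prodSub_right {E U : Subgroup K} {hn : Nrm E U} : U ≤ prodSub E U hn :=
  fun u hu => ⟨1, E.one_mem, u, hu, by simp⟩

lemma countable_prodSub {E U : Subgroup K} {hn : Nrm E U} (hE : Countable E) (hU : Countable U) :
    Countable (prodSub E U hn) := by
  have h2 : (Set.range (fun p : E × U => (p.1 : K) * (p.2 : K))).Countable :=
    Set.countable_range _
  apply Set.Countable.to_subtype
  apply h2.mono
  rintro x ⟨e, he, u, hu, rfl⟩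
  exact ⟨(⟨e, he⟩, ⟨u, hu⟩), rfl⟩

lemma finite_prodSub {E U : Subgroup K} {hn : Nrm E U} (hE : Finite E) (hU : Finite U) :
    Finite (prodSub E U hn) := by
  have h2 : (Set.range (fun p : E × U => (p.1 : K) * (p.2 : K))).Finite :=
    Set.finite_range _
  apply Set.Finite.to_subtype
  apply h2.subset
  rintro x ⟨e, he, u, hu, rfl⟩
  exact ⟨(⟨e, he⟩, ⟨u, hu⟩), rfl⟩

lemma IsO.mono {U V : Subgroup K} (h : IsO V) (hUV : U ≤ V) : IsO U := fun x hx => h x (hUV hx)
lemma Is2.mono {U V : Subgroup K} (h : Is2 V) (hUV : U ≤ V) : Is2 U := fun x hx => h x (hUV hx)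

lemma is2_of_sq {E : Subgroup K} (h : ∀ x ∈ E, x * x = 1) : Is2 E :=
  fun x hx => ⟨1, by rw [pow_one, pow_two, h x hx]⟩

lemma comm_of_sq {E : Subgroup K} (h : ∀ x ∈ E, x * x = 1) {x y : K} (hx : x ∈ E) (hy : y ∈ E) :
    x * y = y * x := by
  have hxi : x⁻¹ = x := inv_eq_of_mul_eq_one_right (h x hx)
  have hyi : y⁻¹ = y := inv_eq_of_mul_eq_one_right (h y hy)
  have hxyi : (x * y)⁻¹ = x * y := inv_eq_of_mul_eq_one_right (h _ (E.mul_mem hx hy))
  rw [mul_inv_rev, hxi, hyi] at hxyi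
  exact hxyi.symm

/-- Sylow conjugacy in `A1 * U1` (finite). -/
lemma conj_into (A1 U1 : Subgroup K) (hA1f : Finite A1) (hU1f : Finite U1) (hA1 : Is2 A1)
    (hU1 : IsO U1) (hn : Nrm A1 U1) (A : Subgroup K) (hA : A ≤ prodSub A1 U1 hn) (hA2 : Is2 A) :
    ∃ u ∈ U1, ∀ a ∈ A, u * a * u⁻¹ ∈ A1 := by
  have : Finite (prodSub A1 U1 hn) := finite_prodSub hA1f hU1f
  set F := prodSub A1 U1 hn with hF
  have hp1 : IsPGroup 2 (A.subgroupOf F) := by
    rintro ⟨⟨x, hxF⟩, hx⟩
    obtain ⟨k, hk⟩ := hA2 x hx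
    exact ⟨k, by ext; simpa using hk⟩
  have hp2 : IsPGroup 2 (A1.subgroupOf F) := by
    rintro ⟨⟨x, hxF⟩, hx⟩
    obtain ⟨k, hk⟩ := hA1 x hx
    exact ⟨k, by ext; simpa using hk⟩
  obtain ⟨P, hP⟩ := hp1.exists_le_sylow
  obtain ⟨Q, hQ⟩ := hp2.exists_le_sylow
  -- Q ≤ A1
  have hQle : ∀ x : F, x ∈ Q → (x : K) ∈ A1 := by
    intro x hx
    obtain ⟨a, ha, u, hu, hxau⟩ := x.2
    have haF : a ∈ F := le_prodSub_left ha
    have huF : u ∈ F := le_prodSub_right hu
    have haQ : (⟨a, haF⟩ : F) ∈ Q := hQ (show (⟨a, haF⟩ : F) ∈ A1.subgroupOf F from ha)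
    have huQ : (⟨u, huF⟩ : F) ∈ Q := by
      have : (⟨u, huF⟩ : F) = (⟨a, haF⟩ : F)⁻¹ * x := by
        ext; simp [hxau]
      rw [this]
      exact Q.mul_mem (Q.inv_mem haQ) hx
    have hu1 : u = 1 := by
      apply eq_one_of_E2_EO _ (hU1 u hu)
      obtain ⟨k, hk⟩ := Q.isPGroup' ⟨⟨u, huF⟩, huQ⟩
      refine ⟨k, ?_⟩
      have := congrArg (fun z : Q => ((z : F) : K)) hk
      simpa using this
    rw [hxau, hu1, mul_one]
    exact ha
  obtain ⟨g, hg⟩ := MulAction.exists_smul_eq F P Q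
  obtain ⟨x, hx, u, hu, hgxu⟩ := g.2
  refine ⟨u, hu, ?_⟩
  intro a ha
  have haF : a ∈ F := hA ha
  have haP : (⟨a, haF⟩ : F) ∈ P := hP (show (⟨a, haF⟩ : F) ∈ A.subgroupOf F from ha)
  have h1 : g * ⟨a, haF⟩ * g⁻¹ ∈ Q := by
    rw [← hg]
    have : MulAut.conj g • (⟨a, haF⟩ : F) ∈ MulAut.conj g • (P : Subgroup F) :=
      Subgroup.smul_mem_pointwise_smul _ _ _ haP
    exact this
  have h2 := hQle _ h1
  have h3 : u * a * u⁻¹ = x⁻¹ * ((g : K) * a * (g : K)⁻¹) * x := by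
    rw [hgxu]; group
  rw [h3]
  exact A1.mul_mem (A1.mul_mem (A1.inv_mem hx) (by simpa using h2)) hx

/-- conjugating `Is2` -/
lemma is2_map {H : Subgroup K} (h : Is2 H) (g : MulAut K) : Is2 (H.map g.toMonoidHom) := by
  rintro _ ⟨x, hx, rfl⟩
  obtain ⟨k, hk⟩ := h x hx
  refine ⟨k, ?_⟩
  rw [← map_pow, hk, map_one]

/-- Property (P). -/
lemma propP (hK : LocFin K) (hS : Sparse K) {E U : Subgroup K} (hEc : Countable E)
    (hUc : Countable U) (hE : ∀ x ∈ E, x * x = 1) (hU : IsO U) (hn : Nrm E U) :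
    ∃ A : Subgroup K, A ≤ E ∧ Finite A ∧
      ∀ u ∈ U, (∀ a ∈ A, a * u = u * a) → ∀ e ∈ E, e * u = u * e := by
  obtain ⟨A, hAH, hAf, hA2, hgood⟩ := hS (prodSub E U hn) (countable_prodSub hEc hUc)
  -- the finite pieces
  choose e he u hu hau using (fun a : A => mem_prodSub.mp (hAH a.2))
  set A1 : Subgroup K := Subgroup.closure (Set.range e) with hA1def
  have hA1E : A1 ≤ E := by
    rw [hA1def, Subgroup.closure_le]
    rintro _ ⟨a, rfl⟩
    exact he a
  have hA1f : Finite A1 := hK A1 ((Subgroup.fg_iff A1).mpr ⟨Set.range e, rfl, Set.finite_range e⟩)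
  set U1 : Subgroup K := Subgroup.closure
    (Set.range (fun p : A1 × A => (p.1 : K) * u p.2 * (p.1 : K)⁻¹)) with hU1def
  have hU1U : U1 ≤ U := by
    rw [hU1def, Subgroup.closure_le]
    rintro _ ⟨⟨x, a⟩, rfl⟩
    exact hn _ (hA1E x.2) _ (hu a)
  have hU1f : Finite U1 := hK U1 ((Subgroup.fg_iff U1).mpr ⟨_, rfl, Set.finite_range _⟩)
  have hn1 : Nrm A1 U1 := by
    intro x hx y hy
    have : U1 ≤ U1.comap (MulAut.conj x).toMonoidHom := by
      conv_lhs => rw [hU1def]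
      rw [Subgroup.closure_le]
      rintro _ ⟨⟨x', a⟩, rfl⟩
      simp only [Subgroup.coe_comap, Set.mem_preimage, MulEquiv.coe_toMonoidHom,
        MulAut.conj_apply, SetLike.mem_coe]
      have : x * (x' * u a * (x' : K)⁻¹) * x⁻¹ =
          ((⟨x, hx⟩ * x' : A1) : K) * u a * ((⟨x, hx⟩ * x' : A1) : K)⁻¹ := by
        simp only [Subgroup.coe_mul]; group
      rw [this]
      exact Subgroup.subset_closure ⟨(⟨x, hx⟩ * x', a), rfl⟩
    simpa using this hy
  have hAF : A ≤ prodSub A1 U1 hn1 := by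
    intro a ha
    refine ⟨e ⟨a, ha⟩, Subgroup.subset_closure ⟨_, rfl⟩, u ⟨a, ha⟩, ?_, hau ⟨a, ha⟩⟩
    apply Subgroup.subset_closure
    exact ⟨(1, ⟨a, ha⟩), by simp⟩
  obtain ⟨w, hw, hconj⟩ := conj_into A1 U1 hA1f hU1f
    (is2_of_sq (fun x hx => hE x (hA1E hx))) (IsO.mono hU hU1U) hn1 A hAF hA2
  have hwU : w ∈ U := hU1U hw
  refine ⟨A.map (MulAut.conj w).toMonoidHom, ?_, ?_, ?_⟩
  · rintro _ ⟨a, ha, rfl⟩
    exact hA1E (by simpa using hconj a ha)
  · exact Set.Finite.to_subtype ((Set.toFinite (A : Set K)).image _)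
  · intro v hv hcomm e' he'
    -- P = w⁻¹ E w, Q = w⁻¹ v⁻¹ E v w
    have hcomm' : ∀ a ∈ A, (w * a * w⁻¹) * v = v * (w * a * w⁻¹) := by
      intro a ha
      exact hcomm _ ⟨a, ha, by simp⟩
    have hwH : w ∈ prodSub E U hn := le_prodSub_right hwU
    have hvH : v ∈ prodSub E U hn := le_prodSub_right hv
    have hPQ := hgood (E.map (MulAut.conj w⁻¹).toMonoidHom)
      (E.map (MulAut.conj (w⁻¹ * v⁻¹)).toMonoidHom)
      (by
        rintro _ ⟨x, hx, rfl⟩
        have hxH : x ∈ prodSub E U hn := le_prodSub_left hx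
        have : w⁻¹ * x * w⁻¹⁻¹ ∈ prodSub E U hn :=
          mul_mem (mul_mem (inv_mem hwH) hxH) (inv_mem (inv_mem hwH))
        simpa using this)
      (by
        rintro _ ⟨x, hx, rfl⟩
        have hxH : x ∈ prodSub E U hn := le_prodSub_left hx
        have hg : w⁻¹ * v⁻¹ ∈ prodSub E U hn := mul_mem (inv_mem hwH) (inv_mem hvH)
        have : (w⁻¹ * v⁻¹) * x * (w⁻¹ * v⁻¹)⁻¹ ∈ prodSub E U hn :=
          mul_mem (mul_mem hg hxH) (inv_mem hg)
        exact this)
      (is2_map (is2_of_sq hE) _) (is2_map (is2_of_sq hE) _)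
      (by
        intro a ha
        refine ⟨w * a * w⁻¹, hA1E (hconj a ha), ?_⟩
        simp only [MulEquiv.coe_toMonoidHom, MulAut.conj_apply]
        group)
      (by
        intro a ha
        refine ⟨w * a * w⁻¹, hA1E (hconj a ha), ?_⟩
        simp only [MulEquiv.coe_toMonoidHom, MulAut.conj_apply]
        have h1 := hcomm' a ha
        calc w⁻¹ * v⁻¹ * (w * a * w⁻¹) * (w⁻¹ * v⁻¹)⁻¹
            = w⁻¹ * v⁻¹ * ((w * a * w⁻¹) * v) * w := by group
          _ = w⁻¹ * v⁻¹ * (v * (w * a * w⁻¹)) * w := by rw [h1]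
          _ = a := by group)
    -- the element e'⁻¹ (v⁻¹ e' v), conjugated by w
    have hmem : w⁻¹ * (e'⁻¹ * (v⁻¹ * e' * v)) * w ∈
        E.map (MulAut.conj w⁻¹).toMonoidHom ⊔ E.map (MulAut.conj (w⁻¹ * v⁻¹)).toMonoidHom := by
      have h1 : w⁻¹ * e'⁻¹ * w ∈ E.map (MulAut.conj w⁻¹).toMonoidHom :=
        ⟨e'⁻¹, E.inv_mem he', by simp⟩
      have h2 : (w⁻¹ * v⁻¹) * e' * (w⁻¹ * v⁻¹)⁻¹ ∈
          E.map (MulAut.conj (w⁻¹ * v⁻¹)).toMonoidHom :=
        ⟨e', he', rfl⟩
      have h3 := mul_mem (Subgroup.mem_sup_left h1 : _ ∈ _ ⊔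
        E.map (MulAut.conj (w⁻¹ * v⁻¹)).toMonoidHom) (Subgroup.mem_sup_right h2)
      have h4 : w⁻¹ * (e'⁻¹ * (v⁻¹ * e' * v)) * w =
        w⁻¹ * e'⁻¹ * w * ((w⁻¹ * v⁻¹) * e' * (w⁻¹ * v⁻¹)⁻¹) := by group
      rw [h4]
      exact h3
    have hE2 : E2 (w⁻¹ * (e'⁻¹ * (v⁻¹ * e' * v)) * w) := hPQ _ hmem
    have hEO : EO (w⁻¹ * (e'⁻¹ * (v⁻¹ * e' * v)) * w) := by
      apply hU
      refine U.mul_mem (U.mul_mem (U.inv_mem hwU) ?_) hwU
      have h1 := hn e'⁻¹ (E.inv_mem he') v⁻¹ (U.inv_mem hv)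
      have h2 : e'⁻¹ * (v⁻¹ * e' * v) = (e'⁻¹ * v⁻¹ * e'⁻¹⁻¹) * v := by group
      rw [h2]
      exact U.mul_mem h1 hv
    have h1 := eq_one_of_E2_EO hE2 hEO
    have h3 : e'⁻¹ * (v⁻¹ * e' * v) = 1 := by
      calc e'⁻¹ * (v⁻¹ * e' * v) = w * (w⁻¹ * (e'⁻¹ * (v⁻¹ * e' * v)) * w) * w⁻¹ := by group
        _ = 1 := by rw [h1]; group
    calc e' * v = v * e' * (e'⁻¹ * (v⁻¹ * e' * v)) := by group
      _ = v * e' := by rw [h3, mul_one]

/-- centraliser of `E` in `U`. -/
def CU (U E : Subgroup K) : Subgroup K := U ⊓ Subgroup.centralizer (E : Set K)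

lemma mem_CU {U E : Subgroup K} {u : K} : u ∈ CU U E ↔ u ∈ U ∧ ∀ x ∈ E, x * u = u * x := by
  unfold CU
  rw [Subgroup.mem_inf, Subgroup.mem_centralizer_iff]
  rfl

/-- Weights: step (3). -/
lemma exists_weight (hK : LocFin K) (hS : Sparse K) {E U : Subgroup K} (hEc : Countable E)
    (hUc : Countable U) (hE : ∀ x ∈ E, x * x = 1) (hU : IsO U) (hn : Nrm E U)
    (hf : ∀ e ∈ E, (∀ u ∈ U, e * u = u * e) → e = 1) (e : K) (he : e ∈ E) (he1 : e ≠ 1) :
    ∃ E0 : Subgroup K, E0 ≤ E ∧ e ∉ E0 ∧ (∀ a ∈ E, a ∈ E0 ∨ a * e ∈ E0) ∧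
      ¬ (∀ u ∈ CU U E0, e * u = u * e) := by
  obtain ⟨E0, -, hmax⟩ := zorn_le_nonempty₀
    {E0 : Subgroup K | E0 ≤ E ∧ e ∉ E0 ∧ ¬ (∀ u ∈ CU U E0, e * u = u * e)} (by
      intro c hc hchain y hy
      have hne : c.Nonempty := ⟨y, hy⟩
      have hdir : DirectedOn (· ≤ ·) c := hchain.directedOn
      refine ⟨sSup c, ⟨?_, ?_, ?_⟩, fun z hz => le_sSup hz⟩
      · exact sSup_le (fun z hz => (hc hz).1)
      · intro hmem
        obtain ⟨z, hz, hez⟩ := (Subgroup.mem_sSup_of_directedOn hne hdir).mp hmem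
        exact (hc hz).2.1 hez
      · intro hcen
        have hle : sSup c ≤ E := sSup_le (fun z hz => (hc hz).1)
        have hcnt : Countable (sSup c : Subgroup K) := by
          have : Set.Countable (E : Set K) := hEc
          exact (this.mono hle).to_subtype
        obtain ⟨A, hA, hAf, hAc⟩ := propP hK hS (E := sSup c) (U := U) hcnt hUc
          (fun x hx => hE x (hle hx)) hU (fun a ha => hn a (hle ha))
        -- A ≤ z for some z in c
        obtain ⟨z, hz, hAz⟩ : ∃ z ∈ c, A ≤ z := by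
          have hfin : (A : Set K).Finite := Set.toFinite _
          obtain ⟨z, hz, hAz⟩ := DirectedOn.exists_mem_subset_of_finset_subset_biUnion
            (f := fun z : Subgroup K => (z : Set K)) (c := c) hne hdir (s := hfin.toFinset) (by
              intro x hx
              have hxA : x ∈ A := by simpa using hx
              obtain ⟨z, hz, hxz⟩ := (Subgroup.mem_sSup_of_directedOn hne hdir).mp (hA hxA)
              simp only [Set.mem_iUnion]
              exact ⟨z, hz, hxz⟩)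
          refine ⟨z, hz, fun x hx => hAz ?_⟩
          simpa using hx
        apply (hc hz).2.2
        intro u hu
        rw [mem_CU] at hu
        apply hcen
        rw [mem_CU]
        exact ⟨hu.1, hAc u hu.1 (fun a ha => hu.2 a (hAz ha))⟩) ⊥ (by
      refine ⟨bot_le, fun h => he1 (Subgroup.mem_bot.mp h), fun h => he1 (hf e he ?_)⟩
      intro u hu
      apply h
      rw [mem_CU]
      refine ⟨hu, ?_⟩
      intro x hx
      rw [Subgroup.mem_bot.mp hx, one_mul, mul_one])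
  obtain ⟨⟨hE0, heE0, hcE0⟩, hmax'⟩ := hmax
  refine ⟨E0, hE0, heE0, ?_, hcE0⟩
  intro a ha
  by_contra hcon
  push Not at hcon
  obtain ⟨ha1, ha2⟩ := hcon
  -- general: adding b to E0
  have hadd : ∀ b ∈ E, b ∉ E0 → b * e ∉ E0 → ∀ u ∈ CU U E0, b * u = u * b → e * u = u * e := by
    intro b hb hb1 hb2 u hu hbu
    by_contra hne
    -- E0' = {x ∈ E | x ∈ E0 ∨ b * x ∈ E0}
    let E1 : Subgroup K :=
      { carrier := {x | x ∈ E ∧ (x ∈ E0 ∨ b * x ∈ E0)}
        one_mem' := ⟨E.one_mem, Or.inl E0.one_mem⟩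
        mul_mem' := by
          rintro x y ⟨hx, hx'⟩ ⟨hy, hy'⟩
          refine ⟨E.mul_mem hx hy, ?_⟩
          rcases hx' with hx' | hx' <;> rcases hy' with hy' | hy'
          · exact Or.inl (E0.mul_mem hx' hy')
          · right
            have : b * (x * y) = x * (b * y) := by
              rw [← mul_assoc, comm_of_sq hE hb hx, mul_assoc]
            rw [this]; exact E0.mul_mem hx' hy'
          · right
            rw [← mul_assoc]; exact E0.mul_mem hx' hy'
          · left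
            have : x * y = (b * x) * (b * y) := by
              rw [comm_of_sq hE hb hx, mul_assoc, ← mul_assoc b b y, hE b hb, one_mul]
            rw [this]; exact E0.mul_mem hx' hy'
        inv_mem' := by
          rintro x ⟨hx, hx'⟩
          have hxi : x⁻¹ = x := inv_eq_of_mul_eq_one_right (hE x hx)
          rw [hxi]
          exact ⟨hx, hx'⟩ }
    have hE1mem : ∀ x, x ∈ E1 ↔ x ∈ E ∧ (x ∈ E0 ∨ b * x ∈ E0) := fun x => Iff.rfl
    have hle : E0 ≤ E1 := fun x hx => ⟨hE0 hx, Or.inl hx⟩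
    have hbE1 : b ∈ E1 := ⟨hb, Or.inr (by rw [hE b hb]; exact E0.one_mem)⟩
    have hE1S : E1 ∈ {E0 : Subgroup K | E0 ≤ E ∧ e ∉ E0 ∧ ¬ (∀ u ∈ CU U E0, e * u = u * e)} := by
      refine ⟨fun x hx => hx.1, ?_, ?_⟩
      · rintro ⟨-, h | h⟩
        · exact heE0 h
        · exact hb2 h
      · intro h
        apply hne
        apply h
        rw [mem_CU] at hu ⊢
        refine ⟨hu.1, ?_⟩
        rintro x ⟨hx, hx' | hx'⟩
        · exact hu.2 x hx'
        · have h1 := hu.2 _ hx'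
          have h2 : x = b * (b * x) := by rw [← mul_assoc, hE b hb, one_mul]
          calc x * u = b * ((b * x) * u) := by
                nth_rewrite 1 [h2]; group
            _ = b * (u * (b * x)) := by rw [h1]
            _ = (b * u) * (b * x) := by group
            _ = (u * b) * (b * x) := by rw [hbu]
            _ = u * (b * (b * x)) := by group
            _ = u * x := by rw [← h2]
    have := hmax' hE1S hle
    exact hb1 (this hbE1)
  apply hcE0
  have hUO : IsO (CU U E0) := fun x hx => hU x (mem_CU.mp hx).1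
  have hnC : ∀ b ∈ E, ∀ u ∈ CU U E0, b * u * b⁻¹ ∈ CU U E0 := by
    intro b hb u hu
    rw [mem_CU] at hu ⊢
    refine ⟨hn b hb u hu.1, ?_⟩
    intro x hx
    have h1 := hu.2 x hx
    have h2 : x * b = b * x := comm_of_sq hE (hE0 hx) hb
    have h3 : x * b⁻¹ = b⁻¹ * x := by
      have hbi : b⁻¹ = b := inv_eq_of_mul_eq_one_right (hE b hb)
      rw [hbi, h2]
    calc x * (b * u * b⁻¹) = (x * b) * u * b⁻¹ := by group
      _ = b * (x * u) * b⁻¹ := by rw [h2]; group
      _ = b * u * (x * b⁻¹) := by rw [h1]; group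
      _ = b * u * b⁻¹ * x := by rw [h3]; group
  apply v4 (CU U E0) hUO e a (hE e he) (hE a ha) (comm_of_sq hE he ha) (hnC e he) (hnC a ha)
  · intro u hu hau
    exact hadd a ha ha1 ha2 u hu hau
  · intro u hu hau
    apply hadd (a * e) (E.mul_mem ha he) ha2 _ u hu hau
    rw [mul_assoc, hE e he, mul_one]
    exact ha1

/-- Step (4): countable case. -/
lemma star_countable (hK : LocFin K) (hS : Sparse K) {E U : Subgroup K} (hEc : Countable E)
    (hUc : Countable U) (hE : ∀ x ∈ E, x * x = 1) (hU : IsO U) (hn : Nrm E U)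
    (hf : ∀ e ∈ E, (∀ u ∈ U, e * u = u * e) → e = 1) : Finite E := by
  set Lam : Set (Subgroup K) := {E0 | E0 ≤ E ∧ E0 ≠ E ∧
    (∀ x ∈ E, ∀ y ∈ E, x ∉ E0 → y ∉ E0 → x * y ∈ E0) ∧
    ¬ (∀ u ∈ CU U E0, ∀ e ∈ E, e * u = u * e)} with hLam
  have hex : ∀ e ∈ E, e ≠ 1 → ∃ E0 ∈ Lam, e ∉ E0 := by
    intro e he he1
    obtain ⟨E0, h1, h2, h3, h4⟩ := exists_weight hK hS hEc hUc hE hU hn hf e he he1
    refine ⟨E0, ⟨h1, ?_, ?_, ?_⟩, h2⟩
    · rintro rfl
      exact h2 he
    · intro x hx y hy hx' hy'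
      have hx2 := (h3 x hx).resolve_left hx'
      have hy2 := (h3 y hy).resolve_left hy'
      have : x * y = (x * e) * (y * e) := by
        rw [comm_of_sq hE hy he, mul_assoc, ← mul_assoc e e y, hE e he, one_mul]
      rw [this]
      exact E0.mul_mem hx2 hy2
    · intro h
      exact h4 (fun u hu => h u hu e he)
  by_contra hEinf
  have hLinf : Infinite Lam := by
    by_contra hLfin
    rw [not_infinite_iff_finite] at hLfin
    apply hEinf
    refine Finite.of_injective (fun x : E => {E0 : Lam | (x : K) ∈ (E0 : Subgroup K)}) ?_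
    rintro ⟨x, hx⟩ ⟨y, hy⟩ hxy
    have hxy' : ∀ E0 ∈ Lam, (x ∈ E0 ↔ y ∈ E0) := by
      intro E0 hE0
      have := congrArg (fun S : Set Lam => (⟨E0, hE0⟩ : Lam) ∈ S) hxy
      simpa using this
    have h1 : x * y = 1 := by
      by_contra h1
      obtain ⟨E0, hE0, hne⟩ := hex (x * y) (E.mul_mem hx hy) h1
      by_cases hxE : x ∈ E0
      · exact hne (E0.mul_mem hxE ((hxy' E0 hE0).mp hxE))
      · exact hne (hE0.2.2.1 x hx y hy hxE (fun h => hxE ((hxy' E0 hE0).mpr h)))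
    ext
    show x = y
    have h2 : x⁻¹ = y := inv_eq_of_mul_eq_one_right h1
    have h3 : x⁻¹ = x := inv_eq_of_mul_eq_one_right (hE x hx)
    rw [← h2, h3]
  let W : Ultrafilter Lam := Filter.hyperfilter Lam
  let Es : Subgroup K :=
    { carrier := {e | e ∈ E ∧ ∀ᶠ E0 : Lam in (W : Filter Lam), e ∈ (E0 : Subgroup K)}
      one_mem' := ⟨E.one_mem, Filter.Eventually.of_forall (fun E0 => (E0 : Subgroup K).one_mem)⟩
      mul_mem' := by
        rintro x y ⟨hx, hx'⟩ ⟨hy, hy'⟩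
        exact ⟨E.mul_mem hx hy, (hx'.and hy').mono (fun E0 h => (E0 : Subgroup K).mul_mem h.1 h.2)⟩
      inv_mem' := by
        rintro x ⟨hx, hx'⟩
        exact ⟨E.inv_mem hx, hx'.mono (fun E0 h => (E0 : Subgroup K).inv_mem h)⟩ }
  have hEs : ∀ x, x ∈ Es ↔ x ∈ E ∧ ∀ᶠ E0 : Lam in (W : Filter Lam), x ∈ (E0 : Subgroup K) :=
    fun x => Iff.rfl
  have hEsE : Es ≤ E := fun x hx => hx.1
  have hEsmul : ∀ x ∈ E, ∀ y ∈ E, x ∉ Es → y ∉ Es → x * y ∈ Es := by
    intro x hx y hy hx' hy'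
    refine ⟨E.mul_mem hx hy, ?_⟩
    have h1 : ∀ᶠ E0 : Lam in (W : Filter Lam), x ∉ (E0 : Subgroup K) := by
      rw [Ultrafilter.eventually_not]
      exact fun h => hx' ⟨hx, h⟩
    have h2 : ∀ᶠ E0 : Lam in (W : Filter Lam), y ∉ (E0 : Subgroup K) := by
      rw [Ultrafilter.eventually_not]
      exact fun h => hy' ⟨hy, h⟩
    exact (h1.and h2).mono (fun E0 h => E0.2.2.2.1 x hx y hy h.1 h.2)
  have hEsc : Countable Es := by
    have : Set.Countable (E : Set K) := hEc
    exact (this.mono hEsE).to_subtype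
  obtain ⟨A, hA, hAf, hAc⟩ := propP hK hS (E := Es) (U := U) hEsc hUc
    (fun x hx => hE x (hEsE hx)) hU (fun a ha => hn a (hEsE ha))
  have hev1 : ∀ᶠ E0 : Lam in (W : Filter Lam), A ≤ (E0 : Subgroup K) := by
    have h1 : ∀ᶠ E0 : Lam in (W : Filter Lam), ∀ a : A, (a : K) ∈ (E0 : Subgroup K) := by
      rw [Filter.eventually_all]
      intro a
      exact (hA a.2).2
    exact h1.mono (fun E0 h x hx => h ⟨x, hx⟩)
  have hev2 : ∀ᶠ E0 : Lam in (W : Filter Lam), (E0 : Subgroup K) ≠ Es := by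
    have hfin : {E0 : Lam | (E0 : Subgroup K) = Es}.Finite := by
      apply Set.Subsingleton.finite
      intro a ha b hb
      exact Subtype.ext ((ha : (a : Subgroup K) = Es).trans (hb : (b : Subgroup K) = Es).symm)
    exact Filter.compl_mem_hyperfilter_of_finite hfin
  obtain ⟨⟨E0, hE0⟩, hAE0, hne⟩ := (hev1.and hev2).exists
  simp only at hAE0 hne
  -- there is x ∈ Es \ E0
  have hx : ∃ x ∈ Es, x ∉ E0 := by
    by_contra hcon
    push Not at hcon
    have hlt : ∃ y ∈ E0, y ∉ Es := by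
      by_contra hcon2
      push Not at hcon2
      exact hne (le_antisymm hcon2 hcon)
    obtain ⟨y, hy, hy'⟩ := hlt
    have hz : ∃ z ∈ E, z ∉ E0 := by
      by_contra hcon3
      push Not at hcon3
      exact hE0.2.1 (le_antisymm hE0.1 hcon3)
    obtain ⟨z, hz, hz'⟩ := hz
    have h1 : y * z ∈ Es := hEsmul y (hE0.1 hy) z hz hy' (fun h => hz' (hcon z h))
    have h2 : y * z ∈ E0 := hcon _ h1
    apply hz'
    have : z = y⁻¹ * (y * z) := by group
    rw [this]
    exact E0.mul_mem (E0.inv_mem hy) h2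
  obtain ⟨x, hxEs, hxE0⟩ := hx
  apply hE0.2.2.2
  intro u hu e he
  rw [mem_CU] at hu
  have hcE0 : ∀ y ∈ E0, y * u = u * y := hu.2
  have hcEs : ∀ y ∈ Es, y * u = u * y := hAc u hu.1 (fun a ha => hu.2 a (hAE0 ha))
  by_cases heE0 : e ∈ E0
  · exact hcE0 e heE0
  · have h1 : x * e ∈ E0 := hE0.2.2.1 x (hEsE hxEs) e he hxE0 heE0
    have h2 := hcE0 _ h1
    have h3 := hcEs x hxEs
    have h4 : e = x * (x * e) := by rw [← mul_assoc, hE x (hEsE hxEs), one_mul]
    calc e * u = x * ((x * e) * u) := by nth_rewrite 1 [h4]; group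
      _ = x * (u * (x * e)) := by rw [h2]
      _ = (x * u) * (x * e) := by group
      _ = (u * x) * (x * e) := by rw [h3]
      _ = u * (x * (x * e)) := by group
      _ = u * e := by rw [← h4]

end basic

/-- Packet 111 of helper12's plan. -/
theorem star : Star := by
  intro K _ hK hS E U hE hU hn hf
  by_contra hinf
  rw [not_finite_iff_infinite] at hinf
  -- countable infinite subgroup of E
  let f : ℕ ↪ E := Infinite.natEmbedding E
  set E' : Subgroup K := Subgroup.closure (Set.range (fun n => (f n : K))) with hE'def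
  have hE'c : Countable E' := countable_closure (Set.countable_range _)
  have hE'E : E' ≤ E := by
    rw [hE'def, Subgroup.closure_le]
    rintro _ ⟨n, rfl⟩
    exact (f n).2
  have hE'inf : Infinite E' := by
    refine Infinite.of_injective
      (fun n : ℕ => (⟨(f n : K), Subgroup.subset_closure ⟨n, rfl⟩⟩ : E')) ?_
    intro m n hmn
    have : ((f m : E) : K) = ((f n : E) : K) := congrArg (fun z : E' => (z : K)) hmn
    exact f.injective (Subtype.ext this)
  have hch : ∀ e : E', ∃ u : K, u ∈ U ∧ ((e : K) ≠ 1 → (e : K) * u ≠ u * e) := by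
    intro e
    by_cases he1 : (e : K) = 1
    · exact ⟨1, U.one_mem, fun h => absurd he1 h⟩
    · have : ¬ ∀ u ∈ U, (e : K) * u = u * e := fun h => he1 (hf e (hE'E e.2) h)
      push Not at this
      obtain ⟨u, hu, hne⟩ := this
      exact ⟨u, hu, fun _ => hne⟩
  choose v hv hvne using hch
  set U' : Subgroup K := Subgroup.closure
    (Set.range (fun p : E' × E' => (p.1 : K) * v p.2 * (p.1 : K)⁻¹)) with hU'def
  have hU'c : Countable U' := countable_closure (Set.countable_range _)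
  have hU'U : U' ≤ U := by
    rw [hU'def, Subgroup.closure_le]
    rintro _ ⟨⟨x, a⟩, rfl⟩
    exact hn _ (hE'E x.2) _ (hv a)
  have hn1 : Nrm E' U' := by
    intro x hx y hy
    have : U' ≤ U'.comap (MulAut.conj x).toMonoidHom := by
      conv_lhs => rw [hU'def]
      rw [Subgroup.closure_le]
      rintro _ ⟨⟨x', a⟩, rfl⟩
      simp only [Subgroup.coe_comap, Set.mem_preimage, MulEquiv.coe_toMonoidHom,
        MulAut.conj_apply, SetLike.mem_coe]
      have : x * (x' * v a * (x' : K)⁻¹) * x⁻¹ =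
          ((⟨x, hx⟩ * x' : E') : K) * v a * ((⟨x, hx⟩ * x' : E') : K)⁻¹ := by
        simp only [Subgroup.coe_mul]; group
      rw [this]
      exact Subgroup.subset_closure ⟨(⟨x, hx⟩ * x', a), rfl⟩
    simpa using this hy
  have hfin : Finite E' := star_countable hK hS hE'c hU'c (fun x hx => hE x (hE'E hx))
    (IsO.mono hU hU'U) hn1 (by
      intro e he hcomm
      by_contra he1
      apply hvne ⟨e, he⟩ he1
      apply hcomm
      apply Subgroup.subset_closure
      exact ⟨(1, ⟨e, he⟩), by simp⟩)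
  exact not_finite E'

end Pool.Agent.Helper26.StarP
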