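import Pool.Agent.Helper26.Upper

open MeasureTheory Filter Topology Set Real
open scoped ENNReal NNReal

namespace Pool.Agent.Helper26

variable {n : ℕ}

theorem exists_gap (δ : Fin n → ℝ) : ∃ g > 0, ∀ k l, δ k ≠ δ l → g ≤ |δ k - δ l| := by
  classical
  set S : Finset (Fin n × Fin n) := Finset.univ.filter (fun p => δ p.1 ≠ δ p.2) with hS
  by_cases hne : S.Nonempty
  · obtain ⟨p, hp, hmin⟩ := S.exists_min_image (fun p => |δ p.1 - δ p.2|) hne
    refine ⟨|δ p.1 - δ p.2|, ?_, ?_⟩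
    · rw [gt_iff_lt, abs_pos, sub_ne_zero]
      simp only [hS, Finset.mem_filter] at hp
      exact hp.2
    · intro k l hkl
      exact hmin (k, l) (by simp [hS, hkl])
  · refine ⟨1, one_pos, ?_⟩
    intro k l hkl
    exact absurd ⟨(k, l), by simp [hS, hkl]⟩ hne

theorem exists_flatten (δ : Fin n → ℝ) {g t : ℝ} (hg : ∀ k l, δ k ≠ δ l → g ≤ |δ k - δ l|)
    (ht : 0 ≤ t) (htg : 2 * t < g) :
    ∃ ψ : ℝ → ℝ, LipschitzWith (Real.toNNReal (g / (g - 2 * t))) ψ ∧
      ∀ k s, |s - δ k| ≤ t → ψ s = δ k := by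
  classical
  set S : Set ℝ := {s | ∃ k, |s - δ k| ≤ t} with hS
  set f : ℝ → ℝ := fun s => if h : ∃ k, |s - δ k| ≤ t then δ h.choose else 0 with hf
  have hg0 : 0 < g - 2 * t := by linarith
  have hval : ∀ k s, |s - δ k| ≤ t → f s = δ k := by
    intro k s hs
    have h : ∃ k, |s - δ k| ≤ t := ⟨k, hs⟩
    simp only [hf, dif_pos h]
    by_contra hne
    have h1 := hg _ _ hne
    have h2 := h.choose_spec
    have h3 : |δ h.choose - δ k| ≤ |s - δ k| + |s - δ h.choose| := by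
      have : δ h.choose - δ k = (s - δ k) - (s - δ h.choose) := by ring
      rw [this]
      exact abs_sub _ _
    linarith
  have hL : LipschitzOnWith (Real.toNNReal (g / (g - 2 * t))) f S := by
    apply LipschitzOnWith.of_dist_le_mul
    rintro x ⟨k, hk⟩ y ⟨l, hl⟩
    rw [hval k x hk, hval l y hl, Real.coe_toNNReal _ (by
      apply div_nonneg _ hg0.le
      linarith), Real.dist_eq, Real.dist_eq]
    by_cases hkl : δ k = δ l
    · rw [hkl, sub_self, abs_zero]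
      apply mul_nonneg _ (abs_nonneg _)
      apply div_nonneg _ hg0.le
      linarith
    · have h1 := hg k l hkl
      have h2 : |δ k - δ l| ≤ |x - y| + (|x - δ k| + |y - δ l|) := by
        have : δ k - δ l = (x - y) - ((x - δ k) - (y - δ l)) := by ring
        rw [this]
        refine (abs_sub _ _).trans ?_
        have := abs_sub (x - δ k) (y - δ l)
        linarith
      have h3 : |δ k - δ l| - 2 * t ≤ |x - y| := by linarith
      rw [div_mul_eq_mul_div, le_div_iff₀ hg0]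
      nlinarith
  obtain ⟨ψ, hψ, he⟩ := hL.extend_real
  refine ⟨ψ, hψ, ?_⟩
  intro k s hs
  rw [← he ⟨k, hs⟩]
  exact hval k s hs

/-- The capacity. -/
noncomputable def CapC (E : Fin n → Set ℂ) (δ : Fin n → ℝ) : ℝ≥0∞ :=
  ⨅ (u : ℂ → ℝ) (_ : Adm E δ u), Dir u

theorem tcap_pos_nonempty {E : Set ℂ} (h : 0 < tcap E) : E.Nonempty := by
  by_contra hE
  rw [Set.not_nonempty_iff_eq_empty] at hE
  subst hE
  have h1 := tcap_le (∅ : Set ℂ) 0
  have h2 : tdm (∅ : Set ℂ) 0 = 0 := by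
    unfold tdm
    have : IsEmpty (Fin (0 + 2) → (∅ : Set ℂ)) := by
      constructor
      intro f
      exact (f 0).2
    exact Real.iSup_of_isEmpty _
  linarith

theorem le_inv_form {A X ρ L : ℝ} (hL : 0 < L) (hX : X = A * L - ρ) (hX0 : 0 < X) :
    A / L + ρ / L ^ 2 ≤ A ^ 2 / X := by
  rw [le_div_iff₀ hX0, hX]
  have h1 : (A / L + ρ / L ^ 2) * (A * L - ρ) = A ^ 2 - (ρ / L) ^ 2 := by
    field_simp
    ring
  rw [h1]
  nlinarith [sq_nonneg (ρ / L)]

section main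

variable (z : Fin n → ℂ) (δ μ ν : Fin n → ℝ) (E : Fin n → ℝ → Set ℂ) (D : ℝ)

/-- The standing hypotheses. -/
structure Hyp : Prop where
  inj : Function.Injective z
  nonconst : ∃ k l, δ k ≠ δ l
  mu_pos : ∀ k, 0 < μ k
  nu_pos : ∀ k, 0 < ν k
  closed : ∀ k r, IsClosed (E k r)
  shrink : ∀ k, ∀ ε > 0, ∀ᶠ r in 𝓝[>] (0:ℝ), E k r ⊆ Metric.ball (z k) ε
  cap : ∀ k, Tendsto (fun r : ℝ => tcap (E k r) / (μ k * r ^ (ν k))) (𝓝[>] 0) (𝓝 1)
  hD : D = (∑ k, δ k / ν k) / (∑ k, 1 / ν k)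

variable {z δ μ ν E D}

theorem Hyp.tendsto_L : Tendsto (fun r : ℝ => -Real.log r) (𝓝[>] 0) atTop :=
  tendsto_neg_atBot_atTop.comp Real.tendsto_log_nhdsGT_zero

theorem Hyp.cap_pos (h : Hyp z δ μ ν E D) : ∀ᶠ r in 𝓝[>] (0:ℝ), ∀ k, 0 < tcap (E k r) := by
  rw [eventually_all]
  intro k
  have h1 := (h.cap k).eventually (lt_mem_nhds (show (0 : ℝ) < 1 from one_pos))
  filter_upwards [h1, self_mem_nhdsWithin] with r hr hr0
  have hr0' : (0 : ℝ) < r := hr0
  have h2 : 0 < μ k * r ^ (ν k) := mul_pos (h.mu_pos k) (Real.rpow_pos_of_pos hr0' _)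
  by_contra hc
  push Not at hc
  have := div_nonpos_of_nonpos_of_nonneg hc h2.le
  linarith

theorem Hyp.log_cap (h : Hyp z δ μ ν E D) (k : Fin n) :
    Tendsto (fun r : ℝ => Real.log (tcap (E k r)) - Real.log (μ k) - ν k * Real.log r)
      (𝓝[>] 0) (𝓝 0) := by
  have h1 := (Real.continuousAt_log one_ne_zero).tendsto.comp (h.cap k)
  rw [Real.log_one] at h1
  refine h1.congr' ?_
  filter_upwards [h.cap_pos, self_mem_nhdsWithin] with r hr hr0
  have hr0' : (0 : ℝ) < r := hr0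
  simp only [Function.comp_apply]
  rw [Real.log_div (hr k).ne' (mul_pos (h.mu_pos k) (Real.rpow_pos_of_pos hr0' _)).ne',
    Real.log_mul (h.mu_pos k).ne' (Real.rpow_pos_of_pos hr0' _).ne', Real.log_rpow hr0']
  ring

theorem Hyp.eventually_good (h : Hyp z δ μ ν E D) {ε : ℝ} (hε : 0 < ε) :
    ∀ᶠ r in 𝓝[>] (0:ℝ), (∀ k, IsCompact (E k r)) ∧ (∀ k, (E k r).Nonempty) ∧
      (∀ k, 0 < tcap (E k r)) ∧ (∀ k, E k r ⊆ Metric.ball (z k) ε) := by
  have h1 : ∀ᶠ r in 𝓝[>] (0:ℝ), ∀ k, E k r ⊆ Metric.ball (z k) ε := by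
    rw [eventually_all]
    intro k
    exact h.shrink k ε hε
  filter_upwards [h1, h.cap_pos] with r hr1 hr2
  refine ⟨fun k => ?_, fun k => tcap_pos_nonempty (hr2 k), hr2, hr1⟩
  exact (Metric.isBounded_ball.subset (hr1 k)).isCompact_closure.of_isClosed_subset
    (h.closed k r) subset_closure

/-- The charges. -/
noncomputable def qq (δ ν : Fin n → ℝ) (D : ℝ) (k : Fin n) : ℝ := (δ k - D) / ν k

theorem Hyp.sum_inv_pos (h : Hyp z δ μ ν E D) : 0 < ∑ k, 1 / ν k := by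
  obtain ⟨k, l, hkl⟩ := h.nonconst
  apply Finset.sum_pos (fun k _ => one_div_pos.mpr (h.nu_pos k)) ⟨k, Finset.mem_univ k⟩

theorem Hyp.sum_qq (h : Hyp z δ μ ν E D) : ∑ k, qq δ ν D k = 0 := by
  have h1 := h.sum_inv_pos
  have h2 : ∑ k, qq δ ν D k = ∑ k, δ k / ν k - D * ∑ k, 1 / ν k := by
    rw [Finset.mul_sum, ← Finset.sum_sub_distrib]
    apply Finset.sum_congr rfl
    intro k _
    unfold qq
    ring
  rw [h2, h.hD]
  field_simp
  ring

/-- The leading coefficient (without `2π`). -/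
noncomputable def AA (δ ν : Fin n → ℝ) (D : ℝ) : ℝ := ∑ k, (δ k - D) ^ 2 / ν k

theorem Hyp.AA_pos (h : Hyp z δ μ ν E D) : 0 < AA δ ν D := by
  obtain ⟨k, l, hkl⟩ := h.nonconst
  have h1 : ∃ j, δ j - D ≠ 0 := by
    by_contra hc
    push Not at hc
    exact hkl (by linarith [hc k, hc l])
  obtain ⟨j, hj⟩ := h1
  apply Finset.sum_pos' (fun k _ => div_nonneg (sq_nonneg _) (h.nu_pos k).le)
  refine ⟨j, Finset.mem_univ j, ?_⟩
  have := h.nu_pos j
  positivity

theorem Hyp.sum_qq_delta (h : Hyp z δ μ ν E D) : ∑ k, qq δ ν D k * δ k = AA δ ν D := by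
  have h1 : ∑ k, qq δ ν D k * δ k = ∑ k, qq δ ν D k * (δ k - D) + D * ∑ k, qq δ ν D k := by
    rw [Finset.mul_sum, ← Finset.sum_add_distrib]
    apply Finset.sum_congr rfl
    intro k _
    ring
  rw [h1, h.sum_qq, mul_zero, add_zero]
  unfold AA qq
  apply Finset.sum_congr rfl
  intro k _
  ring

/-- The second coefficient (without `2π`). -/
noncomputable def RR (z : Fin n → ℂ) (δ μ ν : Fin n → ℝ) (D : ℝ) : ℝ :=
  ∑ k, (δ k - D) ^ 2 / (ν k) ^ 2 * Real.log (μ k)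
        + ∑ k, ∑ l ∈ Finset.univ.erase k,
            (δ k - D) * (δ l - D) / (ν k * ν l) * Real.log ‖z k - z l‖

theorem RR_eq (h : Hyp z δ μ ν E D) : RR z δ μ ν D =
    ∑ k, qq δ ν D k ^ 2 * Real.log (μ k) +
      ∑ k, ∑ l ∈ Finset.univ.erase k, qq δ ν D k * qq δ ν D l * Real.log ‖z k - z l‖ := by
  unfold RR qq
  congr 1
  · apply Finset.sum_congr rfl
    intro k _
    rw [div_pow]
  · apply Finset.sum_congr rfl
    intro k _
    apply Finset.sum_congr rfl
    intro l _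
    have := (h.nu_pos k).ne'
    have := (h.nu_pos l).ne'
    field_simp

theorem Hyp.tendsto_EE (h : Hyp z δ μ ν E D) :
    Tendsto (fun r : ℝ => EE z (fun k => Real.log (tcap (E k r))) (qq δ ν D)
      - (AA δ ν D * (-Real.log r) - RR z δ μ ν D)) (𝓝[>] 0) (𝓝 0) := by
  have h1 : Tendsto (fun r : ℝ => ∑ k, qq δ ν D k ^ 2 *
      (-(Real.log (tcap (E k r)) - Real.log (μ k) - ν k * Real.log r))) (𝓝[>] 0)
      (𝓝 (∑ k, qq δ ν D k ^ 2 * (-0))) := by
    apply tendsto_finsetSum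
    intro k _
    exact ((h.log_cap k).neg).const_mul _
  simp only [neg_zero, mul_zero, Finset.sum_const_zero] at h1
  refine h1.congr ?_
  intro r
  rw [RR_eq h]
  unfold EE
  have h2 : AA δ ν D = ∑ k, qq δ ν D k ^ 2 * ν k := by
    unfold AA qq
    apply Finset.sum_congr rfl
    intro k _
    have := (h.nu_pos k).ne'
    field_simp
  rw [h2, Finset.sum_mul]
  have h3 : ∑ k, qq δ ν D k ^ 2 * -(Real.log (tcap (E k r)) - Real.log (μ k) - ν k * Real.log r) =
      ∑ k, qq δ ν D k ^ 2 * -Real.log (tcap (E k r)) + ∑ k, qq δ ν D k ^ 2 * Real.log (μ k) -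
      ∑ k, qq δ ν D k ^ 2 * ν k * -Real.log r := by
    rw [← Finset.sum_add_distrib, ← Finset.sum_sub_distrib]
    apply Finset.sum_congr rfl
    intro k _
    ring
  rw [h3]
  ring

/-- **Lower asymptotics.** -/
theorem Hyp.lower (h : Hyp z δ μ ν E D) {s : ℝ} (hs : 0 < s) :
    ∀ᶠ r in 𝓝[>] (0:ℝ), ENNReal.ofReal (2 * π * (AA δ ν D / (-Real.log r)
      + (RR z δ μ ν D - s) / (-Real.log r) ^ 2)) ≤ CapC (fun k => E k r) δ := by
  obtain ⟨d, hd, hsep⟩ := exists_sep h.inj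
  set A := AA δ ν D with hA
  set R := RR z δ μ ν D with hR
  set q := qq δ ν D with hq
  set Q : ℝ := ∑ k, |q k| with hQ
  have hQ0 : 0 ≤ Q := Finset.sum_nonneg (fun k _ => abs_nonneg _)
  set τ : ℝ := s / (2 * (Q ^ 2 + 1)) with hτdef
  have hτ : 0 < τ := by positivity
  have hτQ : τ * Q ^ 2 ≤ s / 2 := by
    rw [hτdef, div_mul_eq_mul_div, div_le_div_iff₀ (by positivity) (by norm_num)]
    nlinarith [sq_nonneg Q]
  set ε : ℝ := min (d / 4) (τ * d / 4) with hε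
  have hε0 : 0 < ε := by positivity
  have hε1 : 4 * ε ≤ d := by
    have : ε ≤ d / 4 := min_le_left _ _
    linarith
  have hε2 : 4 * ε / d ≤ τ := by
    have : ε ≤ τ * d / 4 := min_le_right _ _
    rw [div_le_iff₀ hd]
    linarith
  have hApos := h.AA_pos
  have e1 := h.tendsto_EE.eventually (gt_mem_nhds (half_pos hs))
  have e2 : ∀ᶠ r in 𝓝[>] (0:ℝ), 0 < A * (-Real.log r) - (R - s) := by
    have h1 : Tendsto (fun r : ℝ => A * (-Real.log r)) (𝓝[>] 0) atTop :=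
      Tendsto.const_mul_atTop hApos Hyp.tendsto_L
    filter_upwards [h1.eventually_gt_atTop (R - s)] with r hr
    linarith
  have e3 : ∀ᶠ r in 𝓝[>] (0:ℝ), 0 < -Real.log r := Hyp.tendsto_L.eventually_gt_atTop 0
  filter_upwards [e1, e2, e3, h.eventually_good hε0] with r hr1 hr2 hr3 hr4
  obtain ⟨g1, g2, g3, g4⟩ := hr4
  unfold CapC
  apply le_iInf
  intro u
  apply le_iInf
  intro hu
  have hmain := lower_bound hd hsep hτ hε1 hε2 (fun k => E k r) g1 g2 g3 g4 h.sum_qq hu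
  rw [h.sum_qq_delta] at hmain
  set X : ℝ := A * (-Real.log r) - (R - s) with hX
  have h1 : EE z (fun k => Real.log (tcap (E k r))) (qq δ ν D) + τ * (∑ k, |qq δ ν D k|) ^ 2
      ≤ X := by
    simp only [← hq, ← hQ] at hr1 ⊢
    linarith
  have h2 : ENNReal.ofReal ((2 * π * A) ^ 2) ≤ Dir u * ENNReal.ofReal (2 * π * X) := by
    refine hmain.trans ?_
    gcongr
  have hpi := Real.pi_pos
  have h3 := ENNReal.div_le_of_le_mul h2
  rw [← ENNReal.ofReal_div_of_pos (by positivity)] at h3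
  refine le_trans (ENNReal.ofReal_le_ofReal ?_) h3
  have h4 := le_inv_form hr3 hX hr2
  have h5 : (2 * π * A) ^ 2 / (2 * π * X) = 2 * π * (A ^ 2 / X) := by
    field_simp
  rw [h5]
  gcongr

end main

end Pool.Agent.Helper26
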