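import Pool.Agent.Helper26.Asym

open MeasureTheory Filter Topology Set Real
open scoped ENNReal NNReal

namespace Pool.Agent.Helper26

variable {n : ℕ} {z : Fin n → ℂ} {δ μ ν : Fin n → ℝ} {E : Fin n → ℝ → Set ℂ} {D : ℝ}

/-- Auxiliary quantity `b_k`. -/
noncomputable def bb (z : Fin n → ℂ) (δ μ ν : Fin n → ℝ) (D : ℝ) (k : Fin n) : ℝ :=
  qq δ ν D k * Real.log (μ k) + ∑ l ∈ Finset.univ.erase k, qq δ ν D l * Real.log ‖z k - z l‖

/-- The correction of the constant. -/
noncomputable def kk (z : Fin n → ℂ) (δ μ ν : Fin n → ℝ) (D : ℝ) : ℝ :=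
  (∑ k, bb z δ μ ν D k / ν k) / ∑ k, 1 / ν k

/-- Second order charges. -/
noncomputable def yy (z : Fin n → ℂ) (δ μ ν : Fin n → ℝ) (D : ℝ) (k : Fin n) : ℝ :=
  (bb z δ μ ν D k - kk z δ μ ν D) / ν k

theorem Hyp.sum_yy (h : Hyp z δ μ ν E D) : ∑ k, yy z δ μ ν D k = 0 := by
  have h1 := h.sum_inv_pos
  have h2 : ∑ k, yy z δ μ ν D k = ∑ k, bb z δ μ ν D k / ν k -
      kk z δ μ ν D * ∑ k, 1 / ν k := by
    rw [Finset.mul_sum, ← Finset.sum_sub_distrib]
    apply Finset.sum_congr rfl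
    intro k _
    unfold yy
    ring
  rw [h2]
  unfold kk
  field_simp
  ring

theorem Hyp.sum_qq_bb (h : Hyp z δ μ ν E D) :
    ∑ k, qq δ ν D k * bb z δ μ ν D k = RR z δ μ ν D := by
  rw [RR_eq h, ← Finset.sum_add_distrib]
  apply Finset.sum_congr rfl
  intro k _
  unfold bb
  rw [mul_add, Finset.mul_sum]
  congr 1
  · ring
  · apply Finset.sum_congr rfl
    intro l _
    ring

/-- The charges used in the trial function. -/
noncomputable def mm (z : Fin n → ℂ) (δ μ ν : Fin n → ℝ) (D : ℝ) (r : ℝ) (k : Fin n) : ℝ :=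
  (qq δ ν D k + yy z δ μ ν D k / (-Real.log r)) / (-Real.log r)

theorem Hyp.sum_mm (h : Hyp z δ μ ν E D) (r : ℝ) : ∑ k, mm z δ μ ν D r k = 0 := by
  unfold mm
  rw [← Finset.sum_div, Finset.sum_add_distrib, ← Finset.sum_div, h.sum_qq, h.sum_yy]
  simp

theorem tendsto_corr (y : ℝ) (q : ℝ) :
    Tendsto (fun r : ℝ => q + y / (-Real.log r)) (𝓝[>] 0) (𝓝 q) := by
  have := (Tendsto.div_atTop (tendsto_const_nhds (x := y)) Hyp.tendsto_L).const_add q
  simpa using this

theorem Hyp.tendsto_sum_abs (_h : Hyp z δ μ ν E D) :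
    Tendsto (fun r : ℝ => (∑ k, |mm z δ μ ν D r k|) * (-Real.log r)) (𝓝[>] 0)
      (𝓝 (∑ k, |qq δ ν D k|)) := by
  have h1 : Tendsto (fun r : ℝ => ∑ k, |qq δ ν D k + yy z δ μ ν D k / (-Real.log r)|) (𝓝[>] 0)
      (𝓝 (∑ k, |qq δ ν D k|)) := by
    apply tendsto_finsetSum
    intro k _
    exact (tendsto_corr _ _).abs
  refine h1.congr' ?_
  filter_upwards [Hyp.tendsto_L.eventually_gt_atTop 0] with r hr
  rw [Finset.sum_mul]
  apply Finset.sum_congr rfl
  intro k _
  unfold mm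
  rw [abs_div, abs_of_pos hr, div_mul_cancel₀ _ hr.ne']


/-- Values on the plates. -/
theorem Hyp.tendsto_values (h : Hyp z δ μ ν E D) (k : Fin n) :
    Tendsto (fun r : ℝ => (-(mm z δ μ ν D r k * Real.log (tcap (E k r)))
        - ∑ l ∈ Finset.univ.erase k, mm z δ μ ν D r l * Real.log ‖z k - z l‖
        + (D + kk z δ μ ν D / (-Real.log r)) - δ k) * (-Real.log r)) (𝓝[>] 0) (𝓝 0) := by
  set q := qq δ ν D with hq
  set y := yy z δ μ ν D with hy
  have hν := (h.nu_pos k).ne'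
  have h1 : Tendsto (fun r : ℝ => y k * ν k -
      (q k + y k / (-Real.log r)) * (Real.log (μ k) +
        (Real.log (tcap (E k r)) - Real.log (μ k) - ν k * Real.log r))
      - ∑ l ∈ Finset.univ.erase k, (q l + y l / (-Real.log r)) * Real.log ‖z k - z l‖
      + kk z δ μ ν D) (𝓝[>] 0)
      (𝓝 (y k * ν k - q k * (Real.log (μ k) + 0)
        - ∑ l ∈ Finset.univ.erase k, q l * Real.log ‖z k - z l‖ + kk z δ μ ν D)) := by
    apply Tendsto.add_const
    apply Tendsto.sub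
    · apply Tendsto.const_sub
      apply Tendsto.mul (tendsto_corr _ _)
      exact (h.log_cap k).const_add _
    · apply tendsto_finsetSum
      intro l _
      exact (tendsto_corr _ _).mul_const _
  have h2 : y k * ν k - q k * (Real.log (μ k) + 0)
        - ∑ l ∈ Finset.univ.erase k, q l * Real.log ‖z k - z l‖ + kk z δ μ ν D = 0 := by
    have h3 : y k * ν k = bb z δ μ ν D k - kk z δ μ ν D := by
      rw [hy]
      unfold yy
      field_simp
    rw [h3]
    unfold bb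
    simp only [← hq]
    ring
  rw [h2] at h1
  refine h1.congr' ?_
  filter_upwards [Hyp.tendsto_L.eventually_gt_atTop 0] with r hr
  have hL : -Real.log r ≠ 0 := hr.ne'
  have hL' : Real.log r ≠ 0 := by
    intro h0
    rw [h0] at hr
    simp at hr
  have h3 : ∑ l ∈ Finset.univ.erase k, mm z δ μ ν D r l * Real.log ‖z k - z l‖ =
      (∑ l ∈ Finset.univ.erase k, (q l + y l / (-Real.log r)) * Real.log ‖z k - z l‖) /
      (-Real.log r) := by
    rw [Finset.sum_div]
    apply Finset.sum_congr rfl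
    intro l _
    unfold mm
    ring
  rw [h3]
  have h4 : δ k - D = q k * ν k := by
    rw [hq]
    unfold qq
    field_simp
  have h5 : δ k = D + q k * ν k := by linarith
  unfold mm
  simp only [← hq, ← hy]
  rw [h5]
  set S := ∑ l ∈ Finset.univ.erase k, (q l + y l / (-Real.log r)) * Real.log ‖z k - z l‖
  field_simp
  ring

/-- Energy of the charges. -/
theorem Hyp.tendsto_energy (h : Hyp z δ μ ν E D) :
    Tendsto (fun r : ℝ => EE z (fun k => Real.log (tcap (E k r))) (mm z δ μ ν D r)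
        * (-Real.log r) ^ 2 - AA δ ν D * (-Real.log r)) (𝓝[>] 0) (𝓝 (RR z δ μ ν D)) := by
  set q := qq δ ν D with hq
  set y := yy z δ μ ν D with hy
  have h1 : Tendsto (fun r : ℝ => ∑ k, ((2 * q k * y k + y k ^ 2 / (-Real.log r)) * ν k -
      (q k + y k / (-Real.log r)) ^ 2 * (Real.log (μ k) +
        (Real.log (tcap (E k r)) - Real.log (μ k) - ν k * Real.log r)))
      - ∑ k, ∑ l ∈ Finset.univ.erase k, (q k + y k / (-Real.log r)) *
        (q l + y l / (-Real.log r)) * Real.log ‖z k - z l‖) (𝓝[>] 0)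
      (𝓝 (∑ k, ((2 * q k * y k) * ν k - q k ^ 2 * (Real.log (μ k) + 0))
        - ∑ k, ∑ l ∈ Finset.univ.erase k, q k * q l * Real.log ‖z k - z l‖)) := by
    apply Tendsto.sub
    · apply tendsto_finsetSum
      intro k _
      apply Tendsto.sub
      · exact (tendsto_corr _ _).mul_const _
      · apply Tendsto.mul ((tendsto_corr _ _).pow 2)
        exact (h.log_cap k).const_add _
    · apply tendsto_finsetSum
      intro k _
      apply tendsto_finsetSum
      intro l _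
      exact ((tendsto_corr _ _).mul (tendsto_corr _ _)).mul_const _
  have h2 : ∑ k, ((2 * q k * y k) * ν k - q k ^ 2 * (Real.log (μ k) + 0))
        - ∑ k, ∑ l ∈ Finset.univ.erase k, q k * q l * Real.log ‖z k - z l‖ = RR z δ μ ν D := by
    have h3 : ∑ k, (2 * q k * y k) * ν k = 2 * RR z δ μ ν D := by
      have h4 : ∑ k, (2 * q k * y k) * ν k =
          2 * ∑ k, q k * bb z δ μ ν D k - 2 * kk z δ μ ν D * ∑ k, q k := by
        rw [Finset.mul_sum, Finset.mul_sum, ← Finset.sum_sub_distrib]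
        apply Finset.sum_congr rfl
        intro k _
        have hν := (h.nu_pos k).ne'
        rw [hy]
        unfold yy
        field_simp
      rw [h4, h.sum_qq_bb, h.sum_qq]
      ring
    rw [Finset.sum_sub_distrib, h3]
    have h5 := RR_eq h
    simp only [← hq] at h5
    simp only [add_zero]
    linarith
  rw [h2] at h1
  refine h1.congr' ?_
  filter_upwards [Hyp.tendsto_L.eventually_gt_atTop 0] with r hr
  have hL : -Real.log r ≠ 0 := hr.ne'
  have hL' : Real.log r ≠ 0 := by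
    intro h0
    rw [h0] at hr
    simp at hr
  unfold EE
  rw [sub_mul, sub_right_comm]
  congr 1
  · rw [Finset.sum_mul]
    have h3 : AA δ ν D = ∑ k, q k ^ 2 * ν k := by
      unfold AA
      rw [hq]
      unfold qq
      apply Finset.sum_congr rfl
      intro k _
      have := (h.nu_pos k).ne'
      field_simp
    rw [h3, Finset.sum_mul, ← Finset.sum_sub_distrib]
    apply Finset.sum_congr rfl
    intro k _
    unfold mm
    simp only [← hq, ← hy]
    field_simp
    ring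
  · rw [Finset.sum_mul]
    apply Finset.sum_congr rfl
    intro k _
    rw [Finset.sum_mul]
    apply Finset.sum_congr rfl
    intro l _
    unfold mm
    simp only [← hq, ← hy]
    field_simp


theorem dir_add_const (u : ℂ → ℝ) (c : ℝ) : Dir (fun z => u z + c) = Dir u := by
  unfold Dir
  simp_rw [fderiv_add_const]

theorem exists_radii (n : ℕ) {d τ : ℝ} (hd : 0 < d) (hτ : 0 < τ) :
    ∃ r ε : ℝ, 0 < r ∧ 0 < ε ∧ 4 * ε ≤ d ∧ 4 * ε / d ≤ τ ∧ 4 * r ≤ d ∧ 2 * ε ≤ r ∧
      Real.log (2 * ε) + τ < Real.log (r / 2) ∧ n * (4 * r ^ 2 / d ^ 2) ≤ 2 * τ := by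
  have h1 : Tendsto (fun r : ℝ => (n : ℝ) * (4 * r ^ 2 / d ^ 2)) (𝓝[>] 0) (𝓝 0) := by
    have : Tendsto (fun r : ℝ => (n : ℝ) * (4 * r ^ 2 / d ^ 2)) (𝓝 0)
        (𝓝 ((n : ℝ) * (4 * 0 ^ 2 / d ^ 2))) := by
      apply Continuous.tendsto
      fun_prop
    simp only [ne_eq, OfNat.ofNat_ne_zero, not_false_eq_true, zero_pow, mul_zero, zero_div] at this
    exact this.mono_left nhdsWithin_le_nhds
  have h2 := h1.eventually (gt_mem_nhds (show (0 : ℝ) < 2 * τ by positivity))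
  obtain ⟨r, hr1, hr2⟩ := (h2.and (Ioo_mem_nhdsGT (show (0 : ℝ) < d / 4 by positivity))).exists
  have hr0 : 0 < r := hr2.1
  have hrd : r < d / 4 := hr2.2
  have hexp : Real.exp (-τ) ≤ 1 := Real.exp_le_one_iff.mpr (by linarith)
  have hexp0 := Real.exp_pos (-τ)
  refine ⟨r, min (min (d / 4) (τ * d / 4)) (r * Real.exp (-τ) / 8), hr0, by positivity, ?_, ?_,
    by linarith, ?_, ?_, hr1.le⟩
  · have : min (min (d / 4) (τ * d / 4)) (r * Real.exp (-τ) / 8) ≤ d / 4 :=
      (min_le_left _ _).trans (min_le_left _ _)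
    linarith
  · have : min (min (d / 4) (τ * d / 4)) (r * Real.exp (-τ) / 8) ≤ τ * d / 4 :=
      (min_le_left _ _).trans (min_le_right _ _)
    rw [div_le_iff₀ hd]
    linarith
  · have h3 : min (min (d / 4) (τ * d / 4)) (r * Real.exp (-τ) / 8) ≤ r * Real.exp (-τ) / 8 :=
      min_le_right _ _
    have h4 : r * Real.exp (-τ) ≤ r * 1 := by gcongr
    linarith
  · have h3 : min (min (d / 4) (τ * d / 4)) (r * Real.exp (-τ) / 8) ≤ r * Real.exp (-τ) / 8 :=
      min_le_right _ _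
    have h4 : Real.log (2 * min (min (d / 4) (τ * d / 4)) (r * Real.exp (-τ) / 8)) ≤
        Real.log ((r / 4) * Real.exp (-τ)) := by
      apply Real.log_le_log (by positivity)
      linarith
    rw [Real.log_mul (by positivity) hexp0.ne', Real.log_exp] at h4
    have h5 : Real.log (r / 4) < Real.log (r / 2) := by
      apply Real.log_lt_log (by positivity)
      linarith
    linarith

/-- **Upper asymptotics.** -/
theorem Hyp.upper (h : Hyp z δ μ ν E D) {s : ℝ} (hs : 0 < s) :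
    ∀ᶠ r in 𝓝[>] (0:ℝ), CapC (fun k => E k r) δ ≤ ENNReal.ofReal (2 * π *
      (AA δ ν D / (-Real.log r) + (RR z δ μ ν D + s) / (-Real.log r) ^ 2)) := by
  obtain ⟨d, hd, hsep⟩ := exists_sep h.inj
  obtain ⟨g, hg, hgap⟩ := exists_gap δ
  set A := AA δ ν D with hA
  set R := RR z δ μ ν D with hR
  set q := qq δ ν D with hq
  set Q : ℝ := ∑ k, |q k| with hQ
  have hQ0 : 0 ≤ Q := Finset.sum_nonneg (fun k _ => abs_nonneg _)
  have hApos : 0 < A := h.AA_pos
  -- choice of τ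
  obtain ⟨τ, hτ, hτs⟩ : ∃ τ : ℝ, 0 < τ ∧
      4 * (τ * (Q + 2)) / g * A + (τ + 2 * τ * (Q + 1) ^ 2) < s := by
    have h1 : Tendsto (fun τ : ℝ => 4 * (τ * (Q + 2)) / g * A + (τ + 2 * τ * (Q + 1) ^ 2))
        (𝓝[>] 0) (𝓝 0) := by
      have : Tendsto (fun τ : ℝ => 4 * (τ * (Q + 2)) / g * A + (τ + 2 * τ * (Q + 1) ^ 2))
          (𝓝 0) (𝓝 (4 * (0 * (Q + 2)) / g * A + (0 + 2 * 0 * (Q + 1) ^ 2))) := by
        apply Continuous.tendsto
        fun_prop
      simp only [zero_mul, mul_zero, zero_div, add_zero] at this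
      exact this.mono_left nhdsWithin_le_nhds
    obtain ⟨τ, h2, h3⟩ := ((h1.eventually (gt_mem_nhds hs)).and self_mem_nhdsWithin).exists
    exact ⟨τ, h3, h2⟩
  obtain ⟨r₀, ε, hr₀, hε0, hε1, hε2, hr1, hεr, hlog, harea⟩ := exists_radii n hd hτ
  set t₁ : ℝ := τ * (Q + 2) with ht₁
  have ht₁0 : 0 < t₁ := by positivity
  set s₁ : ℝ := τ + 2 * τ * (Q + 1) ^ 2 with hs₁
  -- the limiting expression
  have hΛ : Tendsto (fun r : ℝ => g / (g - 2 * (t₁ / (-Real.log r)))) (𝓝[>] 0) (𝓝 1) := by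
    have h1 : Tendsto (fun r : ℝ => g - 2 * (t₁ / (-Real.log r))) (𝓝[>] 0) (𝓝 (g - 2 * 0)) :=
      ((Tendsto.div_atTop tendsto_const_nhds Hyp.tendsto_L).const_mul 2).const_sub g
    rw [mul_zero, sub_zero] at h1
    have h2 := (tendsto_const_nhds (x := g)).div h1 hg.ne'
    rwa [div_self hg.ne'] at h2
  have hΛL : Tendsto (fun r : ℝ => (g / (g - 2 * (t₁ / (-Real.log r))) - 1) * (-Real.log r))
      (𝓝[>] 0) (𝓝 (2 * t₁ / g)) := by
    have h1 : Tendsto (fun r : ℝ => g - 2 * (t₁ / (-Real.log r))) (𝓝[>] 0) (𝓝 (g - 2 * 0)) :=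
      ((Tendsto.div_atTop tendsto_const_nhds Hyp.tendsto_L).const_mul 2).const_sub g
    rw [mul_zero, sub_zero] at h1
    have h2 := (tendsto_const_nhds (x := 2 * t₁)).div h1 hg.ne'
    refine h2.congr' ?_
    filter_upwards [h1.eventually (lt_mem_nhds hg), Hyp.tendsto_L.eventually_gt_atTop 0]
      with r hr1 hr2
    have e1 : g - 2 * (t₁ / (-Real.log r)) ≠ 0 := hr1.ne'
    have e2 : -Real.log r ≠ 0 := hr2.ne'
    have e3 : g / (g - 2 * (t₁ / (-Real.log r))) - 1 =
        (2 * (t₁ / (-Real.log r))) / (g - 2 * (t₁ / (-Real.log r))) := by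
      rw [div_sub_one e1]
      congr 1
      ring
    simp only [Pi.div_apply]
    rw [e3, div_mul_eq_mul_div]
    congr 1
    rw [mul_assoc, div_mul_cancel₀ _ e2]
  have hfin : Tendsto (fun r : ℝ => (g / (g - 2 * (t₁ / (-Real.log r))) + 1) *
      ((g / (g - 2 * (t₁ / (-Real.log r))) - 1) * (-Real.log r)) * A +
      (g / (g - 2 * (t₁ / (-Real.log r)))) ^ 2 * (R + s₁)) (𝓝[>] 0)
      (𝓝 ((1 + 1) * (2 * t₁ / g) * A + 1 ^ 2 * (R + s₁))) :=
    (((hΛ.add_const 1).mul hΛL).mul_const A).add ((hΛ.pow 2).mul_const _)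
  have hlim : (1 + 1) * (2 * t₁ / g) * A + 1 ^ 2 * (R + s₁) < R + s := by
    have : (1 + 1) * (2 * t₁ / g) * A + 1 ^ 2 * (R + s₁) =
        4 * (τ * (Q + 2)) / g * A + (τ + 2 * τ * (Q + 1) ^ 2) + R := by
      rw [ht₁, hs₁]
      ring
    linarith
  have e1 := hfin.eventually (gt_mem_nhds hlim)
  have e2 : ∀ᶠ r in 𝓝[>] (0:ℝ), 0 < -Real.log r := Hyp.tendsto_L.eventually_gt_atTop 0
  have e3 : ∀ᶠ r in 𝓝[>] (0:ℝ), 2 * (t₁ / (-Real.log r)) < g := by
    have h1 : Tendsto (fun r : ℝ => 2 * (t₁ / (-Real.log r))) (𝓝[>] 0) (𝓝 (2 * 0)) :=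
      ((Tendsto.div_atTop tendsto_const_nhds Hyp.tendsto_L).const_mul 2)
    rw [mul_zero] at h1
    exact h1.eventually (gt_mem_nhds hg)
  have e4 := h.tendsto_sum_abs.eventually (gt_mem_nhds (show Q < Q + 1 by linarith))
  have e5 : ∀ᶠ r in 𝓝[>] (0:ℝ), ∀ k, |(-(mm z δ μ ν D r k * Real.log (tcap (E k r)))
        - ∑ l ∈ Finset.univ.erase k, mm z δ μ ν D r l * Real.log ‖z k - z l‖
        + (D + kk z δ μ ν D / (-Real.log r)) - δ k) * (-Real.log r)| < τ := by
    rw [eventually_all]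
    intro k
    have h1 := (h.tendsto_values k).abs
    rw [abs_zero] at h1
    exact h1.eventually (gt_mem_nhds hτ)
  have e6 := h.tendsto_energy.eventually (gt_mem_nhds (show R < R + τ by linarith))
  filter_upwards [e1, e2, e3, e4, e5, e6, h.eventually_good hε0]
    with r h1 hL h3 h4 h5 h6 h7
  obtain ⟨g1, g2, g3, g4⟩ := h7
  set L : ℝ := -Real.log r with hLdef
  set m := mm z δ μ ν D r with hm
  obtain ⟨U, hUl, hUlim, hUv, hUe⟩ := upper_trial hd hsep hτ hε1 hε2 hr₀ hr1 hεr hlog harea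
    (fun k => E k r) g1 g2 g3 g4 (h.sum_mm r)
  obtain ⟨ψ, hψ, hψv⟩ := exists_flatten δ hgap (t := t₁ / L) (by positivity) h3
  set c₀ : ℝ := D + kk z δ μ ν D / L with hc₀
  have hsumabs : ∑ k, |m k| ≤ (Q + 1) / L := by
    rw [le_div_iff₀ hL]
    exact h4.le
  have hadm : Adm (fun k => E k r) δ (ψ ∘ fun ζ => U ζ + c₀) := by
    refine ⟨?_, ⟨ψ (0 + c₀), ?_⟩, ?_⟩
    · have h8 : LipschitzWith 1 (fun x : ℝ => x + c₀) := by
        apply LipschitzWith.of_dist_le_mul
        intro x y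
        simp
      exact hψ.locallyLipschitz.comp (h8.locallyLipschitz.comp hUl)
    · exact (hψ.continuous.tendsto _).comp (hUlim.add_const c₀)
    · intro k x hx
      apply hψv
      have h8 := hUv k x hx
      have h9 := h5 k
      rw [abs_mul, abs_of_pos hL, ← lt_div_iff₀ hL] at h9
      have h10 : U x + c₀ - δ k = (U x - (-(m k * Real.log (tcap (E k r)))
        - ∑ l ∈ Finset.univ.erase k, m l * Real.log ‖z k - z l‖)) +
        (-(m k * Real.log (tcap (E k r)))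
        - ∑ l ∈ Finset.univ.erase k, m l * Real.log ‖z k - z l‖ + c₀ - δ k) := by ring
      rw [h10]
      refine (abs_add_le _ _).trans ?_
      have h11 : τ * ∑ k, |m k| ≤ τ * ((Q + 1) / L) := by gcongr
      have h12 : t₁ / L = τ * ((Q + 1) / L) + τ / L := by
        rw [ht₁]
        ring
      rw [h12]
      exact add_le_add (h8.trans h11) h9.le
  have hcap : CapC (fun k => E k r) δ ≤ Dir (ψ ∘ fun ζ => U ζ + c₀) := iInf₂_le _ hadm
  have hUc : LocallyLipschitz (fun ζ => U ζ + c₀) := by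
    have h8 : LipschitzWith 1 (fun x : ℝ => x + c₀) := by
      apply LipschitzWith.of_dist_le_mul
      intro x y
      simp
    exact h8.locallyLipschitz.comp hUl
  have hdir := dir_comp_le hψ hUc
  rw [dir_add_const] at hdir
  refine hcap.trans (hdir.trans ?_)
  set Λ : ℝ := g / (g - 2 * (t₁ / L)) with hΛdef
  have hΛ0 : 0 ≤ Λ := by
    apply div_nonneg hg.le
    linarith
  have h8 : ((Real.toNNReal Λ : ℝ≥0) : ℝ≥0∞) ^ 2 = ENNReal.ofReal (Λ ^ 2) := by
    rw [ENNReal.ofReal_pow hΛ0]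
    rfl
  rw [h8]
  have h9 : ENNReal.ofReal (Λ ^ 2) * Dir U ≤ ENNReal.ofReal (Λ ^ 2 * (2 * π *
      (EE z (fun k => Real.log (tcap (E k r))) m + 2 * τ * (∑ k, |m k|) ^ 2))) := by
    rw [ENNReal.ofReal_mul (by positivity)]
    gcongr
  refine h9.trans (ENNReal.ofReal_le_ofReal ?_)
  have hpi := Real.pi_pos
  have h10 : EE z (fun k => Real.log (tcap (E k r))) m + 2 * τ * (∑ k, |m k|) ^ 2 ≤
      A / L + (R + s₁) / L ^ 2 := by
    have h11 : EE z (fun k => Real.log (tcap (E k r))) m ≤ A / L + (R + τ) / L ^ 2 := by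
      have h12 : EE z (fun k => Real.log (tcap (E k r))) m * L ^ 2 ≤ A * L + (R + τ) := by
        linarith
      have h13 : A / L + (R + τ) / L ^ 2 = (A * L + (R + τ)) / L ^ 2 := by
        field_simp
      rw [h13, le_div_iff₀ (by positivity)]
      exact h12
    have h12 : 2 * τ * (∑ k, |m k|) ^ 2 ≤ 2 * τ * ((Q + 1) / L) ^ 2 := by
      have : 0 ≤ ∑ k, |m k| := Finset.sum_nonneg (fun k _ => abs_nonneg _)
      gcongr
    have h13 : A / L + (R + s₁) / L ^ 2 = A / L + (R + τ) / L ^ 2 + 2 * τ * ((Q + 1) / L) ^ 2 := by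
      rw [hs₁]
      field_simp
      ring
    rw [h13]
    linarith
  have h11 : Λ ^ 2 * (A / L + (R + s₁) / L ^ 2) ≤ A / L + (R + s) / L ^ 2 := by
    have h12 : Λ ^ 2 * (A / L + (R + s₁) / L ^ 2) =
        ((Λ + 1) * ((Λ - 1) * L) * A + Λ ^ 2 * (R + s₁)) / L ^ 2 + A / L := by
      field_simp
      ring
    have h13 : ((Λ + 1) * ((Λ - 1) * L) * A + Λ ^ 2 * (R + s₁)) / L ^ 2 ≤ (R + s) / L ^ 2 := by
      gcongr
    rw [h12]
    linarith
  calc Λ ^ 2 * (2 * π * (EE z (fun k => Real.log (tcap (E k r))) m + 2 * τ * (∑ k, |m k|) ^ 2))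
      ≤ Λ ^ 2 * (2 * π * (A / L + (R + s₁) / L ^ 2)) := by gcongr
    _ = 2 * π * (Λ ^ 2 * (A / L + (R + s₁) / L ^ 2)) := by ring
    _ ≤ 2 * π * (A / L + (R + s) / L ^ 2) := by gcongr

end Pool.Agent.Helper26
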