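import Mathlib

open MeasureTheory Filter Topology Set
open scoped ENNReal NNReal ContDiff

namespace Pool.Agent.Helper26.BN

noncomputable section

/-- The Euclidean space `ℝⁿ`. -/
abbrev Eu (n : ℕ) : Type := EuclideanSpace ℝ (Fin n)

/-- The critical Sobolev exponent `2* = 2n/(n-2)`. -/
def twoStar (n : ℕ) : ℝ := 2 * (n : ℝ) / ((n : ℝ) - 2)

/-- `φ ∈ C_c^∞(Ω)`. -/
def IsTest {n : ℕ} (Ω : Set (Eu n)) (φ : Eu n → ℝ) : Prop :=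
  ContDiff ℝ ∞ φ ∧ HasCompactSupport φ ∧ tsupport φ ⊆ Ω

/-- `u ∈ H¹₀(Ω)` with weak gradient `g`: `(u, g)` is the limit in `L² × L²` of `(φ_k, ∇φ_k)` with
`φ_k ∈ C_c^∞(Ω)`. -/
def IsH10 {n : ℕ} (Ω : Set (Eu n)) (u : Eu n → ℝ) (g : Eu n → Eu n) : Prop :=
  MemLp u 2 volume ∧ MemLp g 2 volume ∧ ∃ φ : ℕ → Eu n → ℝ, (∀ k, IsTest Ω (φ k)) ∧
    Tendsto (fun k => eLpNorm (fun x => φ k x - u x) 2 volume) atTop (𝓝 0) ∧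
    Tendsto (fun k => eLpNorm (fun x => gradient (φ k) x - g x) 2 volume) atTop (𝓝 0)

/-- The best Sobolev constant `S` of `ℝⁿ`: the infimum of `∫|∇φ|² / (∫|φ|^{2*})^{2/2*}` over
nonzero `φ ∈ C_c^∞(ℝⁿ)`. -/
def sobolevS (n : ℕ) : ℝ :=
  sInf {q : ℝ | ∃ φ : Eu n → ℝ, IsTest univ φ ∧ φ ≠ 0 ∧
    q = (∫ x, ‖gradient φ x‖ ^ 2) / (∫ x, |φ x| ^ twoStar n) ^ (2 / twoStar n)}

/-- The functional `J_λ(u)`, for `u` with weak gradient `g`. -/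
def J {n : ℕ} (Θ : Set (Eu n)) (a b c : Eu n → ℝ) (lam : ℝ) (u : Eu n → ℝ)
    (g : Eu n → Eu n) : ℝ :=
  1 / 2 * (∫ x in Θ, a x * ‖g x‖ ^ 2) - lam / 2 * (∫ x in Θ, b x * u x ^ 2)
    - 1 / twoStar n * ∫ x in Θ, c x * |u x| ^ twoStar n

/-- The Nehari manifold `N_λ`: the nonzero `u ∈ H¹₀(Θ)` (with weak gradient `g`) such that
`J_λ'(u)u = ∫ a|∇u|² - λ∫ b u² - ∫ c|u|^{2*} = 0`. -/
def Nehari {n : ℕ} (Θ : Set (Eu n)) (a b c : Eu n → ℝ) (lam : ℝ) :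
    Set ((Eu n → ℝ) × (Eu n → Eu n)) :=
  {p | IsH10 Θ p.1 p.2 ∧ ¬ (p.1 =ᵐ[volume] 0) ∧
    (∫ x in Θ, a x * ‖p.2 x‖ ^ 2) - lam * (∫ x in Θ, b x * p.1 x ^ 2)
      - (∫ x in Θ, c x * |p.1 x| ^ twoStar n) = 0}

/-- The ground-state level `ℓ_λ^{a,b,c}`, the infimum of `J_λ` over the Nehari manifold. -/
def ell {n : ℕ} (Θ : Set (Eu n)) (a b c : Eu n → ℝ) (lam : ℝ) : ℝ :=
  sInf ((fun p => J Θ a b c lam p.1 p.2) '' Nehari Θ a b c lam)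

/-- The first eigenvalue `λ₁^{a,b}` of `-div(a∇u) = λ b u` in `Θ`, `u = 0` on `∂Θ`, as the infimum
of the Rayleigh quotient `∫ a|∇u|² / ∫ b u²` over `H¹₀(Θ) \ {0}`. -/
def lam1 {n : ℕ} (Θ : Set (Eu n)) (a b : Eu n → ℝ) : ℝ :=
  sInf {q : ℝ | ∃ (u : Eu n → ℝ) (g : Eu n → Eu n), IsH10 Θ u g ∧ ¬ (u =ᵐ[volume] 0) ∧
    q = (∫ x in Θ, a x * ‖g x‖ ^ 2) / (∫ x in Θ, b x * u x ^ 2)}

/-- The function `f = a^{n/2} / c^{(n-2)/2}`. -/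
def fAC {n : ℕ} (a c : Eu n → ℝ) (x : Eu n) : ℝ :=
  a x ^ ((n : ℝ) / 2) / c x ^ (((n : ℝ) - 2) / 2)

/-- The threshold `κ^{a,c} = (min_{closure Θ} f) (1/n) S^{n/2}`. -/
def kappa {n : ℕ} (Θ : Set (Eu n)) (a c : Eu n → ℝ) : ℝ :=
  sInf (fAC a c '' closure Θ) * (1 / (n : ℝ)) * sobolevS n ^ ((n : ℝ) / 2)

/-- `λ_{0,*}^{a,b,c} = inf {λ < λ₁^{a,b} : ℓ_λ^{a,b,c} < κ^{a,c}}`, as an extended real number. -/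
def lamStar {n : ℕ} (Θ : Set (Eu n)) (a b c : Eu n → ℝ) : EReal :=
  sInf ((fun t : ℝ => (t : EReal)) ''
    {lam : ℝ | lam < lam1 Θ a b ∧ ell Θ a b c lam < kappa Θ a c})

end

end Pool.Agent.Helper26.BN
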