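import Pool.Agent.Helper26.BNDefs

open MeasureTheory Filter Topology Set
open scoped ENNReal NNReal ContDiff

namespace Pool.Agent.Helper26.BN

noncomputable section

lemma twoStar_gt_two {n : ℕ} (hn : 3 ≤ n) : 2 < twoStar n := by
  have h3 : (3 : ℝ) ≤ n := by exact_mod_cast hn
  unfold twoStar
  rw [lt_div_iff₀ (by linarith)]
  linarith

lemma isTest_isH10 {n : ℕ} {Ω : Set (Eu n)} {φ : Eu n → ℝ} (h : IsTest Ω φ) :
    IsH10 Ω φ (gradient φ) := by
  obtain ⟨h1, h2, h3⟩ := h
  have hc : Continuous (gradient φ) := by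
    unfold gradient
    exact (LinearIsometryEquiv.continuous _).comp (h1.continuous_fderiv (by simp))
  have hs : HasCompactSupport (gradient φ) := by
    unfold gradient
    exact (h2.fderiv (𝕜 := ℝ)).comp_left (g := fun L => (InnerProductSpace.toDual ℝ (Eu n)).symm L)
      (by simp)
  refine ⟨h1.continuous.memLp_of_hasCompactSupport h2, hc.memLp_of_hasCompactSupport hs,
    fun _ => φ, fun _ => ⟨h1, h2, h3⟩, ?_, ?_⟩
  · simp
  · simp

lemma isTest_smul {n : ℕ} {Ω : Set (Eu n)} {φ : Eu n → ℝ} (h : IsTest Ω φ) (t : ℝ) :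
    IsTest Ω (fun x => t * φ x) := by
  obtain ⟨h1, h2, h3⟩ := h
  refine ⟨contDiff_const.mul h1, h2.mul_left, ?_⟩
  exact (closure_mono (Function.support_mul_subset_right _ _)).trans h3

lemma gradient_smul {n : ℕ} {φ : Eu n → ℝ} (h1 : ContDiff ℝ ∞ φ) (t : ℝ) (x : Eu n) :
    gradient (fun x => t * φ x) x = t • gradient φ x := by
  unfold gradient
  rw [fderiv_const_mul (h1.differentiable (by simp) x)]
  simp

lemma norm_gradient {n : ℕ} (φ : Eu n → ℝ) (x : Eu n) : ‖gradient φ x‖ = ‖fderiv ℝ φ x‖ := by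
  unfold gradient
  exact LinearIsometryEquiv.norm_map _ _

lemma exists_bump {n : ℕ} (x : Eu n) {r R : ℝ} (hr : 0 < r) (hR : r < R) :
    ∃ φ : Eu n → ℝ, ContDiff ℝ ∞ φ ∧ HasCompactSupport φ ∧ tsupport φ ⊆ Metric.closedBall x R ∧
      (∀ y ∈ Metric.closedBall x r, φ y = 1) ∧ (∀ y, 0 ≤ φ y) ∧ (∀ y, φ y ≤ 1) := by
  let B : ContDiffBump x := ⟨r, R, hr, hR⟩
  refine ⟨B, B.contDiff, B.hasCompactSupport, ?_, ?_, ?_, ?_⟩
  · rw [B.tsupport_eq]
  · intro y hy
    exact B.one_of_mem_closedBall hy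
  · intro y
    exact B.nonneg
  · intro y
    exact B.le_one

lemma twoStar_pos {n : ℕ} (hn : 3 ≤ n) : 0 < twoStar n := by
  have := twoStar_gt_two hn
  linarith

lemma integral_rpow_pos {n : ℕ} (hn : 3 ≤ n) {φ : Eu n → ℝ} (h1 : Continuous φ)
    (h2 : HasCompactSupport φ) (h3 : φ ≠ 0) : 0 < ∫ x, |φ x| ^ twoStar n := by
  have hp := twoStar_pos hn
  have hc : Continuous (fun x => |φ x| ^ twoStar n) :=
    (continuous_abs.comp h1).rpow_const (fun x => Or.inr hp.le)
  have hs : HasCompactSupport (fun x => |φ x| ^ twoStar n) := by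
    exact h2.comp_left (g := fun t : ℝ => |t| ^ twoStar n) (by simp [Real.zero_rpow hp.ne'])
  obtain ⟨x0, hx0⟩ : ∃ x, φ x ≠ 0 := by
    by_contra h
    push Not at h
    exact h3 (funext h)
  refine hc.integral_pos_of_hasCompactSupport_nonneg_nonzero hs (fun x => ?_) (x := x0) ?_
  · positivity
  · have : 0 < |φ x0| := abs_pos.mpr hx0
    positivity

lemma sobolevS_pos {n : ℕ} (hn : 3 ≤ n) : 0 < sobolevS n := by
  have h3 : (3 : ℝ) ≤ n := by exact_mod_cast hn
  have hp := twoStar_pos hn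
  set C : ℝ≥0 := SNormLESNormFDerivOfEqConst ℝ (volume : Measure (Eu n)) 2 with hC
  set K : ℝ := (C : ℝ) ^ 2 + 1 with hK
  have hKpos : 0 < K := by positivity
  have key : ∀ φ : Eu n → ℝ, IsTest univ φ → φ ≠ 0 →
      1 / K ≤ (∫ x, ‖gradient φ x‖ ^ 2) / (∫ x, |φ x| ^ twoStar n) ^ (2 / twoStar n) := by
    intro φ hφ hne
    obtain ⟨h1, h2, -⟩ := hφ
    let p' : ℝ≥0 := ⟨twoStar n, hp.le⟩
    have hGNS := eLpNorm_le_eLpNorm_fderiv_of_eq (F := ℝ) (volume : Measure (Eu n)) (u := φ)
      (h1.of_le (by simp)) h2 (p := 2) (p' := p') (by norm_num) (by simp; omega) (by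
        simp only [p', finrank_euclideanSpace, Fintype.card_fin]
        change (twoStar n)⁻¹ = _
        unfold twoStar
        have : (n : ℝ) - 2 ≠ 0 := by linarith
        have : (n : ℝ) ≠ 0 := by linarith
        push_cast
        field_simp)
    have hm1 : MemLp φ (p' : ℝ≥0∞) volume := h1.continuous.memLp_of_hasCompactSupport h2
    have hcf : Continuous (fderiv ℝ φ) := h1.continuous_fderiv (by simp)
    have hm2 : MemLp (fderiv ℝ φ) ((2 : ℝ≥0) : ℝ≥0∞) volume :=
      hcf.memLp_of_hasCompactSupport (h2.fderiv (𝕜 := ℝ))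
    have hp'0 : (p' : ℝ≥0∞) ≠ 0 := by
      simp only [ne_eq, ENNReal.coe_eq_zero]
      intro h
      have := congrArg NNReal.toReal h
      simp only [p', NNReal.coe_zero] at this
      exact hp.ne' this
    rw [hm1.eLpNorm_eq_integral_rpow_norm hp'0 (by simp),
      hm2.eLpNorm_eq_integral_rpow_norm (by simp) (by simp)] at hGNS
    have e1 : (p' : ℝ≥0∞).toReal = twoStar n := rfl
    have e2 : (((2 : ℝ≥0) : ℝ≥0∞)).toReal = 2 := by simp
    rw [e1, e2] at hGNS
    have e3 : (C : ℝ≥0∞) * ENNReal.ofReal ((∫ a, ‖fderiv ℝ φ a‖ ^ (2 : ℝ)) ^ ((2 : ℝ)⁻¹)) =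
        ENNReal.ofReal (C * (∫ a, ‖fderiv ℝ φ a‖ ^ (2 : ℝ)) ^ ((2 : ℝ)⁻¹)) := by
      rw [ENNReal.ofReal_mul (by positivity)]
      simp
    have hGNS' : (∫ a, ‖φ a‖ ^ twoStar n) ^ ((twoStar n)⁻¹) ≤
        C * (∫ a, ‖fderiv ℝ φ a‖ ^ (2 : ℝ)) ^ ((2 : ℝ)⁻¹) := by
      have hx : ENNReal.ofReal ((∫ a, ‖φ a‖ ^ twoStar n) ^ ((twoStar n)⁻¹)) ≤
          ENNReal.ofReal (C * (∫ a, ‖fderiv ℝ φ a‖ ^ (2 : ℝ)) ^ ((2 : ℝ)⁻¹)) := by
        rw [← e3]
        exact hGNS
      rwa [ENNReal.ofReal_le_ofReal_iff] at hx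
      have : 0 ≤ ∫ a, ‖fderiv ℝ φ a‖ ^ (2 : ℝ) := integral_nonneg (fun _ => by positivity)
      positivity
    set D : ℝ := ∫ x, |φ x| ^ twoStar n with hD
    set N : ℝ := ∫ x, ‖gradient φ x‖ ^ 2 with hN
    have hDpos : 0 < D := integral_rpow_pos hn h1.continuous h2 hne
    have hNnn : 0 ≤ N := integral_nonneg (fun _ => by positivity)
    have hN' : (∫ a, ‖fderiv ℝ φ a‖ ^ (2 : ℝ)) = N := by
      rw [hN]
      congr 1
      ext x
      rw [norm_gradient]
      norm_cast
    have hD' : (∫ a, ‖φ a‖ ^ twoStar n) = D := rfl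
    rw [hN', hD'] at hGNS'
    have hsq : D ^ (2 / twoStar n) ≤ C ^ 2 * N := by
      have hl : 0 ≤ D ^ ((twoStar n)⁻¹) := by positivity
      have := pow_le_pow_left₀ hl hGNS' 2
      have e4 : (D ^ ((twoStar n)⁻¹)) ^ 2 = D ^ (2 / twoStar n) := by
        rw [← Real.rpow_natCast, ← Real.rpow_mul hDpos.le]
        congr 1
        push_cast
        ring
      have e5 : (N ^ ((2 : ℝ)⁻¹)) ^ 2 = N := by
        rw [← Real.rpow_natCast, ← Real.rpow_mul hNnn]
        norm_num
      rw [e4, mul_pow, e5] at this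
      exact this
    have hDD : 0 < D ^ (2 / twoStar n) := by positivity
    rw [div_le_div_iff₀ hKpos hDD]
    nlinarith
  have hne : {q : ℝ | ∃ φ : Eu n → ℝ, IsTest univ φ ∧ φ ≠ 0 ∧
    q = (∫ x, ‖gradient φ x‖ ^ 2) / (∫ x, |φ x| ^ twoStar n) ^ (2 / twoStar n)}.Nonempty := by
    obtain ⟨φ, h1, h2, h3, h4, -, -⟩ := exists_bump (0 : Eu n) (r := 1) (R := 2) one_pos one_lt_two
    refine ⟨_, φ, ⟨h1, h2, subset_univ _⟩, ?_, rfl⟩
    intro h
    have := h4 0 (by simp)
    rw [h] at this
    simp at this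
  have : 1 / K ≤ sobolevS n := by
    refine le_csInf hne ?_
    rintro q ⟨φ, hφ, hne, rfl⟩
    exact key φ hφ hne
  have : 0 < 1 / K := by positivity
  linarith

lemma fAC_eq {n : ℕ} (hn : 3 ≤ n) {e c : Eu n → ℝ} (he : ∀ x, 0 < e x) (hc : ∀ x, 0 < c x) :
    fAC (fun x => (e x * c x ^ (((n : ℝ) - 2) / 2)) ^ (2 / (n : ℝ))) c = e := by
  have h3 : (3 : ℝ) ≤ n := by exact_mod_cast hn
  funext x
  unfold fAC
  have h1 : 0 < c x ^ (((n : ℝ) - 2) / 2) := Real.rpow_pos_of_pos (hc x) _
  have h2 : 0 < e x * c x ^ (((n : ℝ) - 2) / 2) := mul_pos (he x) h1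
  simp only
  rw [← Real.rpow_mul h2.le]
  have : 2 / (n : ℝ) * ((n : ℝ) / 2) = 1 := by
    field_simp
  rw [this, Real.rpow_one]
  field_simp

lemma half_sub {n : ℕ} (hn : 3 ≤ n) : 1 / 2 - 1 / twoStar n = 1 / (n : ℝ) := by
  have h3 : (3 : ℝ) ≤ n := by exact_mod_cast hn
  unfold twoStar
  have : (n : ℝ) - 2 ≠ 0 := by linarith
  have : (n : ℝ) ≠ 0 := by linarith
  field_simp
  ring

lemma hasFDerivAt_exp_coord {n : ℕ} (i : Fin n) (x : Eu n) :
    HasFDerivAt (fun y : Eu n => Real.exp (y i))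
      (Real.exp (x i) • (EuclideanSpace.proj i : Eu n →L[ℝ] ℝ)) x := by
  have h1 : HasFDerivAt (fun y : Eu n => y i) (EuclideanSpace.proj i : Eu n →L[ℝ] ℝ) x :=
    (EuclideanSpace.proj i : Eu n →L[ℝ] ℝ).hasFDerivAt
  exact h1.exp

lemma gradient_exp_coord_ne {n : ℕ} (i : Fin n) (x : Eu n) :
    gradient (fun y : Eu n => Real.exp (y i)) x ≠ 0 := by
  intro h
  have h1 : ‖fderiv ℝ (fun y : Eu n => Real.exp (y i)) x‖ = 0 := by
    rw [← norm_gradient, h, norm_zero]
  have h2 : fderiv ℝ (fun y : Eu n => Real.exp (y i)) x = 0 := norm_eq_zero.mp h1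
  rw [(hasFDerivAt_exp_coord i x).fderiv] at h2
  have h3 := congrArg (fun L : Eu n →L[ℝ] ℝ => L (EuclideanSpace.single i 1)) h2
  simp at h3

/-- **Negative answer to Q1.** For every `n ≥ 3`, every nonempty bounded open set `Θ ⊂ ℝⁿ` (in
particular every bounded smooth domain), every continuous positive weight `b` and every real `Λ`
there are smooth positive `a, c` such that every minimum point of `f = a^{n/2}/c^{(n-2)/2}` on
`closure Θ` lies on `∂Θ` and is non-stationary for `f`, and nevertheless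
`λ_{0,*}^{a,b,c} < Λ`. -/
theorem main (n : ℕ) (hn : 3 ≤ n) (Θ : Set (Eu n)) (hΘo : IsOpen Θ)
    (hΘb : Bornology.IsBounded Θ) (hΘn : Θ.Nonempty) (b : Eu n → ℝ)
    (hbc : ContinuousOn b (closure Θ)) (hbp : ∀ x ∈ closure Θ, 0 < b x) (Λ : ℝ) :
    ∃ a c : Eu n → ℝ, ContDiff ℝ ∞ a ∧ ContDiff ℝ ∞ c ∧ (∀ x, 0 < a x) ∧ (∀ x, 0 < c x) ∧
      (∃ x₀ ∈ closure Θ, IsMinOn (fAC a c) (closure Θ) x₀) ∧
      (∀ x₀ ∈ closure Θ, IsMinOn (fAC a c) (closure Θ) x₀ →
        x₀ ∈ frontier Θ ∧ gradient (fAC a c) x₀ ≠ 0) ∧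
      lamStar Θ a b c < (Λ : EReal) := by
  have h3 : (3 : ℝ) ≤ n := by exact_mod_cast hn
  have hp2 := twoStar_gt_two hn
  have hp := twoStar_pos hn
  let i0 : Fin n := ⟨0, by omega⟩
  let e : Eu n → ℝ := fun x => Real.exp (x i0)
  have he : ∀ x, 0 < e x := fun x => Real.exp_pos _
  have hesm : ContDiff ℝ ∞ e := by
    have h1 : ContDiff ℝ ∞ (fun y : Eu n => y i0) :=
      (EuclideanSpace.proj i0 : Eu n →L[ℝ] ℝ).contDiff
    exact h1.exp
  have hcomp : IsCompact (closure Θ) := hΘb.isCompact_closure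
  have hclne : (closure Θ).Nonempty := hΘn.closure
  obtain ⟨xm, hxm, hxmin⟩ := hcomp.exists_isMinOn hclne hesm.continuous.continuousOn
  -- the threshold
  set κ : ℝ := sInf (e '' closure Θ) * (1 / (n : ℝ)) * sobolevS n ^ ((n : ℝ) / 2) with hκ
  have hκpos : 0 < κ := by
    have h1 : sInf (e '' closure Θ) = e xm := by
      apply IsLeast.csInf_eq
      refine ⟨⟨xm, hxm, rfl⟩, ?_⟩
      rintro _ ⟨y, hy, rfl⟩
      exact hxmin hy
    have h2 := sobolevS_pos hn
    have h4 := he xm
    rw [hκ, h1]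
    positivity
  -- geometry
  obtain ⟨xc, hxc⟩ := hΘn
  obtain ⟨ρ, hρ, hball⟩ : ∃ ρ > 0, Metric.closedBall xc ρ ⊆ Θ :=
    Metric.nhds_basis_closedBall.mem_iff.mp (hΘo.mem_nhds hxc)
  obtain ⟨φ, φ1, φ2, φ3, φ4, φ5, φ6⟩ := exists_bump xc (r := ρ / 2) (R := ρ) (by linarith)
    (by linarith)
  obtain ⟨ψ, ψ1, ψ2, ψ3, ψ4, ψ5, ψ6⟩ := exists_bump xc (r := ρ / 8) (R := ρ / 4) (by linarith)
    (by linarith)
  have hφtest : IsTest Θ φ := ⟨φ1, φ2, φ3.trans hball⟩
  have hgrad0 : ∀ x, ψ x ≠ 0 → gradient φ x = 0 := by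
    intro x hx
    have hx1 : x ∈ tsupport ψ := subset_tsupport _ hx
    have hx2 : x ∈ Metric.ball xc (ρ / 2) :=
      Metric.closedBall_subset_ball (by linarith) (ψ3 hx1)
    have hx3 : φ =ᶠ[𝓝 x] fun _ => (1 : ℝ) := by
      filter_upwards [Metric.isOpen_ball.mem_nhds hx2] with y hy
      exact φ4 y (Metric.ball_subset_closedBall hy)
    unfold gradient
    rw [hx3.fderiv_eq]
    simp
  -- the constants
  set lam : ℝ := min Λ 0 - 1 with hlam
  have hlam0 : lam < 0 := by
    have := min_le_right Λ 0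
    linarith
  have hlamΛ : lam < Λ := by
    have := min_le_left Λ 0
    linarith
  set A0 : ℝ := ∫ x in Θ, e x ^ (2 / (n : ℝ)) * ‖gradient φ x‖ ^ 2 with hA0
  set B0 : ℝ := ∫ x in Θ, b x * φ x ^ 2 with hB0
  set C0 : ℝ := ∫ x in Θ, |φ x| ^ twoStar n with hC0
  set I0 : ℝ := ∫ x in Θ, ψ x * |φ x| ^ twoStar n with hI0
  have hA0nn : 0 ≤ A0 := integral_nonneg (fun x => by positivity)
  have hC0nn : 0 ≤ C0 := integral_nonneg (fun x => by positivity)
  have hcabs : Continuous (fun x => |φ x| ^ twoStar n) :=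
    (continuous_abs.comp φ1.continuous).rpow_const (fun x => Or.inr hp.le)
  have hφs : ∀ x, x ∉ Θ → φ x = 0 := by
    intro x hx
    by_contra h
    exact hx (hball (φ3 (subset_tsupport _ h)))
  have hI0pos : 0 < I0 := by
    have h1 : I0 = ∫ x, ψ x * |φ x| ^ twoStar n := by
      rw [hI0]
      apply setIntegral_eq_integral_of_forall_compl_eq_zero
      intro x hx
      rw [hφs x hx]
      simp [Real.zero_rpow hp.ne']
    rw [h1]
    have hs : HasCompactSupport (fun x => ψ x * |φ x| ^ twoStar n) := ψ2.mul_right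
    refine (ψ1.continuous.mul hcabs).integral_pos_of_hasCompactSupport_nonneg_nonzero hs
      (fun x => mul_nonneg (ψ5 x) (by positivity)) (x := xc) ?_
    have e1 : ψ xc = 1 := ψ4 xc (by simp; linarith)
    have e2 : φ xc = 1 := φ4 xc (by simp; linarith)
    simp [e1, e2]
  have hB0pos : 0 < B0 := by
    obtain ⟨xb, hxb, hbmin⟩ := hcomp.exists_isMinOn hclne hbc
    have hβ := hbp xb hxb
    have hint1 : IntegrableOn (fun x => b x * φ x ^ 2) Θ :=
      ((hbc.mul (φ1.continuous.pow 2).continuousOn).integrableOn_compact hcomp).mono_set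
        subset_closure
    have hint2 : IntegrableOn (fun x => b xb * φ x ^ 2) Θ :=
      (((continuous_const.mul (φ1.continuous.pow 2)).continuousOn).integrableOn_compact
        hcomp).mono_set subset_closure
    have h1 : ∫ x in Θ, b xb * φ x ^ 2 ≤ B0 := by
      apply setIntegral_mono_on hint2 hint1 hΘo.measurableSet
      intro x hx
      exact mul_le_mul_of_nonneg_right (hbmin (subset_closure hx)) (by positivity)
    have h2 : 0 < ∫ x in Θ, b xb * φ x ^ 2 := by
      have h3 : ∫ x in Θ, b xb * φ x ^ 2 = ∫ x, b xb * φ x ^ 2 := by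
        apply setIntegral_eq_integral_of_forall_compl_eq_zero
        intro x hx
        rw [hφs x hx]
        simp
      rw [h3]
      have hs : HasCompactSupport (fun x => b xb * φ x ^ 2) :=
        φ2.comp_left (g := fun t => b xb * t ^ 2) (by simp)
      refine (continuous_const.mul
        (φ1.continuous.pow 2)).integral_pos_of_hasCompactSupport_nonneg_nonzero hs
        (fun x => mul_nonneg hβ.le (by positivity)) (x := xc) ?_
      have e2 : φ xc = 1 := φ4 xc (by simp; linarith)
      simp [e2, hβ.ne']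
    linarith
  set Q : ℝ := A0 - lam * B0 with hQ
  have hQpos : 0 < Q := by
    have : 0 < -lam * B0 := mul_pos (by linarith) hB0pos
    rw [hQ]
    linarith
  -- the scaling parameter
  obtain ⟨t, ht0, ht1, ht2⟩ : ∃ t : ℝ, 0 < t ∧ 1 / (n : ℝ) * (t ^ 2 * Q) < κ ∧
      C0 * t ^ (twoStar n - 2) < Q := by
    have l1 : Tendsto (fun t : ℝ => 1 / (n : ℝ) * (t ^ 2 * Q)) (𝓝[>] 0) (𝓝 0) := by
      have : Tendsto (fun t : ℝ => 1 / (n : ℝ) * (t ^ 2 * Q)) (𝓝 0)
          (𝓝 (1 / (n : ℝ) * (0 ^ 2 * Q))) := by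
        apply Continuous.tendsto
        fun_prop
      simp only [ne_eq, OfNat.ofNat_ne_zero, not_false_eq_true, zero_pow, zero_mul,
        mul_zero] at this
      exact this.mono_left nhdsWithin_le_nhds
    have l2 : Tendsto (fun t : ℝ => C0 * t ^ (twoStar n - 2)) (𝓝[>] 0) (𝓝 0) := by
      have hq : 0 < twoStar n - 2 := by linarith
      have : Tendsto (fun t : ℝ => C0 * t ^ (twoStar n - 2)) (𝓝 0)
          (𝓝 (C0 * 0 ^ (twoStar n - 2))) := by
        apply Continuous.tendsto
        exact continuous_const.mul (Real.continuous_rpow_const hq.le)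
      rw [Real.zero_rpow hq.ne', mul_zero] at this
      exact this.mono_left nhdsWithin_le_nhds
    have l3 : ∀ᶠ t : ℝ in 𝓝[>] 0, 0 < t := eventually_mem_nhdsWithin
    obtain ⟨t, h1, h2, h4⟩ := (l3.and ((l1.eventually (gt_mem_nhds hκpos)).and
      (l2.eventually (gt_mem_nhds hQpos)))).exists
    exact ⟨t, h1, h2, h4⟩
  have htp : 0 < t ^ (twoStar n - 2) := Real.rpow_pos_of_pos ht0 _
  set M : ℝ := (Q / t ^ (twoStar n - 2) - C0) / I0 with hM
  have hMpos : 0 < M := by
    apply div_pos _ hI0pos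
    rw [sub_pos, lt_div_iff₀ htp]
    exact ht2
  -- the weights
  let c : Eu n → ℝ := fun x => 1 + M * ψ x
  have hcsm : ContDiff ℝ ∞ c := contDiff_const.add (contDiff_const.mul ψ1)
  have hcp : ∀ x, 0 < c x := by
    intro x
    have := mul_nonneg hMpos.le (ψ5 x)
    simp only [c]
    linarith
  let a : Eu n → ℝ := fun x => (e x * c x ^ (((n : ℝ) - 2) / 2)) ^ (2 / (n : ℝ))
  have hbase : ∀ x, 0 < e x * c x ^ (((n : ℝ) - 2) / 2) := fun x =>
    mul_pos (he x) (Real.rpow_pos_of_pos (hcp x) _)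
  have hasm : ContDiff ℝ ∞ a :=
    (hesm.mul (hcsm.rpow_const_of_ne (fun x => (hcp x).ne'))).rpow_const_of_ne
      (fun x => (hbase x).ne')
  have hap : ∀ x, 0 < a x := fun x => Real.rpow_pos_of_pos (hbase x) _
  have hf : fAC a c = e := fAC_eq hn he hcp
  refine ⟨a, c, hasm, hcsm, hap, hcp, ?_, ?_, ?_⟩
  · rw [hf]
    exact ⟨xm, hxm, hxmin⟩
  · rw [hf]
    intro x₀ hx₀ hmin
    refine ⟨?_, gradient_exp_coord_ne i0 x₀⟩
    rw [hΘo.frontier_eq]
    refine ⟨hx₀, fun hx => ?_⟩
    have hloc : IsLocalMin e x₀ := by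
      filter_upwards [hΘo.mem_nhds hx] with y hy
      exact hmin (subset_closure hy)
    apply gradient_exp_coord_ne i0 x₀
    unfold gradient
    have : fderiv ℝ (fun y : Eu n => Real.exp (y i0)) x₀ = 0 := hloc.fderiv_eq_zero
    rw [this]
    simp
  · -- the level
    have hkap : kappa Θ a c = κ := by
      unfold kappa
      rw [hf]
    have hmem : lam < lam1 Θ a b ∧ ell Θ a b c lam < kappa Θ a c := by
      constructor
      · have : 0 ≤ lam1 Θ a b := by
          apply Real.sInf_nonneg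
          rintro q ⟨u, g, -, -, rfl⟩
          apply div_nonneg
          · exact integral_nonneg (fun x => mul_nonneg (hap x).le (by positivity))
          · exact setIntegral_nonneg hΘo.measurableSet
              (fun x hx => mul_nonneg (hbp x (subset_closure hx)).le (by positivity))
        linarith
      · rw [hkap]
        have hbdd : BddBelow ((fun p : (Eu n → ℝ) × (Eu n → Eu n) => J Θ a b c lam p.1 p.2) ''
            Nehari Θ a b c lam) := by
          refine ⟨0, ?_⟩
          rintro _ ⟨⟨u, g⟩, ⟨-, -, hN⟩, rfl⟩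
          simp only at hN
          simp only [J]
          set X := ∫ x in Θ, a x * ‖g x‖ ^ 2
          set Y := ∫ x in Θ, b x * u x ^ 2
          set Z := ∫ x in Θ, c x * |u x| ^ twoStar n
          have hX : 0 ≤ X := integral_nonneg (fun x => mul_nonneg (hap x).le (by positivity))
          have hY : 0 ≤ Y := setIntegral_nonneg hΘo.measurableSet
            (fun x hx => mul_nonneg (hbp x (subset_closure hx)).le (by positivity))
          have hZ : Z = X - lam * Y := by linarith
          have e1 : 1 / 2 * X - lam / 2 * Y - 1 / twoStar n * Z =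
              (1 / 2 - 1 / twoStar n) * (X - lam * Y) := by
            rw [hZ]
            ring
          rw [e1, half_sub hn]
          have : 0 ≤ -lam * Y := mul_nonneg (by linarith) hY
          have h5 : 0 ≤ X - lam * Y := by linarith
          positivity
        -- the competitor
        let u : Eu n → ℝ := fun x => t * φ x
        have hutest : IsTest Θ u := isTest_smul hφtest t
        have hgu : ∀ x, gradient u x = t • gradient φ x := gradient_smul φ1 t
        have eX : ∫ x in Θ, a x * ‖gradient u x‖ ^ 2 = t ^ 2 * A0 := by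
          rw [hA0, ← integral_const_mul]
          congr 1
          ext x
          rw [hgu x, norm_smul, mul_pow, Real.norm_eq_abs, sq_abs]
          by_cases hx : ψ x = 0
          · have : c x = 1 := by simp [c, hx]
            simp only [a]
            rw [this, Real.one_rpow, mul_one]
            ring
          · rw [hgrad0 x hx]
            simp
        have eY : ∫ x in Θ, b x * u x ^ 2 = t ^ 2 * B0 := by
          rw [hB0, ← integral_const_mul]
          congr 1
          ext x
          simp only [u]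
          ring
        have eZ : ∫ x in Θ, c x * |u x| ^ twoStar n = t ^ 2 * Q := by
          have h5 : ∀ x, c x * |u x| ^ twoStar n =
              t ^ twoStar n * (|φ x| ^ twoStar n + M * (ψ x * |φ x| ^ twoStar n)) := by
            intro x
            simp only [u, c]
            rw [abs_mul, abs_of_pos ht0, Real.mul_rpow ht0.le (abs_nonneg _)]
            ring
          simp_rw [h5]
          rw [integral_const_mul, integral_add, integral_const_mul, ← hC0, ← hI0]
          · have h6 : C0 + M * I0 = Q / t ^ (twoStar n - 2) := by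
              rw [hM]
              field_simp
              ring
            rw [h6]
            have h7 : t ^ twoStar n = t ^ 2 * t ^ (twoStar n - 2) := by
              rw [← Real.rpow_natCast t 2, ← Real.rpow_add ht0]
              congr 1
              push_cast
              ring
            rw [h7]
            field_simp
          · exact (hcabs.continuousOn.integrableOn_compact hcomp).mono_set subset_closure
          · exact ((continuous_const.mul
              (ψ1.continuous.mul hcabs)).continuousOn.integrableOn_compact hcomp).mono_set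
              subset_closure
        have hNeh : (u, gradient u) ∈ Nehari Θ a b c lam := by
          refine ⟨isTest_isH10 hutest, ?_, ?_⟩
          · intro h0
            have h1 : u = 0 := by
              have := Continuous.ae_eq_iff_eq (volume : Measure (Eu n))
                hutest.1.continuous continuous_zero
              exact this.mp h0
            have h2 := congrFun h1 xc
            have e2 : φ xc = 1 := φ4 xc (by simp; linarith)
            simp only [u, e2, Pi.zero_apply, mul_one] at h2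
            linarith
          · change (∫ x in Θ, a x * ‖gradient u x‖ ^ 2) - lam * (∫ x in Θ, b x * u x ^ 2)
              - (∫ x in Θ, c x * |u x| ^ twoStar n) = 0
            rw [eX, eY, eZ, hQ]
            ring
        have hle : ell Θ a b c lam ≤ J Θ a b c lam u (gradient u) :=
          csInf_le hbdd ⟨(u, gradient u), hNeh, rfl⟩
        have hJ : J Θ a b c lam u (gradient u) = 1 / (n : ℝ) * (t ^ 2 * Q) := by
          unfold J
          rw [eX, eY, eZ, ← half_sub hn, hQ]
          ring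
        rw [hJ] at hle
        linarith
    have hle : lamStar Θ a b c ≤ (lam : EReal) := sInf_le ⟨lam, hmem, rfl⟩
    exact lt_of_le_of_lt hle (by exact_mod_cast hlamΛ)

end

end Pool.Agent.Helper26.BN
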