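import Mathlib

/-!
Basics of normal tilings of the plane by convex tiles (for `MP_1d464e_co`).
-/

open Set Metric

namespace Pool.Agent.Helper26.CD

/-- the Euclidean plane -/
abbrev E := EuclideanSpace ℝ (Fin 2)

def dot (a b : E) : ℝ := a 0 * b 0 + a 1 * b 1
def det (a b : E) : ℝ := a 0 * b 1 - a 1 * b 0
def rot (a : E) : E := !₂[-a 1, a 0]

@[simp] lemma rot_zero' (a : E) : rot a 0 = - a 1 := by simp [rot]
@[simp] lemma rot_one' (a : E) : rot a 1 = a 0 := by simp [rot]

lemma ext2 {a b : E} (h0 : a 0 = b 0) (h1 : a 1 = b 1) : a = b := by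
  ext i; fin_cases i <;> simpa

@[fun_prop] lemma continuous_dot (n : E) : Continuous (fun x : E => dot n x) := by
  unfold dot; fun_prop

@[simp] lemma dot_add (n a b : E) : dot n (a + b) = dot n a + dot n b := by simp [dot]; ring
@[simp] lemma dot_sub (n a b : E) : dot n (a - b) = dot n a - dot n b := by simp [dot]; ring
@[simp] lemma dot_smul (n a : E) (t : ℝ) : dot n (t • a) = t * dot n a := by simp [dot]; ring
@[simp] lemma dot_neg (n a : E) : dot n (-a) = - dot n a := by simp [dot]; ring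
@[simp] lemma neg_dot (n a : E) : dot (-n) a = - dot n a := by simp [dot]; ring
@[simp] lemma dot_zero (n : E) : dot n 0 = 0 := by simp [dot]
@[simp] lemma zero_dot (n : E) : dot 0 n = 0 := by simp [dot]
lemma dot_comm (a b : E) : dot a b = dot b a := by simp [dot]; ring
lemma dot_self_pos {n : E} (h : n ≠ 0) : 0 < dot n n := by
  by_contra hc
  apply h
  have h1 : n 0 * n 0 + n 1 * n 1 ≤ 0 := not_lt.1 hc
  have h0 : n 0 = 0 := by nlinarith [mul_self_nonneg (n 0), mul_self_nonneg (n 1)]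
  have h2 : n 1 = 0 := by nlinarith [mul_self_nonneg (n 0), mul_self_nonneg (n 1)]
  exact ext2 (by simpa using h0) (by simpa using h2)
@[simp] lemma dot_rot_self (n : E) : dot n (rot n) = 0 := by simp [dot]; ring
lemma rot_ne {n : E} (h : n ≠ 0) : rot n ≠ 0 := by
  intro hc
  apply h
  have h0 := congrArg (fun x : E => x 0) hc
  have h1 := congrArg (fun x : E => x 1) hc
  simp at h0 h1
  exact ext2 (by simpa using h1) (by simpa using h0)

lemma norm_sq_eq (a : E) : ‖a‖ ^ 2 = a 0 ^ 2 + a 1 ^ 2 := by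
  rw [EuclideanSpace.norm_sq_eq]
  simp

lemma norm_sq_dot (a : E) : ‖a‖ ^ 2 = dot a a := by
  rw [norm_sq_eq]; simp [dot]; ring

lemma abs_dot_le (a b : E) : |dot a b| ≤ ‖a‖ * ‖b‖ := by
  apply abs_le_of_sq_le_sq _ (by positivity)
  rw [mul_pow, norm_sq_eq, norm_sq_eq]
  unfold dot
  nlinarith [sq_nonneg (a 0 * b 1 - a 1 * b 0)]

lemma abs_det_le (a b : E) : |det a b| ≤ ‖a‖ * ‖b‖ := by
  apply abs_le_of_sq_le_sq _ (by positivity)
  rw [mul_pow, norm_sq_eq, norm_sq_eq]
  unfold det
  nlinarith [sq_nonneg (a 0 * b 0 + a 1 * b 1)]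

@[simp] lemma norm_rot (a : E) : ‖rot a‖ = ‖a‖ := by
  have h : ‖rot a‖ ^ 2 = ‖a‖ ^ 2 := by
    rw [norm_sq_eq, norm_sq_eq]; simp; ring
  exact (pow_left_inj₀ (norm_nonneg _) (norm_nonneg _) two_ne_zero).1 h

/-- a vector orthogonal to `n` is a multiple of `rot n` -/
lemma eq_smul_rot {n d : E} (hn : n ≠ 0) (h : dot n d = 0) :
    d = (dot (rot n) d / dot n n) • rot n := by
  have hp := dot_self_pos hn
  have h' : n 0 * d 0 + n 1 * d 1 = 0 := h
  have hpp : dot n n ≠ 0 := ne_of_gt hp
  have e0 : dot (rot n) d / dot n n * (- n 1) = d 0 := by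
    rw [div_mul_eq_mul_div, div_eq_iff hpp]
    simp only [dot, rot_zero', rot_one']
    linear_combination (-n 0) * h'
  have e1 : dot (rot n) d / dot n n * (n 0) = d 1 := by
    rw [div_mul_eq_mul_div, div_eq_iff hpp]
    simp only [dot, rot_zero', rot_one']
    linear_combination (-n 1) * h'
  apply ext2
  · rw [PiLp.smul_apply, smul_eq_mul, rot_zero', e0]
  · rw [PiLp.smul_apply, smul_eq_mul, rot_one', e1]

/-- every continuous functional is `dot n` -/
lemma exists_dot (f : E →L[ℝ] ℝ) : ∃ n : E, ∀ y, f y = dot n y := by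
  refine ⟨!₂[f (!₂[1,0]), f (!₂[0,1])], fun y => ?_⟩
  have h : y = y 0 • (!₂[1,0] : E) + y 1 • (!₂[0,1] : E) := by
    ext i; fin_cases i <;> simp
  conv_lhs => rw [h]
  simp [dot, mul_comm]

/-- a normal tiling of the plane by convex tiles, indexed by `ι` -/
structure CT (ι : Type*) where
  P : ι → Set E
  u : ℝ
  U : ℝ
  u_pos : 0 < u
  conv : ∀ i, Convex ℝ (P i)
  cpt : ∀ i, IsCompact (P i)
  inball : ∀ i, ∃ x, closedBall x u ⊆ P i
  outball : ∀ i, ∃ x, P i ⊆ closedBall x U
  cover : ∀ x, ∃ i, x ∈ P i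
  disj : ∀ i j, i ≠ j → Disjoint (interior (P i)) (interior (P j))

namespace CT

variable {ι : Type*} (T : CT ι)

/-- vertices: points in at least three tiles -/
def V : Set E := {x | ∃ i j k, i ≠ j ∧ j ≠ k ∧ i ≠ k ∧ x ∈ T.P i ∧ x ∈ T.P j ∧ x ∈ T.P k}

lemma closed (i : ι) : IsClosed (T.P i) := (T.cpt i).isClosed

lemma dist_le {i : ι} {x y : E} (hx : x ∈ T.P i) (hy : y ∈ T.P i) : dist x y ≤ 2 * T.U := by
  obtain ⟨z, hz⟩ := T.outball i
  have h1 := mem_closedBall.1 (hz hx)
  have h2 := mem_closedBall.1 (hz hy)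
  calc dist x y ≤ dist x z + dist y z := dist_triangle_right x y z
    _ ≤ 2 * T.U := by linarith

lemma nonempty_interior (i : ι) : (interior (T.P i)).Nonempty := by
  obtain ⟨x, hx⟩ := T.inball i
  exact ⟨x, interior_mono hx (by
    rw [interior_closedBall _ T.u_pos.ne']; exact mem_ball_self T.u_pos)⟩

lemma nonempty (i : ι) : (T.P i).Nonempty := (T.nonempty_interior i).mono interior_subset

lemma closure_interior (i : ι) : closure (interior (T.P i)) = T.P i := by
  rw [(T.conv i).closure_interior_eq_closure_of_nonempty_interior (T.nonempty_interior i),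
    (T.closed i).closure_eq]

lemma U_nonneg (i : ι) : 0 ≤ T.U := by
  obtain ⟨x, hx⟩ := T.nonempty i
  have := T.dist_le hx hx
  rw [dist_self] at this
  linarith

include T in
lemma nonempty_index : Nonempty ι := by
  obtain ⟨i, _⟩ := T.cover 0
  exact ⟨i⟩

/-- if an open set meets the tile, it meets the interior -/
lemma inter_interior_nonempty {i : ι} {O : Set E} (hO : IsOpen O) (h : (O ∩ T.P i).Nonempty) :
    (O ∩ interior (T.P i)).Nonempty := by
  obtain ⟨x, hxO, hx⟩ := h
  rw [← T.closure_interior i] at hx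
  exact mem_closure_iff.1 hx O hO hxO

/-- a tile meeting the interior of another one is equal to it -/
lemma eq_of_mem_interior {i j : ι} {x : E} (hi : x ∈ interior (T.P i)) (hj : x ∈ T.P j) :
    i = j := by
  by_contra hne
  obtain ⟨y, hy1, hy2⟩ := T.inter_interior_nonempty isOpen_interior ⟨x, hi, hj⟩
  exact Set.disjoint_left.1 (T.disj i j hne) hy1 hy2

open MeasureTheory in
/-- uniform local finiteness -/
lemma exists_card_le (r : ℝ) : ∃ N : ℕ, ∀ (x : E) (s : Finset ι),
    (∀ i ∈ s, (T.P i ∩ closedBall x r).Nonempty) → s.card ≤ N := by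
  obtain ⟨i0⟩ := T.nonempty_index
  have hU := T.U_nonneg i0
  have hvpos : 0 < volume (ball (0 : E) T.u) := measure_ball_pos _ _ T.u_pos
  have hvfin : volume (ball (0 : E) T.u) ≠ ⊤ := measure_ball_lt_top.ne
  have hwfin : volume (closedBall (0 : E) (r + 2 * T.U)) ≠ ⊤ := measure_closedBall_lt_top.ne
  obtain ⟨N, hN⟩ : ∃ N : ℕ, volume (closedBall (0 : E) (r + 2 * T.U)) / volume (ball (0 : E) T.u) < N :=
    ENNReal.exists_nat_gt (ENNReal.div_ne_top hwfin hvpos.ne')
  refine ⟨N, fun x s hs => ?_⟩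
  choose c hc using T.inball
  have hsub : ∀ i, ball (c i) T.u ⊆ interior (T.P i) := fun i =>
    interior_maximal (ball_subset_closedBall.trans (hc i)) isOpen_ball
  have hdisj : Set.PairwiseDisjoint (s : Set ι) (fun i => ball (c i) T.u) := by
    intro i _ j _ hij
    exact (T.disj i j hij).mono (hsub i) (hsub j)
  have hle : volume (⋃ i ∈ s, ball (c i) T.u) ≤ volume (closedBall x (r + 2 * T.U)) := by
    apply measure_mono
    intro y hy
    simp only [mem_iUnion] at hy
    obtain ⟨i, hi, hy⟩ := hy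
    obtain ⟨z, hz1, hz2⟩ := hs i hi
    have h1 := T.dist_le (interior_subset (hsub i hy)) hz1
    have h2 := mem_closedBall.1 hz2
    rw [mem_closedBall]
    linarith [dist_triangle y z x]
  rw [measure_biUnion_finset hdisj (fun i _ => measurableSet_ball)] at hle
  simp only [Measure.addHaar_ball_center (volume : Measure E),
    Measure.addHaar_closedBall_center (volume : Measure E)] at hle
  rw [Finset.sum_const, nsmul_eq_mul] at hle
  by_contra hcon
  push Not at hcon
  have h3 : (N : ENNReal) * volume (ball (0 : E) T.u) ≤ volume (closedBall (0 : E) (r + 2 * T.U)) :=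
    le_trans (by gcongr) hle
  have h4 : (N : ENNReal) ≤ volume (closedBall (0 : E) (r + 2 * T.U)) / volume (ball (0 : E) T.u) := by
    rw [ENNReal.le_div_iff_mul_le (Or.inl hvpos.ne') (Or.inl hvfin)]
    exact h3
  exact absurd hN (not_lt.2 h4)

/-- local finiteness -/
lemma finite_meet (x : E) (r : ℝ) : {i | (T.P i ∩ closedBall x r).Nonempty}.Finite := by
  obtain ⟨N, hN⟩ := T.exists_card_le r
  by_contra hinf
  obtain ⟨s, hs, hc⟩ := Set.Infinite.exists_subset_card_eq hinf (N + 1)
  have := hN x s (fun i hi => hs (by exact_mod_cast hi))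
  omega

lemma finite_mem (x : E) : {i | x ∈ T.P i}.Finite := by
  refine (T.finite_meet x 0).subset (fun i hi => ⟨x, hi, by simp⟩)

/-- near `x` only the tiles containing `x` matter -/
lemma exists_ball_only (x : E) : ∃ ρ > 0, ∀ i, (T.P i ∩ ball x ρ).Nonempty → x ∈ T.P i := by
  have hfin := T.finite_meet x 1
  set F : Set ι := {i | (T.P i ∩ closedBall x 1).Nonempty ∧ x ∉ T.P i} with hF
  have hFfin : F.Finite := hfin.subset (fun i hi => hi.1)
  have hcl : IsClosed (⋃ i ∈ F, T.P i) := hFfin.isClosed_biUnion (fun i _ => T.closed i)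
  have hx : x ∈ (⋃ i ∈ F, T.P i)ᶜ := by
    simp only [mem_compl_iff, mem_iUnion, not_exists]
    intro i hi hxi
    exact hi.2 hxi
  obtain ⟨ρ, hρ, hball⟩ := Metric.isOpen_iff.1 hcl.isOpen_compl x hx
  refine ⟨min ρ 1, lt_min hρ one_pos, fun i hi => ?_⟩
  by_contra hxi
  obtain ⟨y, hy1, hy2⟩ := hi
  have hy3 : y ∈ ball x ρ := ball_subset_ball (min_le_left _ _) hy2
  have hy4 : y ∈ closedBall x 1 := ball_subset_closedBall (ball_subset_ball (min_le_right _ _) hy2)
  have hiF : i ∈ F := ⟨⟨y, hy1, hy4⟩, hxi⟩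
  exact hball hy3 (mem_biUnion hiF hy1)

/-- separation of two tiles -/
lemma sep {i j : ι} (hij : i ≠ j) : ∃ (n : E) (s : ℝ), n ≠ 0 ∧ (∀ y ∈ T.P i, dot n y ≤ s) ∧
    (∀ y ∈ T.P j, s ≤ dot n y) := by
  obtain ⟨f, s, h1, h2⟩ := geometric_hahn_banach_open_open ((T.conv i).interior) isOpen_interior
    ((T.conv j).interior) isOpen_interior (T.disj i j hij)
  obtain ⟨n, hn⟩ := exists_dot f
  refine ⟨n, s, ?_, ?_, ?_⟩
  · rintro rfl
    obtain ⟨a, ha⟩ := T.nonempty_interior i
    obtain ⟨b, hb⟩ := T.nonempty_interior j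
    have e1 := h1 a ha
    have e2 := h2 b hb
    rw [hn] at e1 e2
    simp at e1 e2
    linarith
  · intro y hy
    rw [← T.closure_interior i] at hy
    have hcl : IsClosed {y | dot n y ≤ s} := isClosed_le (continuous_dot n) continuous_const
    refine closure_minimal (fun z hz => ?_) hcl hy
    have := h1 z hz
    rw [hn] at this
    exact this.le
  · intro y hy
    rw [← T.closure_interior j] at hy
    have hcl : IsClosed {y | s ≤ dot n y} := isClosed_le continuous_const (continuous_dot n)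
    refine closure_minimal (fun z hz => ?_) hcl hy
    have := h2 z hz
    rw [hn] at this
    exact this.le

/-- strict inequality in the interior -/
lemma dot_lt_of_interior {A : Set E} {n : E} {s : ℝ} (hn : n ≠ 0) (h : ∀ y ∈ A, dot n y ≤ s)
    {y : E} (hy : y ∈ interior A) : dot n y < s := by
  rcases (h y (interior_subset hy)).lt_or_eq with h1 | h1
  · exact h1
  exfalso
  have hnhds := mem_interior_iff_mem_nhds.1 hy
  have hcont : Filter.Tendsto (fun t : ℝ => y + t • n) (nhds 0) (nhds (y + (0:ℝ) • n)) := by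
    apply Continuous.tendsto
    fun_prop
  rw [zero_smul, add_zero] at hcont
  have hev := hcont hnhds
  obtain ⟨t, ht, htpos⟩ : ∃ t : ℝ, y + t • n ∈ A ∧ 0 < t := by
    have h2 : ∀ᶠ t : ℝ in nhds 0, y + t • n ∈ A := hev
    have h3 : ∀ᶠ t : ℝ in nhdsWithin 0 (Ioi 0), y + t • n ∈ A := nhdsWithin_le_nhds h2
    obtain ⟨t, h4, h5⟩ := (h3.and self_mem_nhdsWithin).exists
    exact ⟨t, h4, h5⟩
  have h6 := h _ ht
  have h7 := dot_self_pos hn
  simp only [dot_add, dot_smul] at h6
  nlinarith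

/-- exactly two tiles at `x`: the local picture -/
lemma two_tiles {i j : ι} (hij : i ≠ j) {x : E} (hi : x ∈ T.P i) (hj : x ∈ T.P j)
    (hx : x ∉ T.V) : ∃ (n : E) (ρ : ℝ), n ≠ 0 ∧ 0 < ρ ∧
      (∀ y ∈ T.P i, dot n y ≤ dot n x) ∧ (∀ y ∈ T.P j, dot n x ≤ dot n y) ∧
      (∀ y ∈ ball x ρ, dot n y ≤ dot n x → y ∈ T.P i) ∧
      (∀ y ∈ ball x ρ, dot n x ≤ dot n y → y ∈ T.P j) := by
  obtain ⟨n, s, hn, h1, h2⟩ := T.sep hij
  have hs : dot n x = s := le_antisymm (h1 x hi) (h2 x hj)
  obtain ⟨ρ, hρ, hball⟩ := T.exists_ball_only x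
  have honly : ∀ y ∈ ball x ρ, y ∈ T.P i ∨ y ∈ T.P j := by
    intro y hy
    obtain ⟨k, hk⟩ := T.cover y
    have hxk := hball k ⟨y, hk, hy⟩
    by_contra hcon
    push Not at hcon
    have hki : k ≠ i := by rintro rfl; exact hcon.1 hk
    have hkj : k ≠ j := by rintro rfl; exact hcon.2 hk
    exact hx ⟨i, j, k, hij, hkj.symm, hki.symm, hi, hj, hxk⟩
  -- approximating points
  have key : ∀ (σ : ℝ) (A : Set E), IsClosed A → (σ = 1 ∨ σ = -1) →
      (∀ y ∈ ball x ρ, σ * dot n y < σ * dot n x → y ∈ A) →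
      ∀ y ∈ ball x ρ, σ * dot n y ≤ σ * dot n x → y ∈ A := by
    intro σ A hA hσ hlt y hy hle
    rcases hle.lt_or_eq with h | h
    · exact hlt y hy h
    have hcont : Filter.Tendsto (fun t : ℝ => y - (σ * t) • n) (nhdsWithin 0 (Ioi 0)) (nhds y) := by
      have : Filter.Tendsto (fun t : ℝ => y - (σ * t) • n) (nhds 0) (nhds (y - (σ * (0:ℝ)) • n)) := by
        apply Continuous.tendsto
        fun_prop
      rw [mul_zero, zero_smul, sub_zero] at this
      exact this.mono_left nhdsWithin_le_nhds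
    refine hA.mem_of_tendsto hcont ?_
    have hev : ∀ᶠ t : ℝ in nhdsWithin 0 (Ioi 0), y - (σ * t) • n ∈ ball x ρ :=
      hcont (isOpen_ball.mem_nhds hy)
    filter_upwards [hev, self_mem_nhdsWithin] with t ht htpos
    apply hlt _ ht
    have h7 := dot_self_pos hn
    have htp : (0:ℝ) < t := htpos
    rw [dot_sub, dot_smul, mul_sub, h]
    have : σ * (σ * t * dot n n) = t * dot n n := by
      rcases hσ with rfl | rfl <;> ring
    rw [this]
    have : 0 < t * dot n n := by positivity
    linarith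
  refine ⟨n, ρ, hn, hρ, fun y hy => hs ▸ h1 y hy, fun y hy => hs ▸ h2 y hy, ?_, ?_⟩
  · have := key 1 (T.P i) (T.closed i) (Or.inl rfl) (fun y hy hlt => by
      rcases honly y hy with h | h
      · exact h
      · have := h2 y h
        rw [one_mul, one_mul, hs] at hlt
        linarith)
    intro y hy hle
    exact this y hy (by simpa using hle)
  · have := key (-1) (T.P j) (T.closed j) (Or.inr rfl) (fun y hy hlt => by
      rcases honly y hy with h | h
      · have := h1 y h
        rw [hs] at hlt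
        linarith
      · exact h)
    intro y hy hle
    exact this y hy (by linarith)

end CT

end Pool.Agent.Helper26.CD
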