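import Pool.Agent.Helper26.CDBase

/-!
Edges of a convex normal tiling, adjacency, chains of tiles along segments.
-/

open Set Metric

namespace Pool.Agent.Helper26.CD

/-- a point on the line `dot n = s` strictly between `a` and `b` lies in the open segment -/
lemma mem_openSegment_of_line {n a b y : E} (hn : n ≠ 0) (ha : dot n a = dot n y)
    (hb : dot n b = dot n y) (h1 : dot (rot n) a < dot (rot n) y)
    (h2 : dot (rot n) y < dot (rot n) b) : y ∈ openSegment ℝ a b := by
  have hab : 0 < dot (rot n) b - dot (rot n) a := by linarith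
  have hd : b - a = (dot (rot n) (b - a) / dot n n) • rot n :=
    eq_smul_rot hn (by rw [dot_sub]; linarith)
  have hd' : y - a = (dot (rot n) (y - a) / dot n n) • rot n :=
    eq_smul_rot hn (by rw [dot_sub]; linarith)
  have hp := dot_self_pos hn
  refine ⟨(dot (rot n) b - dot (rot n) y) / (dot (rot n) b - dot (rot n) a),
    (dot (rot n) y - dot (rot n) a) / (dot (rot n) b - dot (rot n) a), by
      apply div_pos <;> linarith, by apply div_pos <;> linarith, by
      rw [← add_div]; rw [div_eq_one_iff_eq hab.ne']; ring, ?_⟩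
  set t := (dot (rot n) y - dot (rot n) a) / (dot (rot n) b - dot (rot n) a) with ht
  have h3 : (dot (rot n) b - dot (rot n) y) / (dot (rot n) b - dot (rot n) a) = 1 - t := by
    rw [ht, eq_sub_iff_add_eq, ← add_div, div_eq_one_iff_eq hab.ne']; ring
  rw [h3]
  have h4 : y - a = t • (b - a) := by
    rw [hd', hd, smul_smul]
    congr 1
    rw [ht, dot_sub, dot_sub]
    field_simp
  have h5 : y = a + t • (b - a) := by rw [← h4]; abel
  rw [h5]
  module

lemma dot_eq_of_mem_segment {n a b y : E} {s : ℝ} (ha : dot n a = s) (hb : dot n b = s)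
    (hy : y ∈ segment ℝ a b) : dot n y = s := by
  obtain ⟨α, β, h1, h2, h3, rfl⟩ := hy
  rw [dot_add, dot_smul, dot_smul, ha, hb]
  have : α = 1 - β := by linarith
  rw [this]; ring

namespace CT

variable {ι : Type*} (T : CT ι)

/-- half disc lemma: if `a, b ∈ A` (convex), on the line `dot n = s`, and `q ∈ A` strictly below,
then near a point `y` of the open segment, all points below the line are in `A` -/
lemma half_disc {A : Set E} (hA : Convex ℝ A) {n : E} (hn : n ≠ 0) {s : ℝ} {a b y q : E}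
    (ha : a ∈ A) (hb : b ∈ A) (hq : q ∈ A) (hsa : dot n a = s) (hsb : dot n b = s)
    (hsq : dot n q < s) (hab : a ≠ b) (hy : y ∈ openSegment ℝ a b) :
    ∀ᶠ z in nhds y, dot n z ≤ s → z ∈ A := by
  -- wlog order along rot n
  have hsy : dot n y = s := dot_eq_of_mem_segment hsa hsb (openSegment_subset_segment _ _ _ hy)
  have hne : dot (rot n) a ≠ dot (rot n) b := by
    intro h
    apply hab
    have := eq_smul_rot hn (d := b - a) (by rw [dot_sub]; linarith)
    rw [dot_sub, h, sub_self, zero_div, zero_smul] at this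
    exact (sub_eq_zero.1 this).symm
  have main : ∀ a b : E, a ∈ A → b ∈ A → dot n a = s → dot n b = s →
      dot (rot n) a < dot (rot n) b → y ∈ openSegment ℝ a b →
      ∀ᶠ z in nhds y, dot n z ≤ s → z ∈ A := by
    intro a b ha hb hsa hsb hlt hy
    have hry : dot (rot n) a < dot (rot n) y ∧ dot (rot n) y < dot (rot n) b := by
      obtain ⟨α, β, h1, h2, h3, rfl⟩ := hy
      rw [dot_add, dot_smul, dot_smul]
      have : α = 1 - β := by linarith
      subst this
      constructor <;> nlinarith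
    have hden : 0 < s - dot n q := by linarith
    -- beta and y'
    let β : E → ℝ := fun z => (s - dot n z) / (s - dot n q)
    let y' : E → E := fun z => (1 - β z)⁻¹ • (z - β z • q)
    have hβc : Continuous β := by
      have := continuous_dot n
      fun_prop
    have hβy : β y = 0 := by simp [β, hsy]
    have hy'y : y' y = y := by simp [y', hβy]
    have hy'c : ContinuousAt y' y := by
      refine ContinuousAt.smul (f := fun z => (1 - β z)⁻¹) (g := fun z => z - β z • q) ?_ ?_
      · refine ContinuousAt.inv₀ (f := fun z => 1 - β z) ?_ ?_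
        · exact (continuous_const.sub hβc).continuousAt
        · rw [hβy]; norm_num
      · exact (continuous_id.sub (hβc.smul continuous_const)).continuousAt
    have e1 : ∀ᶠ z in nhds y, β z < 1 := by
      have := hβc.continuousAt (x := y)
      exact this.eventually_lt continuousAt_const (by rw [hβy]; norm_num)
    have hrc : ContinuousAt (fun z => dot (rot n) (y' z)) y :=
      (continuous_dot (rot n)).continuousAt.comp hy'c
    have e2 : ∀ᶠ z in nhds y, dot (rot n) a < dot (rot n) (y' z) := by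
      apply ContinuousAt.eventually_lt continuousAt_const hrc
      rw [hy'y]; exact hry.1
    have e3 : ∀ᶠ z in nhds y, dot (rot n) (y' z) < dot (rot n) b := by
      apply ContinuousAt.eventually_lt hrc continuousAt_const
      rw [hy'y]; exact hry.2
    filter_upwards [e1, e2, e3] with z h1 h2 h3 hz
    have hβ0 : 0 ≤ β z := div_nonneg (by linarith) hden.le
    have h1' : (0:ℝ) < 1 - β z := by linarith
    have hdy' : dot n (y' z) = s := by
      simp only [y']
      rw [dot_smul, dot_sub, dot_smul, inv_mul_eq_iff_eq_mul₀ h1'.ne']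
      have : β z * (s - dot n q) = s - dot n z := by
        simp only [β]; field_simp
      linarith
    have hmem : y' z ∈ A := by
      apply hA.segment_subset ha hb
      apply openSegment_subset_segment
      exact mem_openSegment_of_line hn (by rw [hsa, hdy']) (by rw [hsb, hdy']) h2 h3
    have hz' : z = (1 - β z) • y' z + β z • q := by
      simp only [y']
      rw [smul_smul, mul_inv_cancel₀ h1'.ne', one_smul]
      abel
    rw [hz']
    exact hA hmem hq h1'.le hβ0 (by ring)
  rcases lt_or_gt_of_ne hne with h | h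
  · exact main a b ha hb hsa hsb h hy
  · exact main b a hb ha hsb hsa h (by rwa [openSegment_symm])

/-- no vertex in the interior of a common segment -/
lemma not_vertex_of_open {i j : ι} (hij : i ≠ j) {a b y : E} (hai : a ∈ T.P i) (haj : a ∈ T.P j)
    (hbi : b ∈ T.P i) (hbj : b ∈ T.P j) (hab : a ≠ b) (hy : y ∈ openSegment ℝ a b) :
    y ∉ T.V := by
  intro hyV
  obtain ⟨n, s, hn, h1, h2⟩ := T.sep hij
  have hsa : dot n a = s := le_antisymm (h1 a hai) (h2 a haj)
  have hsb : dot n b = s := le_antisymm (h1 b hbi) (h2 b hbj)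
  obtain ⟨q, hq⟩ := T.nonempty_interior i
  obtain ⟨q', hq'⟩ := T.nonempty_interior j
  have hsq : dot n q < s := dot_lt_of_interior hn h1 hq
  have hsq' : dot (-n) q' < -s := dot_lt_of_interior (neg_ne_zero.2 hn)
    (fun y hy => by rw [neg_dot]; linarith [h2 y hy]) hq'
  have e1 := half_disc (T.conv i) hn hai hbi (interior_subset hq) hsa hsb hsq hab hy
  have e2 := half_disc (T.conv j) (neg_ne_zero.2 hn) haj hbj (interior_subset hq')
    (by rw [neg_dot, hsa]) (by rw [neg_dot, hsb]) hsq' hab hy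
  -- a third tile
  obtain ⟨k, hki, hkj, hyk⟩ : ∃ k, k ≠ i ∧ k ≠ j ∧ y ∈ T.P k := by
    obtain ⟨i1, j1, k1, h12, h23, h13, m1, m2, m3⟩ := hyV
    by_cases c1 : i1 = i
    · by_cases c2 : j1 = j
      · exact ⟨k1, fun h => h13 (c1.trans h.symm), fun h => h23 (c2.trans h.symm), m3⟩
      · exact ⟨j1, fun h => h12 (c1.trans h.symm), c2, m2⟩
    · by_cases c2 : i1 = j
      · by_cases c3 : j1 = i
        · exact ⟨k1, fun h => h23 (c3.trans h.symm), fun h => h13 (c2.trans h.symm), m3⟩
        · exact ⟨j1, c3, fun h => h12 (c2.trans h.symm), m2⟩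
      · exact ⟨i1, c1, c2, m1⟩
  have hev : ∀ᶠ z in nhds y, z ∈ T.P i ∨ z ∈ T.P j := by
    filter_upwards [e1, e2] with z h3 h4
    rcases le_total (dot n z) s with h | h
    · exact Or.inl (h3 h)
    · exact Or.inr (h4 (by rw [neg_dot]; linarith))
  obtain ⟨O, hO, hOo, hyO⟩ := _root_.eventually_nhds_iff.1 hev
  obtain ⟨z, hz1, hz2⟩ := T.inter_interior_nonempty hOo ⟨y, hyO, hyk⟩
  rcases hO z hz1 with h | h
  · exact hki (T.eq_of_mem_interior hz2 h)
  · exact hkj (T.eq_of_mem_interior hz2 h)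

/-- adjacency of tiles: sharing a non-vertex point -/
def Adj (i j : ι) : Prop := i ≠ j ∧ ∃ x, x ∈ T.P i ∧ x ∈ T.P j ∧ x ∉ T.V

lemma Adj.symm' {i j : ι} (h : T.Adj i j) : T.Adj j i := by
  obtain ⟨h1, x, h2, h3, h4⟩ := h
  exact ⟨h1.symm, x, h3, h2, h4⟩

/-- the adjacency graph of the tiles (the graph of the dual tiling) -/
def G : SimpleGraph ι where
  Adj := T.Adj
  symm := ⟨fun _ _ h => Adj.symm' T h⟩
  loopless := ⟨fun _ h => h.1 rfl⟩

lemma adj_of_two {i j : ι} (hij : i ≠ j) {a b : E} (hai : a ∈ T.P i) (haj : a ∈ T.P j)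
    (hbi : b ∈ T.P i) (hbj : b ∈ T.P j) (hab : a ≠ b) : T.Adj i j := by
  have hm : midpoint ℝ a b ∈ openSegment ℝ a b := by
    refine ⟨1/2, 1/2, by norm_num, by norm_num, by norm_num, ?_⟩
    rw [midpoint_eq_smul_add, invOf_eq_inv]
    module
  refine ⟨hij, midpoint ℝ a b, ?_, ?_, T.not_vertex_of_open hij hai haj hbi hbj hab hm⟩
  · exact (T.conv i).segment_subset hai hbi (openSegment_subset_segment _ _ _ hm)
  · exact (T.conv j).segment_subset haj hbj (openSegment_subset_segment _ _ _ hm)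

/-- three different tiles share at most one point -/
lemma eq_of_three {i j k : ι} (hij : i ≠ j) (hjk : j ≠ k) (hik : i ≠ k) {a b : E}
    (hai : a ∈ T.P i) (haj : a ∈ T.P j) (hak : a ∈ T.P k)
    (hbi : b ∈ T.P i) (hbj : b ∈ T.P j) (hbk : b ∈ T.P k) : a = b := by
  by_contra hab
  have hm : midpoint ℝ a b ∈ openSegment ℝ a b := by
    refine ⟨1/2, 1/2, by norm_num, by norm_num, by norm_num, ?_⟩
    rw [midpoint_eq_smul_add, invOf_eq_inv]
    module
  have hs := openSegment_subset_segment _ _ _ hm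
  exact T.not_vertex_of_open hij hai haj hbi hbj hab hm
    ⟨i, j, k, hij, hjk, hik, (T.conv i).segment_subset hai hbi hs,
      (T.conv j).segment_subset haj hbj hs, (T.conv k).segment_subset hak hbk hs⟩

lemma finite_V (x : E) (r : ℝ) : (T.V ∩ closedBall x r).Finite := by
  have hF := T.finite_meet x r
  set F := {i | (T.P i ∩ closedBall x r).Nonempty} with hFd
  have hsub : T.V ∩ closedBall x r ⊆ ⋃ p ∈ F ×ˢ (F ×ˢ F), {y | p.1 ≠ p.2.1 ∧ p.2.1 ≠ p.2.2 ∧
      p.1 ≠ p.2.2 ∧ y ∈ T.P p.1 ∧ y ∈ T.P p.2.1 ∧ y ∈ T.P p.2.2} := by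
    rintro y ⟨⟨i, j, k, h1, h2, h3, m1, m2, m3⟩, hy⟩
    simp only [mem_iUnion]
    exact ⟨⟨i, j, k⟩, ⟨⟨y, m1, hy⟩, ⟨y, m2, hy⟩, ⟨y, m3, hy⟩⟩, h1, h2, h3, m1, m2, m3⟩
  refine Set.Finite.subset (Set.Finite.biUnion (hF.prod (hF.prod hF)) ?_) hsub
  rintro ⟨i, j, k⟩ _
  apply Set.Subsingleton.finite
  rintro a ⟨h1, h2, h3, m1, m2, m3⟩ b ⟨_, _, _, l1, l2, l3⟩
  exact T.eq_of_three h1 h2 h3 m1 m2 m3 l1 l2 l3

lemma countable_V : T.V.Countable := by
  have : T.V = ⋃ n : ℕ, T.V ∩ closedBall 0 n := by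
    ext x
    simp only [mem_iUnion, mem_inter_iff, exists_and_left, iff_self_and]
    intro _
    obtain ⟨n, hn⟩ := exists_nat_ge ‖x‖
    exact ⟨n, by simpa using hn⟩
  rw [this]
  exact countable_iUnion (fun n => (T.finite_V 0 n).countable)

include T in
lemma countable_index : Countable ι := by
  have : (univ : Set ι) = ⋃ n : ℕ, {i | (T.P i ∩ closedBall 0 n).Nonempty} := by
    ext i
    simp only [mem_univ, mem_iUnion, true_iff]
    obtain ⟨x, hx⟩ := T.nonempty i
    obtain ⟨n, hn⟩ := exists_nat_ge ‖x‖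
    exact ⟨n, x, hx, by simpa using hn⟩
  rw [← countable_univ_iff, this]
  exact countable_iUnion (fun n => (T.finite_meet 0 n).countable)

lemma isClosed_V : IsClosed T.V := by
  rw [← isOpen_compl_iff, Metric.isOpen_iff]
  intro x hx
  have hf := T.finite_V x 1
  have hc : IsClosed (T.V ∩ closedBall x 1) := hf.isClosed
  obtain ⟨ρ, hρ, hb⟩ := Metric.isOpen_iff.1 hc.isOpen_compl x (fun h => hx h.1)
  refine ⟨min ρ 1, lt_min hρ one_pos, fun y hy hyV => ?_⟩
  exact hb (ball_subset_ball (min_le_left _ _) hy)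
    ⟨hyV, ball_subset_closedBall (ball_subset_ball (min_le_right _ _) hy)⟩

/-- a boundary point of a tile lies in another tile -/
lemma exists_other {i : ι} {x : E} (hx : x ∉ interior (T.P i)) : ∃ j, j ≠ i ∧ x ∈ T.P j := by
  obtain ⟨ρ, hρ, hball⟩ := T.exists_ball_only x
  have : ¬ ball x ρ ⊆ T.P i := fun h => hx (mem_interior.2 ⟨_, h, isOpen_ball, mem_ball_self hρ⟩)
  obtain ⟨y, hy, hyi⟩ := not_subset.1 this
  obtain ⟨k, hk⟩ := T.cover y
  exact ⟨k, by rintro rfl; exact hyi hk, hball k ⟨y, hk, hy⟩⟩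

lemma not_mem_V_of_interior {i : ι} {x : E} (hx : x ∈ interior (T.P i)) : x ∉ T.V := by
  rintro ⟨a, b, c, h1, h2, h3, m1, m2, m3⟩
  have e1 := T.eq_of_mem_interior hx m1
  have e2 := T.eq_of_mem_interior hx m2
  exact h1 (e1.symm.trans e2)

/-- extension: from a non-vertex common point one can go a bit further -/
lemma extend {i j : ι} (hij : i ≠ j) {a x : E} (hai : a ∈ T.P i) (haj : a ∈ T.P j)
    (ha : a ∉ T.V) (hxi : x ∈ T.P i) (hxj : x ∈ T.P j) :
    ∃ s : ℝ, 0 < s ∧ a + s • (a - x) ∈ T.P i ∧ a + s • (a - x) ∈ T.P j := by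
  obtain ⟨n, ρ, hn, hρ, h1, h2, h3, h4⟩ := T.two_tiles hij hai haj ha
  have hx : dot n x = dot n a := le_antisymm (h1 x hxi) (h2 x hxj)
  have hcont : Filter.Tendsto (fun t : ℝ => a + t • (a - x)) (nhdsWithin 0 (Ioi 0)) (nhds a) := by
    have : Filter.Tendsto (fun t : ℝ => a + t • (a - x)) (nhds 0) (nhds (a + (0:ℝ) • (a - x))) := by
      apply Continuous.tendsto
      fun_prop
    rw [zero_smul, add_zero] at this
    exact this.mono_left nhdsWithin_le_nhds
  have hev : ∀ᶠ t : ℝ in nhdsWithin 0 (Ioi 0), a + t • (a - x) ∈ ball a ρ :=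
    hcont (isOpen_ball.mem_nhds (mem_ball_self hρ))
  obtain ⟨t, ht, htpos⟩ := (hev.and self_mem_nhdsWithin).exists
  have hd : dot n (a + t • (a - x)) = dot n a := by simp [hx]
  exact ⟨t, htpos, h3 _ ht hd.le, h4 _ ht hd.ge⟩

/-- the description of the common edge of two adjacent tiles -/
lemma exists_edge {i j : ι} (h : T.Adj i j) : ∃ a b : E, a ≠ b ∧ a ∈ T.V ∧ b ∈ T.V ∧
    T.P i ∩ T.P j = segment ℝ a b ∧ ∀ y ∈ openSegment ℝ a b, y ∉ T.V := by
  obtain ⟨hij, x, hxi, hxj, hx⟩ := h
  obtain ⟨n, ρ, hn, hρ, h1, h2, h3, h4⟩ := T.two_tiles hij hxi hxj hx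
  set d := rot n with hd
  have hdn : d ≠ 0 := rot_ne hn
  have hdpos : 0 < ‖d‖ := norm_pos_iff.2 hdn
  set S : Set ℝ := {t : ℝ | x + t • d ∈ T.P i ∩ T.P j} with hS
  have hcont : Continuous (fun t : ℝ => x + t • d) := by fun_prop
  have hScl : IsClosed S := ((T.closed i).inter (T.closed j)).preimage hcont
  have hSconv : Convex ℝ S := by
    intro t ht t' ht' α β hα hβ hαβ
    have : x + (α • t + β • t') • d = α • (x + t • d) + β • (x + t' • d) := by
      have : α = 1 - β := by linarith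
      subst this
      simp only [smul_eq_mul]
      module
    refine ⟨?_, ?_⟩
    · rw [this]; exact (T.conv i) ht.1 ht'.1 hα hβ hαβ
    · rw [this]; exact (T.conv j) ht.2 ht'.2 hα hβ hαβ
  have hSbdd : S ⊆ Icc (-(2 * T.U / ‖d‖)) (2 * T.U / ‖d‖) := by
    intro t ht
    have := T.dist_le ht.1 hxi
    rw [dist_eq_norm, add_sub_cancel_left, norm_smul, Real.norm_eq_abs] at this
    rw [← le_div_iff₀ hdpos] at this
    exact abs_le.1 this
  have hScpt : IsCompact S := isCompact_Icc.of_isClosed_subset hScl hSbdd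
  have hS0 : ∀ t : ℝ, |t| < ρ / ‖d‖ → t ∈ S := by
    intro t ht
    have hb : x + t • d ∈ ball x ρ := by
      rw [mem_ball, dist_eq_norm, add_sub_cancel_left, norm_smul, Real.norm_eq_abs]
      rwa [lt_div_iff₀ hdpos] at ht
    have hdd : dot n (x + t • d) = dot n x := by simp [hd]
    exact ⟨h3 _ hb hdd.le, h4 _ hb hdd.ge⟩
  have hSne : S.Nonempty := ⟨0, hS0 0 (by rw [abs_zero]; positivity)⟩
  have ht0 := hScpt.sInf_mem hSne
  have ht1 := hScpt.sSup_mem hSne
  set t0 := sInf S
  set t1 := sSup S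
  have hle : ∀ t ∈ S, t0 ≤ t ∧ t ≤ t1 := fun t ht =>
    ⟨csInf_le hScpt.bddBelow ht, le_csSup hScpt.bddAbove ht⟩
  have hη : 0 < ρ / ‖d‖ := by positivity
  have ht0neg : t0 < 0 := by
    have := (hle (-(ρ / ‖d‖ / 2)) (hS0 _ (by rw [abs_neg, abs_of_pos (by positivity)]; linarith))).1
    linarith
  have ht1pos : 0 < t1 := by
    have := (hle (ρ / ‖d‖ / 2) (hS0 _ (by rw [abs_of_pos (by positivity)]; linarith))).2
    linarith
  have hline : ∀ y, y ∈ T.P i → y ∈ T.P j → ∃ t ∈ S, y = x + t • d := by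
    intro y hyi hyj
    have hy : dot n y = dot n x := le_antisymm (h1 y hyi) (h2 y hyj)
    have := eq_smul_rot hn (d := y - x) (by rw [dot_sub]; linarith)
    have h5 : y = x + (dot (rot n) (y - x) / dot n n) • d := by
      rw [hd, ← this]; abel
    refine ⟨dot (rot n) (y - x) / dot n n, ?_, h5⟩
    show x + (dot (rot n) (y - x) / dot n n) • d ∈ T.P i ∩ T.P j
    rw [← h5]
    exact ⟨hyi, hyj⟩
  have hab : x + t0 • d ≠ x + t1 • d := by
    intro h
    have h5 : (t0 - t1) • d = 0 := by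
      rw [sub_smul, sub_eq_zero]; exact add_left_cancel h
    rcases smul_eq_zero.1 h5 with h6 | h6
    · linarith
    · exact hdn h6
  refine ⟨x + t0 • d, x + t1 • d, hab, ?_, ?_, ?_, ?_⟩
  · by_contra hV
    obtain ⟨s, hs, hs1, hs2⟩ := T.extend hij ht0.1 ht0.2 hV hxi hxj
    have : x + t0 • d + s • (x + t0 • d - x) = x + (t0 + s * t0) • d := by module
    rw [this] at hs1 hs2
    have := (hle _ ⟨hs1, hs2⟩).1
    nlinarith
  · by_contra hV
    obtain ⟨s, hs, hs1, hs2⟩ := T.extend hij ht1.1 ht1.2 hV hxi hxj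
    have : x + t1 • d + s • (x + t1 • d - x) = x + (t1 + s * t1) • d := by module
    rw [this] at hs1 hs2
    have := (hle _ ⟨hs1, hs2⟩).2
    nlinarith
  · apply Subset.antisymm
    · rintro y ⟨hyi, hyj⟩
      obtain ⟨t, ht, rfl⟩ := hline y hyi hyj
      obtain ⟨l1, l2⟩ := hle t ht
      have hpos : 0 < t1 - t0 := by linarith
      refine ⟨(t1 - t) / (t1 - t0), (t - t0) / (t1 - t0), div_nonneg (by linarith) hpos.le,
        div_nonneg (by linarith) hpos.le, by rw [← add_div, div_eq_one_iff_eq hpos.ne']; ring, ?_⟩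
      have e : (t1 - t) / (t1 - t0) = 1 - (t - t0) / (t1 - t0) := by
        rw [eq_sub_iff_add_eq, ← add_div, div_eq_one_iff_eq hpos.ne']; ring
      rw [e]
      have e2 : (t - t0) / (t1 - t0) * (t1 - t0) = t - t0 := by field_simp
      have e3 : t = t0 + (t - t0) / (t1 - t0) * (t1 - t0) := by rw [e2]; ring
      conv_rhs => rw [e3]
      module
    · exact fun y hy => ⟨(T.conv i).segment_subset ht0.1 ht1.1 hy,
        (T.conv j).segment_subset ht0.2 ht1.2 hy⟩
  · exact fun y hy => T.not_vertex_of_open hij ht0.1 ht0.2 ht1.1 ht1.2 hab hy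

end CT

end Pool.Agent.Helper26.CD
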