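import Mathlib

open Set Cardinal Filter MeasureTheory

namespace Pool.Agent.Helper26.CSets

/-- The result of the Suslin operation applied to the scheme `F`: the union over all
`g : ℕ → ℕ` of the intersections of the sets `F (g 0, ..., g (n-1))`. -/
def suslin {X : Type*} (F : List ℕ → Set X) : Set X :=
  {x | ∃ g : ℕ → ℕ, ∀ n, x ∈ F ((List.range n).map g)}

/-- C-sets (Selivanovskii): the smallest family of subsets of `X` which contains the open sets and
is closed under complements, countable unions and the Suslin operation. -/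
inductive CSet {X : Type*} [TopologicalSpace X] : Set X → Prop
  | isOpen (U : Set X) : IsOpen U → CSet U
  | compl (A : Set X) : CSet A → CSet Aᶜ
  | iUnion (A : ℕ → Set X) : (∀ n, CSet (A n)) → CSet (⋃ n, A n)
  | suslin (F : List ℕ → Set X) : (∀ s, CSet (F s)) → CSet (suslin F)

/-- `κ ≤ 𝔟`: every family of fewer than `κ` functions `ℕ → ℕ` is bounded modulo finite sets by a
single function. -/
def LeB (κ : Cardinal.{0}) : Prop :=
  ∀ (ι : Type) (f : ι → ℕ → ℕ), #ι < κ → ∃ g : ℕ → ℕ, ∀ i, ∀ᶠ n in atTop, f i n ≤ g n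

/-- König's lemma for bounded branches. -/
lemma konig (P : List ℕ → Prop) (b : ℕ → ℕ)
    (h : ∀ n, ∃ g : ℕ → ℕ, (∀ i, g i ≤ b i) ∧ ∀ j ≤ n, P ((List.range j).map g)) :
    ∃ g : ℕ → ℕ, (∀ i, g i ≤ b i) ∧ ∀ n, P ((List.range n).map g) := by
  have hcl : ∀ j, IsClosed {g : ℕ → ℕ | P ((List.range j).map g)} := by
    intro j
    rw [← isOpen_compl_iff, isOpen_iff_mem_nhds]
    intro g hg
    have h1 : (Set.pi (Set.Iio j) fun i => ({g i} : Set ℕ)) ∈ nhds g := by
      apply set_pi_mem_nhds (Set.finite_Iio j)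
      intro i _
      exact (isOpen_discrete _).mem_nhds rfl
    refine Filter.mem_of_superset h1 ?_
    intro g' hg'
    have h2 : (List.range j).map g' = (List.range j).map g := by
      apply List.map_congr_left
      intro i hi
      rw [List.mem_range] at hi
      exact hg' i hi
    simp only [mem_compl_iff, mem_ofPred_eq] at hg ⊢
    rwa [h2]
  set K : Set (ℕ → ℕ) := Set.pi univ (fun i => Set.Iic (b i)) with hK
  have hKc : IsCompact K := isCompact_univ_pi (fun i => (Set.finite_Iic _).isCompact)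
  have := IsCompact.nonempty_iInter_of_sequence_nonempty_isCompact_isClosed
    (fun n => K ∩ ⋂ j ∈ Set.Iic n, {g : ℕ → ℕ | P ((List.range j).map g)})
    (by
      intro n g hg
      refine ⟨hg.1, ?_⟩
      have := hg.2
      simp only [mem_Iic, mem_iInter] at this ⊢
      intro j hj
      exact this j (by omega))
    (by
      intro n
      obtain ⟨g, hg1, hg2⟩ := h n
      refine ⟨g, ?_, ?_⟩
      · intro i _; exact hg1 i
      · simp only [mem_Iic, mem_iInter]
        exact hg2)
    (hKc.inter_right (isClosed_biInter fun j _ => hcl j))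
    (fun n => (hKc.isClosed).inter (isClosed_biInter fun j _ => hcl j))
  obtain ⟨g, hg⟩ := this
  simp only [mem_iInter, mem_inter_iff, mem_Iic] at hg
  refine ⟨g, fun i => (hg 0).1 i trivial, fun n => (hg n).2 n le_rfl⟩

/-- modification of a function below `k` -/
def modif (w : ℕ → ℕ) (k m : ℕ) : ℕ → ℕ := fun i => if i < k then m else w i

lemma exists_modif {g w : ℕ → ℕ} (h : ∀ᶠ n in atTop, g n ≤ w n) : ∃ k m, ∀ i, g i ≤ modif w k m i := by
  obtain ⟨k, hk⟩ := eventually_atTop.mp h
  refine ⟨k, ∑ j ∈ Finset.range k, g j, fun i => ?_⟩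
  unfold modif
  split_ifs with hi
  · exact Finset.single_le_sum (f := g) (fun _ _ => Nat.zero_le _) (Finset.mem_range.mpr hi)
  · exact hk i (not_lt.mp hi)

/-- truncation of a function to a finitely supported one -/
lemma exists_finsupp (g : ℕ → ℕ) (n : ℕ) : ∃ g' : ℕ →₀ ℕ, (∀ i, g' i ≤ g i) ∧
    ∀ j ≤ n, (List.range j).map g' = (List.range j).map g := by
  refine ⟨Finsupp.onFinset (Finset.range n) (fun i => if i < n then g i else 0) ?_, ?_, ?_⟩
  · intro i hi
    by_contra h
    rw [Finset.mem_range] at h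
    simp [h] at hi
  · intro i
    simp only [Finsupp.onFinset_apply]
    split_ifs <;> omega
  · intro j hj
    apply List.map_congr_left
    intro i hi
    rw [List.mem_range] at hi
    simp only [Finsupp.onFinset_apply]
    rw [if_pos (by omega)]

/-- the set of points at which the scheme has a branch bounded by `b x` up to a finite
modification -/
def bsuslin {X : Type*} (F : List ℕ → Set X) (b : X → ℕ → ℕ) : Set X :=
  {x | ∃ k m, ∀ n, ∃ g : ℕ →₀ ℕ, (∀ i, g i ≤ modif (b x) k m i) ∧ ∀ j ≤ n, x ∈ F ((List.range j).map g)}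

lemma bsuslin_subset {X : Type*} (F : List ℕ → Set X) (b : X → ℕ → ℕ) : bsuslin F b ⊆ suslin F := by
  rintro x ⟨k, m, h⟩
  obtain ⟨g, -, hg⟩ := konig (fun s => x ∈ F s) (modif (b x) k m) (fun n => by
    obtain ⟨g, h1, h2⟩ := h n
    exact ⟨g, h1, h2⟩)
  exact ⟨g, hg⟩

lemma mem_bsuslin {X : Type*} (F : List ℕ → Set X) (b : X → ℕ → ℕ) {x : X} {g : ℕ → ℕ}
    (hg : ∀ n, x ∈ F ((List.range n).map g)) (h : ∀ᶠ n in atTop, g n ≤ b x n) : x ∈ bsuslin F b := by
  obtain ⟨k, m, hkm⟩ := exists_modif h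
  refine ⟨k, m, fun n => ?_⟩
  obtain ⟨g', h1, h2⟩ := exists_finsupp g n
  refine ⟨g', fun i => (h1 i).trans (hkm i), fun j hj => ?_⟩
  rw [h2 j hj]
  exact hg j

lemma measurableSet_bsuslin {X : Type*} [MeasurableSpace X] (F : List ℕ → Set X)
    (hF : ∀ s, MeasurableSet (F s)) (b : X → ℕ → ℕ) (hb : ∀ i m, MeasurableSet {x | m ≤ b x i}) :
    MeasurableSet (bsuslin F b) := by
  have e : bsuslin F b = ⋃ k : ℕ, ⋃ m : ℕ, ⋂ n : ℕ, ⋃ g : ℕ →₀ ℕ,
      ((⋂ i : ℕ, {x | g i ≤ modif (b x) k m i}) ∩ ⋂ j : ℕ, ⋂ _ : j ≤ n, F ((List.range j).map g)) := by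
    ext x
    simp only [bsuslin, mem_ofPred_eq, mem_iUnion, mem_iInter, mem_inter_iff]
  rw [e]
  refine MeasurableSet.iUnion fun k => MeasurableSet.iUnion fun m => MeasurableSet.iInter fun n =>
    MeasurableSet.iUnion fun g => MeasurableSet.inter (MeasurableSet.iInter fun i => ?_)
      (MeasurableSet.iInter fun j => MeasurableSet.iInter fun _ => hF _)
  unfold modif
  by_cases hi : i < k
  · simp only [hi, if_true]
    exact MeasurableSet.const _
  · simp only [hi, if_false]
    exact hb i (g i)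

/-- Rectangular domination: functions `G x y`, `x ∈ X`, `y ∈ Y`, `|X|, |Y| ≤ κ ≤ 𝔟`, are each
dominated by `w x` or by `h y`. -/
lemma rect_dom {X Y : Type} {κ : Cardinal.{0}} (hκ : LeB κ) (hinf : ℵ₀ ≤ κ) (hX : #X ≤ κ)
    (hY : #Y ≤ κ) (G : X → Y → ℕ → ℕ) : ∃ (w : X → ℕ → ℕ) (h : Y → ℕ → ℕ), ∀ x y,
      (∀ᶠ n in atTop, G x y n ≤ w x n) ∨ (∀ᶠ n in atTop, G x y n ≤ h y n) := by
  classical
  set T := κ.ord.ToType with hTdef
  have hTc : #T = κ := Cardinal.mk_ord_toType κ
  have hTt : (#T).ord = Ordinal.type (fun a b : T => a < b) := by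
    rw [hTc]; exact (Ordinal.type_toType κ.ord).symm
  have hT : ∀ t : T, #{s // s < t} < κ := fun t => by
    have := Cardinal.mk_Iio_lt t hTt
    rwa [hTc] at this
  have hT' : ∀ t : T, #{s // s ≤ t} < κ := by
    intro t
    have h2 : #{s // s ≤ t} ≤ #({s // s < t} ⊕ Unit) := by
      refine Cardinal.mk_le_of_injective (f := fun s => if h : s.1 < t then Sum.inl ⟨s.1, h⟩ else Sum.inr ()) ?_
      intro a b hab
      simp only at hab
      split_ifs at hab with h3 h4 h5
      · simp only [Sum.inl.injEq, Subtype.mk.injEq] at hab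
        exact Subtype.ext hab
      · ext
        exact (le_antisymm a.2 (not_lt.mp h3)).trans (le_antisymm b.2 (not_lt.mp h5)).symm
    refine lt_of_le_of_lt h2 ?_
    rw [Cardinal.mk_sum, Cardinal.lift_id, Cardinal.lift_id]
    exact Cardinal.add_lt_of_lt hinf (hT t) (lt_of_lt_of_le (by simp [Cardinal.one_lt_aleph0]) hinf)
  obtain ⟨e⟩ : Nonempty (X ↪ T) := by
    rw [← Cardinal.le_def, hTc]; exact hX
  obtain ⟨f⟩ : Nonempty (Y ↪ T) := by
    rw [← Cardinal.le_def, hTc]; exact hY
  have hw : ∀ x : X, ∃ w : ℕ → ℕ, ∀ y, f y < e x → ∀ᶠ n in atTop, G x y n ≤ w n := by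
    intro x
    have h1 : #{y // f y < e x} < κ := by
      refine lt_of_le_of_lt ?_ (hT (e x))
      refine Cardinal.mk_le_of_injective (f := fun y => ⟨f y.1, y.2⟩) ?_
      intro a b hab
      simp only [Subtype.mk.injEq] at hab
      exact Subtype.ext (f.injective hab)
    obtain ⟨g, hg⟩ := hκ {y // f y < e x} (fun y => G x y.1) h1
    exact ⟨g, fun y hy => hg ⟨y, hy⟩⟩
  have hh : ∀ y : Y, ∃ h : ℕ → ℕ, ∀ x, e x ≤ f y → ∀ᶠ n in atTop, G x y n ≤ h n := by
    intro y
    have h1 : #{x // e x ≤ f y} < κ := by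
      refine lt_of_le_of_lt ?_ (hT' (f y))
      refine Cardinal.mk_le_of_injective (f := fun x => ⟨e x.1, x.2⟩) ?_
      intro a b hab
      simp only [Subtype.mk.injEq] at hab
      exact Subtype.ext (e.injective hab)
    obtain ⟨g, hg⟩ := hκ {x // e x ≤ f y} (fun x => G x.1 y) h1
    exact ⟨g, fun x hx => hg ⟨x, hx⟩⟩
  choose w hw using hw
  choose h hh using hh
  refine ⟨w, h, fun x y => ?_⟩
  rcases lt_or_ge (f y) (e x) with h1 | h1
  · exact Or.inl (hw x y h1)
  · exact Or.inr (hh y x h1)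

/-- Core: a countably generated σ-algebra on `X` that contains the open sets and is closed under
the Suslin operation for all schemes of a family of at most `κ ≤ 𝔟` schemes, if `X` has at most `κ`
points. -/
theorem core {X : Type} [TopologicalSpace X] [SecondCountableTopology X]
    {κ : Cardinal.{0}} (hκ : LeB κ) (hinf : ℵ₀ ≤ κ) (hX : #X ≤ κ)
    (S : Set (List ℕ → Set X)) (hS : #S ≤ κ) :
    ∃ A : ℕ → Set X, (∀ U, IsOpen U → MeasurableSet[MeasurableSpace.generateFrom (range A)] U) ∧
      ∀ F ∈ S, (∀ s, MeasurableSet[MeasurableSpace.generateFrom (range A)] (F s)) →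
        MeasurableSet[MeasurableSpace.generateFrom (range A)] (suslin F) := by
  classical
  -- witnesses
  let wit : X → S → ℕ → ℕ := fun x F => if h : x ∈ suslin F.1 then h.choose else 0
  have hwit : ∀ x (F : S), x ∈ suslin F.1 → ∀ n, x ∈ F.1 ((List.range n).map (wit x F)) := by
    intro x s h
    have : wit x s = h.choose := by simp only [wit]; rw [dif_pos h]
    rw [this]
    exact h.choose_spec
  obtain ⟨w, h, hwh⟩ := rect_dom hκ hinf hX hS wit
  -- generating family
  set 𝒞 : Set (Set X) := TopologicalSpace.countableBasis X ∪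
    range (fun p : ℕ × ℕ => {x : X | w x p.1 = p.2}) with h𝒞
  have hc : 𝒞.Countable := (TopologicalSpace.countable_countableBasis X).union (countable_range _)
  have hne : 𝒞.Nonempty := ⟨_, Or.inr ⟨(0, 0), rfl⟩⟩
  obtain ⟨A, hA⟩ := hc.exists_eq_range hne
  refine ⟨A, ?_⟩
  rw [← hA]
  let m : MeasurableSpace X := MeasurableSpace.generateFrom 𝒞
  have hopen : ∀ U : Set X, IsOpen U → MeasurableSet U := by
    intro U hU
    obtain ⟨B, hB, rfl⟩ := (TopologicalSpace.isBasis_countableBasis X).open_eq_sUnion hU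
    refine MeasurableSet.sUnion ((TopologicalSpace.countable_countableBasis X).mono hB) ?_
    intro V hV
    exact MeasurableSpace.measurableSet_generateFrom (Or.inl (hB hV))
  have hwm : ∀ i m, MeasurableSet {x : X | w x i = m} := fun i m =>
    MeasurableSpace.measurableSet_generateFrom (Or.inr ⟨(i, m), rfl⟩)
  have hwP : ∀ (i : ℕ) (Q : ℕ → Prop), MeasurableSet {x : X | Q (w x i)} := by
    intro i Q
    have : {x : X | Q (w x i)} = ⋃ m : ℕ, ⋃ _ : Q m, {x : X | w x i = m} := by
      ext x; simp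
    rw [this]
    exact MeasurableSet.iUnion fun m => MeasurableSet.iUnion fun _ => hwm i m
  refine ⟨hopen, ?_⟩
  intro F hF hFm
  have key : suslin F = bsuslin F w ∪ bsuslin F (fun _ => h ⟨F, hF⟩) := by
    apply Subset.antisymm
    · intro x hx
      have h1 := hwit x ⟨F, hF⟩ hx
      rcases hwh x ⟨F, hF⟩ with h2 | h2
      · exact Or.inl (mem_bsuslin F _ h1 h2)
      · exact Or.inr (mem_bsuslin F _ h1 h2)
    · rintro x (h1 | h1)
      · exact bsuslin_subset F _ h1
      · exact bsuslin_subset F _ h1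
  rw [key]
  exact (measurableSet_bsuslin F hFm _ fun i m => hwP i (fun k => m ≤ k)).union
    (measurableSet_bsuslin F hFm (fun _ => h ⟨F, hF⟩) fun i m => MeasurableSet.const (m ≤ h ⟨F, hF⟩ i))

/-! ### Analytic sets are obtained by the Suslin operation from closed sets -/

lemma analytic_eq_suslin {X : Type*} [TopologicalSpace X] [T3Space X] {A : Set X}
    (hA : AnalyticSet A) : ∃ F : List ℕ → Set X, (∀ s, IsClosed (F s)) ∧ suslin F = A := by
  rw [AnalyticSet] at hA
  rcases hA with rfl | ⟨f, hf, rfl⟩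
  · refine ⟨fun _ => ∅, fun _ => isClosed_empty, ?_⟩
    ext x
    simp [suslin]
  · refine ⟨fun s => closure (f '' {g | (List.range s.length).map g = s}), fun _ => isClosed_closure, ?_⟩
    ext x
    constructor
    · rintro ⟨g, hg⟩
      refine ⟨g, ?_⟩
      by_contra hne
      obtain ⟨V, hV, hVc, hVx⟩ : ∃ V ∈ nhds (f g), IsClosed V ∧ x ∉ V := by
        have h1 : ({x}ᶜ : Set X) ∈ nhds (f g) := isOpen_compl_singleton.mem_nhds hne
        obtain ⟨V, hV1, hV2, hV3⟩ := exists_mem_nhds_isClosed_subset h1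
        exact ⟨V, hV1, hV2, fun h => hV3 h rfl⟩
      have h2 : f ⁻¹' V ∈ nhds g := hf.continuousAt hV
      have h2' := h2
      rw [nhds_pi, Filter.mem_pi'] at h2'
      obtain ⟨I, t, ht1, ht2⟩ := h2'
      obtain ⟨n, hn⟩ : ∃ n, ∀ i ∈ I, i < n := ⟨I.sup id + 1, fun i hi => Nat.lt_succ_of_le (Finset.le_sup (f := id) hi)⟩
      have h3 := hg n
      simp only [List.length_map, List.length_range] at h3
      have h4 : f '' {g' | (List.range n).map g' = (List.range n).map g} ⊆ V := by
        rintro _ ⟨g', hg', rfl⟩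
        apply ht2
        intro i hi
        have h5 : g' i = g i := by
          have h6 : ∀ j ∈ List.range n, g' j = g j := List.map_inj_left.mp hg'
          exact h6 i (List.mem_range.mpr (hn i hi))
        rw [h5]
        exact mem_of_mem_nhds (ht1 i)
      exact hVx (closure_minimal h4 hVc h3)
    · rintro ⟨g, rfl⟩
      refine ⟨g, fun n => subset_closure ⟨g, ?_, rfl⟩⟩
      simp

/-! ### There are at most continuum many C-sets -/

/-- constructors of codes -/
inductive Op
  | base (n : ℕ)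
  | compl
  | union
  | sus

/-- arities -/
def Op.ar : Op → Type
  | .base _ => Empty
  | .compl => Unit
  | .union => ℕ
  | .sus => List ℕ

lemma mk_Op : #Op ≤ ℵ₀ := by
  have : Function.Surjective (fun n : ℕ => match n with
    | 0 => Op.compl | 1 => Op.union | 2 => Op.sus | (n+3) => Op.base n) := by
    intro o
    rcases o with n | _ | _ | _
    · exact ⟨n + 3, rfl⟩
    · exact ⟨0, rfl⟩
    · exact ⟨1, rfl⟩
    · exact ⟨2, rfl⟩
  exact (Cardinal.mk_le_of_surjective this).trans_eq Cardinal.mk_nat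

lemma mk_codes : #(WType Op.ar) ≤ 𝔠 := by
  apply WType.cardinalMk_le_of_le
  have h1 : ∀ a : Op, 𝔠 ^ #(Op.ar a) ≤ 𝔠 := by
    intro a
    rcases a with n | _ | _ | _
    · show 𝔠 ^ #Empty ≤ 𝔠
      rw [Cardinal.mk_empty, Cardinal.power_zero]
      exact Cardinal.one_le_aleph0.trans Cardinal.aleph0_le_continuum
    · show 𝔠 ^ #Unit ≤ 𝔠
      simp
    · show 𝔠 ^ #ℕ ≤ 𝔠
      simp
    · show 𝔠 ^ #(List ℕ) ≤ 𝔠
      have : #(List ℕ) = ℵ₀ := by simp
      rw [this, Cardinal.continuum_power_aleph0]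
  calc (Cardinal.sum fun a : Op => 𝔠 ^ #(Op.ar a)) ≤ Cardinal.sum fun _ : Op => 𝔠 :=
        Cardinal.sum_le_sum _ _ h1
    _ = #Op * 𝔠 := by simp
    _ ≤ ℵ₀ * 𝔠 := mul_le_mul_left mk_Op _
    _ = 𝔠 := by simp

/-- meaning of a code -/
noncomputable def sem {X : Type*} (b : ℕ → Set X) : WType Op.ar → Set X :=
  WType.elim (Set X) (fun p => match p with
    | ⟨.base n, _⟩ => b n
    | ⟨.compl, f⟩ => (f ())ᶜ
    | ⟨.union, f⟩ => ⋃ n, f n
    | ⟨.sus, f⟩ => suslin f)

lemma cset_mem_range {X : Type*} [TopologicalSpace X] [SecondCountableTopology X] :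
    ∃ b : ℕ → Set X, (∀ n, IsOpen (b n)) ∧ ∀ A : Set X, CSet A → A ∈ range (sem b) := by
  -- enumerate a countable basis together with the empty set
  have hc : (insert ∅ (TopologicalSpace.countableBasis X)).Countable :=
    (TopologicalSpace.countable_countableBasis X).insert _
  obtain ⟨b, hb⟩ := hc.exists_eq_range (insert_nonempty _ _)
  refine ⟨b, ?_, ?_⟩
  · intro n
    have h1 : b n ∈ insert ∅ (TopologicalSpace.countableBasis X) := by rw [hb]; exact mem_range_self n
    rcases h1 with h1 | h1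
    · rw [h1]; exact isOpen_empty
    · exact TopologicalSpace.isOpen_of_mem_countableBasis h1
  intro A hA
  induction hA with
  | isOpen U hU =>
    obtain ⟨B, hB, rfl⟩ := (TopologicalSpace.isBasis_countableBasis X).open_eq_sUnion hU
    have hBc : (insert ∅ B).Countable := ((TopologicalSpace.countable_countableBasis X).mono hB).insert _
    obtain ⟨c, hcB⟩ := hBc.exists_eq_range (insert_nonempty _ _)
    have h1 : ∀ n, ∃ k, b k = c n := by
      intro n
      have h2 : c n ∈ insert ∅ B := by rw [hcB]; exact mem_range_self n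
      have h3 : c n ∈ range b := by
        rw [← hb]
        rcases h2 with h2 | h2
        · exact Or.inl h2
        · exact Or.inr (hB h2)
      exact h3
    choose k hk using h1
    refine ⟨WType.mk .union (fun n => WType.mk (.base (k n)) Empty.elim), ?_⟩
    show (⋃ n, b (k n)) = ⋃₀ B
    ext x
    simp only [hk, mem_iUnion, mem_sUnion]
    constructor
    · rintro ⟨n, hn⟩
      have h2 : c n ∈ insert ∅ B := by rw [hcB]; exact mem_range_self n
      rcases h2 with h2 | h2
      · rw [h2] at hn; exact absurd hn (notMem_empty _)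
      · exact ⟨c n, h2, hn⟩
    · rintro ⟨V, hV, hx⟩
      have h2 : V ∈ range c := by rw [← hcB]; exact Or.inr hV
      obtain ⟨n, rfl⟩ := h2
      exact ⟨n, hx⟩
  | compl A _ ih =>
    obtain ⟨c, hc⟩ := ih
    refine ⟨WType.mk .compl (fun _ => c), ?_⟩
    show (sem b c)ᶜ = Aᶜ
    rw [hc]
  | iUnion A _ ih =>
    choose c hc using ih
    refine ⟨WType.mk .union c, ?_⟩
    show (⋃ n, sem b (c n)) = ⋃ n, A n
    simp only [hc]
  | suslin F _ ih =>
    choose c hc using ih
    refine ⟨WType.mk .sus c, ?_⟩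
    show suslin (fun s => sem b (c s)) = suslin F
    simp only [hc]

lemma mk_cset {X : Type} [TopologicalSpace X] [SecondCountableTopology X] :
    #{A : Set X // CSet A} ≤ 𝔠 := by
  obtain ⟨b, -, hb⟩ := cset_mem_range (X := X)
  have h1 : #{A : Set X // CSet A} ≤ #(range (sem b)) :=
    Cardinal.mk_le_of_injective (f := fun A => ⟨A.1, hb A.1 A.2⟩) (by
      intro A B h
      simp only [Subtype.mk.injEq] at h
      exact Subtype.ext h)
  exact h1.trans (Cardinal.mk_range_le.trans mk_codes)

lemma mk_cset_schemes {X : Type} [TopologicalSpace X] [SecondCountableTopology X] :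
    #{F : List ℕ → Set X | ∀ s, CSet (F s)} ≤ 𝔠 := by
  have h1 : #{F : List ℕ → Set X | ∀ s, CSet (F s)} ≤ #(List ℕ → {A : Set X // CSet A}) :=
    Cardinal.mk_le_of_injective (f := fun F s => ⟨F.1 s, F.2 s⟩) (by
      intro F G h
      apply Subtype.ext
      funext s
      have := congrFun h s
      simpa using this)
  refine h1.trans ?_
  rw [← Cardinal.power_def]
  calc #{A : Set X // CSet A} ^ #(List ℕ) ≤ 𝔠 ^ #(List ℕ) := Cardinal.power_le_power_right mk_cset
    _ = 𝔠 := by
      have : #(List ℕ) = ℵ₀ := by simp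
      rw [this, Cardinal.continuum_power_aleph0]

/-- If `𝔟 = 𝔠`, there is a countably generated σ-algebra containing all C-sets. -/
theorem main_cset {X : Type} [TopologicalSpace X] [SecondCountableTopology X] (hX : #X ≤ 𝔠)
    (hb : LeB 𝔠) :
    ∃ A : ℕ → Set X, ∀ B : Set X, CSet B → MeasurableSet[MeasurableSpace.generateFrom (range A)] B := by
  obtain ⟨A, h1, h2⟩ := core hb Cardinal.aleph0_le_continuum hX {F : List ℕ → Set X | ∀ s, CSet (F s)}
    mk_cset_schemes
  refine ⟨A, fun B hB => ?_⟩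
  induction hB with
  | isOpen U hU => exact h1 U hU
  | compl A _ ih => exact MeasurableSet.compl ih
  | iUnion A _ ih => exact MeasurableSet.iUnion ih
  | suslin F hF ih => exact h2 F hF ih

lemma analytic_cset {X : Type*} [TopologicalSpace X] [T3Space X] {A : Set X} (hA : AnalyticSet A) :
    CSet A := by
  obtain ⟨F, hF, rfl⟩ := analytic_eq_suslin hA
  refine CSet.suslin F fun s => ?_
  have := CSet.compl _ (CSet.isOpen _ (hF s).isOpen_compl)
  rwa [compl_compl] at this

/-- the Suslin schemes that occur in a code -/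
noncomputable def subs {X : Type*} (b : ℕ → Set X) : WType Op.ar → Set (List ℕ → Set X)
  | ⟨.base _, _⟩ => ∅
  | ⟨.compl, f⟩ => subs b (f ())
  | ⟨.union, f⟩ => ⋃ n : ℕ, subs b (f n)
  | ⟨.sus, f⟩ => {fun s => sem b (f s)} ∪ ⋃ s : List ℕ, subs b (f s)

lemma subs_countable {X : Type*} (b : ℕ → Set X) (c : WType Op.ar) : (subs b c).Countable := by
  induction c with
  | mk a f ih =>
    rcases a with n | _ | _ | _
    · rw [subs]; exact countable_empty
    · rw [subs]; exact ih ()
    · rw [subs]; exact countable_iUnion ih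
    · rw [subs]; exact (countable_singleton _).union (countable_iUnion ih)

/-- At most `κ ≤ 𝔟` points and at most `κ` C-sets. -/
theorem main {X : Type} [TopologicalSpace X] [SecondCountableTopology X]
    {κ : Cardinal.{0}} (hκ : LeB κ) (hinf : ℵ₀ ≤ κ) (E : Set X) (hE : #E ≤ κ)
    (𝒜 : Set (Set X)) (h𝒜 : #𝒜 ≤ κ) (hA : ∀ B ∈ 𝒜, CSet B) :
    ∃ A : ℕ → Set E, ∀ B ∈ 𝒜,
      MeasurableSet[MeasurableSpace.generateFrom (range A)] ((↑) ⁻¹' B : Set E) := by
  obtain ⟨b, hbo, hb⟩ := cset_mem_range (X := X)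
  have hch : ∀ B : 𝒜, ∃ c : WType Op.ar, sem b c = B.1 := fun B => hb B.1 (hA B.1 B.2)
  choose c hc using hch
  have hen : ∀ B : 𝒜, ∃ e : ℕ → (List ℕ → Set X), subs b (c B) ⊆ range e := fun B =>
    Set.countable_iff_exists_subset_range.mp (subs_countable b (c B))
  choose e he using hen
  obtain ⟨A, h1, h2⟩ := core (X := E) hκ hinf hE
    (range fun p : 𝒜 × ℕ => fun s => ((↑) ⁻¹' (e p.1 p.2 s) : Set E)) (by
      refine Cardinal.mk_range_le.trans ?_
      rw [Cardinal.mk_prod, Cardinal.lift_id, Cardinal.lift_id]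
      calc #𝒜 * #ℕ ≤ κ * κ := mul_le_mul' h𝒜 (by rw [Cardinal.mk_nat]; exact hinf)
        _ = κ := Cardinal.mul_eq_self hinf)
  refine ⟨A, ?_⟩
  let m : MeasurableSpace E := MeasurableSpace.generateFrom (range A)
  have key : ∀ B : 𝒜, ∀ d : WType Op.ar, subs b d ⊆ subs b (c B) →
      MeasurableSet ((↑) ⁻¹' (sem b d) : Set E) := by
    intro B d
    induction d with
    | mk a f ih =>
      intro hd
      rcases a with n | _ | _ | _
      · exact h1 _ ((hbo n).preimage continuous_subtype_val)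
      · rw [subs] at hd
        exact (ih () hd).compl
      · rw [subs] at hd
        have e1 : ((↑) ⁻¹' (sem b (WType.mk Op.union f)) : Set E) = ⋃ n : ℕ, (↑) ⁻¹' (sem b (f n)) :=
          preimage_iUnion
        rw [e1]
        exact MeasurableSet.iUnion fun n => ih n (fun x hx => hd (mem_iUnion.mpr ⟨n, hx⟩))
      · rw [subs] at hd
        have h3 : (fun s => sem b (f s)) ∈ range (e B) := he B (hd (Or.inl rfl))
        obtain ⟨k, hk⟩ := h3
        have h4 := h2 _ (mem_range_self (B, k)) (fun s => by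
          show MeasurableSet ((↑) ⁻¹' (e B k s) : Set E)
          rw [hk]
          exact ih s (fun x hx => hd (Or.inr (mem_iUnion.mpr ⟨s, hx⟩))))
        simp only [hk] at h4
        exact h4
  intro B hB
  have := key ⟨B, hB⟩ (c ⟨B, hB⟩) Subset.rfl
  rwa [hc] at this

end Pool.Agent.Helper26.CSets
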