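import Mathlib

open Complex Metric Set

namespace Pool.Agent.Helper26.Coinc

/-- difference of Blaschke factors -/
noncomputable def DD (a z w : ℂ) : ℝ :=
  ‖z - w‖ * (1 - ‖a‖ ^ 2) / (‖1 - (starRingEnd ℂ) a * z‖ * ‖1 - (starRingEnd ℂ) a * w‖)

lemma one_sub_ne {a z : ℂ} (ha : ‖a‖ < 1) (hz : ‖z‖ ≤ 1) : 1 - (starRingEnd ℂ) a * z ≠ 0 := by
  intro h
  have h1 : (starRingEnd ℂ) a * z = 1 := by
    rw [sub_eq_zero] at h; exact h.symm
  have h2 : ‖(starRingEnd ℂ) a * z‖ = 1 := by rw [h1]; simp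
  rw [norm_mul, RCLike.norm_conj] at h2
  have h3 : ‖a‖ * ‖z‖ ≤ ‖a‖ * 1 := mul_le_mul_of_nonneg_left hz (norm_nonneg _)
  linarith

lemma re_one_sub_pos {a z : ℂ} (ha : ‖a‖ < 1) (hz : ‖z‖ ≤ 1) :
    0 < (1 - (starRingEnd ℂ) a * z).re := by
  have h2 : ‖(starRingEnd ℂ) a * z‖ < 1 := by
    rw [norm_mul, RCLike.norm_conj]
    calc ‖a‖ * ‖z‖ ≤ ‖a‖ * 1 := mul_le_mul_of_nonneg_left hz (norm_nonneg _)
      _ < 1 := by linarith
  have h3 := Complex.re_le_norm ((starRingEnd ℂ) a * z)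
  simp only [sub_re, one_re]
  linarith

/-- the Moebius map -/
noncomputable def bb (a z : ℂ) : ℂ := (z - a) / (1 - (starRingEnd ℂ) a * z)

lemma bb_sub {a z w : ℂ} (ha : ‖a‖ < 1) (hz : ‖z‖ ≤ 1) (hw : ‖w‖ ≤ 1) :
    bb a z - bb a w = (z - w) * (1 - (‖a‖ ^ 2 : ℝ)) /
      ((1 - (starRingEnd ℂ) a * z) * (1 - (starRingEnd ℂ) a * w)) := by
  have h1 := one_sub_ne ha hz
  have h2 := one_sub_ne ha hw
  have h3 : ((‖a‖ ^ 2 : ℝ) : ℂ) = (starRingEnd ℂ) a * a := by
    rw [← Complex.normSq_eq_norm_sq, ← Complex.normSq_eq_conj_mul_self]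
  rw [h3]
  unfold bb
  rw [div_sub_div _ _ h1 h2]
  congr 1
  ring

lemma norm_bb_sub {a z w : ℂ} (ha : ‖a‖ < 1) (hz : ‖z‖ ≤ 1) (hw : ‖w‖ ≤ 1) :
    ‖bb a z - bb a w‖ = DD a z w := by
  rw [bb_sub ha hz hw, norm_div, norm_mul, norm_mul]
  unfold DD
  congr 2
  have : (1 - ((‖a‖ ^ 2 : ℝ) : ℂ)) = ((1 - ‖a‖ ^ 2 : ℝ) : ℂ) := by push_cast; ring
  rw [this, Complex.norm_real, Real.norm_eq_abs, abs_of_nonneg]
  nlinarith [norm_nonneg a]

lemma re_half {u : ℂ} (hu : u ≠ 1) :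
    (u / (1 - u)).re + 1 / 2 = (1 - ‖u‖ ^ 2) / (2 * ‖1 - u‖ ^ 2) := by
  have h1 : (1 - u) ≠ 0 := sub_ne_zero.mpr (Ne.symm hu)
  have h2 : ‖1 - u‖ ^ 2 ≠ 0 := by positivity
  have h3 : ‖1 - u‖ ^ 2 = (1 - u.re) ^ 2 + u.im ^ 2 := by
    rw [← Complex.normSq_eq_norm_sq, Complex.normSq_apply]
    simp; ring
  have h4 : ‖u‖ ^ 2 = u.re ^ 2 + u.im ^ 2 := by
    rw [← Complex.normSq_eq_norm_sq, Complex.normSq_apply]
    ring
  rw [Complex.div_re, Complex.normSq_eq_norm_sq]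
  simp only [sub_re, one_re, sub_im, one_im, zero_sub]
  field_simp
  rw [h4, h3]
  ring

/-- termwise inequality -/
lemma key_term {a ξ η : ℂ} (ha : ‖a‖ < 1) (hξ : ξ.re < 0) (hη : η.re < 0) :
    -‖ξ - η‖ ^ 2 / 2 + ‖ξ - η‖ / 2 * DD a (exp ξ) (exp η) ≤
      ((starRingEnd ℂ) (ξ - η) * (-log (1 - (starRingEnd ℂ) a * exp ξ)
        - -log (1 - (starRingEnd ℂ) a * exp η))).re := by
  set δ : ℂ := ξ - η with hδ
  set c : ℂ := (starRingEnd ℂ) a with hc
  have hre : ∀ t : ℝ, t ∈ Icc (0:ℝ) 1 → (η + t * δ).re < 0 := by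
    intro t ht
    have : (η + t * δ).re = (1 - t) * η.re + t * ξ.re := by
      simp [hδ]; ring
    rw [this]
    rcases eq_or_lt_of_le ht.1 with h | h
    · rw [← h]; simpa using hη
    · nlinarith [ht.1, ht.2, mul_neg_of_pos_of_neg h hξ, mul_nonneg (sub_nonneg.mpr ht.2) (neg_nonneg.mpr hη.le)]
  have hz : ∀ t : ℝ, t ∈ Icc (0:ℝ) 1 → ‖exp (η + t * δ)‖ ≤ 1 := by
    intro t ht
    rw [Complex.norm_exp]
    exact Real.exp_le_one_iff.mpr (hre t ht).le
  -- derivative of path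
  have hpath : ∀ t : ℝ, HasDerivAt (fun t : ℝ => exp (η + t * δ)) (δ * exp (η + t * δ)) t := by
    intro t
    have h1 : HasDerivAt (fun t : ℝ => η + (t : ℂ) * δ) δ t := by
      have := ((Complex.ofRealCLM.hasDerivAt (x := t)).mul_const δ).const_add η
      simpa using this
    have h2 := h1.cexp
    convert h2 using 1
    ring
  have hlog : ∀ t : ℝ, t ∈ Icc (0:ℝ) 1 → HasDerivAt (fun t : ℝ => -log (1 - c * exp (η + t * δ)))
      (δ * (c * exp (η + t * δ) / (1 - c * exp (η + t * δ)))) t := by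
    intro t ht
    have h1 : HasDerivAt (fun t : ℝ => 1 - c * exp (η + t * δ)) (-(c * (δ * exp (η + t * δ)))) t := by
      have := ((hpath t).const_mul c).const_sub 1
      simpa using this
    have h2 : (1 - c * exp (η + t * δ)) ∈ slitPlane := by
      left; exact re_one_sub_pos ha (hz t ht)
    have h3 := (h1.clog_real h2).fun_neg
    refine h3.congr_deriv ?_
    ring
  have hbb : ∀ t : ℝ, t ∈ Icc (0:ℝ) 1 → HasDerivAt (fun t : ℝ => bb a (exp (η + t * δ)))
      (δ * exp (η + t * δ) * (1 - (‖a‖ ^ 2 : ℝ)) / (1 - c * exp (η + t * δ)) ^ 2) t := by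
    intro t ht
    have h1 : HasDerivAt (fun t : ℝ => 1 - c * exp (η + t * δ)) (-(c * (δ * exp (η + t * δ)))) t := by
      have := ((hpath t).const_mul c).const_sub 1
      simpa using this
    have h2 : HasDerivAt (fun t : ℝ => exp (η + t * δ) - a) (δ * exp (η + t * δ)) t := (hpath t).sub_const a
    have hne := one_sub_ne ha (hz t ht)
    have h3 := h2.fun_div h1 hne
    unfold bb
    refine h3.congr_deriv ?_
    have h4 : ((‖a‖ ^ 2 : ℝ) : ℂ) = c * a := by
      rw [← Complex.normSq_eq_norm_sq, ← Complex.normSq_eq_conj_mul_self]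
    rw [h4]
    congr 1
    ring
  -- the two functions
  set F : ℝ → ℂ := fun t => ((‖δ‖ / 2 : ℝ) : ℂ) * (bb a (exp (η + t * δ)) - bb a (exp η)) with hF
  set B : ℝ → ℝ := fun t => ((starRingEnd ℂ) δ * (-log (1 - c * exp (η + t * δ)) - -log (1 - c * exp η))).re
      + ‖δ‖ ^ 2 / 2 * t with hB
  have hFd : ∀ t ∈ Icc (0:ℝ) 1, HasDerivAt F (((‖δ‖ / 2 : ℝ) : ℂ) *
      (δ * exp (η + t * δ) * (1 - (‖a‖ ^ 2 : ℝ)) / (1 - c * exp (η + t * δ)) ^ 2)) t := by
    intro t ht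
    exact ((hbb t ht).sub_const _).const_mul _
  have hBd : ∀ t ∈ Icc (0:ℝ) 1, HasDerivAt B (((starRingEnd ℂ) δ *
      (δ * (c * exp (η + t * δ) / (1 - c * exp (η + t * δ))))).re + ‖δ‖ ^ 2 / 2) t := by
    intro t ht
    have h1 : HasDerivAt (fun t : ℝ => (starRingEnd ℂ) δ * (-log (1 - c * exp (η + t * δ)) - -log (1 - c * exp η)))
      ((starRingEnd ℂ) δ * (δ * (c * exp (η + t * δ) / (1 - c * exp (η + t * δ))))) t :=
      ((hlog t ht).sub_const _).const_mul _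
    have h2 := (Complex.reCLM.hasFDerivAt.comp_hasDerivAt t h1)
    have h3 : HasDerivAt (fun t : ℝ => ‖δ‖ ^ 2 / 2 * t) (‖δ‖ ^ 2 / 2) t := by
      simpa using (hasDerivAt_id t).const_mul (‖δ‖ ^ 2 / 2)
    exact h2.add h3
  have main := image_norm_le_of_norm_deriv_right_le_deriv_boundary' (f := F) (a := 0) (b := 1)
    (f' := fun t => ((‖δ‖ / 2 : ℝ) : ℂ) *
      (δ * exp (η + t * δ) * (1 - (‖a‖ ^ 2 : ℝ)) / (1 - c * exp (η + t * δ)) ^ 2))
    (fun t ht => (hFd t ht).continuousAt.continuousWithinAt)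
    (fun t ht => (hFd t (Ico_subset_Icc_self ht)).hasDerivWithinAt)
    (B := B) (B' := fun t => ((starRingEnd ℂ) δ *
      (δ * (c * exp (η + t * δ) / (1 - c * exp (η + t * δ))))).re + ‖δ‖ ^ 2 / 2)
    (by simp [hF, hB])
    (fun t ht => (hBd t ht).continuousAt.continuousWithinAt)
    (fun t ht => (hBd t (Ico_subset_Icc_self ht)).hasDerivWithinAt)
    (by
      intro t ht
      have ht' := Ico_subset_Icc_self ht
      set u : ℂ := c * exp (η + t * δ) with hu
      have hne : 1 - u ≠ 0 := one_sub_ne ha (hz t ht')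
      have hu1 : u ≠ 1 := by
        intro h; apply hne; rw [h]; ring
      have e1 : ((starRingEnd ℂ) δ * (δ * (u / (1 - u)))).re = ‖δ‖ ^ 2 * (u / (1 - u)).re := by
        rw [← mul_assoc, ← Complex.normSq_eq_conj_mul_self, Complex.normSq_eq_norm_sq,
          Complex.re_ofReal_mul]
      have e2 : ((starRingEnd ℂ) δ * (δ * (u / (1 - u)))).re + ‖δ‖ ^ 2 / 2
          = ‖δ‖ ^ 2 * ((1 - ‖u‖ ^ 2) / (2 * ‖1 - u‖ ^ 2)) := by
        rw [e1, ← re_half hu1]; ring
      have hun : ‖u‖ ≤ ‖a‖ := by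
        rw [hu, norm_mul, hc, RCLike.norm_conj]
        calc ‖a‖ * ‖exp (η + t * δ)‖ ≤ ‖a‖ * 1 := mul_le_mul_of_nonneg_left (hz t ht') (norm_nonneg _)
          _ = ‖a‖ := mul_one _
      have hpos : 0 < ‖1 - u‖ ^ 2 := by positivity
      have e3 : ‖((‖δ‖ / 2 : ℝ) : ℂ) *
      (δ * exp (η + t * δ) * (1 - (‖a‖ ^ 2 : ℝ)) / (1 - u) ^ 2)‖
          = ‖δ‖ / 2 * (‖δ‖ * ‖exp (η + t * δ)‖ * (1 - ‖a‖ ^ 2) / ‖1 - u‖ ^ 2) := by
        have h5 : (1 - ((‖a‖ ^ 2 : ℝ) : ℂ)) = ((1 - ‖a‖ ^ 2 : ℝ) : ℂ) := by push_cast; ring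
        rw [h5, norm_mul, norm_div, norm_mul, norm_mul, norm_pow, Complex.norm_real, Complex.norm_real,
          Real.norm_eq_abs, Real.norm_eq_abs, abs_of_nonneg (by positivity), abs_of_nonneg]
        nlinarith [norm_nonneg a]
      show ‖((‖δ‖ / 2 : ℝ) : ℂ) *
      (δ * exp (η + t * δ) * (1 - (‖a‖ ^ 2 : ℝ)) / (1 - u) ^ 2)‖ ≤ ((starRingEnd ℂ) δ * (δ * (u / (1 - u)))).re + ‖δ‖ ^ 2 / 2
      rw [e3, e2]
      have h6 : ‖δ‖ / 2 * (‖δ‖ * ‖exp (η + t * δ)‖ * (1 - ‖a‖ ^ 2) / ‖1 - u‖ ^ 2)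
          = ‖δ‖ ^ 2 * ((‖exp (η + t * δ)‖ * (1 - ‖a‖ ^ 2)) / (2 * ‖1 - u‖ ^ 2)) := by
        field_simp
      rw [h6]
      apply mul_le_mul_of_nonneg_left _ (by positivity)
      apply div_le_div_of_nonneg_right _ (by positivity)
      have h7 : 0 ≤ 1 - ‖a‖ ^ 2 := by nlinarith [norm_nonneg a]
      have h8 : ‖exp (η + t * δ)‖ * (1 - ‖a‖ ^ 2) ≤ 1 * (1 - ‖a‖ ^ 2) :=
        mul_le_mul_of_nonneg_right (hz t ht') h7
      nlinarith [norm_nonneg u, norm_nonneg a])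
    (x := 1) (by simp)
  have hF1 : F 1 = ((‖δ‖ / 2 : ℝ) : ℂ) * (bb a (exp ξ) - bb a (exp η)) := by
    simp [hF, hδ]
  have hB1 : B 1 = ((starRingEnd ℂ) δ * (-log (1 - c * exp ξ) - -log (1 - c * exp η))).re
      + ‖δ‖ ^ 2 / 2 := by
    simp [hB, hδ]
  rw [hF1, hB1, norm_mul, norm_bb_sub ha (by rw [Complex.norm_exp]; exact Real.exp_le_one_iff.mpr hξ.le)
    (by rw [Complex.norm_exp]; exact Real.exp_le_one_iff.mpr hη.le), Complex.norm_real, Real.norm_eq_abs,
    abs_of_nonneg (by positivity)] at main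
  linarith



/-! ### The sum `G` -/

/-- the function `G(z) = sum_n A_n log (1 / (1 - conj(p_n) z))` -/
noncomputable def GG (p : ℕ → ℂ) (A : ℕ → ℝ) (z : ℂ) : ℂ :=
  ∑' n, (A n : ℂ) * (-log (1 - (starRingEnd ℂ) (p n) * z))

noncomputable def KK (r : ℝ) : ℝ := r ^ 2 * (1 - r)⁻¹ / 2 + r

lemma norm_log_le {a z : ℂ} {r : ℝ} (ha : ‖a‖ < 1) (hz : ‖z‖ ≤ r) (hr : r < 1) :
    ‖-log (1 - (starRingEnd ℂ) a * z)‖ ≤ KK r := by
  have hu : ‖-((starRingEnd ℂ) a * z)‖ ≤ r := by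
    rw [norm_neg, norm_mul, RCLike.norm_conj]
    calc ‖a‖ * ‖z‖ ≤ 1 * ‖z‖ := mul_le_mul_of_nonneg_right ha.le (norm_nonneg _)
      _ ≤ r := by rw [one_mul]; exact hz
  have h0 : (0:ℝ) ≤ ‖-((starRingEnd ℂ) a * z)‖ := norm_nonneg _
  have h1 := norm_log_one_add_le (lt_of_le_of_lt hu hr)
  rw [norm_neg, sub_eq_add_neg]
  refine h1.trans ?_
  unfold KK
  set s := ‖-((starRingEnd ℂ) a * z)‖
  have h2 : (1 - s)⁻¹ ≤ (1 - r)⁻¹ := inv_anti₀ (by linarith) (by linarith)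
  have h3 : s ^ 2 ≤ r ^ 2 := by nlinarith
  have h4 : (0:ℝ) ≤ (1 - s)⁻¹ := inv_nonneg.mpr (by linarith)
  have h5 : s ^ 2 * (1 - s)⁻¹ ≤ r ^ 2 * (1 - r)⁻¹ :=
    mul_le_mul h3 h2 h4 (by positivity)
  linarith

section
variable {p : ℕ → ℂ} {A : ℕ → ℝ} (hp : ∀ n, ‖p n‖ < 1) (hA : ∀ n, 0 ≤ A n) (hAs : Summable A)
include hp hA hAs

lemma summable_G {z : ℂ} (hz : ‖z‖ < 1) :
    Summable fun n => (A n : ℂ) * (-log (1 - (starRingEnd ℂ) (p n) * z)) := by
  refine Summable.of_norm_bounded (g := fun n => A n * KK ‖z‖) (hAs.mul_right _) ?_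
  intro n
  rw [norm_mul, Complex.norm_real, Real.norm_eq_abs, abs_of_nonneg (hA n)]
  exact mul_le_mul_of_nonneg_left (norm_log_le (hp n) le_rfl hz) (hA n)

lemma GG_diff : DifferentiableOn ℂ (GG p A) (ball 0 1) := by
  intro z hz
  rw [mem_ball_zero_iff] at hz
  obtain ⟨r, hr1, hr2⟩ := exists_between hz
  have h1 : DifferentiableOn ℂ (GG p A) (ball 0 r) := by
    unfold GG
    refine differentiableOn_tsum_of_summable_norm (u := fun n => A n * KK r) (hAs.mul_right _) ?_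
      isOpen_ball ?_
    · intro n w hw
      rw [mem_ball_zero_iff] at hw
      apply DifferentiableAt.differentiableWithinAt
      have h2 : (1 - (starRingEnd ℂ) (p n) * w) ∈ slitPlane := by
        left; exact re_one_sub_pos (hp n) (by linarith)
      have h3 : DifferentiableAt ℂ (fun w => 1 - (starRingEnd ℂ) (p n) * w) w := by fun_prop
      exact ((h3.clog h2).neg).const_mul _
    · intro n w hw
      rw [mem_ball_zero_iff] at hw
      rw [norm_mul, Complex.norm_real, Real.norm_eq_abs, abs_of_nonneg (hA n)]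
      exact mul_le_mul_of_nonneg_left (norm_log_le (hp n) hw.le hr2) (hA n)
  exact ((h1 z (by rwa [mem_ball_zero_iff])).differentiableAt
    (isOpen_ball.mem_nhds (by rwa [mem_ball_zero_iff]))).differentiableWithinAt

lemma GG_im {z : ℂ} (hz : ‖z‖ < 1) (hA1 : ∑' n, A n ≤ 1 / 2) : |(GG p A z).im| ≤ Real.pi / 4 := by
  have h1 := summable_G hp hA hAs hz
  have h2 : (GG p A z).im = ∑' n, ((A n : ℂ) * (-log (1 - (starRingEnd ℂ) (p n) * z))).im := by
    unfold GG
    exact Complex.im_tsum h1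
  rw [h2, ← Real.norm_eq_abs]
  have h3 : ∀ n, ‖((A n : ℂ) * (-log (1 - (starRingEnd ℂ) (p n) * z))).im‖ ≤ A n * (Real.pi / 2) := by
    intro n
    rw [Complex.im_ofReal_mul, norm_mul, Real.norm_eq_abs, abs_of_nonneg (hA n)]
    apply mul_le_mul_of_nonneg_left _ (hA n)
    rw [neg_im, norm_neg, Complex.log_im, Real.norm_eq_abs]
    exact Complex.abs_arg_le_pi_div_two_iff.mpr (re_one_sub_pos (hp n) hz.le).le
  refine (tsum_of_norm_bounded (hAs.mul_right (Real.pi / 2)).hasSum h3).trans ?_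
  rw [tsum_mul_right]
  have := Real.pi_pos
  nlinarith

lemma GG_re {z : ℂ} (hz : ‖z‖ < 1) (hA1 : ∑' n, A n ≤ 1 / 2) (n : ℕ) :
    A n * (-Real.log ‖1 - (starRingEnd ℂ) (p n) * z‖) - Real.log 2 / 2 ≤ (GG p A z).re := by
  have h1 := summable_G hp hA hAs hz
  have h2 : (GG p A z).re = ∑' n, A n * (-Real.log ‖1 - (starRingEnd ℂ) (p n) * z‖) := by
    unfold GG
    rw [Complex.re_tsum h1]
    congr 1
    ext m
    rw [Complex.re_ofReal_mul, neg_re, Complex.log_re]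
  have h3 : Summable fun n => A n * (-Real.log ‖1 - (starRingEnd ℂ) (p n) * z‖) := by
    have := (Complex.hasSum_re h1.hasSum).summable
    refine this.congr ?_
    intro m
    rw [Complex.re_ofReal_mul, neg_re, Complex.log_re]
  have h4 : Summable fun n => A n * (Real.log 2 + -Real.log ‖1 - (starRingEnd ℂ) (p n) * z‖) := by
    have := (hAs.mul_right (Real.log 2)).add h3
    refine this.congr ?_
    intro m; ring
  have h5 : ∀ m, 0 ≤ A m * (Real.log 2 + -Real.log ‖1 - (starRingEnd ℂ) (p m) * z‖) := by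
    intro m
    apply mul_nonneg (hA m)
    have h6 : ‖1 - (starRingEnd ℂ) (p m) * z‖ ≤ 2 := by
      calc ‖1 - (starRingEnd ℂ) (p m) * z‖ ≤ ‖(1:ℂ)‖ + ‖(starRingEnd ℂ) (p m) * z‖ := norm_sub_le _ _
        _ = 1 + ‖p m‖ * ‖z‖ := by rw [norm_mul, RCLike.norm_conj, norm_one]
        _ ≤ 2 := by
          have := mul_le_mul (hp m).le hz.le (norm_nonneg _) (by norm_num)
          linarith
    have h7 : 0 < ‖1 - (starRingEnd ℂ) (p m) * z‖ := norm_pos_iff.mpr (one_sub_ne (hp m) hz.le)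
    have := Real.log_le_log h7 h6
    linarith
  have h6 := h4.le_tsum n (fun m _ => h5 m)
  have h7 : ∑' m, A m * (Real.log 2 + -Real.log ‖1 - (starRingEnd ℂ) (p m) * z‖)
      = (∑' m, A m) * Real.log 2 + (GG p A z).re := by
    rw [h2, ← tsum_mul_right, ← (hAs.mul_right (Real.log 2)).tsum_add h3]
    congr 1; ext m; ring
  rw [h7] at h6
  have h8 := Real.log_pos (by norm_num : (1:ℝ) < 2)
  have h9 : (∑' m, A m) * Real.log 2 ≤ Real.log 2 / 2 := by nlinarith
  have h10 : 0 ≤ A n * Real.log 2 := mul_nonneg (hA n) h8.le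
  nlinarith

end

lemma GG_zero (p : ℕ → ℂ) (A : ℕ → ℝ) : GG p A 0 = 0 := by
  unfold GG; simp

lemma norm_bb_le {a z : ℂ} (ha : ‖a‖ < 1) (hz : ‖z‖ ≤ 1) : ‖bb a z‖ ≤ 1 := by
  unfold bb
  have h1 := one_sub_ne ha hz
  rw [norm_div, div_le_one (norm_pos_iff.mpr h1)]
  have h2 : ‖z - a‖ ^ 2 ≤ ‖1 - (starRingEnd ℂ) a * z‖ ^ 2 := by
    rw [← Complex.normSq_eq_norm_sq, ← Complex.normSq_eq_norm_sq, Complex.normSq_apply,
      Complex.normSq_apply]
    have h3 : ‖a‖ ^ 2 = a.re ^ 2 + a.im ^ 2 := by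
      rw [← Complex.normSq_eq_norm_sq, Complex.normSq_apply]; ring
    have h4 : ‖z‖ ^ 2 = z.re ^ 2 + z.im ^ 2 := by
      rw [← Complex.normSq_eq_norm_sq, Complex.normSq_apply]; ring
    have h5 : 0 ≤ (1 - ‖a‖ ^ 2) * (1 - ‖z‖ ^ 2) := by
      apply mul_nonneg <;> nlinarith [norm_nonneg a, norm_nonneg z]
    rw [h3, h4] at h5
    simp
    nlinarith
  exact le_of_sq_le_sq h2 (norm_nonneg _)

lemma DD_nonneg {a z w : ℂ} (ha : ‖a‖ < 1) : 0 ≤ DD a z w := by
  unfold DD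
  apply div_nonneg _ (by positivity)
  apply mul_nonneg (norm_nonneg _)
  nlinarith [norm_nonneg a]

lemma DD_le_two {a z w : ℂ} (ha : ‖a‖ < 1) (hz : ‖z‖ ≤ 1) (hw : ‖w‖ ≤ 1) : DD a z w ≤ 2 := by
  rw [← norm_bb_sub ha hz hw]
  calc ‖bb a z - bb a w‖ ≤ ‖bb a z‖ + ‖bb a w‖ := norm_sub_le _ _
    _ ≤ 2 := by linarith [norm_bb_le ha hz, norm_bb_le ha hw]

section
variable {p : ℕ → ℂ} {A : ℕ → ℝ} (hp : ∀ n, ‖p n‖ < 1) (hA : ∀ n, 0 ≤ A n) (hAs : Summable A)
include hp hA hAs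

lemma summable_ADD {z w : ℂ} (hz : ‖z‖ ≤ 1) (hw : ‖w‖ ≤ 1) :
    Summable fun n => A n * DD (p n) z w := by
  refine Summable.of_nonneg_of_le (fun n => mul_nonneg (hA n) (DD_nonneg (hp n)))
    (fun n => mul_le_mul_of_nonneg_left (DD_le_two (hp n) hz hw) (hA n)) (hAs.mul_right 2)

/-- the key lower bound -/
lemma key_Phi {ξ η : ℂ} (hξ : ξ.re < 0) (hη : η.re < 0) (hA1 : ∑' n, A n ≤ 1 / 2) :
    ‖ξ - η‖ / 2 + ∑' n, A n * DD (p n) (exp ξ) (exp η) ≤
      ‖(ξ + 2 * GG p A (exp ξ)) - (η + 2 * GG p A (exp η))‖ := by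
  have hz : ‖exp ξ‖ < 1 := by rw [Complex.norm_exp]; exact Real.exp_lt_one_iff.mpr hξ
  have hw : ‖exp η‖ < 1 := by rw [Complex.norm_exp]; exact Real.exp_lt_one_iff.mpr hη
  have h1 := summable_G hp hA hAs hz
  have h2 := summable_G hp hA hAs hw
  have hS := summable_ADD hp hA hAs hz.le hw.le
  rcases eq_or_ne ξ η with h | hne
  · subst h
    have : ∀ n, A n * DD (p n) (exp ξ) (exp ξ) = 0 := by
      intro n; unfold DD; simp
    simp [this]
  have hpos : 0 < ‖ξ - η‖ := norm_pos_iff.mpr (sub_ne_zero.mpr hne)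
  set δ := ξ - η with hδ
  have h3 : GG p A (exp ξ) - GG p A (exp η) = ∑' n, (A n : ℂ) * (-log (1 - (starRingEnd ℂ) (p n) * exp ξ)
      - -log (1 - (starRingEnd ℂ) (p n) * exp η)) := by
    unfold GG
    rw [← h1.tsum_sub h2]
    congr 1; ext n; ring
  have h4 : Summable fun n => (A n : ℂ) * (-log (1 - (starRingEnd ℂ) (p n) * exp ξ)
      - -log (1 - (starRingEnd ℂ) (p n) * exp η)) := by
    refine (h1.sub h2).congr ?_
    intro n; ring
  have h5 : ((starRingEnd ℂ) δ * (GG p A (exp ξ) - GG p A (exp η))).re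
      = ∑' n, A n * ((starRingEnd ℂ) δ * (-log (1 - (starRingEnd ℂ) (p n) * exp ξ)
      - -log (1 - (starRingEnd ℂ) (p n) * exp η))).re := by
    rw [h3, ← tsum_mul_left, Complex.re_tsum (h4.mul_left _)]
    congr 1; ext n
    rw [← Complex.re_ofReal_mul]
    congr 1; ring
  have h6 : Summable fun n => A n * ((starRingEnd ℂ) δ * (-log (1 - (starRingEnd ℂ) (p n) * exp ξ)
      - -log (1 - (starRingEnd ℂ) (p n) * exp η))).re := by
    have := (Complex.hasSum_re (h4.mul_left ((starRingEnd ℂ) δ)).hasSum).summable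
    refine this.congr ?_
    intro n
    rw [← Complex.re_ofReal_mul]
    congr 1; ring
  have h7 : Summable fun n => A n * (-‖δ‖ ^ 2 / 2) + ‖δ‖ / 2 * (A n * DD (p n) (exp ξ) (exp η)) :=
    (hAs.mul_right _).add (hS.mul_left _)
  have h8 : ∑' n, (A n * (-‖δ‖ ^ 2 / 2) + ‖δ‖ / 2 * (A n * DD (p n) (exp ξ) (exp η)))
      ≤ ((starRingEnd ℂ) δ * (GG p A (exp ξ) - GG p A (exp η))).re := by
    rw [h5]
    refine h7.tsum_le_tsum ?_ h6
    intro n
    have := key_term (hp n) hξ hη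
    have h9 := mul_le_mul_of_nonneg_left this (hA n)
    calc A n * (-‖δ‖ ^ 2 / 2) + ‖δ‖ / 2 * (A n * DD (p n) (exp ξ) (exp η))
        = A n * (-‖δ‖ ^ 2 / 2 + ‖δ‖ / 2 * DD (p n) (exp ξ) (exp η)) := by ring
      _ ≤ _ := h9
  rw [(hAs.mul_right _).tsum_add (hS.mul_left _), tsum_mul_right, tsum_mul_left] at h8
  have h9 : ((starRingEnd ℂ) δ * ((ξ + 2 * GG p A (exp ξ)) - (η + 2 * GG p A (exp η)))).re
      = ‖δ‖ ^ 2 + 2 * ((starRingEnd ℂ) δ * (GG p A (exp ξ) - GG p A (exp η))).re := by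
    have e1 : (starRingEnd ℂ) δ * ((ξ + 2 * GG p A (exp ξ)) - (η + 2 * GG p A (exp η)))
      = (starRingEnd ℂ) δ * δ + ((2:ℝ) : ℂ) * ((starRingEnd ℂ) δ * (GG p A (exp ξ) - GG p A (exp η))) := by
      rw [hδ]; push_cast; ring
    rw [e1, Complex.add_re, Complex.re_ofReal_mul, ← Complex.normSq_eq_conj_mul_self,
      Complex.ofReal_re, Complex.normSq_eq_norm_sq]
  have h10 := Complex.re_le_norm ((starRingEnd ℂ) δ * ((ξ + 2 * GG p A (exp ξ)) - (η + 2 * GG p A (exp η))))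
  rw [h9, norm_mul, RCLike.norm_conj] at h10
  have h11 : ‖δ‖ * (‖δ‖ / 2 + ∑' n, A n * DD (p n) (exp ξ) (exp η)) ≤
      ‖δ‖ * ‖(ξ + 2 * GG p A (exp ξ)) - (η + 2 * GG p A (exp η))‖ := by
    have h12 : (∑' n, A n) * ‖δ‖ ^ 2 ≤ 1 / 2 * ‖δ‖ ^ 2 := mul_le_mul_of_nonneg_right hA1 (by positivity)
    nlinarith
  exact le_of_mul_le_mul_left h11 hpos

end

/-! ### Blaschke product -/

section
variable (p : ℕ → ℂ) (P : ℕ → Prop) [DecidablePred P]

noncomputable def beta (n : ℕ) (z : ℂ) : ℂ :=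
  if P n then -((‖p n‖ : ℂ) / p n) * bb (p n) z else 1

noncomputable def BB (z : ℂ) : ℂ := ∏' n, beta p P n z

variable {p P} (hp : ∀ n, ‖p n‖ < 1) (hP : ∀ n, P n → p n ≠ 0)
  (hs : Summable fun n => if P n then 1 - ‖p n‖ else 0)
include hp hP

omit [DecidablePred P] hp in
lemma norm_unimod (n : ℕ) (h : P n) : ‖-((‖p n‖ : ℂ) / p n)‖ = 1 := by
  rw [norm_neg, norm_div, Complex.norm_real, Real.norm_eq_abs, abs_of_nonneg (norm_nonneg _)]
  exact div_self (norm_ne_zero_iff.mpr (hP n h))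

lemma norm_beta_le (n : ℕ) {z : ℂ} (hz : ‖z‖ ≤ 1) : ‖beta p P n z‖ ≤ 1 := by
  unfold beta
  split_ifs with h
  · rw [norm_mul, norm_unimod hP n h, one_mul]
    exact norm_bb_le (hp n) hz
  · simp

lemma norm_beta_sub (n : ℕ) {z w : ℂ} (hz : ‖z‖ ≤ 1) (hw : ‖w‖ ≤ 1) :
    ‖beta p P n z - beta p P n w‖ = if P n then DD (p n) z w else 0 := by
  unfold beta
  split_ifs with h
  · rw [← mul_sub, norm_mul, norm_unimod hP n h, one_mul, norm_bb_sub (hp n) hz hw]
  · simp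

omit [DecidablePred P] hp hP in
lemma norm_one_sub_ge {a z : ℂ} (ha : ‖a‖ < 1) : 1 - ‖z‖ ≤ ‖1 - (starRingEnd ℂ) a * z‖ := by
  have h1 : ‖(1:ℂ)‖ - ‖(starRingEnd ℂ) a * z‖ ≤ ‖1 - (starRingEnd ℂ) a * z‖ := norm_sub_norm_le _ _
  rw [norm_one, norm_mul, RCLike.norm_conj] at h1
  have h2 : ‖a‖ * ‖z‖ ≤ 1 * ‖z‖ := mul_le_mul_of_nonneg_right ha.le (norm_nonneg _)
  linarith

lemma norm_beta_sub_one (n : ℕ) {z : ℂ} {r : ℝ} (hz : ‖z‖ ≤ r) (hr : r < 1) :
    ‖beta p P n z - 1‖ ≤ (if P n then 1 - ‖p n‖ else 0) * (2 / (1 - r)) := by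
  unfold beta
  split_ifs with h
  · have hne := one_sub_ne (hp n) (hz.trans hr.le)
    have hpn := hP n h
    have e0 : ((‖p n‖ : ℂ)) ^ 2 = (starRingEnd ℂ) (p n) * p n := by
      have : ((‖p n‖ ^ 2 : ℝ) : ℂ) = (starRingEnd ℂ) (p n) * p n := by
        rw [← Complex.normSq_eq_norm_sq, ← Complex.normSq_eq_conj_mul_self]
      rw [← this]; push_cast; ring
    have e1 : -((‖p n‖ : ℂ) / p n) * bb (p n) z - 1
        = -((1 - ‖p n‖ : ℝ) : ℂ) * (1 + z * ((‖p n‖ : ℂ) / p n)) / (1 - (starRingEnd ℂ) (p n) * z) := by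
      unfold bb
      rw [eq_div_iff hne]
      rw [sub_mul, mul_assoc, div_mul_cancel₀ _ hne]
      have e2 : (starRingEnd ℂ) (p n) = ((‖p n‖ : ℂ)) ^ 2 / p n := by
        rw [e0]; field_simp
      rw [e2]
      push_cast
      field_simp
      ring
    rw [e1, norm_div, norm_mul, norm_neg, Complex.norm_real, Real.norm_eq_abs,
      abs_of_nonneg (by linarith [hp n]), mul_div_assoc]
    apply mul_le_mul_of_nonneg_left _ (by linarith [hp n])
    have h3 : ‖1 + z * ((‖p n‖ : ℂ) / p n)‖ ≤ 2 := by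
      have h4 : ‖(‖p n‖ : ℂ) / p n‖ = 1 := by
        have := norm_unimod hP n h
        rwa [norm_neg] at this
      calc ‖1 + z * ((‖p n‖ : ℂ) / p n)‖ ≤ ‖(1:ℂ)‖ + ‖z * ((‖p n‖ : ℂ) / p n)‖ := norm_add_le _ _
        _ = 1 + ‖z‖ := by rw [norm_mul, h4, norm_one, mul_one]
        _ ≤ 2 := by linarith
    have h4 : 1 - r ≤ ‖1 - (starRingEnd ℂ) (p n) * z‖ :=
      le_trans (by linarith) (norm_one_sub_ge (hp n))
    exact div_le_div₀ (by norm_num) h3 (by linarith) h4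
  · simp

include hs

lemma hasProd_B {r : ℝ} (hr : r < 1) :
    HasProdLocallyUniformlyOn (fun n z => beta p P n z) (BB p P) (ball 0 r) := by
  have := Summable.hasProdLocallyUniformlyOn_one_add (R := ℂ) (K := ball (0:ℂ) r)
    (f := fun n z => beta p P n z - 1)
    (u := fun n => (if P n then 1 - ‖p n‖ else 0) * (2 / (1 - r))) isOpen_ball
    (hs.mul_right _) (Filter.Eventually.of_forall (fun n z hz => by
      rw [mem_ball_zero_iff] at hz
      exact norm_beta_sub_one hp hP n hz.le hr))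
    (fun n => by
      unfold beta bb
      split_ifs with h
      · apply ContinuousOn.sub _ continuousOn_const
        apply ContinuousOn.mul continuousOn_const
        apply ContinuousOn.div (by fun_prop) (by fun_prop)
        intro z hz
        rw [mem_ball_zero_iff] at hz
        exact one_sub_ne (hp n) (by linarith)
      · exact continuousOn_const)
  have h3 := this
  simp only [add_sub_cancel] at h3
  exact h3

lemma B_diff : DifferentiableOn ℂ (BB p P) (ball 0 1) := by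
  intro z hz
  rw [mem_ball_zero_iff] at hz
  obtain ⟨r, hr1, hr2⟩ := exists_between hz
  have h1 : DifferentiableOn ℂ (BB p P) (ball 0 r) := by
    have h2 := hasProd_B hp hP hs hr2
    refine h2.differentiableOn (Filter.Eventually.of_forall fun s => ?_) isOpen_ball
    apply DifferentiableOn.fun_finsetProd
    intro n _
    show DifferentiableOn ℂ (fun z => beta p P n z) (ball 0 r)
    unfold beta bb
    split_ifs with h
    · apply DifferentiableOn.const_mul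
      apply DifferentiableOn.div (by fun_prop) (by fun_prop)
      intro z hz
      rw [mem_ball_zero_iff] at hz
      exact one_sub_ne (hp n) (by linarith)
    · exact differentiableOn_const _
  exact ((h1 z (by rwa [mem_ball_zero_iff])).differentiableAt
    (isOpen_ball.mem_nhds (by rwa [mem_ball_zero_iff]))).differentiableWithinAt

lemma hasProd_B_pt {z : ℂ} (hz : ‖z‖ < 1) : HasProd (fun n => beta p P n z) (BB p P z) := by
  obtain ⟨r, hr1, hr2⟩ := exists_between hz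
  exact (hasProd_B hp hP hs hr2).hasProd (by rwa [mem_ball_zero_iff])

lemma B_norm_le {z : ℂ} (hz : ‖z‖ < 1) : ‖BB p P z‖ ≤ 1 := by
  have h1 := (hasProd_B_pt hp hP hs hz)
  have h2 : Filter.Tendsto (fun s : Finset ℕ => ‖∏ n ∈ s, beta p P n z‖) Filter.atTop (nhds ‖BB p P z‖) :=
    (continuous_norm.tendsto _).comp h1
  refine le_of_tendsto h2 (Filter.Eventually.of_forall fun s => ?_)
  rw [norm_prod]
  exact Finset.prod_le_one (fun n _ => norm_nonneg _) (fun n _ => norm_beta_le hp hP n hz.le)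

omit hs in
lemma prod_sub_le (s : Finset ℕ) {z w : ℂ} (hz : ‖z‖ ≤ 1) (hw : ‖w‖ ≤ 1) :
    ‖∏ n ∈ s, beta p P n z - ∏ n ∈ s, beta p P n w‖ ≤ ∑ n ∈ s, (if P n then DD (p n) z w else 0) := by
  classical
  induction s using Finset.induction_on with
  | empty => simp
  | insert a s ha ih =>
    rw [Finset.prod_insert ha, Finset.prod_insert ha, Finset.sum_insert ha]
    have e1 : beta p P a z * ∏ n ∈ s, beta p P n z - beta p P a w * ∏ n ∈ s, beta p P n w
        = (beta p P a z - beta p P a w) * ∏ n ∈ s, beta p P n z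
          + beta p P a w * (∏ n ∈ s, beta p P n z - ∏ n ∈ s, beta p P n w) := by ring
    rw [e1]
    have h2 : ‖∏ n ∈ s, beta p P n z‖ ≤ 1 := by
      rw [norm_prod]
      exact Finset.prod_le_one (fun n _ => norm_nonneg _) (fun n _ => norm_beta_le hp hP n hz)
    calc _ ≤ ‖(beta p P a z - beta p P a w) * ∏ n ∈ s, beta p P n z‖
          + ‖beta p P a w * (∏ n ∈ s, beta p P n z - ∏ n ∈ s, beta p P n w)‖ := norm_add_le _ _
      _ ≤ ‖beta p P a z - beta p P a w‖ * 1 + 1 * ‖∏ n ∈ s, beta p P n z - ∏ n ∈ s, beta p P n w‖ := by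
          rw [norm_mul, norm_mul]
          gcongr
          exact norm_beta_le hp hP a hw
      _ ≤ _ := by
          rw [norm_beta_sub hp hP a hz hw, mul_one, one_mul]
          gcongr

omit hP hs in
lemma DD_le_const {z w : ℂ} {r : ℝ} (hz : ‖z‖ ≤ r) (hw : ‖w‖ ≤ r) (hr : r < 1) (n : ℕ) :
    (if P n then DD (p n) z w else 0) ≤ (if P n then 1 - ‖p n‖ else 0) * (4 / (1 - r) ^ 2) := by
  split_ifs with h
  · have h1 : 1 - r ≤ ‖1 - (starRingEnd ℂ) (p n) * z‖ := le_trans (by linarith) (norm_one_sub_ge (hp n))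
    have h2 : 1 - r ≤ ‖1 - (starRingEnd ℂ) (p n) * w‖ := le_trans (by linarith) (norm_one_sub_ge (hp n))
    have h3 : (1 - r) ^ 2 ≤ ‖1 - (starRingEnd ℂ) (p n) * z‖ * ‖1 - (starRingEnd ℂ) (p n) * w‖ := by
      rw [sq]; exact mul_le_mul h1 h2 (by linarith) (norm_nonneg _)
    have h4 : ‖z - w‖ ≤ 2 := by
      calc ‖z - w‖ ≤ ‖z‖ + ‖w‖ := norm_sub_le _ _
        _ ≤ 2 := by linarith
    unfold DD
    rw [mul_div_assoc']
    apply div_le_div₀ (mul_nonneg (by linarith [hp n]) (by norm_num)) _ (by nlinarith) h3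
    have h5 : 1 - ‖p n‖ ^ 2 ≤ 2 * (1 - ‖p n‖) := by nlinarith [hp n, norm_nonneg (p n)]
    have h6 : 0 ≤ 1 - ‖p n‖ ^ 2 := by nlinarith [hp n, norm_nonneg (p n)]
    calc ‖z - w‖ * (1 - ‖p n‖ ^ 2) ≤ 2 * (2 * (1 - ‖p n‖)) := mul_le_mul h4 h5 h6 (by norm_num)
      _ = (1 - ‖p n‖) * 4 := by ring
  · simp

omit hP in
lemma summable_DD {z w : ℂ} (hz : ‖z‖ < 1) (hw : ‖w‖ < 1) :
    Summable fun n => (if P n then DD (p n) z w else 0) := by
  have hr : max ‖z‖ ‖w‖ < 1 := max_lt hz hw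
  refine Summable.of_nonneg_of_le (fun n => ?_)
    (fun n => DD_le_const hp (le_max_left _ _) (le_max_right _ _) hr n) (hs.mul_right _)
  split_ifs
  · exact DD_nonneg (hp n)
  · exact le_rfl

lemma B_sub_le {z w : ℂ} (hz : ‖z‖ < 1) (hw : ‖w‖ < 1) :
    ‖BB p P z - BB p P w‖ ≤ ∑' n, (if P n then DD (p n) z w else 0) := by
  have h1 := (hasProd_B_pt hp hP hs hz)
  have h2 := (hasProd_B_pt hp hP hs hw)
  have h3 : Filter.Tendsto (fun s : Finset ℕ => ‖∏ n ∈ s, beta p P n z - ∏ n ∈ s, beta p P n w‖)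
      Filter.atTop (nhds ‖BB p P z - BB p P w‖) :=
    (continuous_norm.tendsto _).comp (h1.sub h2)
  refine le_of_tendsto h3 (Filter.Eventually.of_forall fun s => ?_)
  refine (prod_sub_le hp hP s hz.le hw.le).trans ?_
  refine (summable_DD hp hs hz hw).sum_le_tsum s ?_
  intro n _
  split_ifs
  · exact DD_nonneg (hp n)
  · exact le_rfl

omit hs hP hp in
lemma B_zero_at {n : ℕ} (h : P n) : BB p P (p n) = 0 := by
  unfold BB
  apply tprod_of_exists_eq_zero
  refine ⟨n, ?_⟩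
  unfold beta bb
  simp [h]

lemma B_ne_zero : BB p P 0 ≠ 0 := by
  have h1 : ∏' n, (1 + (beta p P n 0 - 1)) ≠ 0 := by
    apply tprod_one_add_ne_zero_of_summable
    · intro n
      have : beta p P n 0 ≠ 0 := by
        unfold beta bb
        split_ifs with h
        · have := hP n h
          simp [this]
        · exact one_ne_zero
      simpa using this
    · refine Summable.of_nonneg_of_le (fun n => norm_nonneg _)
        (fun n => norm_beta_sub_one (r := 0) hp hP n (by simp) (by norm_num)) (hs.mul_right _)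
  unfold BB
  simpa using h1

end

/-! ### The damping factor and the perturbation -/

lemma half_le_cos {y : ℝ} (hy : |y| ≤ Real.pi / 4) : 1 / 2 ≤ Real.cos y := by
  rw [← Real.cos_abs, ← Real.cos_pi_div_three]
  apply Real.cos_le_cos_of_nonneg_of_le_pi (abs_nonneg _)
  · linarith [Real.pi_pos]
  · linarith [Real.pi_pos]

lemma norm_exp_neg_exp_le {s : ℂ} (hs : |s.im| ≤ Real.pi / 4) :
    ‖exp (-exp s)‖ ≤ Real.exp (-(Real.exp s.re / 2)) := by
  rw [Complex.norm_exp]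
  apply Real.exp_le_exp.mpr
  rw [neg_re, Complex.exp_re]
  have := half_le_cos hs
  have h2 := Real.exp_pos s.re
  nlinarith

lemma exp_exp_lip {s t : ℂ} (hs : |s.im| ≤ Real.pi / 4) (ht : |t.im| ≤ Real.pi / 4) :
    ‖exp (-exp s) - exp (-exp t)‖ ≤ ‖s - t‖ := by
  have hconv : Convex ℝ {s : ℂ | |s.im| ≤ Real.pi / 4} := by
    have : {s : ℂ | |s.im| ≤ Real.pi / 4} = Complex.imLm ⁻¹' (Icc (-(Real.pi / 4)) (Real.pi / 4)) := by
      ext s
      simp [abs_le]
    rw [this]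
    exact (convex_Icc _ _).linear_preimage _
  have key := Convex.norm_image_sub_le_of_norm_hasDerivWithin_le (𝕜 := ℂ)
    (s := {s : ℂ | |s.im| ≤ Real.pi / 4}) (f := fun s => exp (-exp s))
    (f' := fun s => exp (-exp s) * -exp s) (C := 1) (x := t) (y := s)
    (fun x _ => ((Complex.hasDerivAt_exp x).fun_neg.cexp).hasDerivWithinAt)
    (fun x hx => by
      rw [norm_mul, norm_neg, Complex.norm_exp x]
      have h1 := norm_exp_neg_exp_le hx
      have h2 : Real.exp x.re ≤ Real.exp (Real.exp x.re / 2) := by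
        have h3 := Real.add_one_le_exp (Real.exp x.re / 2 - 1)
        have h4 : Real.exp (Real.exp x.re / 2 - 1) * 2 ≤ Real.exp (Real.exp x.re / 2) := by
          rw [Real.exp_sub, div_mul_eq_mul_div, div_le_iff₀ (Real.exp_pos _)]
          apply mul_le_mul_of_nonneg_left _ (Real.exp_pos _).le
          have := Real.exp_one_gt_d9
          linarith
        linarith
      calc ‖exp (-exp x)‖ * Real.exp x.re ≤ Real.exp (-(Real.exp x.re / 2)) * Real.exp (Real.exp x.re / 2) :=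
            mul_le_mul h1 h2 (Real.exp_pos _).le (Real.exp_pos _).le
        _ = 1 := by rw [← Real.exp_add]; simp)
    hconv ht hs
  simpa using key

lemma exp_lip {ξ η : ℂ} (hξ : ξ.re ≤ 0) (hη : η.re ≤ 0) : ‖exp ξ - exp η‖ ≤ ‖ξ - η‖ := by
  have hconv : Convex ℝ {s : ℂ | s.re ≤ 0} := by
    have : {s : ℂ | s.re ≤ 0} = Complex.reLm ⁻¹' (Iic 0) := by
      ext s
      simp
    rw [this]
    exact (convex_Iic _).linear_preimage _
  have key := Convex.norm_image_sub_le_of_norm_hasDerivWithin_le (𝕜 := ℂ)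
    (s := {s : ℂ | s.re ≤ 0}) (f := fun s => exp s)
    (f' := fun s => exp s) (C := 1) (x := η) (y := ξ)
    (fun x _ => (Complex.hasDerivAt_exp x).hasDerivWithinAt)
    (fun x hx => by
      rw [Complex.norm_exp]
      exact Real.exp_le_one_iff.mpr hx)
    hconv hη hξ
  simpa using key

section
variable {p : ℕ → ℂ} {A : ℕ → ℝ} {P : ℕ → Prop} [DecidablePred P] {L : ℂ → ℂ} {κ : ℕ → ℝ}

/-- the perturbation -/
noncomputable def qq (p : ℕ → ℂ) (A : ℕ → ℝ) (P : ℕ → Prop) [DecidablePred P] (L : ℂ → ℂ) (ε : ℝ)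
    (z : ℂ) : ℂ :=
  ε * (z * L z * exp (-exp (GG p A z)) * BB p P z)

/-- the coordinate -/
noncomputable def Phi (p : ℕ → ℂ) (A : ℕ → ℝ) (ξ : ℂ) : ℂ := ξ + 2 * GG p A (exp ξ)

lemma main_lip (hp : ∀ n, ‖p n‖ < 1) (hA : ∀ n, 0 ≤ A n) (hAs : Summable A)
    (hA1 : ∑' n, A n ≤ 1 / 2) (hP : ∀ n, P n → p n ≠ 0)
    (hs : Summable fun n => if P n then 1 - ‖p n‖ else 0)
    {C M : ℝ} (hC : 0 ≤ C) (hM : 0 ≤ M)
    (hL : ∀ x ∈ ball (0:ℂ) 1, ∀ y ∈ ball (0:ℂ) 1, ‖L x - L y‖ ≤ C * ‖x - y‖)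
    (hLb : ∀ x ∈ ball (0:ℂ) 1, ‖L x‖ ≤ M)
    (hκ : ∀ n, 0 ≤ κ n) (hκs : Summable κ)
    (hT : ∀ n, P n → ∀ z ∈ ball (0:ℂ) 1, ∀ w ∈ ball (0:ℂ) 1, ‖GG p A z - GG p A w‖ ≤ 3 / 2 →
      DD (p n) z w ≤ κ n * ‖z - w‖ ∨ ‖exp (-exp (GG p A w))‖ ≤ A n) :
    ∃ ε : ℝ, 0 < ε ∧ (∀ z ∈ ball (0:ℂ) 1, ‖qq p A P L ε z‖ ≤ 1) ∧
      ∀ ξ η : ℂ, ξ.re < 0 → η.re < 0 →
        ‖qq p A P L ε (exp ξ) - qq p A P L ε (exp η)‖ ≤ 1 / 2 * ‖Phi p A ξ - Phi p A η‖ := by
  set K : ℝ := ∑' n, κ n with hK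
  have hK0 : 0 ≤ K := tsum_nonneg hκ
  set T : ℝ := 2 * (M + C) + 3 / 2 * M + M * (2 * K + 1) + 2 * M + 1 with hTdef
  have hTpos : 0 < T := by positivity
  refine ⟨1 / (2 * T), by positivity, ?_, ?_⟩
  · intro z hz
    have hz' := hz
    rw [mem_ball_zero_iff] at hz
    have h1 : ‖exp (-exp (GG p A z))‖ ≤ 1 :=
      (norm_exp_neg_exp_le (GG_im hp hA hAs hz hA1)).trans
        (Real.exp_le_one_iff.mpr (by linarith [Real.exp_pos (GG p A z).re]))
    unfold qq
    rw [norm_mul, norm_mul, norm_mul, norm_mul, Complex.norm_real, Real.norm_eq_abs,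
      abs_of_nonneg (by positivity)]
    have h2 : ‖z‖ * ‖L z‖ * ‖exp (-exp (GG p A z))‖ * ‖BB p P z‖ ≤ 1 * M * 1 * 1 := by
      gcongr
      · exact hLb z hz'
      · exact B_norm_le hp hP hs hz
    have h3 : M ≤ T := by rw [hTdef]; nlinarith [mul_nonneg hM hK0]
    calc 1 / (2 * T) * (‖z‖ * ‖L z‖ * ‖exp (-exp (GG p A z))‖ * ‖BB p P z‖)
        ≤ 1 / (2 * T) * T := by
          apply mul_le_mul_of_nonneg_left _ (by positivity)
          linarith
      _ = 1 / 2 := by field_simp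
      _ ≤ 1 := by norm_num
  intro ξ η hξ hη
  set z := exp ξ with hzdef
  set w := exp η with hwdef
  set d := ‖Phi p A ξ - Phi p A η‖ with hd
  have hz : ‖z‖ < 1 := by rw [hzdef, Complex.norm_exp]; exact Real.exp_lt_one_iff.mpr hξ
  have hw : ‖w‖ < 1 := by rw [hwdef, Complex.norm_exp]; exact Real.exp_lt_one_iff.mpr hη
  have hzb : z ∈ ball (0:ℂ) 1 := by rwa [mem_ball_zero_iff]
  have hwb : w ∈ ball (0:ℂ) 1 := by rwa [mem_ball_zero_iff]
  have hkey : ‖ξ - η‖ / 2 + ∑' n, A n * DD (p n) z w ≤ d := key_Phi hp hA hAs hξ hη hA1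
  have hSn : 0 ≤ ∑' n, A n * DD (p n) z w :=
    tsum_nonneg fun n => mul_nonneg (hA n) (DD_nonneg (hp n))
  have hd0 : 0 ≤ d := norm_nonneg _
  have h1 : ‖ξ - η‖ ≤ 2 * d := by linarith
  have h2 : ∑' n, A n * DD (p n) z w ≤ d := by linarith [norm_nonneg (ξ - η)]
  have h3 : ‖z - w‖ ≤ 2 * d := (exp_lip hξ.le hη.le).trans h1
  have h4 : ‖GG p A z - GG p A w‖ ≤ 3 / 2 * d := by
    have e1 : GG p A z - GG p A w = (1 / 2 : ℂ) * ((Phi p A ξ - Phi p A η) - (ξ - η)) := by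
      unfold Phi; rw [← hzdef, ← hwdef]; ring
    rw [e1, norm_mul]
    have e2 : ‖(1 / 2 : ℂ)‖ = 1 / 2 := by norm_num
    rw [e2]
    have := norm_sub_le (Phi p A ξ - Phi p A η) (ξ - η)
    linarith
  set R : ℂ → ℂ := fun z => exp (-exp (GG p A z)) with hR
  have hR1 : ∀ z : ℂ, ‖z‖ < 1 → ‖R z‖ ≤ 1 := fun z hz =>
      (norm_exp_neg_exp_le (GG_im hp hA hAs hz hA1)).trans
        (Real.exp_le_one_iff.mpr (by linarith [Real.exp_pos (GG p A z).re]))
  have hR2 : ‖R z - R w‖ ≤ 3 / 2 * d :=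
    (exp_exp_lip (GG_im hp hA hAs hz hA1) (GG_im hp hA hAs hw hA1)).trans h4
  set N : ℂ → ℂ := fun z => z * L z * R z with hN
  have hLw := hLb w hwb
  have hLz := hLb z hzb
  have hNw : ‖N w‖ ≤ M * ‖R w‖ := by
    show ‖w * L w * R w‖ ≤ _
    rw [norm_mul, norm_mul]
    have : ‖w‖ * ‖L w‖ ≤ 1 * M := mul_le_mul hw.le hLw (norm_nonneg _) (by norm_num)
    nlinarith [norm_nonneg (R w)]
  have hNz : ‖N z‖ ≤ M * ‖R z‖ := by
    show ‖z * L z * R z‖ ≤ _
    rw [norm_mul, norm_mul]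
    have : ‖z‖ * ‖L z‖ ≤ 1 * M := mul_le_mul hz.le hLz (norm_nonneg _) (by norm_num)
    nlinarith [norm_nonneg (R z)]
  have hNsub : ‖N z - N w‖ ≤ (2 * (M + C) + 3 / 2 * M) * d := by
    have e1 : N z - N w = ((z - w) * L z + w * (L z - L w)) * R z + w * L w * (R z - R w) := by
      show z * L z * R z - w * L w * R w = _
      ring
    rw [e1]
    have a1 : ‖(z - w) * L z + w * (L z - L w)‖ ≤ (M + C) * ‖z - w‖ := by
      calc _ ≤ ‖(z - w) * L z‖ + ‖w * (L z - L w)‖ := norm_add_le _ _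
        _ = ‖z - w‖ * ‖L z‖ + ‖w‖ * ‖L z - L w‖ := by rw [norm_mul, norm_mul]
        _ ≤ ‖z - w‖ * M + 1 * (C * ‖z - w‖) := by
            have b1 := hL z hzb w hwb
            gcongr
        _ = (M + C) * ‖z - w‖ := by ring
    have a2 : ‖w * L w‖ ≤ M := by
      rw [norm_mul]
      have : ‖w‖ * ‖L w‖ ≤ 1 * M := mul_le_mul hw.le hLw (norm_nonneg _) (by norm_num)
      linarith
    calc _ ≤ ‖((z - w) * L z + w * (L z - L w)) * R z‖ + ‖w * L w * (R z - R w)‖ := norm_add_le _ _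
      _ = ‖(z - w) * L z + w * (L z - L w)‖ * ‖R z‖ + ‖w * L w‖ * ‖R z - R w‖ := by
          rw [norm_mul, norm_mul]
      _ ≤ ((M + C) * ‖z - w‖) * 1 + M * (3 / 2 * d) := by
          gcongr
          exact hR1 z hz
      _ ≤ ((M + C) * (2 * d)) * 1 + M * (3 / 2 * d) := by gcongr
      _ = _ := by ring
  have hmain : ‖N z * BB p P z - N w * BB p P w‖ ≤ T * d := by
    rcases le_or_gt 1 d with h | h
    · have b1 := hR1 z hz
      have b2 := hR1 w hw
      have b3 := B_norm_le hp hP hs hz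
      have b4 := B_norm_le hp hP hs hw
      calc _ ≤ ‖N z * BB p P z‖ + ‖N w * BB p P w‖ := norm_sub_le _ _
        _ = ‖N z‖ * ‖BB p P z‖ + ‖N w‖ * ‖BB p P w‖ := by
            rw [norm_mul (N z) (BB p P z), norm_mul (N w) (BB p P w)]
        _ ≤ M * 1 + M * 1 := by
            have c1 : ‖N z‖ ≤ M := hNz.trans (by nlinarith)
            have c2 : ‖N w‖ ≤ M := hNw.trans (by nlinarith)
            gcongr
        _ ≤ T * 1 := by rw [hTdef]; nlinarith [mul_nonneg hM hK0]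
        _ ≤ T * d := by gcongr
    · have hGG : ‖GG p A z - GG p A w‖ ≤ 3 / 2 := by linarith
      have hterm : ∀ n, ‖R w‖ * (if P n then DD (p n) z w else 0) ≤
          κ n * ‖z - w‖ + A n * DD (p n) z w := by
        intro n
        have hDn := DD_nonneg (z := z) (w := w) (hp n)
        have hκn := mul_nonneg (hκ n) (norm_nonneg (z - w))
        split_ifs with hPn
        · rcases hT n hPn z hzb w hwb hGG with h5 | h5
          · have := hR1 w hw
            have h6 : ‖R w‖ * DD (p n) z w ≤ 1 * DD (p n) z w := mul_le_mul_of_nonneg_right this hDn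
            nlinarith [mul_nonneg (hA n) hDn]
          · have h6 : ‖R w‖ * DD (p n) z w ≤ A n * DD (p n) z w := mul_le_mul_of_nonneg_right h5 hDn
            linarith
        · nlinarith [mul_nonneg (hA n) hDn]
      have hsum : ‖R w‖ * ∑' n, (if P n then DD (p n) z w else 0) ≤ (2 * K + 1) * d := by
        rw [← tsum_mul_left]
        have s1 := (summable_DD (P := P) hp hs hz hw).mul_left ‖R w‖
        have s2 := hκs.mul_right ‖z - w‖
        have s3 := summable_ADD hp hA hAs hz.le hw.le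
        refine (s1.tsum_le_tsum hterm (s2.add s3)).trans ?_
        rw [s2.tsum_add s3, tsum_mul_right]
        have := mul_le_mul_of_nonneg_left h3 hK0
        nlinarith
      have hBz := B_norm_le hp hP hs hz
      have hBsub := B_sub_le hp hP hs hz hw
      have e1 : N z * BB p P z - N w * BB p P w
          = (N z - N w) * BB p P z + N w * (BB p P z - BB p P w) := by ring
      rw [e1]
      have f1 : ‖N w‖ * ‖BB p P z - BB p P w‖ ≤ M * ((2 * K + 1) * d) := by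
        calc ‖N w‖ * ‖BB p P z - BB p P w‖ ≤ (M * ‖R w‖) * ∑' n, (if P n then DD (p n) z w else 0) := by
              gcongr
          _ = M * (‖R w‖ * ∑' n, (if P n then DD (p n) z w else 0)) := by ring
          _ ≤ M * ((2 * K + 1) * d) := mul_le_mul_of_nonneg_left hsum hM
      calc _ ≤ ‖(N z - N w) * BB p P z‖ + ‖N w * (BB p P z - BB p P w)‖ := norm_add_le _ _
        _ = ‖N z - N w‖ * ‖BB p P z‖ + ‖N w‖ * ‖BB p P z - BB p P w‖ := by
            rw [norm_mul (N z - N w) (BB p P z), norm_mul (N w) (BB p P z - BB p P w)]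
        _ ≤ ((2 * (M + C) + 3 / 2 * M) * d) * 1 + M * ((2 * K + 1) * d) := by gcongr
        _ ≤ T * d := by rw [hTdef]; nlinarith [mul_nonneg hM hd0]
  have e1 : qq p A P L (1 / (2 * T)) z - qq p A P L (1 / (2 * T)) w
      = ((1 / (2 * T) : ℝ) : ℂ) * (N z * BB p P z - N w * BB p P w) := by
    unfold qq
    show _ = ((1 / (2 * T) : ℝ) : ℂ) * (z * L z * exp (-exp (GG p A z)) * BB p P z -
      w * L w * exp (-exp (GG p A w)) * BB p P w)
    ring
  rw [e1, norm_mul, Complex.norm_real, Real.norm_eq_abs, abs_of_nonneg (by positivity)]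
  calc 1 / (2 * T) * ‖N z * BB p P z - N w * BB p P w‖ ≤ 1 / (2 * T) * (T * d) := by gcongr
    _ = 1 / 2 * d := by field_simp

end

/-! ### Univalence -/

section
variable {p : ℕ → ℂ} {A : ℕ → ℝ}

lemma Phi_add_int (ξ : ℂ) (k : ℤ) :
    Phi p A (ξ + k * (2 * Real.pi * I)) = Phi p A ξ + k * (2 * Real.pi * I) := by
  unfold Phi
  have : exp (ξ + k * (2 * Real.pi * I)) = exp ξ := by
    rw [Complex.exp_add, Complex.exp_int_mul_two_pi_mul_I, mul_one]
  rw [this]; ring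

lemma inj_of_lip (hp : ∀ n, ‖p n‖ < 1) (hA : ∀ n, 0 ≤ A n) (hAs : Summable A)
    (hA1 : ∑' n, A n ≤ 1 / 2) {q : ℂ → ℂ}
    (hq : ∀ ξ η : ℂ, ξ.re < 0 → η.re < 0 →
        ‖q (exp ξ) - q (exp η)‖ ≤ 1 / 2 * ‖Phi p A ξ - Phi p A η‖) :
    InjOn (fun z => z * exp (2 * GG p A z + q z)) (ball 0 1) := by
  intro x hx y hy hxy
  simp only at hxy
  rw [mem_ball_zero_iff] at hx hy
  rcases eq_or_ne x 0 with h | hx0
  · subst h
    rw [zero_mul] at hxy
    have := mul_eq_zero.mp hxy.symm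
    rcases this with h | h
    · exact h.symm
    · exact absurd h (Complex.exp_ne_zero _)
  rcases eq_or_ne y 0 with h | hy0
  · subst h
    rw [zero_mul] at hxy
    have := mul_eq_zero.mp hxy
    rcases this with h | h
    · exact h
    · exact absurd h (Complex.exp_ne_zero _)
  have ex : exp (log x) = x := Complex.exp_log hx0
  have ey : exp (log y) = y := Complex.exp_log hy0
  have rx : (log x).re < 0 := by
    rw [Complex.log_re]; exact Real.log_neg (norm_pos_iff.mpr hx0) hx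
  have ry : (log y).re < 0 := by
    rw [Complex.log_re]; exact Real.log_neg (norm_pos_iff.mpr hy0) hy
  have e1 : exp (Phi p A (log x) + q x) = exp (Phi p A (log y) + q y) := by
    unfold Phi
    rw [ex, ey, add_assoc, add_assoc, Complex.exp_add, Complex.exp_add (log y), ex, ey]
    exact hxy
  obtain ⟨k, hk⟩ := Complex.exp_eq_exp_iff_exists_int.mp e1
  set η := log y + k * (2 * Real.pi * I) with hη
  have e2 : Phi p A (log x) + q x = Phi p A η + q y := by
    rw [hη, Phi_add_int, hk]; ring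
  have ey' : exp η = y := by
    rw [hη, Complex.exp_add, Complex.exp_int_mul_two_pi_mul_I, mul_one, ey]
  have ry' : η.re < 0 := by
    have : η.re = (log y).re := by rw [hη]; simp
    rw [this]; exact ry
  have h3 := hq (log x) η rx ry'
  rw [ex, ey'] at h3
  have e3 : Phi p A (log x) - Phi p A η = -(q x - q y) := by
    linear_combination e2
  rw [e3, norm_neg] at h3
  have h4 : ‖q x - q y‖ = 0 := by linarith [norm_nonneg (q x - q y)]
  have h5 := key_Phi hp hA hAs rx ry' hA1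
  have h6 : 0 ≤ ∑' n, A n * DD (p n) (exp (log x)) (exp η) :=
    tsum_nonneg fun n => mul_nonneg (hA n) (DD_nonneg (hp n))
  have h7 : ‖(log x + 2 * GG p A (exp (log x))) - (η + 2 * GG p A (exp η))‖ = 0 := by
    have : (log x + 2 * GG p A (exp (log x))) - (η + 2 * GG p A (exp η)) = Phi p A (log x) - Phi p A η := rfl
    rw [this, e3, norm_neg, h4]
  rw [h7] at h5
  have h8 : ‖log x - η‖ = 0 := by linarith [norm_nonneg (log x - η)]
  have h9 : log x = η := sub_eq_zero.mp (norm_eq_zero.mp h8)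
  rw [← ex, ← ey', h9]

end

/-- the class `S` -/
def ClassS (f : ℂ → ℂ) : Prop :=
  DifferentiableOn ℂ f (ball 0 1) ∧ InjOn f (ball 0 1) ∧ f 0 = 0 ∧ deriv f 0 = 1

/-- coincidence sequences for `S` -/
def IsCoincidence (z : ℕ → ℂ) : Prop :=
  ∃ f g : ℂ → ℂ, ClassS f ∧ ClassS g ∧ (∃ w ∈ ball (0:ℂ) 1, f w ≠ g w) ∧ ∀ n, f (z n) = g (z n)

lemma classS_of {p : ℕ → ℂ} {A : ℕ → ℝ} (hp : ∀ n, ‖p n‖ < 1) (hA : ∀ n, 0 ≤ A n) (hAs : Summable A)
    (hA1 : ∑' n, A n ≤ 1 / 2) {q : ℂ → ℂ} (hqd : DifferentiableOn ℂ q (ball 0 1)) (hq0 : q 0 = 0)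
    (hq : ∀ ξ η : ℂ, ξ.re < 0 → η.re < 0 →
        ‖q (exp ξ) - q (exp η)‖ ≤ 1 / 2 * ‖Phi p A ξ - Phi p A η‖) :
    ClassS (fun z => z * exp (2 * GG p A z + q z)) := by
  have hG := GG_diff hp hA hAs
  have hE : DifferentiableOn ℂ (fun z => exp (2 * GG p A z + q z)) (ball 0 1) := by
    apply DifferentiableOn.cexp
    exact (hG.const_mul 2).add hqd
  refine ⟨?_, inj_of_lip hp hA hAs hA1 hq, by simp, ?_⟩
  · exact differentiableOn_id.mul hE
  · have h0 : (0:ℂ) ∈ ball (0:ℂ) 1 := by simp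
    have h1 : DifferentiableAt ℂ (fun z => exp (2 * GG p A z + q z)) 0 :=
      hE.differentiableAt (isOpen_ball.mem_nhds h0)
    have h2 := (hasDerivAt_id (0:ℂ)).mul h1.hasDerivAt
    have h3 : deriv (fun z => z * exp (2 * GG p A z + q z)) 0 = exp (2 * GG p A 0 + q 0) := by
      have h4 : HasDerivAt (fun z => z * exp (2 * GG p A z + q z)) (1 * exp (2 * GG p A 0 + q 0)
        + id 0 * deriv (fun z => exp (2 * GG p A z + q z)) 0) 0 := h2
      rw [h4.deriv]; simp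
    rw [h3, GG_zero, hq0]
    simp

/-- the abstract criterion -/
theorem criterion {p : ℕ → ℂ} {A : ℕ → ℝ} {P : ℕ → Prop} [DecidablePred P] {L : ℂ → ℂ} {κ : ℕ → ℝ}
    (hp : ∀ n, ‖p n‖ < 1) (hA : ∀ n, 0 ≤ A n) (hAs : Summable A)
    (hA1 : ∑' n, A n ≤ 1 / 2) (hP : ∀ n, P n → p n ≠ 0)
    (hs : Summable fun n => if P n then 1 - ‖p n‖ else 0)
    {C : ℝ} (hC : 0 ≤ C) (hLd : DifferentiableOn ℂ L (ball 0 1))
    (hL : ∀ x ∈ ball (0:ℂ) 1, ∀ y ∈ ball (0:ℂ) 1, ‖L x - L y‖ ≤ C * ‖x - y‖)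
    (hL0 : ∃ x ∈ ball (0:ℂ) 1, L x ≠ 0)
    (hPn : ∀ n, ¬ P n → L (p n) = 0 ∨ p n = 0)
    (hκ : ∀ n, 0 ≤ κ n) (hκs : Summable κ)
    (hT : ∀ n, P n → ∀ z ∈ ball (0:ℂ) 1, ∀ w ∈ ball (0:ℂ) 1, ‖GG p A z - GG p A w‖ ≤ 3 / 2 →
      DD (p n) z w ≤ κ n * ‖z - w‖ ∨ ‖exp (-exp (GG p A w))‖ ≤ A n) :
    IsCoincidence p := by
  have h00 : (0:ℂ) ∈ ball (0:ℂ) 1 := by simp
  have hLb : ∀ x ∈ ball (0:ℂ) 1, ‖L x‖ ≤ ‖L 0‖ + C := by
    intro x hx
    have h1 := hL x hx 0 h00
    rw [mem_ball_zero_iff] at hx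
    have h2 : ‖L x‖ ≤ ‖L x - L 0‖ + ‖L 0‖ := by
      have := norm_add_le (L x - L 0) (L 0)
      simpa using this
    rw [sub_zero] at h1
    nlinarith
  obtain ⟨ε, hε, hq1, hq⟩ := main_lip (L := L) hp hA hAs hA1 hP hs hC
    (add_nonneg (norm_nonneg (L 0)) hC) hL hLb hκ hκs hT
  have hG := GG_diff hp hA hAs
  have hB := B_diff hp hP hs
  have hqd : DifferentiableOn ℂ (qq p A P L ε) (ball 0 1) := by
    unfold qq
    apply DifferentiableOn.const_mul
    apply DifferentiableOn.mul _ hB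
    apply DifferentiableOn.mul (differentiableOn_id.mul hLd)
    exact (hG.cexp.neg).cexp
  have hq0 : qq p A P L ε 0 = 0 := by unfold qq; simp
  refine ⟨fun z => z * exp (2 * GG p A z + (fun _ => (0:ℂ)) z),
    fun z => z * exp (2 * GG p A z + qq p A P L ε z),
    classS_of hp hA hAs hA1 (differentiableOn_const 0) rfl ?_,
    classS_of hp hA hAs hA1 hqd hq0 hq, ?_, ?_⟩
  · intro ξ η _ _
    simp only [sub_self, norm_zero]
    positivity
  · -- existence of a point where they differ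
    by_contra hcon
    push Not at hcon
    have hz0 : ∀ w ∈ ball (0:ℂ) 1, w ≠ 0 → qq p A P L ε w = 0 := by
      intro w hw hw0
      have h1 := hcon w hw
      have h2 := mul_left_cancel₀ hw0 h1
      rw [add_zero, Complex.exp_add] at h2
      have h3 : exp (qq p A P L ε w) = 1 := by
        have := Complex.exp_ne_zero (2 * GG p A w)
        field_simp at h2
        exact h2.symm
      obtain ⟨n, hn⟩ := Complex.exp_eq_one_iff.mp h3
      have h4 := hq1 w hw
      rw [hn] at h4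
      rcases eq_or_ne n 0 with h5 | h5
      · rw [hn, h5]; simp
      · exfalso
        rw [norm_mul, norm_mul, Complex.norm_I, mul_one, norm_mul, Complex.norm_real,
          Real.norm_eq_abs, abs_of_pos Real.pi_pos] at h4
        have h6 : (1:ℝ) ≤ ‖(n:ℂ)‖ := by
          rw [Complex.norm_intCast]
          exact_mod_cast Int.one_le_abs h5
        have h7 : ‖(2:ℂ)‖ = 2 := by norm_num
        rw [h7] at h4
        have := Real.pi_gt_three
        nlinarith
    obtain ⟨x0, hx0, hLx0⟩ := hL0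
    -- L nonzero near x0
    have hLc : ContinuousAt L x0 := (hLd.differentiableAt (isOpen_ball.mem_nhds hx0)).continuousAt
    have hev : ∀ᶠ y in nhds x0, L y ≠ 0 := hLc.eventually_ne hLx0
    have hBz : ∀ᶠ y in nhdsWithin x0 {x0}ᶜ, BB p P y = 0 := by
      have e1 : ∀ᶠ y in nhdsWithin x0 {x0}ᶜ, y ∈ ball (0:ℂ) 1 :=
        nhdsWithin_le_nhds (isOpen_ball.mem_nhds hx0)
      have e2 : ∀ᶠ y in nhdsWithin x0 {x0}ᶜ, y ≠ 0 := by
        rcases eq_or_ne x0 0 with h | h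
        · rw [h]; exact self_mem_nhdsWithin
        · exact nhdsWithin_le_nhds (isOpen_ne.mem_nhds h)
      filter_upwards [e1, e2, nhdsWithin_le_nhds hev] with y h1 h2 h3
      have h4 := hz0 y h1 h2
      unfold qq at h4
      have h5 : (ε:ℂ) ≠ 0 := by exact_mod_cast hε.ne'
      have h6 := (mul_eq_zero.mp h4).resolve_left h5
      rcases mul_eq_zero.mp h6 with h7 | h7
      · exfalso
        rcases mul_eq_zero.mp h7 with h8 | h8
        · rcases mul_eq_zero.mp h8 with h9 | h9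
          · exact h2 h9
          · exact h3 h9
        · exact Complex.exp_ne_zero _ h8
      · exact h7
    have hBan : AnalyticOnNhd ℂ (BB p P) (ball 0 1) := hB.analyticOnNhd isOpen_ball
    have := hBan.eqOn_zero_of_preconnected_of_frequently_eq_zero
      (convex_ball (0:ℂ) 1).isPreconnected hx0 hBz.frequently
    exact B_ne_zero hp hP hs (this h00)
  · intro n
    have : qq p A P L ε (p n) = 0 ∨ p n = 0 := by
      by_cases h : P n
      · left; unfold qq; rw [B_zero_at h]; simp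
      · rcases hPn n h with h | h
        · left; unfold qq; rw [h]; simp
        · right; exact h
    rcases this with h | h
    · simp only [h]
    · simp only [h, zero_mul]

/-! ### The concrete condition -/

lemma log_two_le_loglog {x : ℝ} (hx : 0 ≤ x) : Real.log 2 ≤ Real.log (2 + Real.log (1 + x)) := by
  apply Real.log_le_log (by norm_num)
  have := Real.log_nonneg (by linarith : (1:ℝ) ≤ 1 + x)
  linarith

/-- the length of the corridor -/
noncomputable def lam (x : ℝ) : ℝ := 8 * (3 + Real.log (Real.log x)) / x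

lemma loglog_pos {x : ℝ} (hx : 3 ≤ x) : 0 ≤ Real.log (Real.log x) := by
  apply Real.log_nonneg
  rw [Real.le_log_iff_exp_le (by linarith)]
  have := Real.exp_one_lt_d9
  linarith

lemma lam_le {x : ℝ} (hx : 3 ≤ x) : lam x ≤ 43 * (Real.log (2 + Real.log (1 + x)) / x) := by
  unfold lam
  rw [mul_div_assoc']
  apply div_le_div_of_nonneg_right _ (by linarith)
  have h1 := log_two_le_loglog (by linarith : 0 ≤ x)
  have h2 := Real.log_two_gt_d9
  have h3 : Real.log (Real.log x) ≤ Real.log (2 + Real.log (1 + x)) := by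
    have h4 : 0 < Real.log x := Real.log_pos (by linarith)
    apply Real.log_le_log h4
    have := Real.log_le_log (by linarith : 0 < x) (by linarith : x ≤ 1 + x)
    linarith
  nlinarith

/-- the geometric alternative for points deep in the disc -/
lemma alt_tail {p : ℕ → ℂ} {A : ℕ → ℝ} (hp : ∀ n, ‖p n‖ < 1) (hA : ∀ n, 0 ≤ A n) (hAs : Summable A)
    (hA1 : ∑' n, A n ≤ 1 / 2) (n : ℕ) (hx : 3 ≤ Real.log (1 / (1 - ‖p n‖)))
    (hAn : A n = lam (Real.log (1 / (1 - ‖p n‖)))) {z w : ℂ} (hz : ‖z‖ < 1) (hw : ‖w‖ < 1)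
    (hzw : ‖GG p A z - GG p A w‖ ≤ 3 / 2) :
    DD (p n) z w ≤ Real.sqrt (1 - ‖p n‖ ^ 2) * ‖z - w‖ ∨ ‖exp (-exp (GG p A w))‖ ≤ A n := by
  set x := Real.log (1 / (1 - ‖p n‖)) with hxd
  set d := 1 - ‖p n‖ ^ 2 with hd
  have hpn := hp n
  have hpn0 := norm_nonneg (p n)
  have hd0 : 0 < d := by nlinarith
  set D1 := ‖1 - (starRingEnd ℂ) (p n) * z‖ with hD1
  set D2 := ‖1 - (starRingEnd ℂ) (p n) * w‖ with hD2
  have hD1p : 0 < D1 := norm_pos_iff.mpr (one_sub_ne (hp n) hz.le)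
  have hD2p : 0 < D2 := norm_pos_iff.mpr (one_sub_ne (hp n) hw.le)
  rcases le_or_gt (Real.sqrt d) (D1 * D2) with h | h
  · left
    unfold DD
    rw [div_le_iff₀ (by positivity)]
    have hs := Real.mul_self_sqrt hd0.le
    have hs0 := Real.sqrt_nonneg d
    calc ‖z - w‖ * d = ‖z - w‖ * (Real.sqrt d * Real.sqrt d) := by rw [hs]
      _ = Real.sqrt d * ‖z - w‖ * Real.sqrt d := by ring
      _ ≤ Real.sqrt d * ‖z - w‖ * (D1 * D2) := by gcongr
  · right
    -- logs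
    have hlog : Real.log D1 + Real.log D2 < Real.log d / 2 := by
      rw [← Real.log_mul hD1p.ne' hD2p.ne', ← Real.log_sqrt hd0.le]
      exact Real.log_lt_log (by positivity) h
    have hx0 : 0 < x := by linarith
    -- lower bound for log (1/d)
    have hld : x / 2 ≤ -Real.log d := by
      have h1 : d ≤ 2 * (1 - ‖p n‖) := by nlinarith
      have h2 : Real.log d ≤ Real.log 2 + Real.log (1 - ‖p n‖) := by
        rw [← Real.log_mul (by norm_num) (by linarith)]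
        exact Real.log_le_log hd0 h1
      have h3 : x = -Real.log (1 - ‖p n‖) := by
        rw [hxd, one_div, Real.log_inv]
      have h4 := Real.log_two_lt_d9
      linarith
    have hA0 := hA n
    have hAx : A n * (x / 8) = 3 + Real.log (Real.log x) := by
      rw [hAn]; unfold lam; field_simp
    have hRe : 3 + Real.log (Real.log x) - Real.log 2 / 2 - 3 / 2 ≤ (GG p A w).re := by
      have hdiff : |(GG p A z).re - (GG p A w).re| ≤ 3 / 2 := by
        rw [← sub_re]; exact (Complex.abs_re_le_norm _).trans hzw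
      rw [abs_le] at hdiff
      have hcase : x / 8 ≤ -Real.log D1 ∨ x / 8 ≤ -Real.log D2 := by
        by_contra hcon
        push Not at hcon
        linarith [hcon.1, hcon.2]
      rcases hcase with h5 | h5
      · have h6 := GG_re hp hA hAs hz hA1 n
        have h7 := mul_le_mul_of_nonneg_left h5 hA0
        rw [hAx] at h7
        linarith
      · have h6 := GG_re hp hA hAs hw hA1 n
        have h7 := mul_le_mul_of_nonneg_left h5 hA0
        rw [hAx] at h7
        linarith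
    have h8 := Real.log_two_lt_d9
    have h9 : 1 + Real.log (Real.log x) ≤ (GG p A w).re := by linarith
    have hlx : 0 < Real.log x := Real.log_pos (by linarith)
    have h10 : 2 * Real.log x ≤ Real.exp (GG p A w).re := by
      have h11 := Real.exp_le_exp.mpr h9
      rw [Real.exp_add, Real.exp_log hlx] at h11
      have := Real.exp_one_gt_d9
      nlinarith
    refine (norm_exp_neg_exp_le (GG_im hp hA hAs hw hA1)).trans ?_
    have h12 : Real.exp (-(Real.exp (GG p A w).re / 2)) ≤ Real.exp (-Real.log x) := by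
      apply Real.exp_le_exp.mpr; linarith
    refine h12.trans ?_
    rw [Real.exp_neg, Real.exp_log hx0, hAn]
    unfold lam
    rw [inv_eq_one_div]
    apply div_le_div_of_nonneg_right _ hx0.le
    have := loglog_pos hx
    linarith

lemma DD_head {a z w : ℂ} (ha : ‖a‖ < 1) (hz : ‖z‖ < 1) (hw : ‖w‖ < 1) :
    DD a z w ≤ (1 - ‖a‖ ^ 2) / (1 - ‖a‖) ^ 2 * ‖z - w‖ := by
  have aux : ∀ v : ℂ, ‖v‖ < 1 → 1 - ‖a‖ ≤ ‖1 - (starRingEnd ℂ) a * v‖ := by
    intro v hv
    have h1 : ‖(1:ℂ)‖ - ‖(starRingEnd ℂ) a * v‖ ≤ ‖1 - (starRingEnd ℂ) a * v‖ := norm_sub_norm_le _ _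
    rw [norm_one, norm_mul, RCLike.norm_conj] at h1
    have h2 : ‖a‖ * ‖v‖ ≤ ‖a‖ * 1 := mul_le_mul_of_nonneg_left hv.le (norm_nonneg _)
    linarith
  have h1 := aux z hz
  have h2 := aux w hw
  have h3 : (1 - ‖a‖) ^ 2 ≤ ‖1 - (starRingEnd ℂ) a * z‖ * ‖1 - (starRingEnd ℂ) a * w‖ := by
    rw [sq]; exact mul_le_mul h1 h2 (by linarith) (norm_nonneg _)
  have h4 : 0 ≤ 1 - ‖a‖ ^ 2 := by nlinarith [norm_nonneg a]
  have h5 : 0 < (1 - ‖a‖) ^ 2 := by
    have : 0 < 1 - ‖a‖ := by linarith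
    positivity
  unfold DD
  calc ‖z - w‖ * (1 - ‖a‖ ^ 2) / (‖1 - (starRingEnd ℂ) a * z‖ * ‖1 - (starRingEnd ℂ) a * w‖)
      ≤ ‖z - w‖ * (1 - ‖a‖ ^ 2) / (1 - ‖a‖) ^ 2 := by gcongr
    _ = _ := by ring

open Classical in
theorem main (p : ℕ → ℂ) (hp : ∀ n, ‖p n‖ < 1) (L : ℂ → ℂ) (hLd : DifferentiableOn ℂ L (ball 0 1))
    (hL : ∃ C : ℝ, ∀ x ∈ ball (0:ℂ) 1, ∀ y ∈ ball (0:ℂ) 1, ‖L x - L y‖ ≤ C * ‖x - y‖)
    (hL0 : ∃ x ∈ ball (0:ℂ) 1, L x ≠ 0)
    (hsum : Summable fun n => if L (p n) = 0 then 0 else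
      Real.log (2 + Real.log (1 + Real.log (1 / (1 - ‖p n‖)))) / Real.log (1 / (1 - ‖p n‖))) :
    IsCoincidence p := by
  obtain ⟨C0, hC0⟩ := hL
  set C := max C0 0 with hC
  have hC' : ∀ x ∈ ball (0:ℂ) 1, ∀ y ∈ ball (0:ℂ) 1, ‖L x - L y‖ ≤ C * ‖x - y‖ := by
    intro x hx y hy
    refine (hC0 x hx y hy).trans ?_
    gcongr
    exact le_max_left _ _
  set P : ℕ → Prop := fun n => L (p n) ≠ 0 ∧ p n ≠ 0 with hP
  set ℓ : ℕ → ℝ := fun n => Real.log (1 / (1 - ‖p n‖)) with hℓ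
  set c : ℕ → ℝ := fun n => if L (p n) = 0 then 0 else
      Real.log (2 + Real.log (1 + ℓ n)) / ℓ n with hc
  have hℓ0 : ∀ n, 0 ≤ ℓ n := by
    intro n
    apply Real.log_nonneg
    rw [le_div_iff₀ (by linarith [hp n])]
    linarith [norm_nonneg (p n)]
  have hℓP : ∀ n, P n → 0 < ℓ n := by
    intro n h
    apply Real.log_pos
    rw [lt_div_iff₀ (by linarith [hp n])]
    have := norm_pos_iff.mpr h.2
    linarith
  have hlogpos : ∀ n, Real.log 2 ≤ Real.log (2 + Real.log (1 + ℓ n)) := fun n => log_two_le_loglog (hℓ0 n)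
  have hl2 := Real.log_two_gt_d9
  have hc0 : ∀ n, 0 ≤ c n := by
    intro n
    simp only [hc]
    split_ifs
    · exact le_rfl
    · exact div_nonneg (by linarith [hlogpos n]) (hℓ0 n)
  have hcP : ∀ n, P n → c n = Real.log (2 + Real.log (1 + ℓ n)) / ℓ n := by
    intro n h
    simp only [hc]
    rw [if_neg h.1]
  have hcP1 : ∀ n, P n → 1 / ℓ n ≤ 2 * c n := by
    intro n h
    rw [hcP n h, mul_div_assoc']
    apply div_le_div_of_nonneg_right _ (hℓ0 n)
    linarith [hlogpos n]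
  -- eventually ℓ large
  have hev : ∀ᶠ n in Filter.atTop, c n < 1 / 6 := by
    have := hsum.tendsto_atTop_zero
    exact this.eventually (gt_mem_nhds (by norm_num))
  have hev2 : ∀ᶠ i in Filter.atTop, ∑' k, c (k + i) < 1 / 86 := by
    have := tendsto_sum_nat_add c
    exact this.eventually (gt_mem_nhds (by norm_num))
  obtain ⟨N, hN1, hN2⟩ : ∃ N, (∀ n, N ≤ n → c n < 1 / 6) ∧ ∑' k, c (k + N) < 1 / 86 := by
    obtain ⟨N1, h1⟩ := Filter.eventually_atTop.mp hev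
    obtain ⟨N2, h2⟩ := Filter.eventually_atTop.mp hev2
    exact ⟨max N1 N2, fun n hn => h1 n (le_trans (le_max_left _ _) hn), h2 _ (le_max_right _ _)⟩
  have hbig : ∀ n, P n → N ≤ n → 3 ≤ ℓ n := by
    intro n h hn
    have h1 := hcP1 n h
    have h2 := hN1 n hn
    have h3 := hℓP n h
    have h4 : 1 / ℓ n ≤ 1 / 3 := by linarith
    rw [one_div_le_one_div h3 (by norm_num)] at h4
    exact h4
  set A : ℕ → ℝ := fun n => if P n ∧ N ≤ n then lam (ℓ n) else 0 with hA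
  have hA0 : ∀ n, 0 ≤ A n := by
    intro n
    simp only [hA]
    split_ifs with h
    · unfold lam
      have := loglog_pos (hbig n h.1 h.2)
      apply div_nonneg _ (hℓ0 n)
      linarith
    · exact le_rfl
  have hAc : ∀ n, A n ≤ if N ≤ n then 43 * c n else 0 := by
    intro n
    simp only [hA]
    by_cases h : P n ∧ N ≤ n
    · rw [if_pos h, if_pos h.2, hcP n h.1]
      exact lam_le (hbig n h.1 h.2)
    · rw [if_neg h]
      split_ifs
      · exact mul_nonneg (by norm_num) (hc0 n)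
      · exact le_rfl
  have htail : HasSum (fun n => if N ≤ n then 43 * c n else 0) (43 * ∑' k, c (k + N)) := by
    have h1 : Summable fun k => c (k + N) := (summable_nat_add_iff N).mpr hsum
    have h2 := (h1.hasSum.mul_left 43)
    rw [← hasSum_nat_add_iff' N]
    have h3 : ∑ i ∈ Finset.range N, (if N ≤ i then 43 * c i else 0) = 0 := by
      apply Finset.sum_eq_zero
      intro i hi
      rw [Finset.mem_range] at hi
      rw [if_neg (by omega)]
    rw [h3, sub_zero]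
    have h4 : (fun n => if N ≤ n + N then 43 * c (n + N) else 0) = fun n => 43 * c (n + N) := by
      ext n; rw [if_pos (by omega)]
    rw [h4]
    exact h2
  have hAs : Summable A := Summable.of_nonneg_of_le hA0 hAc htail.summable
  have hA1 : ∑' n, A n ≤ 1 / 2 := by
    have := hAs.tsum_le_tsum hAc htail.summable
    rw [htail.tsum_eq] at this
    linarith
  -- κ
  set κ : ℕ → ℝ := fun n => if P n then (if N ≤ n then Real.sqrt (1 - ‖p n‖ ^ 2) else
      (1 - ‖p n‖ ^ 2) / (1 - ‖p n‖) ^ 2) else 0 with hκ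
  have hd0 : ∀ n, 0 ≤ 1 - ‖p n‖ ^ 2 := fun n => by nlinarith [hp n, norm_nonneg (p n)]
  have hκ0 : ∀ n, 0 ≤ κ n := by
    intro n
    simp only [hκ]
    split_ifs
    · exact Real.sqrt_nonneg _
    · exact div_nonneg (hd0 n) (sq_nonneg _)
    · exact le_rfl
  have hexp : ∀ n, 1 - ‖p n‖ = Real.exp (-ℓ n) := by
    intro n
    simp only [hℓ]
    rw [one_div, Real.log_inv, neg_neg, Real.exp_log (by linarith [hp n])]
  have hdsmall : ∀ n, P n → 1 - ‖p n‖ ≤ 2 * c n := by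
    intro n h
    refine le_trans ?_ (hcP1 n h)
    rw [hexp n, Real.exp_neg, one_div]
    apply inv_anti₀ (hℓP n h)
    linarith [Real.add_one_le_exp (ℓ n)]
  have hsqrt : ∀ n, P n → Real.sqrt (1 - ‖p n‖ ^ 2) ≤ 6 * c n := by
    intro n h
    have h1 : 1 - ‖p n‖ ^ 2 ≤ (3 * (1 / ℓ n)) ^ 2 := by
      have h2 : 1 - ‖p n‖ ^ 2 ≤ 2 * (1 - ‖p n‖) := by nlinarith [hp n, norm_nonneg (p n)]
      have h3 : 2 * (1 - ‖p n‖) ≤ (3 * (1 / ℓ n)) ^ 2 := by
        rw [hexp n, Real.exp_neg]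
        have h4 := hℓP n h
        have h5 : 2 * ℓ n ^ 2 ≤ 9 * Real.exp (ℓ n) := by
          have h6 := Real.add_one_le_exp (ℓ n / 2)
          have h7 : Real.exp (ℓ n) = Real.exp (ℓ n / 2) ^ 2 := by
            rw [← Real.exp_nat_mul]; congr 1; push_cast; ring
          rw [h7]
          have h8 : ℓ n / 2 ≤ Real.exp (ℓ n / 2) := by linarith
          have h9 : (ℓ n / 2) ^ 2 ≤ Real.exp (ℓ n / 2) ^ 2 := by
            apply pow_le_pow_left₀ (by linarith) h8
          nlinarith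
        have h6 := Real.exp_pos (ℓ n)
        rw [mul_pow, one_div, inv_pow]
        rw [← div_eq_mul_inv, ← div_eq_mul_inv, div_le_div_iff₀ h6 (by positivity)]
        linarith
      linarith
    calc Real.sqrt (1 - ‖p n‖ ^ 2) ≤ Real.sqrt ((3 * (1 / ℓ n)) ^ 2) := Real.sqrt_le_sqrt h1
      _ = 3 * (1 / ℓ n) := Real.sqrt_sq (by have := hℓP n h; positivity)
      _ ≤ 6 * c n := by linarith [hcP1 n h]
  have hκs : Summable κ := by
    refine Summable.of_norm_bounded_eventually_nat (g := fun n => 6 * c n) (hsum.mul_left 6) ?_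
    filter_upwards [Filter.eventually_ge_atTop N] with n hn
    rw [Real.norm_eq_abs, abs_of_nonneg (hκ0 n)]
    simp only [hκ]
    by_cases h : P n
    · rw [if_pos h, if_pos hn]; exact hsqrt n h
    · rw [if_neg h]; exact mul_nonneg (by norm_num) (hc0 n)
  have hsP : Summable fun n => if P n then 1 - ‖p n‖ else 0 := by
    refine Summable.of_nonneg_of_le ?_ ?_ (hsum.mul_left 2)
    · intro n
      split_ifs
      · linarith [hp n]
      · exact le_rfl
    · intro n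
      split_ifs with h
      · exact hdsmall n h
      · exact mul_nonneg (by norm_num) (hc0 n)
  refine criterion (P := P) (L := L) (κ := κ) (A := A) hp hA0 hAs hA1 (fun n h => h.2) hsP
    (le_max_right C0 0) hLd hC' hL0 ?_ hκ0 hκs ?_
  · intro n h
    by_contra hcon
    push Not at hcon
    exact h hcon
  · intro n h z hz w hw hzw
    rw [mem_ball_zero_iff] at hz hw
    by_cases hn : N ≤ n
    · have hκn : κ n = Real.sqrt (1 - ‖p n‖ ^ 2) := by simp only [hκ]; rw [if_pos h, if_pos hn]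
      have hAn : A n = lam (ℓ n) := by simp only [hA]; rw [if_pos ⟨h, hn⟩]
      rw [hκn]
      exact alt_tail hp hA0 hAs hA1 n (hbig n h hn) hAn hz hw hzw
    · left
      have hκn : κ n = (1 - ‖p n‖ ^ 2) / (1 - ‖p n‖) ^ 2 := by
        simp only [hκ]; rw [if_pos h, if_neg hn]
      rw [hκn]
      exact DD_head (hp n) hz hw

end Pool.Agent.Helper26.Coinc
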