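import Pool.Agent.Helper26.DZDefs

/-!
# Packet B of MP_8199af_an (Hilbert space part)
-/

open Complex Metric Set Filter Topology MeasureTheory
open Pool.Agent.Helper26.DZ

namespace Pool.Agent.Helper26.DZB

/-- the Hilbert space -/
abbrev H : Type := lp (fun _ : ℕ => ℂ) 2



theorem mem2 {f : ℕ → ℂ} (h : Summable fun k => ‖f k‖ ^ 2) : Memℓp f 2 := by
  apply memℓp_gen
  refine h.congr fun k => ?_
  simp

/-- a vector from its coordinates -/
noncomputable def mk2 (f : ℕ → ℂ) (h : Summable fun k => ‖f k‖ ^ 2) : H := ⟨f, mem2 h⟩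

theorem nsq (x : H) : HasSum (fun k => ‖x k‖ ^ 2) (‖x‖ ^ 2) := by
  have h := lp.hasSum_norm (p := 2) (by simp) x
  simpa using h

theorem sum2 (x : H) : Summable fun k => ‖x k‖ ^ 2 := (nsq x).summable

theorem inn (x y : H) : HasSum (fun k => y k * (starRingEnd ℂ) (x k)) (inner ℂ x y) := by
  have h := lp.hasSum_inner (𝕜 := ℂ) x y
  simpa only [RCLike.inner_apply] using h

/-! ### square roots -/

/-- `√(k+1)` -/
noncomputable def rt (k : ℕ) : ℝ := Real.sqrt ((k : ℝ) + 1)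

theorem rt_pos (k : ℕ) : 0 < rt k := Real.sqrt_pos.2 (by positivity)

theorem rt_sq (k : ℕ) : rt k * rt k = (k : ℝ) + 1 := Real.mul_self_sqrt (by positivity)

theorem rt_sq' (k : ℕ) : (rt k : ℂ) * (rt k : ℂ) = (k : ℂ) + 1 := by
  have := rt_sq k
  exact_mod_cast this

theorem rt_ne (k : ℕ) : (rt k : ℂ) ≠ 0 := by exact_mod_cast (rt_pos k).ne'

theorem one_le_rt (k : ℕ) : 1 ≤ rt k := by
  unfold rt
  rw [Real.one_le_sqrt]
  have : (0 : ℝ) ≤ k := Nat.cast_nonneg k
  linarith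

theorem rt_zero : rt 0 = 1 := by simp [rt]

theorem norm_rt (k : ℕ) : ‖(rt k : ℂ)‖ = rt k := by
  rw [Complex.norm_real, Real.norm_of_nonneg (rt_pos k).le]

theorem norm_div_rt_le (a : ℂ) (k : ℕ) : ‖a / (rt k : ℂ)‖ ≤ ‖a‖ := by
  rw [norm_div, norm_rt]
  exact div_le_self (norm_nonneg _) (one_le_rt k)

/-- coefficients -/
noncomputable def cf (x : H) (k : ℕ) : ℂ := x k / (rt k : ℂ)

/-! ### kernels -/

theorem kk_summable {w : ℂ} (hw : ‖w‖ < 1) :
    Summable fun k : ℕ => ‖(starRingEnd ℂ) w ^ k / (rt k : ℂ)‖ ^ 2 := by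
  have h1 : Summable fun k : ℕ => (‖w‖ ^ 2) ^ k :=
    summable_geometric_of_lt_one (by positivity)
      (pow_lt_one₀ (norm_nonneg w) hw (by norm_num))
  refine Summable.of_nonneg_of_le (fun k => by positivity) (fun k => ?_) h1
  calc ‖(starRingEnd ℂ) w ^ k / (rt k : ℂ)‖ ^ 2 ≤ ‖(starRingEnd ℂ) w ^ k‖ ^ 2 :=
        pow_le_pow_left₀ (norm_nonneg _) (norm_div_rt_le _ _) 2
    _ = (‖w‖ ^ 2) ^ k := by
        rw [norm_pow, RCLike.norm_conj, ← pow_mul, ← pow_mul, mul_comm]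

/-- the kernel -/
noncomputable def KK (w : ℂ) (hw : ‖w‖ < 1) : H := mk2 _ (kk_summable hw)

theorem KK_apply {w : ℂ} (hw : ‖w‖ < 1) (k : ℕ) : KK w hw k = (starRingEnd ℂ) w ^ k / (rt k : ℂ) := rfl

theorem inner_KK {w : ℂ} (hw : ‖w‖ < 1) (x : H) :
    HasSum (fun k => cf x k * w ^ k) (inner ℂ (KK w hw) x) := by
  have h := inn (KK w hw) x
  convert h using 2 with k
  rw [KK_apply, map_div₀, map_pow, Complex.conj_conj, Complex.conj_ofReal]
  unfold cf
  ring

theorem UU_eq {w : ℂ} (hw : ‖w‖ < 1) (x : H) : UU (cf x) w = inner ℂ (KK w hw) x :=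
  (inner_KK hw x).tsum_eq

/-! ### the operators -/

theorem A_summable (n : ℕ) (x : H) : Summable fun j => ‖x (j + n) / (rt (j + n) : ℂ)‖ ^ 2 := by
  have h1 : Summable fun j => ‖x (j + n)‖ ^ 2 := (summable_nat_add_iff n).2 (sum2 x)
  exact Summable.of_nonneg_of_le (fun k => by positivity)
    (fun k => pow_le_pow_left₀ (norm_nonneg _) (norm_div_rt_le _ _) 2) h1

/-- shifted coefficients -/
noncomputable def A (n : ℕ) (x : H) : H := mk2 _ (A_summable n x)

theorem A_apply (n : ℕ) (x : H) (j : ℕ) : A n x j = x (j + n) / (rt (j + n) : ℂ) := rfl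

theorem norm_A_le (n : ℕ) (x : H) : ‖A n x‖ ≤ ‖x‖ := by
  have h := hasSum_le_inj (fun j => j + n) (add_left_injective n)
    (fun c _ => by positivity)
    (fun j => pow_le_pow_left₀ (norm_nonneg _) (norm_div_rt_le (x (j + n)) (j + n)) 2)
    (nsq (A n x)) (nsq x)
  exact (sq_le_sq₀ (norm_nonneg _) (norm_nonneg _)).1 h

theorem A_sub (n : ℕ) (x y : H) : A n x - A n y = A n (x - y) := by
  apply lp.ext
  funext j
  rw [lp.coeFn_sub, Pi.sub_apply, A_apply, A_apply, A_apply, lp.coeFn_sub, Pi.sub_apply, sub_div]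

theorem A_cont (n : ℕ) : Continuous (A n) := by
  apply LipschitzWith.continuous (K := 1)
  apply LipschitzWith.of_dist_le_mul
  intro x y
  rw [dist_eq_norm, dist_eq_norm, A_sub]
  simpa using norm_A_le n (x - y)

theorem sh_eq (x : H) (n : ℕ) : sh (cf x) n = inner ℂ (A 0 x) (A n x) :=
  (inn (A 0 x) (A n x)).tsum_eq

theorem sh_le (x : H) (n : ℕ) (hx : ‖x‖ ≤ 1) : ‖sh (cf x) n‖ ≤ 1 := by
  rw [sh_eq]
  calc ‖inner ℂ (A 0 x) (A n x)‖ ≤ ‖A 0 x‖ * ‖A n x‖ := norm_inner_le_norm _ _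
    _ ≤ 1 * 1 := mul_le_mul ((norm_A_le 0 x).trans hx) ((norm_A_le n x).trans hx)
        (norm_nonneg _) (by norm_num)
    _ = 1 := one_mul 1

theorem cf_le (x : H) (k : ℕ) (hx : ‖x‖ ≤ 1) : ‖cf x k‖ ≤ 1 :=
  (norm_div_rt_le _ _).trans ((lp.norm_apply_le_norm (by simp) x k).trans hx)

/-- coordinates of the right shift -/
noncomputable def Bf (n : ℕ) (x : H) (k : ℕ) : ℂ :=
  if n ≤ k then (rt k : ℂ) * cf x (k - n) else 0

theorem Bf_add (n : ℕ) (x : H) (j : ℕ) : Bf n x (j + n) = (rt (j + n) : ℂ) * cf x j := by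
  unfold Bf
  rw [if_pos (Nat.le_add_left n j), Nat.add_sub_cancel]

theorem B_summable (n : ℕ) (x : H) : Summable fun k => ‖Bf n x k‖ ^ 2 := by
  apply (summable_nat_add_iff n).1
  have h1 : Summable fun j => ((n : ℝ) + 1) * ‖x j‖ ^ 2 := (sum2 x).mul_left _
  refine Summable.of_nonneg_of_le (fun k => by positivity) (fun j => ?_) h1
  rw [Bf_add, cf, norm_mul, norm_div, norm_rt, norm_rt, mul_pow, div_pow]
  have e1 : rt (j + n) ^ 2 = (j : ℝ) + n + 1 := by
    rw [sq, rt_sq]; push_cast; ring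
  have e2 : rt j ^ 2 = (j : ℝ) + 1 := by rw [sq, rt_sq]
  rw [e1, e2]
  have hj : (0 : ℝ) < (j : ℝ) + 1 := by positivity
  rw [← mul_div_assoc, div_le_iff₀ hj]
  have hn : (0 : ℝ) ≤ n := Nat.cast_nonneg n
  have hj' : (0 : ℝ) ≤ j := Nat.cast_nonneg j
  have hx : 0 ≤ ‖x j‖ ^ 2 := by positivity
  have : ((j : ℝ) + n + 1) ≤ ((n : ℝ) + 1) * ((j : ℝ) + 1) := by nlinarith
  nlinarith

/-- right shift -/
noncomputable def B (n : ℕ) (x : H) : H := mk2 _ (B_summable n x)

theorem B_apply (n : ℕ) (x : H) (k : ℕ) : B n x k = Bf n x k := rfl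

theorem inner_KK_B {w : ℂ} (hw : ‖w‖ < 1) (n : ℕ) (x : H) :
    inner ℂ (KK w hw) (B n x) = w ^ n * inner ℂ (KK w hw) x := by
  have h1 := inner_KK hw (B n x)
  have h2 := (inner_KK hw x).mul_left (w ^ n)
  have h3 : HasSum ((fun k => cf (B n x) k * w ^ k) ∘ fun j => j + n)
      (inner ℂ (KK w hw) (B n x)) := by
    rw [Function.Injective.hasSum_iff (add_left_injective n)]
    · exact h1
    · intro k hk
      have hk' : ¬ n ≤ k := by
        intro h
        exact hk ⟨k - n, Nat.sub_add_cancel h⟩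
      simp only [cf, B_apply, Bf, if_neg hk', zero_div, zero_mul]
  have h4 : ((fun k => cf (B n x) k * w ^ k) ∘ fun j => j + n) =
      fun j => w ^ n * (cf x j * w ^ j) := by
    funext j
    simp only [Function.comp_apply]
    have : cf (B n x) (j + n) = cf x j := by
      rw [cf, B_apply, Bf_add, mul_div_cancel_left₀ _ (rt_ne _)]
    rw [this, pow_add]
    ring
  rw [h4] at h3
  exact h3.unique h2

theorem inner_B (n : ℕ) (x : H) :
    ∑' j : ℕ, ((j : ℂ) + n + 1) * (cf x j * (starRingEnd ℂ) (cf x (j + n))) = inner ℂ x (B n x) := by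
  have h1 := inn x (B n x)
  have h3 : HasSum ((fun k => B n x k * (starRingEnd ℂ) (x k)) ∘ fun j => j + n)
      (inner ℂ x (B n x)) := by
    rw [Function.Injective.hasSum_iff (add_left_injective n)]
    · exact h1
    · intro k hk
      have hk' : ¬ n ≤ k := by
        intro h
        exact hk ⟨k - n, Nat.sub_add_cancel h⟩
      simp only [B_apply, Bf, if_neg hk', zero_mul]
  rw [← h3.tsum_eq]
  congr 1
  funext j
  simp only [Function.comp_apply]
  rw [B_apply, Bf_add]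
  have e : x (j + n) = (rt (j + n) : ℂ) * cf x (j + n) := by
    rw [cf, mul_div_cancel₀ _ (rt_ne _)]
  rw [e, map_mul, Complex.conj_ofReal]
  have e2 : (rt (j + n) : ℂ) * (rt (j + n) : ℂ) = (j : ℂ) + n + 1 := by
    rw [rt_sq']; push_cast; ring
  rw [← e2]
  ring

theorem B_zero (x : H) : B 0 x = x := by
  apply lp.ext
  funext k
  rw [B_apply, Bf, if_pos (Nat.zero_le k), Nat.sub_zero, cf, mul_div_cancel₀ _ (rt_ne _)]

/-! ### the projection -/

/-- the constant function -/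
noncomputable def e0 : H := KK 0 (by simp)

theorem e0_apply (k : ℕ) : e0 k = if k = 0 then 1 else 0 := by
  rw [e0, KK_apply, map_zero]
  by_cases hk : k = 0
  · subst hk
    simp [rt_zero]
  · rw [zero_pow hk, zero_div, if_neg hk]

theorem inner_e0 (y : H) : inner ℂ e0 y = y 0 := by
  have h := inn e0 y
  have h2 : HasSum (fun k => y k * (starRingEnd ℂ) (e0 k)) (y 0 * (starRingEnd ℂ) (e0 0)) := by
    apply hasSum_single
    intro k hk
    rw [e0_apply, if_neg hk, map_zero, mul_zero]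
  rw [h.unique h2, e0_apply, if_pos rfl, map_one, mul_one]

theorem norm_e0 : ‖e0‖ = 1 := by
  have h : (inner ℂ e0 e0 : ℂ) = 1 := by rw [inner_e0, e0_apply, if_pos rfl]
  have h' : ‖e0‖ ^ 2 = 1 := by
    rw [← inner_self_eq_norm_sq (𝕜 := ℂ) e0, h]
    simp
  have := norm_nonneg e0
  nlinarith

section proj

variable (S : Submodule ℂ H) [S.HasOrthogonalProjection]

/-- the component orthogonal to `S` -/
noncomputable def xx : H := e0 - S.starProjection e0

theorem inner_xx {y : H} (hy : y ∈ S) : inner ℂ (xx S) y = 0 :=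
  Submodule.starProjection_inner_eq_zero _ _ hy

theorem inner_xx' {y : H} (hy : y ∈ S) : inner ℂ y (xx S) = 0 := by
  rw [← inner_conj_symm, inner_xx S hy, map_zero]

theorem inner_xx_self : inner ℂ e0 (xx S) = ((‖xx S‖ ^ 2 : ℝ) : ℂ) := by
  have e : e0 = xx S + S.starProjection e0 := by rw [xx, sub_add_cancel]
  have h : (inner ℂ e0 (xx S) : ℂ) = inner ℂ (xx S) (xx S) := by
    conv_lhs => rw [e]
    rw [inner_add_left, inner_xx' S (Submodule.starProjection_apply_mem S e0), add_zero]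
  rw [h, inner_self_eq_norm_sq_to_K]
  norm_cast

theorem norm_xx_le : ‖xx S‖ ≤ 1 := by
  have h : ‖xx S‖ ^ 2 ≤ ‖xx S‖ := by
    have h1 := norm_inner_le_norm (𝕜 := ℂ) e0 (xx S)
    rw [inner_xx_self, norm_e0, one_mul, Complex.norm_real, Real.norm_of_nonneg (by positivity)]
      at h1
    exact h1
  by_contra hc
  push Not at hc
  nlinarith

theorem orth_xx {w : ℕ → ℂ} (hw : ∀ n, ‖w n‖ < 1) (s : Set ℕ)
    (hS : S = Submodule.span ℂ ((fun j => KK (w j) (hw j)) '' s)) (n : ℕ) :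
    ∑' j : ℕ, ((j : ℂ) + n + 1) * (cf (xx S) j * (starRingEnd ℂ) (cf (xx S) (j + n))) =
      if n = 0 then ((‖xx S‖ ^ 2 : ℝ) : ℂ) else 0 := by
  rw [inner_B]
  by_cases hn : n = 0
  · subst hn
    rw [if_pos rfl, B_zero, inner_self_eq_norm_sq_to_K]
    norm_cast
  · rw [if_neg hn]
    have h1 : (inner ℂ e0 (B n (xx S)) : ℂ) = 0 := by
      rw [inner_e0, B_apply, Bf, if_neg (by omega)]
    have h2 : ∀ y ∈ S, (inner ℂ y (B n (xx S)) : ℂ) = 0 := by
      intro y hy
      rw [hS] at hy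
      induction hy using Submodule.span_induction with
      | mem y hy =>
        obtain ⟨j, hj, rfl⟩ := hy
        rw [inner_KK_B, inner_xx', mul_zero]
        rw [hS]
        exact Submodule.subset_span ⟨j, hj, rfl⟩
      | zero => exact inner_zero_left _
      | add y y' _ _ h h' => rw [inner_add_left, h, h', add_zero]
      | smul c y _ h => rw [inner_smul_left, h, mul_zero]
    have h3 : ∀ y : H, (inner ℂ (xx S) y : ℂ) = inner ℂ e0 y - inner ℂ (S.starProjection e0) y :=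
      fun y => by rw [xx, inner_sub_left]
    rw [h3, h1, h2 _ (Submodule.starProjection_apply_mem S e0), sub_zero]

end proj

theorem exists_radius (z : ℕ → ℂ) (hz : ∀ n, ‖z n‖ < 1) (s : Finset ℕ) :
    ∃ r : ℝ, 0 < r ∧ r < 1 ∧ ∀ j ∈ s, ‖z j‖ ≤ r := by
  classical
  induction s using Finset.induction with
  | empty => exact ⟨1 / 2, by norm_num, by norm_num, fun j hj => absurd hj (by simp)⟩
  | insert a s _ ih =>
    obtain ⟨r, h0, h1, h2⟩ := ih
    refine ⟨max r ‖z a‖, lt_max_of_lt_left h0, max_lt h1 (hz a), ?_⟩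
    intro j hj
    rcases Finset.mem_insert.1 hj with rfl | hj
    · exact le_max_right _ _
    · exact (h2 j hj).trans (le_max_left _ _)

theorem xx_coord (S : Submodule ℂ H) [S.HasOrthogonalProjection] (z : ℕ → ℂ)
    (hz : ∀ n, ‖z n‖ < 1) (s : Finset ℕ)
    (hS : S = Submodule.span ℂ ((fun j => KK (z j) (hz j)) '' (s : Set ℕ))) :
    ∃ c : ℕ → ℂ, ∀ k, cf (xx S) k = (if k = 0 then (1 : ℂ) else 0) -
      ∑ n ∈ s, c n * (starRingEnd ℂ) (z n) ^ k / ((k : ℂ) + 1) := by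
  classical
  have hgen : ∀ v : H, v ∈ S → v ∈ Submodule.span ℂ ((fun j => KK (z j) (hz j)) '' (s : Set ℕ)) :=
    fun v hv => by rwa [hS] at hv
  have h := hgen _ (Submodule.starProjection_apply_mem S e0)
  rw [Submodule.mem_span_image_finset_iff_exists_fun] at h
  obtain ⟨c, hc⟩ := h
  refine ⟨fun n => if h : n ∈ s then c ⟨n, h⟩ else 0, fun k => ?_⟩
  have hx : xx S = e0 - ∑ i : s, c i • KK (z i) (hz i) := by
    rw [xx, hc]
  rw [cf, hx, lp.coeFn_sub, Pi.sub_apply, e0_apply, lp.coeFn_sum, Finset.sum_apply, sub_div,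
    Finset.sum_div]
  congr 1
  · by_cases hk : k = 0
    · subst hk; simp [rt_zero]
    · simp [hk]
  · rw [← Finset.sum_coe_sort s]
    apply Finset.sum_congr rfl
    intro i _
    have hci : (fun n => if h : n ∈ s then c ⟨n, h⟩ else 0) (i : ℕ) = c i := by
      simp only [i.2, dif_pos, Subtype.coe_eta]
    rw [hci, lp.coeFn_smul, Pi.smul_apply, KK_apply, smul_eq_mul, ← rt_sq']
    field_simp

theorem norm_sq_eq (hA : StmtA) (S : Submodule ℂ H) [S.HasOrthogonalProjection] (z : ℕ → ℂ)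
    (hz : ∀ n, ‖z n‖ < 1) (s : Finset ℕ) (hs : ∀ n ∈ s, z n ≠ 0)
    (hS : S = Submodule.span ℂ ((fun j => KK (z j) (hz j)) '' (s : Set ℕ))) :
    ∃ c : ℕ → ℂ, ‖xx S‖ ^ 2 = quad z s c := by
  obtain ⟨c, hc⟩ := xx_coord S z hz s hS
  refine ⟨c, ?_⟩
  have h1 := hA z hz s c hs
  have h2 := nsq (xx S)
  refine h2.unique ?_
  convert h1 using 2 with k
  rw [← hc k, cf, norm_div, norm_rt, div_pow, sq (rt k), rt_sq]
  have : (0 : ℝ) < (k : ℝ) + 1 := by positivity
  field_simp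

theorem ext_xx (S : Submodule ℂ H) [S.HasOrthogonalProjection] (z : ℕ → ℂ)
    (hz : ∀ n, ‖z n‖ < 1) (s : Finset ℕ)
    (hS : S = Submodule.span ℂ ((fun j => KK (z j) (hz j)) '' (s : Set ℕ)))
    (hpos : 0 < ‖xx S‖ ^ 2) : Ext (‖xx S‖ ^ 2) (cf (xx S)) := by
  refine ⟨hpos, ?_, ?_⟩
  · obtain ⟨c, hc⟩ := xx_coord S z hz s hS
    obtain ⟨r, h0, h1, h2⟩ := exists_radius z hz s
    refine ⟨1 + ∑ n ∈ s, ‖c n‖, r, h0, h1, fun k => ?_⟩
    rw [hc k, add_mul, one_mul]
    refine (norm_sub_le _ _).trans (add_le_add ?_ ?_)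
    · by_cases hk : k = 0
      · subst hk; simp
      · simp only [hk, if_false, norm_zero]; positivity
    · refine (norm_sum_le _ _).trans ?_
      rw [Finset.sum_mul]
      apply Finset.sum_le_sum
      intro n hn
      rw [norm_div, norm_mul, norm_pow, RCLike.norm_conj]
      have e : ‖(k : ℂ) + 1‖ = (k : ℝ) + 1 := by
        have : ((k : ℂ) + 1) = (((k : ℝ) + 1 : ℝ) : ℂ) := by push_cast; rfl
        rw [this, Complex.norm_real, Real.norm_of_nonneg (by positivity)]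
      rw [e]
      have h3 : ‖z n‖ ^ k ≤ r ^ k := pow_le_pow_left₀ (norm_nonneg _) (h2 n hn) k
      have h4 : (1 : ℝ) ≤ (k : ℝ) + 1 := by
        have : (0 : ℝ) ≤ k := Nat.cast_nonneg k
        linarith
      calc ‖c n‖ * ‖z n‖ ^ k / ((k : ℝ) + 1) ≤ ‖c n‖ * ‖z n‖ ^ k :=
            div_le_self (by positivity) h4
        _ ≤ ‖c n‖ * r ^ k := mul_le_mul_of_nonneg_left h3 (norm_nonneg _)
  · intro n
    rw [orth_xx S hz (s : Set ℕ) hS n]

/-- Packet B. -/
theorem stmtB (hA : StmtA) : StmtB := by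
  classical
  intro z hz ⟨δ, hδ, hK⟩
  let s : ℕ → Finset ℕ := fun N => (Finset.range N).filter fun j => z j ≠ 0
  let S : ℕ → Submodule ℂ H := fun N =>
    Submodule.span ℂ ((fun j => KK (z j) (hz j)) '' (s N : Set ℕ))
  have hs : ∀ N, ∀ n ∈ s N, z n ≠ 0 := fun N n hn => (Finset.mem_filter.1 hn).2
  have hmono : Monotone S := by
    intro M N hMN
    apply Submodule.span_mono
    apply Set.image_mono
    intro j hj
    simp only [s, Finset.coe_filter, Finset.mem_range, Set.mem_ofPred_eq] at hj ⊢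
    exact ⟨hj.1.trans_le hMN, hj.2⟩
  have hfin : ∀ N, FiniteDimensional ℂ (S N) := fun N =>
    FiniteDimensional.span_of_finite ℂ ((s N).finite_toSet.image _)
  let T : Submodule ℂ H := (⨆ i, S i).topologicalClosure
  have hx : Tendsto (fun N => xx (S N)) atTop (𝓝 (xx T)) := by
    have h := Submodule.starProjection_tendsto_closure_iSup S hmono e0
    exact tendsto_const_nhds.sub h
  have hN : ∀ N, δ ≤ ‖xx (S N)‖ ^ 2 := by
    intro N
    obtain ⟨c, hc⟩ := norm_sq_eq hA (S N) z hz (s N) (hs N) rfl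
    rw [hc]
    exact hK (s N) c (hs N)
  have he : Tendsto (fun N => ‖xx (S N)‖ ^ 2) atTop (𝓝 (‖xx T‖ ^ 2)) := hx.norm.pow 2
  have hE : δ ≤ ‖xx T‖ ^ 2 := ge_of_tendsto' he hN
  refine ⟨fun N => cf (xx (S N)), cf (xx T), fun N => ‖xx (S N)‖ ^ 2, ‖xx T‖ ^ 2,
    hδ.trans_le hE, ?_, ?_, ?_, ?_, ?_, he, ?_, ?_, ?_, ?_⟩
  · intro N
    exact ext_xx (S N) z hz (s N) rfl (hδ.trans_le (hN N))
  · intro N k
    exact cf_le _ k (norm_xx_le _)
  · intro N n
    exact sh_le _ n (norm_xx_le _)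
  · intro k
    exact cf_le _ k (norm_xx_le _)
  · intro n
    exact sh_le _ n (norm_xx_le _)
  · intro k
    have h1 : Tendsto (fun N => (xx (S N)) k) atTop (𝓝 ((xx T) k)) :=
      ((lp.lipschitzWith_one_eval (E := fun _ : ℕ => ℂ) 2 k).continuous.tendsto _).comp hx
    exact h1.div_const _
  · intro n
    simp only [sh_eq]
    exact (((A_cont 0).tendsto _).comp hx).inner (((A_cont n).tendsto _).comp hx)
  · rw [← inner_xx_self, inner_e0, cf, rt_zero]
    simp
  · intro n hn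
    rw [UU_eq (hz n)]
    apply inner_xx'
    apply Submodule.le_topologicalClosure
    apply Submodule.mem_iSup_of_mem (n + 1)
    apply Submodule.subset_span
    refine ⟨n, ?_, rfl⟩
    simp only [s, Finset.coe_filter, Finset.mem_range, Set.mem_ofPred_eq]
    exact ⟨Nat.lt_succ_self n, hn⟩

end Pool.Agent.Helper26.DZB
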