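import Mathlib

/-!
# Coincidence sequences for the class `S` (MP_8199af_an): definitions and statements of the packets

Final theorem: for a sequence `z` in the unit disc the following are equivalent:
`IsCoincidence z`, `IsDirichletZero z`, `KernelCriterion z`.
-/

open Complex Metric Set Filter Topology MeasureTheory

namespace Pool.Agent.Helper26.DZ

/-! ## Definitions of the final statement -/

/-- The class `S`: analytic and injective on the unit disc, `f 0 = 0`, `f'(0) = 1`. -/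
def ClassS (f : ℂ → ℂ) : Prop :=
  DifferentiableOn ℂ f (ball 0 1) ∧ InjOn f (ball 0 1) ∧ f 0 = 0 ∧ deriv f 0 = 1

/-- `z` is a coincidence sequence for `S`: two functions of `S` which differ somewhere in the unit
disc agree at all points `z n`. -/
def IsCoincidence (z : ℕ → ℂ) : Prop :=
  ∃ f g : ℂ → ℂ, ClassS f ∧ ClassS g ∧ (∃ w ∈ ball (0 : ℂ) 1, f w ≠ g w) ∧ ∀ n, f (z n) = g (z n)

/-- `z` is contained in the zero set of a nonzero function of the Dirichlet space. -/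
def IsDirichletZero (z : ℕ → ℂ) : Prop :=
  ∃ u : ℂ → ℂ, DifferentiableOn ℂ u (ball 0 1) ∧
    IntegrableOn (fun w => ‖deriv u w‖ ^ 2) (ball 0 1) ∧
    (∃ w ∈ ball (0 : ℂ) 1, u w ≠ 0) ∧ ∀ n, u (z n) = 0

/-- `κ(t) = (1/t) log (1/(1-t))`; the reproducing kernel of the Dirichlet space is
`κ(conj w * z)`. -/
noncomputable def kap (t : ℂ) : ℂ := -Complex.log (1 - t) / t

/-- the squared distance `‖1 - ∑ c_n k_{z_n}‖²` in the Dirichlet space, written out. -/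
noncomputable def quad (z : ℕ → ℂ) (s : Finset ℕ) (c : ℕ → ℂ) : ℝ :=
  1 - 2 * ∑ n ∈ s, (c n).re +
    ∑ m ∈ s, ∑ n ∈ s, (c n * (starRingEnd ℂ) (c m) * kap ((starRingEnd ℂ) (z n) * z m)).re

/-- the explicit criterion: the constant function `1` has positive distance from the span of the
kernel functions of the nonzero `z n`. -/
def KernelCriterion (z : ℕ → ℂ) : Prop :=
  ∃ δ : ℝ, 0 < δ ∧ ∀ (s : Finset ℕ) (c : ℕ → ℂ), (∀ n ∈ s, z n ≠ 0) → δ ≤ quad z s c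

/-- The final theorem. -/
def StmtMain : Prop :=
  ∀ z : ℕ → ℂ, (∀ n, ‖z n‖ < 1) →
    List.TFAE [IsCoincidence z, IsDirichletZero z, KernelCriterion z]

/-! ## Auxiliary objects -/

/-- `ŝ(n) = ∑_j u_{j+n} conj(u_j)`, the Fourier coefficients of `|u|²` on the circle. -/
noncomputable def sh (u : ℕ → ℂ) (n : ℕ) : ℂ := ∑' j, u (j + n) * (starRingEnd ℂ) (u j)

/-- `u(z) = ∑ u_k z^k` -/
noncomputable def UU (u : ℕ → ℂ) (z : ℂ) : ℂ := ∑' k, u k * z ^ k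

/-- `A(z) = (z u(z))' = ∑ (k+1) u_k z^k` -/
noncomputable def AA (u : ℕ → ℂ) (z : ℂ) : ℂ := ∑' k : ℕ, ((k : ℂ) + 1) * u k * z ^ k

/-- `F(z) = ∑_{n ≥ 1} ŝ(n) z^n` -/
noncomputable def FF (u : ℕ → ℂ) (z : ℂ) : ℂ := ∑' n : ℕ, sh u (n + 1) * z ^ (n + 1)

/-- `W(z) = E - ∑_{n ≥ 1} n ŝ(n) z^n` -/
noncomputable def WW (E : ℝ) (u : ℕ → ℂ) (z : ℂ) : ℂ :=
  (E : ℂ) - ∑' n : ℕ, ((n : ℂ) + 1) * sh u (n + 1) * z ^ (n + 1)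

/-- `Φ(ξ) = 2Eξ - ŝ(0) - 2F(e^ξ)` -/
noncomputable def Phi (E : ℝ) (u : ℕ → ℂ) (ξ : ℂ) : ℂ :=
  2 * (E : ℂ) * ξ - sh u 0 - 2 * FF u (exp ξ)

/-- `h(ξ) = e^ξ u(e^ξ)²` -/
noncomputable def hh (u : ℕ → ℂ) (ξ : ℂ) : ℂ := exp ξ * (UU u (exp ξ)) ^ 2

/-- The extremal sequences: exponentially decaying coefficients with
`∑_j (j+n+1) u_j conj(u_{j+n}) = 0` for `n ≥ 1` and `= E > 0` for `n = 0`. -/
structure Ext (E : ℝ) (u : ℕ → ℂ) : Prop where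
  pos : 0 < E
  decay : ∃ C r : ℝ, 0 < r ∧ r < 1 ∧ ∀ k, ‖u k‖ ≤ C * r ^ k
  orth : ∀ n : ℕ, ∑' j : ℕ, ((j : ℂ) + n + 1) * (u j * (starRingEnd ℂ) (u (j + n))) =
    if n = 0 then (E : ℂ) else 0

/-- analytic data in the closed left half plane -/
structure HP (E : ℝ) (Φ h : ℂ → ℂ) : Prop where
  pos : 0 < E
  dΦ : ∀ ξ : ℂ, ξ.re ≤ 0 → DifferentiableAt ℂ Φ ξ
  dh : ∀ ξ : ℂ, ξ.re ≤ 0 → DifferentiableAt ℂ h ξ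
  re : ∀ ξ : ℂ, ξ.re ≤ 0 → E ≤ (deriv Φ ξ).re
  le : ∀ ξ : ℂ, ξ.re ≤ 0 → ‖deriv h ξ‖ ≤ ‖deriv Φ ξ‖
  bdry : ∀ θ : ℝ, ‖h (θ * I)‖ = -(Φ (θ * I)).re
  bpos : ∀ θ : ℝ, 0 < ‖h (θ * I)‖

/-! ## Packets -/

/-- Packet A. `quad` is the squared norm of `e_0 - ∑ c_n K_{z_n}`. -/
def StmtA : Prop :=
  ∀ z : ℕ → ℂ, (∀ n, ‖z n‖ < 1) → ∀ (s : Finset ℕ) (c : ℕ → ℂ), (∀ n ∈ s, z n ≠ 0) →
    HasSum (fun k : ℕ => ((k : ℝ) + 1) *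
      ‖(if k = 0 then (1 : ℂ) else 0) -
        ∑ n ∈ s, c n * (starRingEnd ℂ) (z n) ^ k / ((k : ℂ) + 1)‖ ^ 2) (quad z s c)

/-- Packet B (Hilbert space). -/
def StmtB : Prop :=
  ∀ z : ℕ → ℂ, (∀ n, ‖z n‖ < 1) → KernelCriterion z →
    ∃ (u : ℕ → ℕ → ℂ) (v : ℕ → ℂ) (e : ℕ → ℝ) (E : ℝ), 0 < E ∧ (∀ N, Ext (e N) (u N)) ∧
      (∀ N k, ‖u N k‖ ≤ 1) ∧ (∀ N n, ‖sh (u N) n‖ ≤ 1) ∧
      (∀ k, ‖v k‖ ≤ 1) ∧ (∀ n, ‖sh v n‖ ≤ 1) ∧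
      Tendsto e atTop (𝓝 E) ∧ (∀ k, Tendsto (fun N => u N k) atTop (𝓝 (v k))) ∧
      (∀ n, Tendsto (fun N => sh (u N) n) atTop (𝓝 (sh v n))) ∧
      v 0 = (E : ℂ) ∧ ∀ n, z n ≠ 0 → UU v (z n) = 0

/-- Packet C (identities on the unit circle). -/
def StmtC : Prop :=
  ∀ (E : ℝ) (u : ℕ → ℂ), Ext E u → ∀ ζ : ℂ, ‖ζ‖ = 1 →
    (((‖UU u ζ‖ ^ 2 : ℝ) : ℂ) = sh u 0 + FF u ζ + (starRingEnd ℂ) (FF u ζ)) ∧
    (WW E u ζ = UU u ζ * (starRingEnd ℂ) (AA u ζ)) ∧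
    (E + ‖UU u ζ‖ ^ 2 ≤ 2 * (UU u ζ * (starRingEnd ℂ) (AA u ζ)).re)

/-- Packet D (half plane), to be proved from Packet C. -/
def StmtD : Prop :=
  ∀ (E : ℝ) (u : ℕ → ℂ), Ext E u →
    HP E (Phi E u) (hh u) ∧ ∃ B : ℝ, ∀ ξ : ℂ, ξ.re ≤ 0 → ‖hh u ξ‖ ≤ B

/-- Packet E (the boundary Lipschitz lemma). -/
def StmtE : Prop :=
  ∀ (E : ℝ) (Φ h : ℂ → ℂ), HP E Φ h → ∀ θ₁ θ₂ : ℝ,
    ‖h (θ₁ * I) - h (θ₂ * I)‖ ≤ |(Φ (θ₁ * I)).re - (Φ (θ₂ * I)).re| +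
      |(Φ (θ₁ * I)).im - (Φ (θ₂ * I)).im|

/-- Packet F (two step maximum principle). -/
def StmtF : Prop :=
  ∀ (E K B : ℝ) (Φ h : ℂ → ℂ), HP E Φ h → 1 ≤ K → (∀ ξ : ℂ, ξ.re ≤ 0 → ‖h ξ‖ ≤ B) →
    (∀ θ₁ θ₂ : ℝ, ‖h (θ₁ * I) - h (θ₂ * I)‖ ≤ K * ‖Φ (θ₁ * I) - Φ (θ₂ * I)‖) →
    ∀ ξ η : ℂ, ξ.re ≤ 0 → η.re ≤ 0 → ‖h ξ - h η‖ ≤ K * ‖Φ ξ - Φ η‖

/-- Packet G (sufficiency, assembly). -/
def StmtG : Prop :=
  ∀ z : ℕ → ℂ, (∀ n, ‖z n‖ < 1) → KernelCriterion z → IsCoincidence z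

/-- Packet H (area). -/
def StmtH : Prop :=
  ∀ f : ℂ → ℂ, ClassS f →
    (∃ ρ : ℝ, 0 < ρ ∧ ∀ w : ℂ, 1 / 2 < ‖w‖ → ‖w‖ < 1 → ρ ≤ ‖f w‖) ∧
    IntegrableOn (fun w => ‖deriv (fun x => 1 / f x) w‖ ^ 2) {w : ℂ | 1 / 2 < ‖w‖ ∧ ‖w‖ < 1}

/-- Packet I (necessity), to be proved from Packet H. -/
def StmtI : Prop :=
  ∀ z : ℕ → ℂ, (∀ n, ‖z n‖ < 1) → IsCoincidence z → IsDirichletZero z

/-- Packet J (Bessel inequality for the Dirichlet integral). -/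
def StmtJ : Prop :=
  ∀ u : ℂ → ℂ, DifferentiableOn ℂ u (ball 0 1) →
    IntegrableOn (fun w => ‖deriv u w‖ ^ 2) (ball 0 1) →
    ∃ a : ℕ → ℂ, (∀ w ∈ ball (0 : ℂ) 1, HasSum (fun k => a k * w ^ k) (u w)) ∧
      Summable (fun k : ℕ => ((k : ℝ) + 1) * ‖a k‖ ^ 2)

/-- Packet K, to be proved from Packets A and J. -/
def StmtK : Prop :=
  ∀ z : ℕ → ℂ, (∀ n, ‖z n‖ < 1) → IsDirichletZero z → KernelCriterion z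

end Pool.Agent.Helper26.DZ
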