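import Mathlib
import Pool.Agent.Helper26.DZDefs

/-! Packet G: sufficiency, assembly. -/

open Complex Metric Set Filter Topology MeasureTheory
open scoped Real

namespace Pool.Agent.Helper26.DZ

/-- lower bound from the real part of the derivative -/
lemma HP.lower {E : ℝ} {Φ h : ℂ → ℂ} (H : HP E Φ h) {a b : ℂ} (ha : a.re ≤ 0) (hb : b.re ≤ 0) :
    E * ‖a - b‖ ≤ ‖Φ a - Φ b‖ := by
  by_cases hab : a = b
  · simp [hab]
  have hne : 0 < ‖a - b‖ := norm_pos_iff.mpr (sub_ne_zero.mpr hab)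
  -- path
  have hre : ∀ t : ℝ, t ∈ Icc (0 : ℝ) 1 → (b + t * (a - b)).re ≤ 0 := by
    intro t ht
    simp only [add_re, mul_re, ofReal_re, sub_re, ofReal_im, zero_mul, sub_zero]
    nlinarith [ht.1, ht.2]
  let G : ℝ → ℝ := fun t => (Φ (b + t * (a - b)) * (starRingEnd ℂ) (a - b)).re
  have hG : ∀ t ∈ Icc (0 : ℝ) 1, HasDerivAt G
      ((deriv Φ (b + t * (a - b)) * (a - b) * (starRingEnd ℂ) (a - b)).re) t := by
    intro t ht
    have h1 : HasDerivAt Φ (deriv Φ (b + t * (a - b))) (b + t * (a - b)) :=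
      (H.dΦ _ (hre t ht)).hasDerivAt
    have h2 : HasDerivAt (fun t : ℝ => b + (t : ℂ) * (a - b)) (a - b) t := by
      have := (((hasDerivAt_id (t : ℝ)).ofReal_comp).mul_const (a - b)).const_add b
      simpa using this
    have h3 : HasDerivAt (fun t : ℝ => Φ (b + (t : ℂ) * (a - b)))
        (deriv Φ (b + t * (a - b)) * (a - b)) t := by
      have := h1.comp_of_eq t h2 rfl
      simpa [Function.comp_def] using this
    have h4 := (h3.mul_const ((starRingEnd ℂ) (a - b)))
    have h5 := (Complex.reCLM.hasFDerivAt.comp_hasDerivAt t h4)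
    simpa [G, Function.comp_def] using h5
  have hval : ∀ t ∈ Icc (0 : ℝ) 1, E * ‖a - b‖ ^ 2 ≤
      (deriv Φ (b + t * (a - b)) * (a - b) * (starRingEnd ℂ) (a - b)).re := by
    intro t ht
    have h1 := H.re _ (hre t ht)
    have h2 : deriv Φ (b + t * (a - b)) * (a - b) * (starRingEnd ℂ) (a - b) =
        ((‖a - b‖ ^ 2 : ℝ) : ℂ) * deriv Φ (b + t * (a - b)) := by
      rw [mul_assoc, Complex.mul_conj, Complex.normSq_eq_norm_sq]
      ring
    rw [h2, Complex.re_ofReal_mul]
    nlinarith [sq_nonneg ‖a - b‖]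
  have hmv : E * ‖a - b‖ ^ 2 ≤ G 1 - G 0 := by
    have hc : ContinuousOn G (Icc 0 1) := fun t ht => (hG t ht).continuousAt.continuousWithinAt
    obtain ⟨c, hc1, hc2⟩ := exists_hasDerivAt_eq_slope G
      (fun t => (deriv Φ (b + t * (a - b)) * (a - b) * (starRingEnd ℂ) (a - b)).re)
      (by norm_num : (0 : ℝ) < 1) hc (fun t ht => hG t (Ioo_subset_Icc_self ht))
    have := hval c (Ioo_subset_Icc_self hc1)
    rw [hc2] at this
    simpa using this
  have hG1 : G 1 - G 0 = ((Φ a - Φ b) * (starRingEnd ℂ) (a - b)).re := by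
    simp only [G]
    rw [← sub_re, ← sub_mul]
    simp
  rw [hG1] at hmv
  have h6 : ((Φ a - Φ b) * (starRingEnd ℂ) (a - b)).re ≤ ‖Φ a - Φ b‖ * ‖a - b‖ := by
    calc _ ≤ ‖(Φ a - Φ b) * (starRingEnd ℂ) (a - b)‖ := Complex.re_le_norm _
      _ = _ := by rw [norm_mul, RCLike.norm_conj]
  have h7 : E * ‖a - b‖ * ‖a - b‖ ≤ ‖Φ a - Φ b‖ * ‖a - b‖ := by nlinarith
  exact le_of_mul_le_mul_right h7 hne

/-- power series with bounded coefficients are analytic in the disc -/
lemma diff_ps {a : ℕ → ℂ} {M : ℝ} (ha : ∀ k, ‖a k‖ ≤ M) :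
    DifferentiableOn ℂ (fun z => ∑' k, a k * z ^ k) (ball 0 1) := by
  intro z hz
  rw [mem_ball_zero_iff] at hz
  obtain ⟨r, hr1, hr2⟩ := exists_between hz
  have hr0 : 0 ≤ r := (norm_nonneg z).trans hr1.le
  have h1 : DifferentiableOn ℂ (fun z => ∑' k, a k * z ^ k) (ball 0 r) := by
    apply differentiableOn_tsum_of_summable_norm (u := fun k => M * r ^ k)
    · exact (summable_geometric_of_lt_one hr0 hr2).mul_left M
    · intro k
      fun_prop
    · exact isOpen_ball
    · intro k w hw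
      rw [mem_ball_zero_iff] at hw
      rw [norm_mul, norm_pow]
      have : ‖w‖ ^ k ≤ r ^ k := pow_le_pow_left₀ (norm_nonneg _) hw.le k
      have hM : 0 ≤ M := (norm_nonneg _).trans (ha k)
      exact mul_le_mul (ha k) this (by positivity) hM
  exact (h1.differentiableAt (isOpen_ball.mem_nhds (by simpa using hr1))).differentiableWithinAt

lemma diff_UU {v : ℕ → ℂ} (hv : ∀ k, ‖v k‖ ≤ 1) : DifferentiableOn ℂ (UU v) (ball 0 1) :=
  diff_ps hv

lemma FF_eq (v : ℕ → ℂ) (z : ℂ) : FF v z = z * ∑' n, sh v (n + 1) * z ^ n := by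
  unfold FF
  rw [← tsum_mul_left]
  congr 1
  ext n
  ring

lemma diff_FF {v : ℕ → ℂ} (hv : ∀ n, ‖sh v n‖ ≤ 1) : DifferentiableOn ℂ (FF v) (ball 0 1) := by
  have h1 : FF v = fun z => z * ∑' n, sh v (n + 1) * z ^ n := by
    ext z; exact FF_eq v z
  rw [h1]
  exact differentiableOn_id.mul (diff_ps (fun k => hv (k + 1)))

lemma UU_zero (v : ℕ → ℂ) : UU v 0 = v 0 := by
  unfold UU
  rw [tsum_eq_single 0]
  · simp
  · intro k hk
    simp [hk]

lemma FF_zero (v : ℕ → ℂ) : FF v 0 = 0 := by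
  rw [FF_eq]; simp

lemma tendsto_ps {u : ℕ → ℕ → ℂ} {v : ℕ → ℂ} (hu : ∀ N k, ‖u N k‖ ≤ 1)
    (tu : ∀ k, Tendsto (fun N => u N k) atTop (𝓝 (v k))) {z : ℂ} (hz : ‖z‖ < 1) :
    Tendsto (fun N => ∑' k, u N k * z ^ k) atTop (𝓝 (∑' k, v k * z ^ k)) := by
  apply tendsto_tsum_of_dominated_convergence (bound := fun k => ‖z‖ ^ k)
  · exact summable_geometric_of_lt_one (norm_nonneg _) hz
  · intro k
    exact (tu k).mul_const _
  · filter_upwards with N k
    rw [norm_mul, norm_pow]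
    calc ‖u N k‖ * ‖z‖ ^ k ≤ 1 * ‖z‖ ^ k := mul_le_mul_of_nonneg_right (hu N k) (by positivity)
      _ = _ := one_mul _

theorem stmtG (hB : StmtB) (hD : StmtD) (hE : StmtE) (hF : StmtF) : StmtG := by
  intro z hz crit
  obtain ⟨u, v, e, E, hE0, hExt, hu, hsh, hv, hshv, te, tu, tsh, v0, vz⟩ := hB z hz crit
  -- finite level inequalities
  have hfin : ∀ N, ∀ ξ η : ℂ, ξ.re ≤ 0 → η.re ≤ 0 →
      ‖hh (u N) ξ - hh (u N) η‖ ≤ 2 * ‖Phi (e N) (u N) ξ - Phi (e N) (u N) η‖ := by
    intro N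
    obtain ⟨hHP, B, hB⟩ := hD (e N) (u N) (hExt N)
    apply hF (e N) 2 B (Phi (e N) (u N)) (hh (u N)) hHP (by norm_num) hB
    intro θ₁ θ₂
    refine (hE (e N) _ _ hHP θ₁ θ₂).trans ?_
    have h1 := Complex.abs_re_le_norm (Phi (e N) (u N) (θ₁ * I) - Phi (e N) (u N) (θ₂ * I))
    have h2 := Complex.abs_im_le_norm (Phi (e N) (u N) (θ₁ * I) - Phi (e N) (u N) (θ₂ * I))
    rw [sub_re] at h1
    rw [sub_im] at h2
    linarith
  have hlow : ∀ N, ∀ ξ η : ℂ, ξ.re ≤ 0 → η.re ≤ 0 →
      e N * ‖ξ - η‖ ≤ ‖Phi (e N) (u N) ξ - Phi (e N) (u N) η‖ := by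
    intro N ξ η hξ hη
    exact (hD (e N) (u N) (hExt N)).1.lower hξ hη
  -- limits
  have hexp : ∀ ξ : ℂ, ξ.re < 0 → ‖exp ξ‖ < 1 := by
    intro ξ hξ
    rw [Complex.norm_exp]
    rw [← Real.exp_zero]
    exact Real.exp_lt_exp.mpr hξ
  have tU : ∀ w : ℂ, ‖w‖ < 1 → Tendsto (fun N => UU (u N) w) atTop (𝓝 (UU v w)) := by
    intro w hw
    exact tendsto_ps hu tu hw
  have tF : ∀ w : ℂ, ‖w‖ < 1 → Tendsto (fun N => FF (u N) w) atTop (𝓝 (FF v w)) := by
    intro w hw
    have h1 : ∀ x : ℕ → ℂ, FF x w = w * ∑' n, sh x (n + 1) * w ^ n := fun x => FF_eq x w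
    simp only [h1]
    exact (tendsto_ps (fun N k => hsh N (k + 1)) (fun k => tsh (k + 1)) hw).const_mul w
  have tP : ∀ ξ : ℂ, ξ.re < 0 →
      Tendsto (fun N => Phi (e N) (u N) ξ) atTop (𝓝 (Phi E v ξ)) := by
    intro ξ hξ
    unfold Phi
    have te' : Tendsto (fun N => ((e N : ℝ) : ℂ)) atTop (𝓝 (E : ℂ)) :=
      (Complex.continuous_ofReal.tendsto E).comp te
    exact ((((te'.const_mul 2).mul_const ξ).sub (tsh 0)).sub
      ((tF _ (hexp ξ hξ)).const_mul 2))
  have tH : ∀ ξ : ℂ, ξ.re < 0 → Tendsto (fun N => hh (u N) ξ) atTop (𝓝 (hh v ξ)) := by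
    intro ξ hξ
    unfold hh
    exact ((tU _ (hexp ξ hξ)).pow 2).const_mul _
  have hlim : ∀ ξ η : ℂ, ξ.re < 0 → η.re < 0 →
      ‖hh v ξ - hh v η‖ ≤ 2 * ‖Phi E v ξ - Phi E v η‖ := by
    intro ξ η hξ hη
    exact le_of_tendsto_of_tendsto' (((tH ξ hξ).sub (tH η hη)).norm)
      ((((tP ξ hξ).sub (tP η hη)).norm).const_mul 2) (fun N => hfin N ξ η hξ.le hη.le)
  have hlowlim : ∀ ξ η : ℂ, ξ.re < 0 → η.re < 0 →
      E * ‖ξ - η‖ ≤ ‖Phi E v ξ - Phi E v η‖ := by
    intro ξ η hξ hη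
    exact le_of_tendsto_of_tendsto' (te.mul_const _)
      (((tP ξ hξ).sub (tP η hη)).norm) (fun N => hlow N ξ η hξ.le hη.le)
  have hEc : (E : ℂ) ≠ 0 := by exact_mod_cast hE0.ne'
  -- periodicity
  have hperP : ∀ (ξ : ℂ) (n : ℤ), Phi E v (ξ + n * (2 * π * I)) =
      Phi E v ξ + 2 * E * (n * (2 * π * I)) := by
    intro ξ n
    unfold Phi
    rw [Complex.exp_periodic.int_mul n ξ]
    ring
  have hperH : ∀ (ξ : ℂ) (n : ℤ), hh v (ξ + n * (2 * π * I)) = hh v ξ := by
    intro ξ n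
    unfold hh
    rw [Complex.exp_periodic.int_mul n ξ]
  have hrex : ∀ (ξ : ℂ) (n : ℤ), (ξ + n * (2 * π * I)).re = ξ.re := by
    intro ξ n
    simp
  -- the two functions
  let f : ℂ → ℂ := fun w => w * exp (-(FF v w) / E)
  let g : ℂ → ℂ := fun w => w * exp (-(FF v w) / E) * exp (w * (UU v w) ^ 2 / (8 * E))
  have hFd := diff_FF hshv
  have hUd := diff_UU hv
  have h0b : (0 : ℂ) ∈ ball (0 : ℂ) 1 := by simp
  have hlogre : ∀ w : ℂ, w ∈ ball (0 : ℂ) 1 → w ≠ 0 → (Complex.log w).re < 0 := by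
    intro w hw hw0
    rw [Complex.log_re]
    exact Real.log_neg (norm_pos_iff.mpr hw0) (by simpa using hw)
  have hfd : DifferentiableOn ℂ f (ball 0 1) :=
    differentiableOn_id.mul ((hFd.neg.div_const _).cexp)
  have htd : DifferentiableOn ℂ (fun w => w * (UU v w) ^ 2 / (8 * E)) (ball 0 1) :=
    ((differentiableOn_id.mul (hUd.pow 2)).div_const _)
  have hgd : DifferentiableOn ℂ g (ball 0 1) := hfd.mul htd.cexp
  have hFat : DifferentiableAt ℂ (FF v) 0 := hFd.differentiableAt (isOpen_ball.mem_nhds h0b)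
  have hUat : DifferentiableAt ℂ (UU v) 0 := hUd.differentiableAt (isOpen_ball.mem_nhds h0b)
  have hfder : HasDerivAt f 1 0 := by
    have h1 : HasDerivAt (fun w => exp (-(FF v w) / E))
        (exp (-(FF v 0) / E) * (-(deriv (FF v) 0) / E)) 0 :=
      (hFat.hasDerivAt.neg.div_const _).cexp
    have h2 := (hasDerivAt_id (0 : ℂ)).mul h1
    simp only [id, FF_zero, neg_zero, zero_div, Complex.exp_zero, one_mul, zero_mul,
      add_zero] at h2
    exact h2
  have htder : HasDerivAt (fun w => w * (UU v w) ^ 2 / (8 * E)) ((E : ℂ) / 8) 0 := by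
    have h1 : HasDerivAt (fun w => (UU v w) ^ 2) (((2 : ℕ) : ℂ) * (UU v 0) ^ (2 - 1) *
      deriv (UU v) 0) 0 := hUat.hasDerivAt.pow 2
    have h2 : HasDerivAt (fun w => w * (UU v w) ^ 2 / (8 * (E : ℂ)))
        ((1 * (UU v 0) ^ 2 + 0 * (((2 : ℕ) : ℂ) * (UU v 0) ^ (2 - 1) *
          deriv (UU v) 0)) / (8 * (E : ℂ))) 0 :=
      ((hasDerivAt_id (0 : ℂ)).mul h1).div_const (8 * (E : ℂ))
    have h3 : (1 * (UU v 0) ^ 2 + 0 * (((2 : ℕ) : ℂ) * (UU v 0) ^ (2 - 1) *
          deriv (UU v) 0)) / (8 * (E : ℂ)) = (E : ℂ) / 8 := by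
      rw [UU_zero, v0, zero_mul, add_zero, one_mul]
      field_simp
    rw [h3] at h2
    exact h2
  have hgder : HasDerivAt g 1 0 := by
    have h2 := hfder.mul htder.cexp
    simp only [zero_mul, zero_div, Complex.exp_zero, one_mul, mul_one] at h2
    have h3 : f 0 = 0 := by simp [f]
    rw [h3, zero_mul, add_zero] at h2
    exact h2
  have hfexp : ∀ w : ℂ, w ≠ 0 → f w = exp ((Phi E v (Complex.log w) + sh v 0) / (2 * E)) := by
    intro w hw
    have h1 : (Phi E v (Complex.log w) + sh v 0) / (2 * E) = Complex.log w + (-(FF v w) / E) := by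
      unfold Phi
      rw [Complex.exp_log hw]
      field_simp
      ring
    rw [h1, Complex.exp_add, Complex.exp_log hw]
  have hgexp : ∀ w : ℂ, w ≠ 0 → g w = exp ((Phi E v (Complex.log w) + sh v 0) / (2 * E) +
      hh v (Complex.log w) / (8 * E)) := by
    intro w hw
    rw [Complex.exp_add, ← hfexp w hw]
    unfold hh
    rw [Complex.exp_log hw]
  have hf0 : ∀ w, f w = 0 → w = 0 := by
    intro w hw
    simp only [f, mul_eq_zero, Complex.exp_ne_zero, or_false] at hw
    exact hw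
  have hg0 : ∀ w, g w = 0 → w = 0 := by
    intro w hw
    simp only [g, mul_eq_zero, Complex.exp_ne_zero, or_false] at hw
    exact hw
  have hback : ∀ (a b : ℂ) (n : ℤ), a ≠ 0 → b ≠ 0 →
      Complex.log a = Complex.log b + n * (2 * π * I) → a = b := by
    intro a b n ha hb hab
    have := congrArg Complex.exp hab
    rw [Complex.exp_periodic.int_mul n (Complex.log b), Complex.exp_log ha,
      Complex.exp_log hb] at this
    exact this
  have hfinj : InjOn f (ball 0 1) := by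
    intro a ha b hb hab
    by_cases ha0 : a = 0
    · rw [ha0]
      symm
      apply hf0
      rw [← hab, ha0]; simp [f]
    by_cases hb0 : b = 0
    · rw [hb0]
      apply hf0
      rw [hab, hb0]; simp [f]
    rw [hfexp a ha0, hfexp b hb0, Complex.exp_eq_exp_iff_exists_int] at hab
    obtain ⟨n, hn⟩ := hab
    have h1 : Phi E v (Complex.log a) = Phi E v (Complex.log b + n * (2 * π * I)) := by
      rw [hperP]
      field_simp at hn
      linear_combination hn
    have h2 := hlowlim (Complex.log a) (Complex.log b + n * (2 * π * I)) (hlogre a ha ha0)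
      (by rw [hrex]; exact hlogre b hb hb0)
    rw [h1, sub_self, norm_zero] at h2
    have h3 : ‖Complex.log a - (Complex.log b + n * (2 * π * I))‖ = 0 := by
      have := norm_nonneg (Complex.log a - (Complex.log b + n * (2 * π * I)))
      nlinarith
    rw [norm_eq_zero, sub_eq_zero] at h3
    exact hback a b n ha0 hb0 h3
  have hginj : InjOn g (ball 0 1) := by
    intro a ha b hb hab
    by_cases ha0 : a = 0
    · rw [ha0]
      symm
      apply hg0
      rw [← hab, ha0]; simp [g]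
    by_cases hb0 : b = 0
    · rw [hb0]
      apply hg0
      rw [hab, hb0]; simp [g]
    rw [hgexp a ha0, hgexp b hb0, Complex.exp_eq_exp_iff_exists_int] at hab
    obtain ⟨n, hn⟩ := hab
    have h1 : Phi E v (Complex.log a) - Phi E v (Complex.log b + n * (2 * π * I)) =
        -(1 / 4) * (hh v (Complex.log a) - hh v (Complex.log b + n * (2 * π * I))) := by
      rw [hperP, hperH]
      field_simp at hn
      linear_combination hn / 8
    have hra := hlogre a ha ha0
    have hrb : (Complex.log b + n * (2 * π * I)).re < 0 := by rw [hrex]; exact hlogre b hb hb0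
    have h4 := hlim (Complex.log a) (Complex.log b + n * (2 * π * I)) hra hrb
    have h5 : ‖Phi E v (Complex.log a) - Phi E v (Complex.log b + n * (2 * π * I))‖ =
        1 / 4 * ‖hh v (Complex.log a) - hh v (Complex.log b + n * (2 * π * I))‖ := by
      rw [h1, norm_mul]
      norm_num
    have h6 : ‖Phi E v (Complex.log a) - Phi E v (Complex.log b + n * (2 * π * I))‖ = 0 := by
      have := norm_nonneg (Phi E v (Complex.log a) - Phi E v (Complex.log b + n * (2 * π * I)))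
      linarith
    have h2 := hlowlim (Complex.log a) (Complex.log b + n * (2 * π * I)) hra hrb
    rw [h6] at h2
    have h3 : ‖Complex.log a - (Complex.log b + n * (2 * π * I))‖ = 0 := by
      have := norm_nonneg (Complex.log a - (Complex.log b + n * (2 * π * I)))
      nlinarith
    rw [norm_eq_zero, sub_eq_zero] at h3
    exact hback a b n ha0 hb0 h3
  refine ⟨f, g, ⟨hfd, hfinj, by simp [f], hfder.deriv⟩, ⟨hgd, hginj, by simp [g], hgder.deriv⟩,
    ?_, ?_⟩
  · by_contra hcon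
    push Not at hcon
    have h1 : ∀ w ∈ ball (0 : ℂ) 1, exp (w * (UU v w) ^ 2 / (8 * E)) = 1 := by
      intro w hw
      by_cases hw0 : w = 0
      · rw [hw0]; simp
      · have h2 := hcon w hw
        simp only [f, g] at h2
        have h3 : w * exp (-(FF v w) / E) ≠ 0 := mul_ne_zero hw0 (Complex.exp_ne_zero _)
        exact (mul_eq_left₀ h3).mp h2.symm
    have h2 : HasDerivAt (fun w => exp (w * (UU v w) ^ 2 / (8 * E))) ((E : ℂ) / 8) 0 := by
      have := htder.cexp
      simpa using this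
    have h3 : HasDerivAt (fun w => exp (w * (UU v w) ^ 2 / (8 * E))) 0 0 := by
      apply (hasDerivAt_const (0 : ℂ) (1 : ℂ)).congr_of_eventuallyEq
      filter_upwards [isOpen_ball.mem_nhds h0b] with w hw
      exact h1 w hw
    have h4 := h2.unique h3
    rw [div_eq_zero_iff] at h4
    rcases h4 with h4 | h4
    · exact hEc h4
    · norm_num at h4
  · intro n
    by_cases hn : z n = 0
    · simp [f, g, hn]
    · simp only [f, g]
      rw [vz n hn]
      simp

end Pool.Agent.Helper26.DZ
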