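import Mathlib
import Pool.Agent.Helper26.DZDefs
import Pool.Agent.Helper26.DZG

/-! Packet F: two step maximum principle. -/

open Complex Metric Set Filter Topology MeasureTheory

namespace Pool.Agent.Helper26.DZ

lemma ds_cont {Φ : ℂ → ℂ} (hd : ∀ ξ : ℂ, ξ.re ≤ 0 → DifferentiableAt ℂ Φ ξ) {η ξ : ℂ}
    (hξ : ξ.re ≤ 0) : ContinuousAt (dslope Φ η) ξ := by
  by_cases h : ξ = η
  · subst h; exact continuousAt_dslope_same.mpr (hd ξ hξ)
  · exact (continuousAt_dslope_of_ne h).mpr (hd ξ hξ).continuousAt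

lemma ds_diff {Φ : ℂ → ℂ} (hd : ∀ ξ : ℂ, ξ.re ≤ 0 → DifferentiableAt ℂ Φ ξ) {η ξ : ℂ}
    (hξ : ξ.re < 0) : DifferentiableAt ℂ (dslope Φ η) ξ := by
  by_cases h : ξ = η
  · subst h
    have hopen : IsOpen {w : ℂ | w.re < 0} := isOpen_lt Complex.continuous_re continuous_const
    have h1 : DifferentiableOn ℂ Φ {w : ℂ | w.re < 0} := fun w hw =>
      (hd w (le_of_lt hw)).differentiableWithinAt
    have h2 := (Complex.differentiableOn_dslope (hopen.mem_nhds hξ)).mpr h1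
    exact h2.differentiableAt (hopen.mem_nhds hξ)
  · exact (differentiableAt_dslope_of_ne h).mpr (hd ξ hξ.le)

lemma HP.ds_low {E : ℝ} {Φ h : ℂ → ℂ} (H : HP E Φ h) {η ξ : ℂ}
    (hη : η.re ≤ 0) (hξ : ξ.re ≤ 0) : E ≤ ‖dslope Φ η ξ‖ := by
  by_cases heq : ξ = η
  · subst heq
    rw [dslope_same]
    exact (H.re ξ hξ).trans (Complex.re_le_norm _)
  · rw [dslope_of_ne _ heq, slope_def_field, norm_div]
    have h1 : 0 < ‖ξ - η‖ := norm_pos_iff.mpr (sub_ne_zero.mpr heq)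
    rw [le_div_iff₀ h1]
    exact H.lower hξ hη

lemma HP.step {E K B : ℝ} {Φ h : ℂ → ℂ} (H : HP E Φ h) (hK : 1 ≤ K)
    (hB : ∀ ξ : ℂ, ξ.re ≤ 0 → ‖h ξ‖ ≤ B) {η : ℂ} (hη : η.re ≤ 0)
    (hbd : ∀ θ : ℝ, ‖h (θ * I) - h η‖ ≤ K * ‖Φ (θ * I) - Φ η‖) {ξ : ℂ} (hξ : ξ.re ≤ 0) :
    ‖h ξ - h η‖ ≤ K * ‖Φ ξ - Φ η‖ := by
  rcases hξ.lt_or_eq with hξ1 | hξ1
  swap
  · have h1 : ξ = ((ξ.im : ℝ) : ℂ) * I := by
      apply Complex.ext <;> simp [hξ1]
    rw [h1]
    exact hbd ξ.im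
  by_cases hne : ξ = η
  · subst hne; simp
  have hE := H.pos
  have hB0 : 0 ≤ B := (norm_nonneg _).trans (hB ξ hξ)
  let q : ℂ → ℂ := fun w => dslope h η w / dslope Φ η w
  have hden : ∀ w : ℂ, w.re ≤ 0 → dslope Φ η w ≠ 0 := by
    intro w hw h0
    have := H.ds_low hη hw
    rw [h0, norm_zero] at this
    linarith
  obtain ⟨R, hR⟩ : ∃ R : ℝ, ‖ξ - η‖ < R ∧ 2 * B / E < R ∧ 0 < R := by
    refine ⟨‖ξ - η‖ + 2 * B / E + 1, ?_, ?_, ?_⟩
    · have : 0 ≤ 2 * B / E := by positivity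
      linarith
    · have := norm_nonneg (ξ - η)
      linarith
    · have : 0 ≤ 2 * B / E := by positivity
      have := norm_nonneg (ξ - η)
      linarith
  obtain ⟨hR1, hR2, hR0⟩ := hR
  let U : Set ℂ := {w : ℂ | w.re < 0} ∩ ball η R
  have hUo : IsOpen U := (isOpen_lt Complex.continuous_re continuous_const).inter isOpen_ball
  have hclU : closure U ⊆ {w : ℂ | w.re ≤ 0} ∩ closedBall η R := by
    apply closure_minimal
    · intro w hw
      have h1 : w.re < 0 := hw.1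
      exact ⟨h1.le, ball_subset_closedBall hw.2⟩
    · exact (isClosed_le Complex.continuous_re continuous_const).inter isClosed_closedBall
  have hUb : Bornology.IsBounded U := isBounded_ball.subset inter_subset_right
  have hd : DiffContOnCl ℂ q U := by
    constructor
    · intro w hw
      exact ((ds_diff H.dh hw.1).div (ds_diff H.dΦ hw.1)
        (hden w (le_of_lt hw.1))).differentiableWithinAt
    · intro w hw
      have hw1 := (hclU hw).1
      exact ((ds_cont H.dh hw1).div (ds_cont H.dΦ hw1) (hden w hw1)).continuousWithinAt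
  have hfr : ∀ w ∈ frontier U, ‖q w‖ ≤ K := by
    intro w hw
    have hwc := hclU (frontier_subset_closure hw)
    have hwn : w ∉ U := by
      rw [hUo.frontier_eq] at hw
      exact hw.2
    have hw1 : w.re ≤ 0 := hwc.1
    by_cases hwη : w = η
    · simp only [q]
      rw [hwη, dslope_same, dslope_same, norm_div]
      have h1 := H.le η hη
      have h2 : 0 < ‖deriv Φ η‖ := lt_of_lt_of_le hE ((H.re η hη).trans (Complex.re_le_norm _))
      exact ((div_le_one h2).mpr h1).trans hK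
    have hq : ‖q w‖ = ‖h w - h η‖ / ‖Φ w - Φ η‖ := by
      simp only [q]
      rw [dslope_of_ne _ hwη, dslope_of_ne _ hwη, slope_def_field, slope_def_field,
        norm_div, norm_div, norm_div]
      have h1 : ‖w - η‖ ≠ 0 := norm_ne_zero_iff.mpr (sub_ne_zero.mpr hwη)
      field_simp
    have hpos : 0 < ‖Φ w - Φ η‖ := by
      have h1 : 0 < ‖w - η‖ := norm_pos_iff.mpr (sub_ne_zero.mpr hwη)
      exact lt_of_lt_of_le (by positivity) (H.lower hw1 hη)
    rw [hq, div_le_iff₀ hpos]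
    by_cases hre : w.re = 0
    · have h1 : w = ((w.im : ℝ) : ℂ) * I := by
        apply Complex.ext <;> simp [hre]
      rw [h1]
      exact hbd w.im
    · have hre2 : w.re < 0 := lt_of_le_of_ne hw1 hre
      have hnb : R ≤ ‖w - η‖ := by
        by_contra hcon
        push Not at hcon
        exact hwn ⟨hre2, by rwa [mem_ball_iff_norm]⟩
      have h1 : E * R ≤ ‖Φ w - Φ η‖ :=
        (mul_le_mul_of_nonneg_left hnb hE.le).trans (H.lower hw1 hη)
      have h2 : ‖h w - h η‖ ≤ 2 * B := by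
        calc _ ≤ ‖h w‖ + ‖h η‖ := norm_sub_le _ _
          _ ≤ _ := by linarith [hB w hw1, hB η hη]
      have h3 : 2 * B ≤ E * R := by
        rw [div_lt_iff₀ hE] at hR2
        linarith
      calc ‖h w - h η‖ ≤ ‖Φ w - Φ η‖ := by linarith
        _ = 1 * ‖Φ w - Φ η‖ := (one_mul _).symm
        _ ≤ _ := mul_le_mul_of_nonneg_right hK (norm_nonneg _)
  have hmem : ξ ∈ U := ⟨hξ1, by rw [mem_ball_iff_norm]; exact hR1⟩
  have hfin := Complex.norm_le_of_forall_mem_frontier_norm_le hUb hd hfr (subset_closure hmem)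
  have hq : ‖q ξ‖ = ‖h ξ - h η‖ / ‖Φ ξ - Φ η‖ := by
    simp only [q]
    rw [dslope_of_ne _ hne, dslope_of_ne _ hne, slope_def_field, slope_def_field,
      norm_div, norm_div, norm_div]
    have h1 : ‖ξ - η‖ ≠ 0 := norm_ne_zero_iff.mpr (sub_ne_zero.mpr hne)
    field_simp
  have hpos : 0 < ‖Φ ξ - Φ η‖ := by
    have h1 : 0 < ‖ξ - η‖ := norm_pos_iff.mpr (sub_ne_zero.mpr hne)
    exact lt_of_lt_of_le (by positivity) (H.lower hξ hη)
  rw [hq, div_le_iff₀ hpos] at hfin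
  exact hfin

theorem stmtF : StmtF := by
  intro E K B Φ h H hK hB hbd ξ η hξ hη
  have h1 : ∀ (θ : ℝ) (ξ : ℂ), ξ.re ≤ 0 → ‖h ξ - h (θ * I)‖ ≤ K * ‖Φ ξ - Φ (θ * I)‖ := by
    intro θ ξ hξ
    exact H.step hK hB (by simp) (fun t => hbd t θ) hξ
  apply H.step hK hB hη _ hξ
  intro θ
  rw [norm_sub_rev, norm_sub_rev (Φ (θ * I))]
  exact h1 θ η hη

end Pool.Agent.Helper26.DZ
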