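import Mathlib
import Pool.Agent.Helper26.DZDefs

/-! Packets H and I: necessity. -/

open Complex Metric Set Filter Topology MeasureTheory

namespace Pool.Agent.Helper26.DZ

lemma det_mulc (c : ℂ) :
    ((ContinuousLinearMap.toSpanSingleton ℂ c : ℂ →L[ℂ] ℂ).restrictScalars ℝ).det = ‖c‖^2 := by
  simp [ContinuousLinearMap.det, LinearMap.det_restrictScalars,
      Algebra.norm_complex_eq, Complex.normSq_eq_norm_sq]

lemma ClassS.ne_zero {f : ℂ → ℂ} (hf : ClassS f) {w : ℂ} (hw : ‖w‖ < 1) (hw0 : w ≠ 0) :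
    f w ≠ 0 := by
  intro h
  have h1 : f w = f 0 := by rw [h, hf.2.2.1]
  exact hw0 (hf.2.1 (by simpa using hw) (by simp) h1)

theorem stmtH : StmtH := by
  intro f hf
  have h0b : (0 : ℂ) ∈ ball (0 : ℂ) 1 := by simp
  have hAt : AnalyticAt ℂ f 0 := hf.1.analyticAt (isOpen_ball.mem_nhds h0b)
  have hst : HasStrictDerivAt f 1 0 := by
    have := hAt.hasStrictDerivAt
    rwa [hf.2.2.2] at this
  have hmap : map f (𝓝 0) = 𝓝 (f 0) := hst.map_nhds_eq one_ne_zero
  have hmem : f '' (ball 0 (1 / 2)) ∈ 𝓝 (f 0) := by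
    rw [← hmap]
    exact image_mem_map (ball_mem_nhds _ (by norm_num))
  rw [hf.2.2.1, Metric.mem_nhds_iff] at hmem
  obtain ⟨ρ, hρ, hsub⟩ := hmem
  have hlow : ∀ w : ℂ, 1 / 2 < ‖w‖ → ‖w‖ < 1 → ρ ≤ ‖f w‖ := by
    intro w h1 h2
    by_contra hcon
    push Not at hcon
    have h3 : f w ∈ ball (0 : ℂ) ρ := by simpa using hcon
    obtain ⟨x, hx, hxw⟩ := hsub h3
    rw [mem_ball_zero_iff] at hx
    have h4 : x = w := hf.2.1 (by simp; linarith) (by simpa using h2) hxw
    rw [h4] at hx
    linarith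
  refine ⟨⟨ρ, hρ, hlow⟩, ?_⟩
  set A : Set ℂ := {w : ℂ | 1 / 2 < ‖w‖ ∧ ‖w‖ < 1} with hA
  have hAo : IsOpen A := (isOpen_lt continuous_const continuous_norm).inter
    (isOpen_lt continuous_norm continuous_const)
  have hne : ∀ w ∈ A, f w ≠ 0 := by
    intro w hw h0
    have := hlow w hw.1 hw.2
    rw [h0, norm_zero] at this
    linarith
  have hder : ∀ w ∈ A, HasDerivAt (fun x => 1 / f x) (deriv (fun x => 1 / f x) w) w := by
    intro w hw
    have h1 : DifferentiableAt ℂ f w :=
      hf.1.differentiableAt (isOpen_ball.mem_nhds (by simpa using hw.2))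
    exact ((differentiableAt_const (1 : ℂ)).div h1 (hne w hw)).hasDerivAt
  have hfd : ∀ w ∈ A, HasFDerivWithinAt (fun x => 1 / f x)
      ((ContinuousLinearMap.toSpanSingleton ℂ (deriv (fun x => 1 / f x) w) :
        ℂ →L[ℂ] ℂ).restrictScalars ℝ) A w := by
    intro w hw
    exact ((hder w hw).hasFDerivAt.restrictScalars ℝ).hasFDerivWithinAt
  have hinj : InjOn (fun x => 1 / f x) A := by
    intro a ha b hb hab
    simp only [one_div] at hab
    have h1 : f a = f b := inv_injective hab
    exact hf.2.1 (by simpa using ha.2) (by simpa using hb.2) h1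
  have key := (integrableOn_image_iff_integrableOn_abs_det_fderiv_smul (volume : Measure ℂ)
    hAo.measurableSet hfd hinj (fun _ => (1 : ℝ))).mp ?_
  · apply key.congr_fun _ hAo.measurableSet
    intro w _
    simp only [smul_eq_mul, mul_one]
    rw [det_mulc, abs_of_nonneg (by positivity)]
  · have hvol : volume ((fun x => 1 / f x) '' A) ≠ ⊤ := by
      apply ne_of_lt
      apply lt_of_le_of_lt (measure_mono (t := closedBall (0 : ℂ) (1 / ρ)) _)
      · exact (isCompact_closedBall _ _).measure_lt_top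
      · rintro _ ⟨w, hw, rfl⟩
        rw [mem_closedBall_zero_iff, norm_div, norm_one]
        exact one_div_le_one_div_of_le hρ (hlow w hw.1 hw.2)
    exact integrableOn_const hvol enorm_ne_top

theorem stmtI (hH : StmtH) : StmtI := by
  intro z hz hco
  obtain ⟨f, g, hf, hg, ⟨w0, hw0, hfg⟩, hzn⟩ := hco
  have h0b : (0 : ℂ) ∈ ball (0 : ℂ) 1 := by simp
  obtain ⟨⟨ρ, hρ, hlowf⟩, hif⟩ := hH f hf
  obtain ⟨⟨σ, hσ, hlowg⟩, hig⟩ := hH g hg
  have hds : ∀ F : ℂ → ℂ, ClassS F → DifferentiableOn ℂ (dslope F 0) (ball 0 1) ∧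
      (∀ w ∈ ball (0 : ℂ) 1, dslope F 0 w ≠ 0) ∧ dslope F 0 0 = 1 ∧
      (∀ w ∈ ball (0 : ℂ) 1, w ≠ 0 → dslope F 0 w = F w / w) := by
    intro F hF
    have e1 : ∀ w ∈ ball (0 : ℂ) 1, w ≠ 0 → dslope F 0 w = F w / w := by
      intro w hw hw0
      rw [dslope_of_ne _ hw0, slope_def_field, hF.2.2.1, sub_zero, sub_zero]
    have e2 : dslope F 0 0 = 1 := by rw [dslope_same, hF.2.2.2]
    refine ⟨(Complex.differentiableOn_dslope (isOpen_ball.mem_nhds h0b)).mpr hF.1, ?_, e2, e1⟩
    intro w hw
    by_cases hw0 : w = 0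
    · rw [hw0, e2]; exact one_ne_zero
    · rw [e1 w hw hw0]
      exact div_ne_zero (hF.ne_zero (by simpa using hw) hw0) hw0
  obtain ⟨df, nf, f0, ef⟩ := hds f hf
  obtain ⟨dg, ng, g0, eg⟩ := hds g hg
  let φ : ℂ → ℂ := fun w => 1 / dslope f 0 w - 1 / dslope g 0 w
  have hφd : DifferentiableOn ℂ φ (ball 0 1) :=
    ((differentiableOn_const (1 : ℂ)).div df nf).sub ((differentiableOn_const (1 : ℂ)).div dg ng)
  have hφ0 : φ 0 = 0 := by
    simp only [φ]
    rw [f0, g0, sub_self]
  have hφe : ∀ w ∈ ball (0 : ℂ) 1, w ≠ 0 → φ w = w * (1 / f w - 1 / g w) := by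
    intro w hw hw0
    simp only [φ]
    rw [ef w hw hw0, eg w hw hw0]
    have := hf.ne_zero (by simpa using hw) hw0
    have := hg.ne_zero (by simpa using hw) hw0
    field_simp
  refine ⟨φ, hφd, ?_, ⟨w0, hw0, ?_⟩, ?_⟩
  · -- integrability
    set A : Set ℂ := {w : ℂ | 1 / 2 < ‖w‖ ∧ ‖w‖ < 1} with hA
    have hAo : IsOpen A := (isOpen_lt continuous_const continuous_norm).inter
      (isOpen_lt continuous_norm continuous_const)
    have hcov : ball (0 : ℂ) 1 ⊆ closedBall 0 (1 / 2) ∪ A := by
      intro w hw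
      rw [mem_ball_zero_iff] at hw
      by_cases h : ‖w‖ ≤ 1 / 2
      · left; simpa using h
      · right; push Not at h; exact ⟨h, hw⟩
    apply IntegrableOn.mono_set _ hcov
    apply IntegrableOn.union
    · -- compact part
      apply ContinuousOn.integrableOn_compact (isCompact_closedBall _ _)
      have h1 : ContinuousOn (deriv φ) (ball 0 1) := (hφd.deriv isOpen_ball).continuousOn
      exact (h1.mono (closedBall_subset_ball (by norm_num))).norm.pow 2
    · -- annulus
      have hbound : IntegrableOn (fun w => 2 * (1 / ρ + 1 / σ) ^ 2 +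
          4 * ‖deriv (fun x => 1 / f x) w‖ ^ 2 + 4 * ‖deriv (fun x => 1 / g x) w‖ ^ 2) A := by
        apply Integrable.add
        · apply Integrable.add
          · have hvol : volume A ≠ ⊤ := by
              apply ne_of_lt
              apply lt_of_le_of_lt (measure_mono (t := ball (0 : ℂ) 1) _)
              · exact measure_ball_lt_top
              · intro w hw; simpa using hw.2
            exact integrableOn_const hvol enorm_ne_top
          · exact hif.const_mul 4
        · exact hig.const_mul 4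
      have hmeas : AEStronglyMeasurable (fun w => ‖deriv φ w‖ ^ 2) (volume.restrict A) :=
        ((measurable_deriv φ).norm.pow_const 2).aestronglyMeasurable
      apply hbound.mono' hmeas
      rw [ae_restrict_iff' hAo.measurableSet]
      filter_upwards with w hw
      have hwb : w ∈ ball (0 : ℂ) 1 := by simpa using hw.2
      have hw0 : w ≠ 0 := by
        intro h
        have := hw.1
        rw [h, norm_zero] at this
        norm_num at this
      have hfw := hf.ne_zero (by simpa using hw.2) hw0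
      have hgw := hg.ne_zero (by simpa using hw.2) hw0
      have hdf : HasDerivAt (fun x => 1 / f x) (deriv (fun x => 1 / f x) w) w := by
        have h1 : DifferentiableAt ℂ f w := hf.1.differentiableAt (isOpen_ball.mem_nhds hwb)
        exact ((differentiableAt_const (1 : ℂ)).div h1 hfw).hasDerivAt
      have hdg : HasDerivAt (fun x => 1 / g x) (deriv (fun x => 1 / g x) w) w := by
        have h1 : DifferentiableAt ℂ g w := hg.1.differentiableAt (isOpen_ball.mem_nhds hwb)
        exact ((differentiableAt_const (1 : ℂ)).div h1 hgw).hasDerivAt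
      have hder : HasDerivAt φ (1 * (1 / f w - 1 / g w) + w * (deriv (fun x => 1 / f x) w -
          deriv (fun x => 1 / g x) w)) w := by
        have h1 := (hasDerivAt_id w).mul (hdf.sub hdg)
        apply h1.congr_of_eventuallyEq
        filter_upwards [hAo.mem_nhds hw] with x hx
        have hx0 : x ≠ 0 := by
          intro h
          have := hx.1
          rw [h, norm_zero] at this
          norm_num at this
        exact hφe x (by simpa using hx.2) hx0
      rw [hder.deriv, Real.norm_of_nonneg (by positivity)]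
      have n1 : ‖1 / f w‖ ≤ 1 / ρ := by
        rw [norm_div, norm_one]
        exact one_div_le_one_div_of_le hρ (hlowf w hw.1 hw.2)
      have n2 : ‖1 / g w‖ ≤ 1 / σ := by
        rw [norm_div, norm_one]
        exact one_div_le_one_div_of_le hσ (hlowg w hw.1 hw.2)
      set P := deriv (fun x => 1 / f x) w
      set Q := deriv (fun x => 1 / g x) w
      have n3 : ‖1 * (1 / f w - 1 / g w) + w * (P - Q)‖ ≤ (1 / ρ + 1 / σ) + (‖P‖ + ‖Q‖) := by
        calc _ ≤ ‖1 * (1 / f w - 1 / g w)‖ + ‖w * (P - Q)‖ := norm_add_le _ _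
          _ ≤ (‖1 / f w‖ + ‖1 / g w‖) + 1 * (‖P‖ + ‖Q‖) := by
            rw [one_mul, norm_mul]
            gcongr
            · exact norm_sub_le _ _
            · exact hw.2.le
            · exact norm_sub_le _ _
          _ ≤ _ := by linarith
      have n4 : ‖1 * (1 / f w - 1 / g w) + w * (P - Q)‖ ^ 2 ≤
          ((1 / ρ + 1 / σ) + (‖P‖ + ‖Q‖)) ^ 2 := pow_le_pow_left₀ (norm_nonneg _) n3 2
      nlinarith [sq_nonneg ((1 / ρ + 1 / σ) - (‖P‖ + ‖Q‖)), sq_nonneg (‖P‖ - ‖Q‖)]
  · have hw00 : w0 ≠ 0 := by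
      intro h
      apply hfg
      rw [h, hf.2.2.1, hg.2.2.1]
    rw [hφe w0 hw0 hw00]
    apply mul_ne_zero hw00
    intro h
    apply hfg
    rw [sub_eq_zero] at h
    have := hf.ne_zero (by simpa using hw0) hw00
    have := hg.ne_zero (by simpa using hw0) hw00
    field_simp at h
    exact h.symm
  · intro n
    by_cases hn : z n = 0
    · rw [hn, hφ0]
    · rw [hφe (z n) (by simpa using hz n) hn, hzn n, sub_self, mul_zero]

end Pool.Agent.Helper26.DZ
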