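import Mathlib
import Pool.Agent.Helper26.DZDefs
import Pool.Agent.Helper26.DZG
import Pool.Agent.Helper26.DZF
import Pool.Agent.Helper26.DZH
import Pool.Agent.Helper3.DZ.C
import Pool.Agent.Helper22.DZ.PacketE
import Pool.Agent.Helper49.DZ.PackA
import Pool.Agent.Helper49.DZ.PackK
import Pool.Agent.Helper51.DZ.HalfPlane
import Pool.Agent.Helper60.DZJ.J2
import Pool.Agent.Helper26.DZB

namespace Pool.Agent.Helper26.DZ

theorem main (z : ℕ → ℂ) (hz : ∀ n, ‖z n‖ < 1) :
    List.TFAE [IsCoincidence z, IsDirichletZero z, KernelCriterion z] := by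
  have hA : StmtA := Pool.Agent.Helper49.DZ.stmtA
  have hB : StmtB := Pool.Agent.Helper26.DZB.stmtB hA
  have hC : StmtC := Pool.Agent.Helper3.DZ.stmtC
  have hD : StmtD := Pool.Agent.Helper51.DZ.stmtD hC
  have hE : StmtE := Pool.Agent.Helper22.DZ.stmtE
  have hJ : StmtJ := Pool.Agent.Helper60.DZJ.stmtJ
  have h1 := stmtG hB hD hE stmtF z hz
  have h2 := stmtI stmtH z hz
  have h3 := Pool.Agent.Helper49.DZ.stmtK hA hJ z hz
  tfae_have 1 → 2 := h2
  tfae_have 2 → 3 := h3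
  tfae_have 3 → 1 := h1
  tfae_finish

end Pool.Agent.Helper26.DZ
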