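import Pool.Agent.Helper26.Pot

open MeasureTheory Filter Topology Set Real
open scoped ENNReal NNReal

namespace Pool.Agent.Helper26

theorem norm_inversion_sub {x y : ℂ} (hx : x ≠ 0) (hy : y ≠ 0) :
    ‖((‖x‖ ^ 2)⁻¹ : ℝ) • x - ((‖y‖ ^ 2)⁻¹ : ℝ) • y‖ = ‖x - y‖ / (‖x‖ * ‖y‖) := by
  have key : ∀ x : ℂ, ((‖x‖ ^ 2)⁻¹ : ℝ) • x = (starRingEnd ℂ x)⁻¹ := by
    intro x
    rw [Complex.inv_def, Complex.conj_conj, Complex.normSq_conj, Complex.normSq_eq_norm_sq,
      Complex.real_smul]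
    push_cast
    ring
  rw [key x, key y]
  have hx' : (starRingEnd ℂ x) ≠ 0 := by simpa using hx
  have hy' : (starRingEnd ℂ y) ≠ 0 := by simpa using hy
  rw [inv_sub_inv hx' hy', norm_div, norm_mul, ← map_sub, RCLike.norm_conj, RCLike.norm_conj,
    RCLike.norm_conj, norm_sub_rev]

theorem exists_bound_fld {ρ : ℝ} (hρ : 0 < ρ) (w : ℂ) :
    ∃ C, 0 ≤ C ∧ ∀ z, ‖fld ρ w z‖ ≤ C / (1 + ‖z‖) := by
  refine ⟨max 4 (ρ⁻¹ * (2 + 2 * ‖w‖)), by positivity, ?_⟩
  intro z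
  have hz : 0 < 1 + ‖z‖ := by positivity
  rcases le_or_gt ‖z‖ (2 * ‖w‖ + 1) with h | h
  · rw [le_div_iff₀ hz]
    calc ‖fld ρ w z‖ * (1 + ‖z‖) ≤ ρ⁻¹ * (2 + 2 * ‖w‖) := by
          apply mul_le_mul (norm_fld_le hρ w z) (by linarith) (by positivity) (by positivity)
      _ ≤ _ := le_max_right _ _
  · unfold fld
    split_ifs with h1
    · have h2 : ‖z‖ - ‖w‖ ≤ ‖z - w‖ := norm_sub_norm_le _ _
      have h3 : (1 + ‖z‖) / 4 ≤ ‖z - w‖ := by
        have := norm_nonneg w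
        linarith
      have h4 : 0 < ‖z - w‖ := by linarith
      rw [norm_smul, norm_inv, norm_pow, norm_norm, sq, mul_inv, mul_assoc,
        inv_mul_cancel₀ h4.ne', mul_one, le_div_iff₀ hz, inv_mul_le_iff₀ h4]
      calc 1 + ‖z‖ ≤ ‖z - w‖ * 4 := by linarith
        _ ≤ ‖z - w‖ * max 4 (ρ⁻¹ * (2 + 2 * ‖w‖)) := by
            apply mul_le_mul_of_nonneg_left (le_max_left _ _) h4.le
    · rw [norm_zero]
      positivity

variable {ι : Type*} [Fintype ι]

theorem exists_bound_vf {ρ : ℝ} (hρ : 0 < ρ) (w : ι → ℂ) {a : ι → ℝ} (ha : ∑ i, a i = 0) :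
    ∃ C, 0 ≤ C ∧ ∀ z, ‖vf ρ w a z‖ ≤ C / (1 + ‖z‖) ^ 2 := by
  set W : ℝ := ∑ i, ‖w i‖ with hW
  have hWi : ∀ i, ‖w i‖ ≤ W := fun i =>
    Finset.single_le_sum (f := fun i => ‖w i‖) (fun j _ => norm_nonneg _) (Finset.mem_univ i)
  have hW0 : 0 ≤ W := Finset.sum_nonneg (fun i _ => norm_nonneg _)
  set A : ℝ := ∑ i, |a i| with hA
  have hA0 : 0 ≤ A := Finset.sum_nonneg (fun i _ => abs_nonneg _)
  set R : ℝ := 2 * W + ρ + 1 with hR
  refine ⟨max (A * (8 * W)) (A * ρ⁻¹ * (1 + R) ^ 2), by positivity, ?_⟩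
  intro z
  have hz : 0 < (1 + ‖z‖) ^ 2 := by positivity
  rcases le_or_gt ‖z‖ R with h | h
  · have h1 : ‖vf ρ w a z‖ ≤ A * ρ⁻¹ := by
      unfold vf
      refine (norm_sum_le _ _).trans ?_
      rw [hA, Finset.sum_mul]
      apply Finset.sum_le_sum
      intro i _
      rw [norm_smul, Real.norm_eq_abs]
      exact mul_le_mul_of_nonneg_left (norm_fld_le hρ _ _) (abs_nonneg _)
    rw [le_div_iff₀ hz]
    calc ‖vf ρ w a z‖ * (1 + ‖z‖) ^ 2 ≤ (A * ρ⁻¹) * (1 + R) ^ 2 := by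
          gcongr
      _ ≤ _ := le_max_right _ _
  · have hz0 : 0 < ‖z‖ := by linarith
    have hzne : z ≠ 0 := norm_pos_iff.mp hz0
    have h1 : vf ρ w a z = ∑ i, a i • (fld ρ (w i) z - ((‖z‖ ^ 2)⁻¹ : ℝ) • z) := by
      unfold vf
      simp only [smul_sub, Finset.sum_sub_distrib]
      rw [← Finset.sum_smul, ha, zero_smul, sub_zero]
    rw [h1]
    refine (norm_sum_le _ _).trans ?_
    have h2 : ∀ i ∈ Finset.univ, ‖a i • (fld ρ (w i) z - ((‖z‖ ^ 2)⁻¹ : ℝ) • z)‖ ≤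
        |a i| * (8 * W / (1 + ‖z‖) ^ 2) := by
      intro i _
      rw [norm_smul, Real.norm_eq_abs]
      apply mul_le_mul_of_nonneg_left _ (abs_nonneg _)
      have h3 : ‖z‖ - ‖w i‖ ≤ ‖z - w i‖ := norm_sub_norm_le _ _
      have h4 : ‖z‖ / 2 ≤ ‖z - w i‖ := by
        have := hWi i
        linarith
      have h5 : ρ < ‖z - w i‖ := by
        have := hWi i
        linarith
      have h6 : fld ρ (w i) z = ((‖z - w i‖ ^ 2)⁻¹ : ℝ) • (z - w i) := by
        unfold fld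
        rw [if_pos h5]
      have h7 : z - w i ≠ 0 := norm_pos_iff.mp (by linarith)
      rw [h6, norm_inversion_sub h7 hzne]
      have h8 : ‖z - w i - z‖ = ‖w i‖ := by
        rw [show z - w i - z = - w i by ring, norm_neg]
      rw [h8, div_le_div_iff₀ (by positivity) hz]
      have h9 : (1 + ‖z‖) ^ 2 ≤ 4 * ‖z‖ ^ 2 := by
        have : 1 ≤ ‖z‖ := by linarith
        nlinarith
      calc ‖w i‖ * (1 + ‖z‖) ^ 2 ≤ W * (4 * ‖z‖ ^ 2) := by
            apply mul_le_mul (hWi i) h9 (by positivity) hW0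
        _ = 8 * W * (‖z‖ / 2 * ‖z‖) := by ring
        _ ≤ 8 * W * (‖z - w i‖ * ‖z‖) := by
            gcongr
    refine (Finset.sum_le_sum h2).trans ?_
    rw [← Finset.sum_mul, ← hA, ← mul_div_assoc]
    apply div_le_div_of_nonneg_right _ hz.le
    exact le_max_left _ _

theorem integrable_inv_one_add_norm_pow {k : ℕ} (hk : 2 < k) :
    Integrable (fun z : ℂ => 1 / (1 + ‖z‖) ^ k) := by
  have h := integrable_one_add_norm (E := ℂ) (μ := volume) (r := (k : ℝ))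
    (by rw [Complex.finrank_real_complex]; exact_mod_cast hk)
  apply h.congr
  apply Eventually.of_forall
  intro z
  simp only
  rw [Real.rpow_neg (by positivity), Real.rpow_natCast, one_div]

theorem integrable_fderiv_pot_fld {ρ : ℝ} (hρ : 0 < ρ) (w : ι → ℂ) {a : ι → ℝ}
    (ha : ∑ i, a i = 0) (w' : ℂ) :
    Integrable (fun z => fderiv ℝ (pot ρ w a) z (fld ρ w' z)) := by
  obtain ⟨C, hC, hCb⟩ := exists_bound_vf hρ w ha
  obtain ⟨C', hC', hCb'⟩ := exists_bound_fld hρ w'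
  have h1 := (integrable_inv_one_add_norm_pow (k := 3) (by norm_num)).const_mul (C * C')
  apply h1.mono'
  · exact (measurable_clm_apply (measurable_fderiv ℝ _) (measurable_fld ρ w')).aestronglyMeasurable
  · filter_upwards [ae_hasFDerivAt_pot hρ w a] with z hz
    rw [hz.fderiv]
    refine ((innerSL ℝ (vf ρ w a z)).le_opNorm _).trans ?_
    rw [innerSL_apply_norm]
    calc ‖vf ρ w a z‖ * ‖fld ρ w' z‖ ≤ (C / (1 + ‖z‖) ^ 2) * (C' / (1 + ‖z‖)) := by
          apply mul_le_mul (hCb z) (hCb' z) (norm_nonneg _) (by positivity)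
      _ = C * C' * (1 / (1 + ‖z‖) ^ 3) := by
          field_simp

theorem integrable_norm_vf_sq {ρ : ℝ} (hρ : 0 < ρ) (w : ι → ℂ) {a : ι → ℝ}
    (ha : ∑ i, a i = 0) : Integrable (fun z => ‖vf ρ w a z‖ ^ 2) := by
  obtain ⟨C, hC, hCb⟩ := exists_bound_vf hρ w ha
  have h1 := (integrable_inv_one_add_norm_pow (k := 4) (by norm_num)).const_mul (C ^ 2)
  apply h1.mono'
  · exact ((measurable_vf ρ w a).norm.pow_const 2).aestronglyMeasurable
  · apply Eventually.of_forall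
    intro z
    rw [Real.norm_of_nonneg (by positivity)]
    calc ‖vf ρ w a z‖ ^ 2 ≤ (C / (1 + ‖z‖) ^ 2) ^ 2 := by
          gcongr
          exact hCb z
      _ = C ^ 2 * (1 / (1 + ‖z‖) ^ 4) := by
          field_simp

theorem tendsto_circleAverage_zero {f : ℂ → ℝ} (hf : Tendsto f (cocompact ℂ) (𝓝 0)) (w : ℂ) :
    Tendsto (fun n : ℕ => circleAverage f w n) atTop (𝓝 0) := by
  rw [Metric.tendsto_atTop]
  intro ε hε
  have h1 : ∀ᶠ z in cocompact ℂ, |f z| < ε / 2 := by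
    have := hf.eventually (Metric.ball_mem_nhds (0 : ℝ) (half_pos hε))
    filter_upwards [this] with z hz
    simpa [Real.dist_eq] using hz
  obtain ⟨R, hR⟩ : ∃ R : ℝ, ∀ z, R ≤ ‖z‖ → |f z| < ε / 2 := by
    rw [← Metric.cobounded_eq_cocompact] at h1
    have h2 := (hasBasis_cobounded_norm (E := ℂ)).eventually_iff.mp h1
    obtain ⟨R, -, hR⟩ := h2
    exact ⟨R, fun z hz => hR hz⟩
  obtain ⟨N, hN⟩ := exists_nat_ge (R + ‖w‖)
  refine ⟨N, fun n hn => ?_⟩
  rw [dist_zero_right, Real.norm_eq_abs]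
  have hb : |circleAverage f w n| ≤ ε / 2 := by
    unfold circleAverage
    rw [smul_eq_mul, abs_mul, abs_of_pos (by positivity : (0 : ℝ) < (2 * π)⁻¹)]
    have h3 : ‖∫ θ in (0 : ℝ)..2 * π, f (circleMap w n θ)‖ ≤ (ε / 2) * |2 * π - 0| := by
      apply intervalIntegral.norm_integral_le_of_norm_le_const
      intro θ _
      rw [Real.norm_eq_abs]
      apply (hR _ _).le
      have h4 : ‖circleMap w n θ - w‖ = n := by
        simp [circleMap]
      have h5 : ‖circleMap w n θ - w‖ ≤ ‖circleMap w n θ‖ + ‖w‖ := norm_sub_le _ _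
      have h6 : (N : ℝ) ≤ n := by exact_mod_cast hn
      linarith
    rw [Real.norm_eq_abs, sub_zero, abs_of_pos (by positivity : (0 : ℝ) < 2 * π)] at h3
    calc (2 * π)⁻¹ * |∫ θ in (0 : ℝ)..2 * π, f (circleMap w n θ)| ≤
        (2 * π)⁻¹ * (ε / 2 * (2 * π)) := by gcongr
      _ = ε / 2 := by field_simp
  linarith

theorem integral_fderiv_pot_fld {ρ : ℝ} (hρ : 0 < ρ) (w : ι → ℂ) {a : ι → ℝ}
    (ha : ∑ i, a i = 0) (w' : ℂ) :
    ∫ z, fderiv ℝ (pot ρ w a) z (fld ρ w' z) = -(2 * π) * circleAverage (pot ρ w a) w' ρ := by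
  have hi := integrable_fderiv_pot_fld hρ w ha w'
  have hU : (⋃ n : ℕ, Metric.ball w' (n : ℝ)) = univ := by
    ext z
    simp only [mem_iUnion, mem_univ, iff_true]
    obtain ⟨n, hn⟩ := exists_nat_gt (dist z w')
    exact ⟨n, hn⟩
  have h1 := tendsto_setIntegral_of_monotone (s := fun n : ℕ => Metric.ball w' (n : ℝ))
    (f := fun z => fderiv ℝ (pot ρ w a) z (fld ρ w' z)) (μ := volume)
    (fun n => Metric.isOpen_ball.measurableSet)
    (fun m n hmn => Metric.ball_subset_ball (by exact_mod_cast hmn)) (by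
      rw [hU]
      exact hi.integrableOn)
  rw [hU, setIntegral_univ] at h1
  have h2 : ∀ᶠ n : ℕ in atTop, ∫ z in Metric.ball w' (n : ℝ),
      fderiv ℝ (pot ρ w a) z (fld ρ w' z) =
      2 * π * (circleAverage (pot ρ w a) w' n - circleAverage (pot ρ w a) w' ρ) := by
    obtain ⟨N, hN⟩ := exists_nat_ge ρ
    filter_upwards [eventually_ge_atTop N] with n hn
    apply flux_ball (pot_lipschitz hρ w a) w' hρ
    exact hN.trans (by exact_mod_cast hn)
  have h3 := (((tendsto_circleAverage_zero (tendsto_pot (ρ := ρ) w ha) w').sub_const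
    (circleAverage (pot ρ w a) w' ρ)).const_mul (2 * π))
  have h4 := tendsto_nhds_unique (h1.congr' h2) h3
  rw [h4]
  ring

/-- **Energy identity.** -/
theorem integral_norm_vf_sq {ρ : ℝ} (hρ : 0 < ρ) (w : ι → ℂ) {a : ι → ℝ}
    (ha : ∑ i, a i = 0) :
    ∫ z, ‖vf ρ w a z‖ ^ 2 =
      -(2 * π) * ∑ i, ∑ j, a i * a j * circleAverage (lk ρ (w j)) (w i) ρ := by
  have h1 : ∫ z, ‖vf ρ w a z‖ ^ 2 = ∫ z, ∑ i, a i * fderiv ℝ (pot ρ w a) z (fld ρ (w i) z) := by
    apply integral_congr_ae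
    filter_upwards [ae_hasFDerivAt_pot hρ w a] with z hz
    rw [hz.fderiv]
    have : ∑ i, a i * (innerSL ℝ (vf ρ w a z)) (fld ρ (w i) z) =
        (innerSL ℝ (vf ρ w a z)) (vf ρ w a z) := by
      conv_rhs => rw [vf, map_sum]
      simp only [map_smul, smul_eq_mul]
      rfl
    rw [this, innerSL_apply_apply, real_inner_self_eq_norm_sq]
  rw [h1, integral_finsetSum _ (fun i _ => (integrable_fderiv_pot_fld hρ w ha (w i)).const_mul _),
    Finset.mul_sum]
  apply Finset.sum_congr rfl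
  intro i _
  rw [integral_const_mul, integral_fderiv_pot_fld hρ w ha, circleAverage_pot hρ]
  rw [Finset.mul_sum, Finset.mul_sum, Finset.mul_sum]
  apply Finset.sum_congr rfl
  intro j _
  ring

theorem dir_pot {ρ : ℝ} (hρ : 0 < ρ) (w : ι → ℂ) {a : ι → ℝ} (ha : ∑ i, a i = 0) :
    Dir (pot ρ w a) = ENNReal.ofReal (∫ z, ‖vf ρ w a z‖ ^ 2) := by
  rw [ofReal_integral_eq_lintegral_ofReal (integrable_norm_vf_sq hρ w ha)
    (Eventually.of_forall fun z => by positivity)]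
  unfold Dir
  apply lintegral_congr_ae
  filter_upwards [ae_hasFDerivAt_pot hρ w a] with z hz
  rw [hz.fderiv]
  rw [ENNReal.ofReal_pow (norm_nonneg _)]
  congr 1
  have : ‖innerSL ℝ (vf ρ w a z)‖ = ‖vf ρ w a z‖ := innerSL_apply_norm _ _
  rw [← this, ofReal_norm]
  rfl

end Pool.Agent.Helper26
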