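import Pool.Agent.Helper26.Thomson

open MeasureTheory Filter Topology Set Real
open scoped ENNReal NNReal

namespace Pool.Agent.Helper26

/-- The `(m+2)`-th diameter. -/
noncomputable def tdm (E : Set ℂ) (m : ℕ) : ℝ :=
  ⨆ w : Fin (m+2) → E, (∏ i : Fin (m+2), ∏ j ∈ Finset.Ioi i, ‖(w i : ℂ) - (w j : ℂ)‖)
            ^ ((2:ℝ) / (((m:ℝ) + 2) * ((m:ℝ) + 1)))

/-- The transfinite diameter. -/
noncomputable def tcap (E : Set ℂ) : ℝ := ⨅ m : ℕ, tdm E m

theorem tdm_nonneg (E : Set ℂ) (m : ℕ) : 0 ≤ tdm E m := by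
  apply Real.iSup_nonneg
  intro w
  positivity

theorem tcap_le (E : Set ℂ) (m : ℕ) : tcap E ≤ tdm E m := by
  apply ciInf_le
  refine ⟨0, ?_⟩
  rintro _ ⟨m, rfl⟩
  exact tdm_nonneg E m

theorem le_tdm {E : Set ℂ} (hE : IsCompact E) (m : ℕ) {w : Fin (m + 2) → ℂ} (hw : ∀ i, w i ∈ E) :
    (∏ i : Fin (m+2), ∏ j ∈ Finset.Ioi i, ‖w i - w j‖)
            ^ ((2:ℝ) / (((m:ℝ) + 2) * ((m:ℝ) + 1))) ≤ tdm E m := by
  have hc : CompactSpace E := isCompact_iff_compactSpace.mp hE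
  have hcont : Continuous (fun w : Fin (m+2) → E =>
      (∏ i : Fin (m+2), ∏ j ∈ Finset.Ioi i, ‖(w i : ℂ) - (w j : ℂ)‖)
            ^ ((2:ℝ) / (((m:ℝ) + 2) * ((m:ℝ) + 1)))) := by
    apply Continuous.rpow_const
    · fun_prop
    · intro w
      right
      positivity
  have hb := (isCompact_range hcont).bddAbove
  exact le_ciSup hb (fun i => (⟨w i, hw i⟩ : E))

/-- Full double sum of the truncated kernel. -/
noncomputable def dbl {N : ℕ} (ρ : ℝ) (w : Fin N → ℂ) : ℝ := ∑ i, ∑ j, lk ρ (w i) (w j)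

theorem lk_self {ρ : ℝ} (hρ : 0 < ρ) (w : ℂ) : lk ρ w w = Real.log ρ := by
  unfold lk
  rw [sub_self, norm_zero, max_eq_right hρ.le]

theorem dbl_succAbove {N : ℕ} {ρ : ℝ} (hρ : 0 < ρ) (w : Fin (N + 1) → ℂ) (k : Fin (N + 1)) :
    dbl ρ w = dbl ρ (fun i => w (k.succAbove i)) + 2 * (∑ i : Fin N, lk ρ (w k) (w (k.succAbove i)))
      + Real.log ρ := by
  unfold dbl
  rw [Fin.sum_univ_succAbove _ k, Fin.sum_univ_succAbove _ k, lk_self hρ]
  have h1 : ∀ i : Fin N, ∑ j, lk ρ (w (k.succAbove i)) (w j) =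
      lk ρ (w k) (w (k.succAbove i)) + ∑ j, lk ρ (w (k.succAbove i)) (w (k.succAbove j)) := by
    intro i
    rw [Fin.sum_univ_succAbove _ k, lk_symm ρ (w k)]
  simp_rw [h1, Finset.sum_add_distrib]
  ring

/-- Relation with the products of distances. -/
theorem prod_le_exp {N : ℕ} {ρ : ℝ} (hρ : 0 < ρ) (w : Fin N → ℂ) :
    ∏ i : Fin N, ∏ j ∈ Finset.Ioi i, max ‖w i - w j‖ ρ =
      Real.exp ((dbl ρ w - N * Real.log ρ) / 2) := by
  have h0 : ∀ i j, max ‖w i - w j‖ ρ = Real.exp (lk ρ (w i) (w j)) := by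
    intro i j
    unfold lk
    rw [Real.exp_log (lt_max_of_lt_right hρ), norm_sub_rev]
  have h1 : ∑ i : Fin N, ∑ j ∈ Finset.Ioi i, lk ρ (w i) (w j) = (dbl ρ w - N * Real.log ρ) / 2 := by
    have h2 := Finset.sum_sum_Ioi_add_eq_sum_sum_off_diag (fun i j : Fin N => lk ρ (w i) (w j))
    have h3 : ∑ i : Fin N, ∑ j ∈ Finset.Ioi i, (lk ρ (w j) (w i) + lk ρ (w i) (w j)) =
        2 * ∑ i : Fin N, ∑ j ∈ Finset.Ioi i, lk ρ (w i) (w j) := by
      rw [Finset.mul_sum]
      apply Finset.sum_congr rfl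
      intro i _
      rw [Finset.mul_sum]
      apply Finset.sum_congr rfl
      intro j _
      rw [lk_symm ρ (w j)]
      ring
    have h4 : ∑ i : Fin N, ∑ j ∈ ({i} : Finset (Fin N))ᶜ, lk ρ (w j) (w i) =
        dbl ρ w - N * Real.log ρ := by
      have h5 : ∀ i : Fin N, ∑ j ∈ ({i} : Finset (Fin N))ᶜ, lk ρ (w j) (w i) =
          (∑ j, lk ρ (w i) (w j)) - Real.log ρ := by
        intro i
        have h6 := Finset.sum_add_sum_compl ({i} : Finset (Fin N)) (fun j => lk ρ (w j) (w i))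
        rw [Finset.sum_singleton, lk_self hρ] at h6
        have h7 : ∑ j, lk ρ (w i) (w j) = ∑ j, lk ρ (w j) (w i) :=
          Finset.sum_congr rfl (fun j _ => lk_symm _ _ _)
        rw [h7]
        linarith
      simp_rw [h5, Finset.sum_sub_distrib]
      simp [dbl]
    rw [h3, h4] at h2
    linarith
  simp_rw [h0, ← Real.exp_sum]
  rw [h1]

theorem prod_dist_nonneg {N : ℕ} (w : Fin N → ℂ) :
    0 ≤ ∏ i : Fin N, ∏ j ∈ Finset.Ioi i, ‖w i - w j‖ := by positivity

theorem tcap_le_exp {E : Set ℂ} (hE : E.Nonempty) {ρ : ℝ} (hρ : 0 < ρ) (m : ℕ) {B : ℝ}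
    (hB : ∀ w : Fin (m + 2) → ℂ, (∀ i, w i ∈ E) → dbl ρ w ≤ B) :
    tcap E ≤ Real.exp ((B - (m + 2) * Real.log ρ) / (((m:ℝ) + 2) * ((m:ℝ) + 1))) := by
  refine (tcap_le E m).trans ?_
  unfold tdm
  have : Nonempty E := hE.to_subtype
  apply ciSup_le
  intro w
  have h1 : ∏ i : Fin (m+2), ∏ j ∈ Finset.Ioi i, ‖(w i : ℂ) - (w j : ℂ)‖ ≤
      Real.exp ((dbl ρ (fun i => (w i : ℂ)) - (m + 2 : ℕ) * Real.log ρ) / 2) := by
    rw [← prod_le_exp hρ]
    apply Finset.prod_le_prod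
    · intro i _
      positivity
    · intro i _
      apply Finset.prod_le_prod
      · intro j _
        positivity
      · intro j _
        exact le_max_left _ _
  have h2 := hB (fun i => (w i : ℂ)) (fun i => (w i).2)
  have h3 : (0 : ℝ) < ((m:ℝ) + 2) * ((m:ℝ) + 1) := by positivity
  calc (∏ i : Fin (m+2), ∏ j ∈ Finset.Ioi i, ‖(w i : ℂ) - (w j : ℂ)‖)
            ^ ((2:ℝ) / (((m:ℝ) + 2) * ((m:ℝ) + 1)))
      ≤ (Real.exp ((dbl ρ (fun i => (w i : ℂ)) - (m + 2 : ℕ) * Real.log ρ) / 2))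
            ^ ((2:ℝ) / (((m:ℝ) + 2) * ((m:ℝ) + 1))) := by
        apply Real.rpow_le_rpow (by positivity) h1 (by positivity)
    _ = Real.exp ((dbl ρ (fun i => (w i : ℂ)) - (m + 2) * Real.log ρ) /
          (((m:ℝ) + 2) * ((m:ℝ) + 1))) := by
        rw [← Real.exp_mul]
        congr 1
        push_cast
        field_simp
    _ ≤ _ := by
        apply Real.exp_le_exp.mpr
        apply div_le_div_of_nonneg_right _ h3.le
        linarith

/-- For small truncation radius the truncated pair sums are controlled by the capacity. -/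
theorem exists_small_radius {E : Set ℂ} (hE : IsCompact E) (hcap : 0 < tcap E) {τ : ℝ}
    (hτ : 0 < τ) :
    ∃ m : ℕ, ∃ ρ₀ > 0, ∀ ρ, 0 < ρ → ρ < ρ₀ → ∀ w : Fin (m + 2) → ℂ, (∀ i, w i ∈ E) →
      dbl ρ w ≤ ((m:ℝ) + 2) * ((m:ℝ) + 1) * (Real.log (tcap E) + τ) + ((m:ℝ) + 2) * Real.log ρ := by
  have h1 : tcap E < tcap E * Real.exp τ := by
    have : 1 < Real.exp τ := Real.one_lt_exp_iff.mpr hτ
    nlinarith
  obtain ⟨m, hm⟩ : ∃ m, tdm E m < tcap E * Real.exp τ := exists_lt_of_ciInf_lt h1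
  refine ⟨m, ?_⟩
  set q : ℝ := (2:ℝ) / (((m:ℝ) + 2) * ((m:ℝ) + 1)) with hq
  have hq0 : 0 < q := by positivity
  set K : Set (Fin (m + 2) → ℂ) := Set.pi univ (fun _ => E) with hK
  have hKc : IsCompact K := isCompact_univ_pi (fun _ => hE)
  have h2 : ∀ᶠ ρ in 𝓝 (0 : ℝ), ∀ w ∈ K,
      (∏ i : Fin (m+2), ∏ j ∈ Finset.Ioi i, max ‖w i - w j‖ ρ) ^ q < tcap E * Real.exp τ := by
    apply hKc.eventually_forall_of_forall_eventually
    intro w hw
    obtain ⟨F, hF⟩ : ∃ F : ℝ × (Fin (m + 2) → ℂ) → ℝ, F = fun z =>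
        (∏ i : Fin (m+2), ∏ j ∈ Finset.Ioi i, max ‖z.2 i - z.2 j‖ z.1) ^ q := ⟨_, rfl⟩
    have hcont : Continuous F := by
      rw [hF]
      apply Continuous.rpow_const
      · fun_prop
      · intro z
        right
        exact hq0.le
    have h3 : F (0, w) < tcap E * Real.exp τ := by
      have h4 : ∀ i j, max ‖w i - w j‖ 0 = ‖w i - w j‖ := fun i j => max_eq_left (norm_nonneg _)
      rw [hF]
      simp only [h4]
      exact lt_of_le_of_lt (le_tdm hE m (fun i => hw i (mem_univ i))) hm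
    have h5 : ∀ᶠ z in 𝓝 ((0 : ℝ), w), F z < tcap E * Real.exp τ :=
      (hcont.tendsto (0, w)).eventually (gt_mem_nhds h3)
    filter_upwards [h5] with z hz
    rw [hF] at hz
    exact hz
  obtain ⟨ρ₀, hρ₀, hb⟩ := Metric.eventually_nhds_iff.mp h2
  refine ⟨ρ₀, hρ₀, ?_⟩
  intro ρ hρ hρρ w hw
  have hd : dist ρ 0 < ρ₀ := by
    rw [dist_zero_right, Real.norm_eq_abs, abs_of_pos hρ]
    exact hρρ
  have hwK : w ∈ K := fun i _ => hw i
  have h3 := hb hd w hwK
  rw [prod_le_exp hρ w, ← Real.exp_mul] at h3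
  have h4 := Real.log_lt_log (Real.exp_pos _) h3
  rw [Real.log_exp, Real.log_mul hcap.ne' (Real.exp_pos _).ne', Real.log_exp] at h4
  have h5 : (dbl ρ w - ((m + 2 : ℕ) : ℝ) * Real.log ρ) / 2 * q =
      (dbl ρ w - ((m : ℝ) + 2) * Real.log ρ) / (((m:ℝ) + 2) * ((m:ℝ) + 1)) := by
    rw [hq]
    push_cast
    field_simp
  rw [h5, div_lt_iff₀ (by positivity)] at h4
  linarith

/-- Monotonicity in the number of points. -/
theorem dbl_le_of_le {E : Set ℂ} {ρ : ℝ} (hρ : 0 < ρ) {B : ℝ} {N₀ : ℕ} (h2 : 2 ≤ N₀)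
    (hB : ∀ w : Fin N₀ → ℂ, (∀ i, w i ∈ E) →
      dbl ρ w ≤ (N₀ : ℝ) * ((N₀ : ℝ) - 1) * B + (N₀ : ℝ) * Real.log ρ) {N : ℕ} (hN : N₀ ≤ N) :
    ∀ w : Fin N → ℂ, (∀ i, w i ∈ E) →
      dbl ρ w ≤ (N : ℝ) * ((N : ℝ) - 1) * B + (N : ℝ) * Real.log ρ := by
  induction N, hN using Nat.le_induction with
  | base => exact hB
  | succ N hN ih =>
    intro w hw
    have hN2 : (2 : ℝ) ≤ N := by exact_mod_cast h2.trans hN
    have h3 : ∀ k : Fin (N + 1), dbl ρ (fun i => w (k.succAbove i)) ≤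
        (N : ℝ) * ((N : ℝ) - 1) * B + (N : ℝ) * Real.log ρ := fun k => ih _ (fun i => hw _)
    have h4 : ∑ k : Fin (N + 1), dbl ρ (fun i => w (k.succAbove i)) =
        ((N : ℝ) - 1) * dbl ρ w + ((N : ℝ) + 1) * Real.log ρ := by
      have h5 : ∀ k : Fin (N + 1), dbl ρ (fun i => w (k.succAbove i)) =
          dbl ρ w - 2 * (∑ j, lk ρ (w k) (w j)) + Real.log ρ := by
        intro k
        have h6 := dbl_succAbove hρ w k
        have h7 : ∑ j, lk ρ (w k) (w j) =
            Real.log ρ + ∑ i : Fin N, lk ρ (w k) (w (k.succAbove i)) := by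
          rw [Fin.sum_univ_succAbove _ k, lk_self hρ]
        rw [h7]
        linarith
      simp_rw [h5, Finset.sum_add_distrib, Finset.sum_sub_distrib, ← Finset.mul_sum]
      simp only [Finset.sum_const, Finset.card_univ, Fintype.card_fin, nsmul_eq_mul]
      unfold dbl
      push_cast
      ring
    have h5 := Finset.sum_le_sum (fun k (_ : k ∈ Finset.univ) => h3 k)
    rw [h4] at h5
    simp only [Finset.sum_const, Finset.card_univ, Fintype.card_fin, nsmul_eq_mul] at h5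
    push_cast at h5 ⊢
    have h6 : ((N : ℝ) - 1) * dbl ρ w ≤
        ((N : ℝ) - 1) * (((N : ℝ) + 1) * ((N : ℝ) + 1 - 1) * B + ((N : ℝ) + 1) * Real.log ρ) := by
      nlinarith
    exact le_of_mul_le_mul_left h6 (by linarith)

/-- **Fekete points for the truncated kernel.** -/
theorem fekete {E : Set ℂ} (hE : IsCompact E) (hne : E.Nonempty) (hcap : 0 < tcap E) {τ : ℝ}
    (hτ : 0 < τ) :
    ∃ ρ₀ > 0, ∀ ρ, 0 < ρ → ρ < ρ₀ → ∃ N : ℕ, 0 < N ∧ ∃ w : Fin N → ℂ, (∀ i, w i ∈ E) ∧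
      (∀ z ∈ E, (N : ℝ)⁻¹ * ∑ i, lk ρ (w i) z ≤ Real.log (tcap E) + τ) ∧
      (-(((N : ℝ)⁻¹) ^ 2 * dbl ρ w) ≤ -Real.log (tcap E) + τ) := by
  obtain ⟨m, ρ₀, hρ₀, hb⟩ := exists_small_radius hE hcap hτ
  refine ⟨ρ₀, hρ₀, ?_⟩
  intro ρ hρ hρρ
  obtain ⟨M, hM⟩ := exists_nat_ge ((Real.log (tcap E) - Real.log ρ) / τ)
  -- number of points: m' + 2
  set m' : ℕ := max m M with hm'
  set N : ℕ := m' + 2 with hN
  have hNpos : (0 : ℝ) < N := by positivity
  have hN1 : (1 : ℝ) < N := by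
    rw [hN]
    push_cast
    have : (0 : ℝ) ≤ m' := by positivity
    linarith
  -- the maximizer
  have hKc : IsCompact (Set.pi univ (fun _ : Fin N => E)) := isCompact_univ_pi (fun _ => hE)
  have hKne : (Set.pi univ (fun _ : Fin N => E)).Nonempty := by
    obtain ⟨x, hx⟩ := hne
    exact ⟨fun _ => x, fun _ _ => hx⟩
  have hcont : Continuous (fun w : Fin N → ℂ => dbl ρ w) := by
    unfold dbl
    apply continuous_finsetSum
    intro i _
    apply continuous_finsetSum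
    intro j _
    unfold lk
    apply Continuous.log
    · fun_prop
    · intro w
      exact (lt_max_of_lt_right hρ).ne'
  obtain ⟨w, hwK, hwmax⟩ := hKc.exists_isMaxOn hKne hcont.continuousOn
  have hw : ∀ i, w i ∈ E := fun i => hwK i (mem_univ i)
  refine ⟨N, by omega, w, hw, ?_, ?_⟩
  · -- potential bound
    have hup : dbl ρ w ≤ (N : ℝ) * ((N : ℝ) - 1) * (Real.log (tcap E) + τ)
        + (N : ℝ) * Real.log ρ := by
      apply dbl_le_of_le (E := E) hρ (N₀ := m + 2) (by omega) _ (by omega) w hw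
      intro v hv
      have := hb ρ hρ hρρ v hv
      push_cast
      have e : ((m : ℝ) + 2 - 1) = (m : ℝ) + 1 := by ring
      rw [e]
      exact this
    intro z hz
    -- replacing one point
    have h1 : ∀ k : Fin N, ∑ i, lk ρ z (w i) - lk ρ z (w k) ≤
        ∑ i, lk ρ (w k) (w i) - Real.log ρ := by
      intro k
      have h2 : Function.update w k z ∈ Set.pi univ (fun _ : Fin N => E) := by
        intro i _
        by_cases hik : i = k
        · subst hik
          simpa using hz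
        · simpa [hik] using hw i
      have h3 : dbl ρ (Function.update w k z) ≤ dbl ρ w := hwmax h2
      have h4 := dbl_succAbove (N := m' + 1) hρ (Function.update w k z) k
      have h5 := dbl_succAbove (N := m' + 1) hρ w k
      have h6 : (fun i => Function.update w k z (k.succAbove i)) = fun i => w (k.succAbove i) := by
        funext i
        rw [Function.update_of_ne (Fin.succAbove_ne k i)]
      have h7 : ∀ i : Fin (m' + 1), Function.update w k z (k.succAbove i) = w (k.succAbove i) :=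
        fun i => congrFun h6 i
      simp only [h7, Function.update_self] at h4
      have h8 : ∑ i, lk ρ z (w i) = lk ρ z (w k) + ∑ i : Fin (m' + 1), lk ρ z (w (k.succAbove i)) :=
        Fin.sum_univ_succAbove _ k
      have h9 : ∑ i, lk ρ (w k) (w i) =
          lk ρ (w k) (w k) + ∑ i : Fin (m' + 1), lk ρ (w k) (w (k.succAbove i)) :=
        Fin.sum_univ_succAbove _ k
      rw [lk_self hρ] at h9
      linarith
    have h2 := Finset.sum_le_sum (fun k (_ : k ∈ Finset.univ) => h1 k)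
    simp only [Finset.sum_sub_distrib, Finset.sum_const, Finset.card_univ, Fintype.card_fin,
      nsmul_eq_mul] at h2
    have h3 : ∑ i, ∑ j, lk ρ (w i) (w j) = dbl ρ w := rfl
    rw [h3] at h2
    have h4 : ∑ i, lk ρ (w i) z = ∑ i, lk ρ z (w i) :=
      Finset.sum_congr rfl (fun i _ => lk_symm _ _ _)
    rw [h4]
    set P := ∑ i, lk ρ z (w i) with hP
    have h5 : ((N : ℝ) - 1) * P ≤ ((N : ℝ) - 1) * (N * (Real.log (tcap E) + τ)) := by
      nlinarith
    have h6 := le_of_mul_le_mul_left h5 (by linarith)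
    rw [inv_mul_le_iff₀ hNpos]
    exact h6
  · -- energy bound
    have h1 := tcap_le_exp hne hρ m' (B := dbl ρ w) (fun v hv => hwmax (fun i _ => hv i))
    have h2 := Real.log_le_log hcap h1
    rw [Real.log_exp] at h2
    have e1 : ((m' : ℝ) + 2) = N := by
      rw [hN]
      push_cast
      ring
    have e2 : ((m' : ℝ) + 1) = (N : ℝ) - 1 := by
      rw [hN]
      push_cast
      ring
    rw [e1, e2, le_div_iff₀ (by nlinarith)] at h2
    have hMN : (M : ℝ) ≤ N := by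
      rw [hN, hm']
      push_cast
      have : (M : ℝ) ≤ max (m : ℝ) (M : ℝ) := le_max_right _ _
      linarith
    have h3 : Real.log (tcap E) - Real.log ρ ≤ τ * N := by
      have := (div_le_iff₀ hτ).mp (hM.trans hMN)
      linarith
    have h4 : ((N : ℝ)⁻¹) ^ 2 * dbl ρ w = dbl ρ w / (N : ℝ) ^ 2 := by
      field_simp
    rw [h4, ← neg_div, div_le_iff₀ (by positivity)]
    nlinarith

end Pool.Agent.Helper26
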