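import Mathlib

open MeasureTheory Filter Topology Set Real
open scoped ENNReal NNReal

namespace Pool.Agent.Helper26

/-- For a.e. point of the plane in polar coordinates around `w`. -/
theorem ae_polar_of_ae {Q : ℂ → Prop} (w : ℂ) (hQ : ∀ᵐ z : ℂ, Q z) :
    ∀ᵐ p : ℝ × ℝ, p ∈ Ioi (0 : ℝ) ×ˢ Ioo (-π) π → Q (circleMap w p.1 p.2) := by
  have h0 : volume {z : ℂ | ¬ Q z} = 0 := hQ
  -- choose a measurable null superset
  set N : Set ℂ := toMeasurable volume {z : ℂ | ¬ Q z} with hN
  have hNm : MeasurableSet N := measurableSet_toMeasurable _ _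
  have hN0 : volume N = 0 := by rw [hN, measure_toMeasurable, h0]
  have hsub : {z : ℂ | ¬ Q z} ⊆ N := subset_toMeasurable _ _
  -- translate
  have h1 : ∫⁻ z : ℂ, (N.indicator (fun _ => (1 : ℝ≥0∞))) (z + w) = 0 := by
    rw [lintegral_add_right_eq_self (fun z => (N.indicator (fun _ => (1 : ℝ≥0∞))) z) w]
    rw [lintegral_indicator hNm]
    simp [hN0]
  rw [← Complex.lintegral_comp_polarCoord_symm] at h1
  have hmeas : Measurable (fun p : ℝ × ℝ => ENNReal.ofReal p.1 •
      (N.indicator (fun _ => (1 : ℝ≥0∞))) (Complex.polarCoord.symm p + w)) := by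
    have e1 : Measurable (fun p : ℝ × ℝ => Complex.polarCoord.symm p + w) := by
      have : (fun p : ℝ × ℝ => Complex.polarCoord.symm p + w) =
          fun p : ℝ × ℝ => (p.1 * (Real.cos p.2 + Real.sin p.2 * Complex.I) : ℂ) + w := by
        ext p
        rw [Complex.polarCoord_symm_apply]
      rw [this]
      fun_prop
    have e2 : Measurable (fun p : ℝ × ℝ =>
      (N.indicator (fun _ => (1 : ℝ≥0∞))) (Complex.polarCoord.symm p + w)) :=
      (measurable_const.indicator hNm).comp e1
    simp only [smul_eq_mul]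
    exact (ENNReal.measurable_ofReal.comp measurable_fst).mul e2
  rw [lintegral_eq_zero_iff hmeas] at h1
  have h2 : polarCoord.target = Ioi (0 : ℝ) ×ˢ Ioo (-π) π := rfl
  rw [h2] at h1
  rw [Filter.EventuallyEq, ae_restrict_iff' (measurableSet_Ioi.prod measurableSet_Ioo)] at h1
  filter_upwards [h1] with p hp hmem
  have h3 := hp hmem
  have hp1 : 0 < p.1 := hmem.1
  simp only [smul_eq_mul, Pi.zero_apply, mul_eq_zero, ENNReal.ofReal_eq_zero,
    indicator_apply_eq_zero, one_ne_zero, imp_false] at h3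
  rcases h3 with h3 | h3
  · linarith
  · have h4 : circleMap w p.1 p.2 ∉ N := by
      have : circleMap w p.1 p.2 = Complex.polarCoord.symm p + w := by
        rw [Complex.polarCoord_symm_apply]
        unfold circleMap
        rw [Complex.exp_mul_I]
        push_cast
        ring
      rw [this]
      exact h3
    by_contra hQ'
    exact h4 (hsub hQ')

/-- The field `(z - w)/|z - w|²` outside the closed disc of radius `ρ` about `w`, zero inside. -/
noncomputable def fld (ρ : ℝ) (w z : ℂ) : ℂ :=
  if ρ < ‖z - w‖ then ((‖z - w‖ ^ 2)⁻¹ : ℝ) • (z - w) else 0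

theorem measurable_fld (ρ : ℝ) (w : ℂ) : Measurable (fld ρ w) := by
  unfold fld
  apply Measurable.ite
  · exact measurableSet_lt measurable_const (by fun_prop)
  · fun_prop
  · fun_prop

theorem norm_fld_le {ρ : ℝ} (hρ : 0 < ρ) (w z : ℂ) : ‖fld ρ w z‖ ≤ ρ⁻¹ := by
  unfold fld
  split_ifs with h
  · have h1 : 0 < ‖z - w‖ := hρ.trans h
    rw [norm_smul, norm_inv, norm_pow, norm_norm, sq, mul_inv, mul_assoc,
      inv_mul_cancel₀ h1.ne', mul_one]
    exact inv_anti₀ hρ h.le
  · simp [hρ.le]

theorem measurable_clm_apply {α : Type*} [MeasurableSpace α] {φ : α → ℂ →L[ℝ] ℝ} {x : α → ℂ}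
    (hφ : Measurable φ) (hx : Measurable x) : Measurable (fun p => φ p (x p)) := by
  have h : (fun p => φ p (x p)) = fun p => (x p).re * φ p 1 + (x p).im * φ p Complex.I := by
    ext p
    have e : x p = (x p).re • (1 : ℂ) + (x p).im • Complex.I := by
      simp [Complex.re_add_im]
    conv_lhs => rw [e]
    rw [map_add, map_smul, map_smul, smul_eq_mul, smul_eq_mul]
  rw [h]
  have h1 := hφ.apply_continuousLinearMap (1 : ℂ)
  have h2 := hφ.apply_continuousLinearMap Complex.I
  fun_prop

theorem norm_fderiv_apply_le {v : ℂ → ℝ} {K : ℝ≥0} (hv : LipschitzWith K v) (z h : ℂ) :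
    ‖fderiv ℝ v z h‖ ≤ K * ‖h‖ :=
  ((fderiv ℝ v z).le_opNorm h).trans
    (mul_le_mul_of_nonneg_right (norm_fderiv_le_of_lipschitz ℝ hv) (norm_nonneg _))

theorem circleAverage_eq_setIntegral (v : ℂ → ℝ) (w : ℂ) (R : ℝ) :
    2 * π * circleAverage v w R = ∫ θ in Ioo (-π) π, v (circleMap w R θ) := by
  rw [circleAverage_eq_integral_add (-π),
    intervalIntegral.integral_comp_add_right (fun θ => v (circleMap w R θ)), zero_add,
    show 2 * π + -π = π by ring, intervalIntegral.integral_of_le (by linarith [pi_pos]),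
    integral_Ioc_eq_integral_Ioo, smul_eq_mul]
  field_simp

/-- **Flux lemma.** -/
theorem flux_ball {v : ℂ → ℝ} {K : ℝ≥0} (hv : LipschitzWith K v) (w : ℂ) {ρ T : ℝ} (hρ : 0 < ρ)
    (hT : ρ ≤ T) :
    ∫ z in Metric.ball w T, fderiv ℝ v z (fld ρ w z) =
      2 * π * (circleAverage v w T - circleAverage v w ρ) := by
  set H : ℝ × ℝ → ℝ := fun p => fderiv ℝ v (circleMap w p.1 p.2) (Complex.exp (p.2 * Complex.I))
    with hH
  have hHmeas : Measurable H := by
    have h1 : Measurable (fun p : ℝ × ℝ => fderiv ℝ v (circleMap w p.1 p.2)) := by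
      apply (measurable_fderiv ℝ v).comp
      unfold circleMap
      fun_prop
    have h2 : Measurable (fun p : ℝ × ℝ => Complex.exp (p.2 * Complex.I)) := by fun_prop
    exact measurable_clm_apply h1 h2
  have hHb : ∀ p, ‖H p‖ ≤ K := by
    intro p
    have := norm_fderiv_apply_le hv (circleMap w p.1 p.2) (Complex.exp (p.2 * Complex.I))
    rwa [Complex.norm_exp_ofReal_mul_I, mul_one] at this
  have hcm : ∀ p : ℝ × ℝ, Complex.polarCoord.symm p + w = circleMap w p.1 p.2 := by
    intro p
    rw [Complex.polarCoord_symm_apply]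
    unfold circleMap
    rw [Complex.exp_mul_I]
    push_cast
    ring
  have step1 : ∫ z in Metric.ball w T, fderiv ℝ v z (fld ρ w z) =
      ∫ p in Ioi (0 : ℝ) ×ˢ Ioo (-π) π, (Ioo ρ T ×ˢ (univ : Set ℝ)).indicator H p := by
    rw [← integral_indicator Metric.isOpen_ball.measurableSet,
      ← integral_add_right_eq_self _ w, ← Complex.integral_comp_polarCoord_symm]
    have h2 : polarCoord.target = Ioi (0 : ℝ) ×ˢ Ioo (-π) π := rfl
    rw [h2]
    apply setIntegral_congr_fun (measurableSet_Ioi.prod measurableSet_Ioo)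
    rintro ⟨r, θ⟩ ⟨hr, -⟩
    have hr0 : 0 < r := hr
    simp only [hcm]
    have hn : ‖circleMap w r θ - w‖ = r := by
      simp [circleMap, abs_of_pos hr0]
    by_cases h1 : r < T
    · have hmem : circleMap w r θ ∈ Metric.ball w T := by
        rw [Metric.mem_ball, dist_eq_norm, hn]
        exact h1
      rw [indicator_of_mem hmem]
      by_cases h3 : ρ < r
      · rw [indicator_of_mem (show ((r, θ) : ℝ × ℝ) ∈ Ioo ρ T ×ˢ (univ : Set ℝ) from
          ⟨⟨h3, h1⟩, mem_univ _⟩)]
        simp only [fld, hn, h3, if_true, hH]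
        rw [map_smul, smul_eq_mul, smul_eq_mul]
        have h4 : circleMap w r θ - w = (r : ℝ) • Complex.exp (θ * Complex.I) := by
          simp [circleMap]
        rw [h4, map_smul, smul_eq_mul]
        field_simp
      · rw [indicator_of_notMem (show ((r, θ) : ℝ × ℝ) ∉ Ioo ρ T ×ˢ (univ : Set ℝ) from
          fun hm => h3 hm.1.1)]
        simp only [fld, hn, h3, if_false, map_zero, smul_zero]
    · have hmem : circleMap w r θ ∉ Metric.ball w T := by
        rw [Metric.mem_ball, dist_eq_norm, hn]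
        exact h1
      rw [indicator_of_notMem hmem, indicator_of_notMem
        (show ((r, θ) : ℝ × ℝ) ∉ Ioo ρ T ×ˢ (univ : Set ℝ) from fun hm => h1 hm.1.2)]
      simp
  have step2 : ∫ p in Ioi (0 : ℝ) ×ˢ Ioo (-π) π, (Ioo ρ T ×ˢ (univ : Set ℝ)).indicator H p =
      ∫ p in Ioo ρ T ×ˢ Ioo (-π) π, H p := by
    rw [setIntegral_indicator (measurableSet_Ioo.prod MeasurableSet.univ)]
    congr 2
    ext ⟨r, θ⟩
    simp only [mem_inter_iff, mem_prod, mem_Ioi, mem_Ioo, mem_univ, and_true]
    constructor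
    · rintro ⟨⟨h1, h2⟩, h3⟩
      exact ⟨h3, h2⟩
    · rintro ⟨h1, h2⟩
      exact ⟨⟨hρ.trans h1.1, h2⟩, h1⟩
  have hae : ∀ᵐ θ ∂(volume.restrict (Ioo (-π) π)), ∀ᵐ r ∂(volume.restrict (Ioo ρ T)),
      DifferentiableAt ℝ v (circleMap w r θ) := by
    have h1 := ae_polar_of_ae w (hv.ae_differentiableAt (μ := (volume : Measure ℂ)))
    have h2 : ∀ᵐ p ∂((volume.restrict (Ioo ρ T)).prod (volume.restrict (Ioo (-π) π))),
        DifferentiableAt ℝ v (circleMap w p.1 p.2) := by
      rw [Measure.prod_restrict, ← Measure.volume_eq_prod,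
        ae_restrict_iff' (measurableSet_Ioo.prod measurableSet_Ioo)]
      filter_upwards [h1] with p hp hmem
      exact hp ⟨hρ.trans hmem.1.1, hmem.2⟩
    have h3 : ∀ᵐ p ∂((volume.restrict (Ioo (-π) π)).prod (volume.restrict (Ioo ρ T))),
        DifferentiableAt ℝ v (circleMap w p.2 p.1) := by
      exact (Measure.measurePreserving_swap (μ := volume.restrict (Ioo (-π) π))
        (ν := volume.restrict (Ioo ρ T))).quasiMeasurePreserving.ae h2
    exact Measure.ae_ae_of_ae_prod h3
  have step3 : ∫ p in Ioo ρ T ×ˢ Ioo (-π) π, H p =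
      ∫ θ in Ioo (-π) π, ∫ r in Ioo ρ T, H (r, θ) := by
    rw [Measure.volume_eq_prod, ← Measure.prod_restrict]
    apply integral_prod_symm
    rw [Measure.prod_restrict]
    refine Measure.integrableOn_of_bounded (M := K) ?_ hHmeas.aestronglyMeasurable ?_
    · rw [Measure.prod_prod]
      simp [ENNReal.mul_eq_top]
    · exact Eventually.of_forall hHb
  have step4 : ∫ θ in Ioo (-π) π, ∫ r in Ioo ρ T, H (r, θ) =
      ∫ θ in Ioo (-π) π, (v (circleMap w T θ) - v (circleMap w ρ θ)) := by
    apply integral_congr_ae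
    filter_upwards [hae] with θ hθ
    set γ : ℝ → ℝ := fun r => v (circleMap w r θ) with hγ
    have hcl : LipschitzWith 1 (fun r : ℝ => circleMap w r θ) := by
      apply LipschitzWith.of_dist_le_mul
      intro x y
      rw [dist_eq_norm, dist_eq_norm]
      have : circleMap w x θ - circleMap w y θ =
          (x - y : ℝ) • Complex.exp (θ * Complex.I) := by
        simp [circleMap]
        ring
      rw [this, norm_smul, Complex.norm_exp_ofReal_mul_I]
      simp
    have hγl : LipschitzWith (K * 1) γ := hv.comp hcl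
    have hac : AbsolutelyContinuousOnInterval γ ρ T :=
      (hγl.lipschitzOnWith (s := uIcc ρ T)).absolutelyContinuousOnInterval
    have hftc := hac.integral_deriv_eq_sub
    rw [intervalIntegral.integral_of_le hT, integral_Ioc_eq_integral_Ioo] at hftc
    rw [← hftc]
    apply integral_congr_ae
    filter_upwards [hθ] with r hr
    have hd : HasDerivAt (fun r : ℝ => circleMap w r θ) (Complex.exp (θ * Complex.I)) r := by
      unfold circleMap
      have h1 : HasDerivAt (fun r : ℝ => (r : ℂ)) 1 r := Complex.ofRealCLM.hasDerivAt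
      have h2 := (h1.mul_const (Complex.exp (θ * Complex.I))).const_add w
      simpa using h2
    have h5 : HasDerivAt γ (fderiv ℝ v (circleMap w r θ) (Complex.exp (θ * Complex.I))) r :=
      hr.hasFDerivAt.comp_hasDerivAt r hd
    rw [h5.deriv]
  rw [step1, step2, step3, step4, mul_sub, circleAverage_eq_setIntegral,
    circleAverage_eq_setIntegral]
  apply integral_sub
  · apply (ContinuousOn.integrableOn_compact isCompact_Icc _).mono_set Ioo_subset_Icc_self
    exact (hv.continuous.comp (continuous_circleMap w T)).continuousOn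
  · apply (ContinuousOn.integrableOn_compact isCompact_Icc _).mono_set Ioo_subset_Icc_self
    exact (hv.continuous.comp (continuous_circleMap w ρ)).continuousOn

end Pool.Agent.Helper26
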