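import Pool.Agent.Helper26.Flux

open MeasureTheory Filter Topology Set Real
open scoped ENNReal NNReal

namespace Pool.Agent.Helper26

/-- Dirichlet energy. -/
noncomputable def Dir (u : ℂ → ℝ) : ℝ≥0∞ := ∫⁻ x, (‖fderiv ℝ u x‖₊ : ℝ≥0∞) ^ 2

/-- Locally Lipschitz functions agree with Lipschitz functions on large balls. -/
theorem exists_lipschitz_eqOn {u : ℂ → ℝ} (hu : LocallyLipschitz u) (R : ℝ) :
    ∃ (K : ℝ≥0) (v : ℂ → ℝ), LipschitzWith K v ∧ EqOn u v (Metric.closedBall 0 R) := by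
  obtain ⟨K, hK⟩ := LocallyLipschitzOn.exists_lipschitzOnWith_of_compact
    (isCompact_closedBall (0 : ℂ) R) (hu.locallyLipschitzOn (s := Metric.closedBall 0 R))
  obtain ⟨v, hv, he⟩ := hK.extend_real
  exact ⟨K, v, hv, he⟩

theorem ae_differentiableAt_of_locallyLipschitz {u : ℂ → ℝ} (hu : LocallyLipschitz u) :
    ∀ᵐ z : ℂ, DifferentiableAt ℝ u z := by
  have h : ∀ n : ℕ, ∀ᵐ z : ℂ, z ∈ Metric.ball (0 : ℂ) n → DifferentiableAt ℝ u z := by
    intro n
    obtain ⟨K, v, hv, he⟩ := exists_lipschitz_eqOn hu n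
    filter_upwards [hv.ae_differentiableAt (μ := (volume : Measure ℂ))] with z hz hmem
    have : u =ᶠ[𝓝 z] v := by
      filter_upwards [Metric.isOpen_ball.mem_nhds hmem] with y hy
      exact he (Metric.ball_subset_closedBall hy)
    exact hz.congr_of_eventuallyEq this
  rw [← ae_all_iff] at h
  filter_upwards [h] with z hz
  obtain ⟨n, hn⟩ := exists_nat_gt ‖z‖
  exact hz n (by simpa using hn)

/-- Flux lemma for locally Lipschitz functions. -/
theorem flux_ball_loc {v : ℂ → ℝ} (hv : LocallyLipschitz v) (w : ℂ) {ρ T : ℝ} (hρ : 0 < ρ)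
    (hT : ρ ≤ T) :
    ∫ z in Metric.ball w T, fderiv ℝ v z (fld ρ w z) =
      2 * π * (circleAverage v w T - circleAverage v w ρ) := by
  obtain ⟨K, u, hu, he⟩ := exists_lipschitz_eqOn hv (‖w‖ + T)
  have hsub : Metric.closedBall w T ⊆ Metric.closedBall 0 (‖w‖ + T) := by
    apply Metric.closedBall_subset_closedBall'
    simp [add_comm]
  have h1 : ∫ z in Metric.ball w T, fderiv ℝ v z (fld ρ w z) =
      ∫ z in Metric.ball w T, fderiv ℝ u z (fld ρ w z) := by
    apply setIntegral_congr_fun Metric.isOpen_ball.measurableSet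
    intro z hz
    have : v =ᶠ[𝓝 z] u := by
      filter_upwards [Metric.isOpen_ball.mem_nhds hz] with y hy
      exact he (hsub (Metric.ball_subset_closedBall hy))
    simp only [this.fderiv_eq]
  have h2 : ∀ r, 0 < r → r ≤ T → circleAverage v w r = circleAverage u w r := by
    intro r hr hrT
    apply circleAverage_congr_sphere
    intro z hz
    apply he
    apply hsub
    rw [Metric.mem_closedBall]
    rw [Metric.mem_sphere, abs_of_pos hr] at hz
    linarith
  rw [h1, h2 T (hρ.trans_le hT) le_rfl, h2 ρ hρ hT]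
  exact flux_ball hu w hρ hT

/-- Norm of the derivative of a composition with a Lipschitz function. -/
theorem norm_fderiv_comp_le {φ : ℝ → ℝ} {Λ : ℝ≥0} (hφ : LipschitzWith Λ φ) {u : ℂ → ℝ} {z : ℂ}
    (hu : DifferentiableAt ℝ u z) : ‖fderiv ℝ (φ ∘ u) z‖ ≤ Λ * ‖fderiv ℝ u z‖ := by
  by_cases hd : DifferentiableAt ℝ (φ ∘ u) z
  · apply ContinuousLinearMap.opNorm_le_bound _ (by positivity)
    intro h
    have h1 : HasDerivAt (fun t : ℝ => (φ ∘ u) (z + t • h)) (fderiv ℝ (φ ∘ u) z h) 0 :=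
      hd.hasFDerivAt.hasLineDerivAt h
    have h2 : HasDerivAt (fun t : ℝ => u (z + t • h)) (fderiv ℝ u z h) 0 :=
      hu.hasFDerivAt.hasLineDerivAt h
    rw [hasDerivAt_iff_tendsto_slope_zero] at h1 h2
    have h3 := h1.norm
    have h4 := (h2.norm).const_mul (Λ : ℝ)
    have h5 : ‖fderiv ℝ (φ ∘ u) z h‖ ≤ Λ * ‖fderiv ℝ u z h‖ := by
      apply le_of_tendsto_of_tendsto h3 h4
      apply Eventually.of_forall
      intro t
      simp only [zero_add, zero_smul, add_zero, norm_smul, Function.comp_apply]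
      have := hφ.dist_le_mul (u (z + t • h)) (u z)
      rw [dist_eq_norm, dist_eq_norm] at this
      calc ‖t⁻¹‖ * ‖φ (u (z + t • h)) - φ (u z)‖ ≤ ‖t⁻¹‖ * (Λ * ‖u (z + t • h) - u z‖) := by
            gcongr
        _ = Λ * (‖t⁻¹‖ * ‖u (z + t • h) - u z‖) := by ring
    calc ‖fderiv ℝ (φ ∘ u) z h‖ ≤ Λ * ‖fderiv ℝ u z h‖ := h5
      _ ≤ Λ * (‖fderiv ℝ u z‖ * ‖h‖) := by
          gcongr
          exact (fderiv ℝ u z).le_opNorm h
      _ = Λ * ‖fderiv ℝ u z‖ * ‖h‖ := by ring
  · rw [fderiv_zero_of_not_differentiableAt hd, norm_zero]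
    positivity

theorem dir_comp_le {φ : ℝ → ℝ} {Λ : ℝ≥0} (hφ : LipschitzWith Λ φ) {u : ℂ → ℝ}
    (hu : LocallyLipschitz u) : Dir (φ ∘ u) ≤ (Λ : ℝ≥0∞) ^ 2 * Dir u := by
  unfold Dir
  rw [← lintegral_const_mul' _ _ (by simp)]
  apply lintegral_mono_ae
  filter_upwards [ae_differentiableAt_of_locallyLipschitz hu] with z hz
  rw [← mul_pow]
  gcongr
  rw [← ENNReal.coe_mul, ENNReal.coe_le_coe]
  exact_mod_cast norm_fderiv_comp_le hφ hz

/-- Soft thresholding. -/
noncomputable def soft (η s : ℝ) : ℝ := max (s - η) 0 + min (s + η) 0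

theorem soft_lipschitz {η : ℝ} (hη : 0 ≤ η) : LipschitzWith 1 (soft η) := by
  apply LipschitzWith.of_dist_le_mul
  intro s t
  rw [Real.dist_eq, Real.dist_eq, NNReal.coe_one, one_mul]
  unfold soft
  rcases le_total s t with h | h
  · rw [abs_sub_comm s t, abs_of_nonneg (sub_nonneg.mpr h), abs_le]
    constructor <;>
    rcases max_cases (s - η) 0 with h1 | h1 <;> rcases max_cases (t - η) 0 with h2 | h2 <;>
    rcases min_cases (s + η) 0 with h3 | h3 <;> rcases min_cases (t + η) 0 with h4 | h4 <;>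
    linarith
  · rw [abs_of_nonneg (sub_nonneg.mpr h), abs_le]
    constructor <;>
    rcases max_cases (s - η) 0 with h1 | h1 <;> rcases max_cases (t - η) 0 with h2 | h2 <;>
    rcases min_cases (s + η) 0 with h3 | h3 <;> rcases min_cases (t + η) 0 with h4 | h4 <;>
    linarith

theorem soft_eq_zero {η s : ℝ} (h : |s| ≤ η) : soft η s = 0 := by
  have := abs_le.mp h
  unfold soft
  rw [max_eq_right (by linarith), min_eq_right (by linarith)]
  simp

theorem abs_soft_sub_le {η : ℝ} (hη : 0 ≤ η) (s : ℝ) : |soft η s - s| ≤ η := by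
  unfold soft
  rw [abs_le]
  rcases max_cases (s - η) 0 with h1 | h1 <;> rcases min_cases (s + η) 0 with h3 | h3 <;>
  constructor <;> linarith

end Pool.Agent.Helper26
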