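import Mathlib

open MeasureTheory Filter Topology Set Real
open scoped ENNReal NNReal

namespace Pool.Agent.Helper26.HS

/-- growth weight -/
noncomputable def om (z : ℂ) : ℝ := (1 + ‖z‖) ^ (1 / 8 : ℝ)

/-- integrable weight -/
noncomputable def mm (z : ℂ) : ℝ := (1 + |z.re|) ^ (-2 : ℝ) * (1 + |z.im|) ^ (-(3 / 2) : ℝ)

/-- local singularity -/
noncomputable def phi (z : ℂ) : ℝ := if ‖z‖ < 1 then ‖z‖⁻¹ else 0

theorem one_le_om (z : ℂ) : 1 ≤ om z := by
  unfold om
  exact Real.one_le_rpow (by linarith [norm_nonneg z]) (by norm_num)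

theorem om_pos (z : ℂ) : 0 < om z := lt_of_lt_of_le one_pos (one_le_om z)

theorem continuous_om : Continuous om := by
  unfold om
  apply Continuous.rpow_const (by fun_prop)
  intro z
  right; norm_num

theorem om_add (x y : ℂ) : om (x + y) ≤ om x * om y := by
  unfold om
  rw [← Real.mul_rpow (by positivity) (by positivity)]
  apply Real.rpow_le_rpow (by positivity) _ (by norm_num)
  have := norm_add_le x y
  nlinarith [norm_nonneg x, norm_nonneg y, mul_nonneg (norm_nonneg x) (norm_nonneg y)]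

theorem om_neg (x : ℂ) : om (-x) = om x := by simp [om]

theorem om_shift {x y : ℂ} (h : ‖x - y‖ ≤ 1) : om y ≤ 2 * om x := by
  have h1 : om y ≤ om x * om (y - x) := by
    have := om_add x (y - x)
    simpa using this
  have h2 : om (y - x) ≤ 2 := by
    unfold om
    have h3 : ‖y - x‖ ≤ 1 := by rwa [norm_sub_rev]
    calc (1 + ‖y - x‖) ^ (1 / 8 : ℝ) ≤ (2 : ℝ) ^ (1 / 8 : ℝ) :=
          Real.rpow_le_rpow (by positivity) (by linarith) (by norm_num)
      _ ≤ (2 : ℝ) ^ (1 : ℝ) := Real.rpow_le_rpow_of_exponent_le (by norm_num) (by norm_num)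
      _ = 2 := by simp
  nlinarith [om_pos x]

theorem mm_pos (z : ℂ) : 0 < mm z := by unfold mm; positivity

theorem mm_le_one (z : ℂ) : mm z ≤ 1 := by
  unfold mm
  have h1 : (1 + |z.re|) ^ (-2 : ℝ) ≤ 1 :=
    Real.rpow_le_one_of_one_le_of_nonpos (by linarith [abs_nonneg z.re]) (by norm_num)
  have h2 : (1 + |z.im|) ^ (-(3 / 2) : ℝ) ≤ 1 :=
    Real.rpow_le_one_of_one_le_of_nonpos (by linarith [abs_nonneg z.im]) (by norm_num)
  calc _ ≤ (1 : ℝ) * 1 := mul_le_mul h1 h2 (by positivity) (by norm_num)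
    _ = 1 := by norm_num

theorem continuous_mm : Continuous mm := by
  unfold mm
  apply Continuous.mul
  · apply Continuous.rpow_const (by fun_prop)
    intro z; left; positivity
  · apply Continuous.rpow_const (by fun_prop)
    intro z; left; positivity

theorem integrable_mm : Integrable mm := by
  have h1 : Integrable (fun x : ℝ => (1 + ‖x‖) ^ (-(2 : ℝ))) :=
    integrable_one_add_norm (by simp)
  have h2 : Integrable (fun x : ℝ => (1 + ‖x‖) ^ (-(3 / 2 : ℝ))) :=
    integrable_one_add_norm (by simp; norm_num)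
  have h3 := h1.mul_prod h2
  have h4 := (Complex.volume_preserving_equiv_real_prod.integrable_comp_emb
    Complex.measurableEquivRealProd.measurableEmbedding).mpr h3
  exact h4

theorem mm_shift {x y : ℂ} (h : ‖x - y‖ ≤ 1) : mm x ≤ 16 * mm y := by
  have hre : |x.re - y.re| ≤ 1 := by
    have := Complex.abs_re_le_norm (x - y)
    simpa using this.trans h
  have him : |x.im - y.im| ≤ 1 := by
    have := Complex.abs_im_le_norm (x - y)
    simpa using this.trans h
  have key : ∀ (a b r : ℝ), |a - b| ≤ 1 → 0 ≤ r → r ≤ 2 →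
      (1 + |a|) ^ (-r) ≤ 4 * (1 + |b|) ^ (-r) := by
    intro a b r hab hr hr2
    have h1 : 1 + |b| ≤ 2 * (1 + |a|) := by
      have : |b| ≤ |a| + |a - b| := by
        have := abs_sub_abs_le_abs_sub b a
        rw [abs_sub_comm] at this
        linarith
      linarith [abs_nonneg a]
    have hpa : 0 < 1 + |a| := by positivity
    have hpb : 0 < 1 + |b| := by positivity
    rw [Real.rpow_neg hpa.le, Real.rpow_neg hpb.le]
    have h2 : (1 + |b|) ^ r ≤ 4 * (1 + |a|) ^ r := by
      calc (1 + |b|) ^ r ≤ (2 * (1 + |a|)) ^ r := Real.rpow_le_rpow hpb.le h1 hr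
        _ = 2 ^ r * (1 + |a|) ^ r := Real.mul_rpow (by norm_num) hpa.le
        _ ≤ 4 * (1 + |a|) ^ r := by
          apply mul_le_mul_of_nonneg_right _ (by positivity)
          calc (2 : ℝ) ^ r ≤ 2 ^ (2 : ℝ) := Real.rpow_le_rpow_of_exponent_le (by norm_num) hr2
            _ = 4 := by norm_num
    have hpa' : 0 < (1 + |a|) ^ r := by positivity
    have hpb' : 0 < (1 + |b|) ^ r := by positivity
    rw [inv_eq_one_div, inv_eq_one_div, mul_one_div, div_le_div_iff₀ hpa' hpb']
    linarith
  unfold mm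
  have e1 := key x.re y.re 2 hre (by norm_num) le_rfl
  have e2 := key x.im y.im (3 / 2) him (by norm_num) (by norm_num)
  calc _ ≤ (4 * (1 + |y.re|) ^ (-2 : ℝ)) * (4 * (1 + |y.im|) ^ (-(3 / 2) : ℝ)) :=
        mul_le_mul e1 e2 (by positivity) (by positivity)
    _ = _ := by ring

/-- majorant for densities -/
noncomputable def mo (z : ℂ) : ℝ := mm z / om z

theorem mo_pos (z : ℂ) : 0 < mo z := div_pos (mm_pos z) (om_pos z)

theorem mo_le_mm (z : ℂ) : mo z ≤ mm z := div_le_self (mm_pos z).le (one_le_om z)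

theorem mo_le_one (z : ℂ) : mo z ≤ 1 := (mo_le_mm z).trans (mm_le_one z)

theorem om_mul_mo (z : ℂ) : om z * mo z = mm z := by
  unfold mo; field_simp [(om_pos z).ne']

theorem continuous_mo : Continuous mo :=
  continuous_mm.div continuous_om (fun z => (om_pos z).ne')

theorem mo_shift {x y : ℂ} (h : ‖x - y‖ ≤ 1) : mo x ≤ 32 * mo y := by
  unfold mo
  rw [div_le_iff₀ (om_pos x)]
  have h1 := mm_shift h
  have h2 := om_shift h
  have h3 : 32 * (mm y / om y) * om x = 16 * mm y * (2 * om x / om y) := by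
    field_simp
    ring
  rw [h3]
  have h4 : 1 ≤ 2 * om x / om y := by
    rw [le_div_iff₀ (om_pos y)]; linarith
  nlinarith [mm_pos y]

theorem integrable_mo : Integrable mo := by
  apply integrable_mm.mono' continuous_mo.aestronglyMeasurable
  exact Eventually.of_forall fun z => by
    rw [Real.norm_eq_abs, abs_of_pos (mo_pos z)]; exact mo_le_mm z

theorem phi_nonneg (z : ℂ) : 0 ≤ phi z := by
  unfold phi; split_ifs <;> positivity

theorem measurable_phi : Measurable phi := by
  unfold phi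
  apply Measurable.ite
  · exact measurableSet_lt (by fun_prop) measurable_const
  · fun_prop
  · fun_prop

theorem integrable_phi : Integrable phi := by
  have h1 : phi = fun z : ℂ => (fun r : ℝ => if r < 1 then r⁻¹ else 0) ‖z‖ := rfl
  rw [h1]
  refine (integrable_fun_norm_addHaar (volume : Measure ℂ)
    (f := fun r : ℝ => if r < 1 then r⁻¹ else 0)).mpr ?_
  have h2 : IntegrableOn (fun _ : ℝ => (1 : ℝ)) (Ioo (0 : ℝ) 1) :=
    (continuousOn_const.integrableOn_Icc (a := (0 : ℝ)) (b := 1)).mono_set Ioo_subset_Icc_self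
  have h3 : IntegrableOn ((Ioo (0 : ℝ) 1).indicator fun _ : ℝ => (1 : ℝ)) (Ioi (0 : ℝ)) := by
    rw [integrableOn_indicator_iff measurableSet_Ioo]
    exact h2.mono_set inter_subset_left
  apply h3.congr_fun _ measurableSet_Ioi
  intro r hr
  have hr0 : (0 : ℝ) < r := hr
  simp only [Complex.finrank_real_complex, smul_eq_mul]
  by_cases h : r < 1
  · rw [indicator_of_mem (show r ∈ Ioo (0 : ℝ) 1 from ⟨hr0, h⟩), if_pos h]
    norm_num
    field_simp
  · rw [indicator_of_notMem (fun h' => h h'.2), if_neg h, mul_zero]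

/-- kernel majorant -/
noncomputable def kk (z : ℂ) : ℝ := om z + phi z

theorem kk_pos (z : ℂ) : 0 < kk z := by
  unfold kk; linarith [om_pos z, phi_nonneg z]

theorem measurable_kk : Measurable kk := continuous_om.measurable.add measurable_phi

theorem inv_norm_le_one_add_phi (z : ℂ) : ‖z‖⁻¹ ≤ 1 + phi z := by
  unfold phi
  split_ifs with h
  · linarith
  · rw [add_zero]
    exact inv_le_one_of_one_le₀ (not_lt.mp h)

theorem inv_norm_le_kk (z : ℂ) : ‖z‖⁻¹ ≤ kk z := by
  have := inv_norm_le_one_add_phi z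
  unfold kk; linarith [one_le_om z]

theorem abs_log_le_kk (z : ℂ) : |Real.log ‖z‖| ≤ 8 * kk z := by
  unfold kk phi
  rcases eq_or_ne z 0 with rfl | hz
  · simp only [norm_zero, Real.log_zero, abs_zero]
    have := om_pos 0
    split_ifs <;> simp <;> linarith
  have hz0 : 0 < ‖z‖ := norm_pos_iff.mpr hz
  split_ifs with h
  · rw [abs_of_nonpos (Real.log_nonpos hz0.le h.le)]
    have h1 : Real.log ‖z‖⁻¹ ≤ ‖z‖⁻¹ - 1 := Real.log_le_sub_one_of_pos (by positivity)
    rw [Real.log_inv] at h1
    have : 0 < ‖z‖⁻¹ := by positivity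
    linarith [om_pos z]
  · push Not at h
    rw [abs_of_nonneg (Real.log_nonneg h), add_zero]
    have h1 : Real.log ‖z‖ ≤ ‖z‖ ^ (1 / 8 : ℝ) / (1 / 8) :=
      Real.log_le_rpow_div hz0.le (by norm_num)
    have h2 : ‖z‖ ^ (1 / 8 : ℝ) ≤ om z :=
      Real.rpow_le_rpow hz0.le (by linarith) (by norm_num)
    linarith

theorem kk_mul_mo_le (ζ t : ℂ) : kk t * mo (ζ - t) ≤ om ζ * mm (ζ - t) + phi t := by
  unfold kk
  have h1 : om t ≤ om ζ * om (ζ - t) := by
    have := om_add ζ (-(ζ - t))
    rw [om_neg] at this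
    simpa using this
  have h2 : om t * mo (ζ - t) ≤ om ζ * mm (ζ - t) := by
    rw [← om_mul_mo (ζ - t), ← mul_assoc]
    exact mul_le_mul_of_nonneg_right h1 (mo_pos _).le
  have h3 : phi t * mo (ζ - t) ≤ phi t :=
    mul_le_of_le_one_right (phi_nonneg t) (mo_le_one _)
  linarith [add_mul (om t) (phi t) (mo (ζ - t))]

theorem integrable_mm_sub (ζ : ℂ) : Integrable (fun t => mm (ζ - t)) :=
  integrable_mm.comp_sub_left ζ

theorem integrable_kk_mul_mo (ζ : ℂ) : Integrable (fun t => kk t * mo (ζ - t)) := by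
  have h1 : Integrable (fun t => om ζ * mm (ζ - t) + phi t) :=
    ((integrable_mm_sub ζ).const_mul _).add integrable_phi
  apply h1.mono'
  · exact (measurable_kk.mul (continuous_mo.measurable.comp (by fun_prop))).aestronglyMeasurable
  · refine Eventually.of_forall fun t => ?_
    rw [Real.norm_eq_abs, abs_of_nonneg (mul_nonneg (kk_pos t).le (mo_pos _).le)]
    exact kk_mul_mo_le ζ t

/-- total constant -/
noncomputable def c0 : ℝ := (∫ t, mm t) + ∫ t, phi t

theorem c0_nonneg : 0 ≤ c0 :=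
  add_nonneg (integral_nonneg fun t => (mm_pos t).le) (integral_nonneg phi_nonneg)

theorem integral_kk_mul_mo_le (ζ : ℂ) : ∫ t, kk t * mo (ζ - t) ≤ c0 * om ζ := by
  have h1 : Integrable (fun t => om ζ * mm (ζ - t) + phi t) :=
    ((integrable_mm_sub ζ).const_mul _).add integrable_phi
  calc ∫ t, kk t * mo (ζ - t) ≤ ∫ t, (om ζ * mm (ζ - t) + phi t) :=
        integral_mono (integrable_kk_mul_mo ζ) h1 (kk_mul_mo_le ζ)
    _ = om ζ * (∫ t, mm t) + ∫ t, phi t := by
        rw [integral_add ((integrable_mm_sub ζ).const_mul _) integrable_phi,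
          integral_const_mul, integral_sub_left_eq_self mm volume ζ]
    _ ≤ c0 * om ζ := by
        unfold c0
        have : 0 ≤ ∫ t, phi t := integral_nonneg phi_nonneg
        nlinarith [one_le_om ζ]

theorem integral_inv_norm_mul_mo_le (ζ : ℂ) :
    Integrable (fun t => ‖t‖⁻¹ * mo (ζ - t)) ∧ ∫ t, ‖t‖⁻¹ * mo (ζ - t) ≤ c0 := by
  have h0 : ∀ t, ‖t‖⁻¹ * mo (ζ - t) ≤ mm (ζ - t) + phi t := by
    intro t
    have h1 := inv_norm_le_one_add_phi t
    have h2 := mo_le_one (ζ - t)
    have h3 := mo_pos (ζ - t)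
    have h4 := mo_le_mm (ζ - t)
    have h5 := phi_nonneg t
    nlinarith
  have hi : Integrable (fun t => mm (ζ - t) + phi t) := (integrable_mm_sub ζ).add integrable_phi
  have h1 : Integrable (fun t => ‖t‖⁻¹ * mo (ζ - t)) := by
    apply hi.mono'
    · apply Measurable.aestronglyMeasurable
      apply Measurable.mul (by fun_prop) (continuous_mo.measurable.comp (by fun_prop))
    · refine Eventually.of_forall fun t => ?_
      rw [Real.norm_eq_abs, abs_of_nonneg (mul_nonneg (by positivity) (mo_pos _).le)]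
      exact h0 t
  refine ⟨h1, ?_⟩
  calc ∫ t, ‖t‖⁻¹ * mo (ζ - t) ≤ ∫ t, (mm (ζ - t) + phi t) := integral_mono h1 hi h0
    _ = c0 := by
      unfold c0
      rw [integral_add (integrable_mm_sub ζ) integrable_phi,
        integral_sub_left_eq_self mm volume ζ]

end Pool.Agent.Helper26.HS
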