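import Pool.Agent.Helper26.HS1

open MeasureTheory Filter Topology Set Real
open scoped ENNReal NNReal

namespace Pool.Agent.Helper26.HS

variable {F : Type*} [NormedAddCommGroup F] [NormedSpace ℝ F]

theorem integrable_conv {p : ℂ → ℂ → F} (hm : ∀ ζ, AEStronglyMeasurable (fun t => p t (ζ - t)))
    {C : ℝ} (hb : ∀ t z, ‖p t z‖ ≤ C * (kk t * mo z)) (ζ : ℂ) :
    Integrable (fun t => p t (ζ - t)) := by
  apply ((integrable_kk_mul_mo ζ).const_mul C).mono' (hm ζ)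
  exact Eventually.of_forall fun t => hb t (ζ - t)

theorem norm_conv_le {p : ℂ → ℂ → F} {C : ℝ} (hC : 0 ≤ C)
    (hb : ∀ t z, ‖p t z‖ ≤ C * (kk t * mo z)) {ζ ζ₀ : ℂ}
    (hζ : ζ ∈ Metric.ball ζ₀ 1) (t : ℂ) :
    ‖p t (ζ - t)‖ ≤ C * 32 * (kk t * mo (ζ₀ - t)) := by
  have h2 : mo (ζ - t) ≤ 32 * mo (ζ₀ - t) := by
    apply mo_shift
    rw [Metric.mem_ball, dist_eq_norm] at hζ
    rw [sub_sub_sub_cancel_right]
    exact hζ.le
  calc _ ≤ C * (kk t * mo (ζ - t)) := hb t _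
    _ ≤ C * (kk t * (32 * mo (ζ₀ - t))) := by
      apply mul_le_mul_of_nonneg_left _ hC
      exact mul_le_mul_of_nonneg_left h2 (kk_pos t).le
    _ = _ := by ring

theorem continuous_conv {p : ℂ → ℂ → F} (hm : ∀ ζ, AEStronglyMeasurable (fun t => p t (ζ - t)))
    {C : ℝ} (hC : 0 ≤ C) (hb : ∀ t z, ‖p t z‖ ≤ C * (kk t * mo z)) (hc : ∀ t, Continuous (p t)) :
    Continuous (fun ζ => ∫ t, p t (ζ - t)) := by
  rw [continuous_iff_continuousAt]
  intro ζ₀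
  apply continuousAt_of_dominated
    (bound := fun t => C * 32 * (kk t * mo (ζ₀ - t)))
  · exact Eventually.of_forall hm
  · filter_upwards [Metric.ball_mem_nhds ζ₀ one_pos] with ζ hζ
    exact Eventually.of_forall fun t => norm_conv_le hC hb hζ t
  · exact (integrable_kk_mul_mo ζ₀).const_mul _
  · refine Eventually.of_forall fun t => ?_
    exact ((hc t).comp (continuous_id.sub continuous_const)).continuousAt

theorem hasFDerivAt_conv {p : ℂ → ℂ → F} (hm : ∀ ζ, AEStronglyMeasurable (fun t => p t (ζ - t)))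
    {C : ℝ} (hb : ∀ t z, ‖p t z‖ ≤ C * (kk t * mo z))
    {p' : ℂ → ℂ → (ℂ →L[ℝ] F)} (hm' : ∀ ζ, AEStronglyMeasurable (fun t => p' t (ζ - t)))
    {C' : ℝ} (hC' : 0 ≤ C') (hb' : ∀ t z, ‖p' t z‖ ≤ C' * (kk t * mo z))
    (hd : ∀ t z, HasFDerivAt (p t) (p' t z) z) (ζ₀ : ℂ) :
    HasFDerivAt (fun ζ => ∫ t, p t (ζ - t)) (∫ t, p' t (ζ₀ - t)) ζ₀ := by
  apply hasFDerivAt_integral_of_dominated_of_fderiv_le
    (F' := fun ζ t => p' t (ζ - t))
    (bound := fun t => C' * 32 * (kk t * mo (ζ₀ - t)))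
    (s := Metric.ball ζ₀ 1) (Metric.ball_mem_nhds ζ₀ one_pos)
  · exact Eventually.of_forall hm
  · exact integrable_conv hm hb ζ₀
  · exact hm' ζ₀
  · exact Eventually.of_forall fun t ζ hζ => norm_conv_le hC' hb' hζ t
  · exact (integrable_kk_mul_mo ζ₀).const_mul _
  · refine Eventually.of_forall fun t ζ _ => ?_
    have := (hd t (ζ - t)).comp ζ ((hasFDerivAt_id ζ).sub_const t)
    exact this

/-- gradient kernel `z ↦ ⟨z, ·⟩ / |z|²` -/
noncomputable def gk (z : ℂ) : ℂ →L[ℝ] ℝ := (‖z‖ ^ 2)⁻¹ • (innerSL ℝ z)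

theorem norm_gk (z : ℂ) : ‖gk z‖ = ‖z‖⁻¹ := by
  unfold gk
  rw [norm_smul, innerSL_apply_norm, norm_inv, norm_pow, norm_norm]
  rcases eq_or_ne z 0 with rfl | hz
  · simp
  · have : ‖z‖ ≠ 0 := norm_ne_zero_iff.mpr hz
    field_simp

theorem measurable_gk : Measurable gk := by
  have h1 : Measurable fun z : ℂ => (‖z‖ ^ 2)⁻¹ := by fun_prop
  have h2 : Measurable fun z : ℂ => (innerSL ℝ z : ℂ →L[ℝ] ℝ) :=
    (innerSL ℝ (E := ℂ)).continuous.measurable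
  exact h1.smul h2

theorem gk_continuousAt {z : ℂ} (hz : z ≠ 0) : ContinuousAt gk z := by
  have h0 : ‖z‖ ≠ 0 := norm_ne_zero_iff.mpr hz
  have h1 : ContinuousAt (fun z : ℂ => (‖z‖ ^ 2)⁻¹) z := by
    apply ContinuousAt.inv₀ (by fun_prop)
    positivity
  have h2 : ContinuousAt (fun z : ℂ => (innerSL ℝ z : ℂ →L[ℝ] ℝ)) z :=
    (innerSL ℝ (E := ℂ)).continuous.continuousAt
  exact h1.smul h2

theorem norm_gk_le (z : ℂ) : ‖gk z‖ ≤ kk z := by
  rw [norm_gk]; exact inv_norm_le_kk z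

theorem hasFDerivAt_log_norm {z : ℂ} (hz : z ≠ 0) :
    HasFDerivAt (fun z : ℂ => Real.log ‖z‖) (gk z) z := by
  have h1 : HasFDerivAt (fun z : ℂ => ‖z‖ ^ 2) (2 • (innerSL ℝ z)) z := by
    have := (hasStrictFDerivAt_norm_sq z).hasFDerivAt
    exact this
  have hz0 : ‖z‖ ≠ 0 := norm_ne_zero_iff.mpr hz
  have h2 : ‖z‖ ^ 2 ≠ 0 := by positivity
  have h3 := (h1.log h2).const_mul (1 / 2 : ℝ)
  have h4 : (fun z : ℂ => 1 / 2 * Real.log (‖z‖ ^ 2)) = fun z : ℂ => Real.log ‖z‖ := by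
    ext w
    rw [Real.log_pow]
    push_cast; ring
  rw [h4] at h3
  have h5 : gk z = (1 / 2 : ℝ) • (‖z‖ ^ 2)⁻¹ • 2 • (innerSL ℝ z) := by
    unfold gk
    ext w
    simp only [smul_apply, smul_eq_mul, nsmul_eq_mul, Nat.cast_ofNat]
    ring
  rw [h5]
  exact h3

end Pool.Agent.Helper26.HS
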