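import Pool.Agent.Helper26.HS2

open MeasureTheory Filter Topology Set Real
open scoped ENNReal NNReal

namespace Pool.Agent.Helper26.HS

theorem hasFDerivAt_of_segment {φ : ℂ → ℝ} {G : ℂ → ℂ →L[ℝ] ℝ} (hG : Continuous G)
    (h : ∀ x v, φ (x + v) - φ x = ∫ s in (0 : ℝ)..1, G (x + s • v) v) (x : ℂ) :
    HasFDerivAt φ (G x) x := by
  rw [hasFDerivAt_iff_isLittleO_nhds_zero, Asymptotics.isLittleO_iff]
  intro c hc
  obtain ⟨δ, hδ, hδ'⟩ := Metric.continuousAt_iff.mp hG.continuousAt c hc
  filter_upwards [Metric.ball_mem_nhds (0 : ℂ) hδ] with v hv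
  rw [mem_ball_zero_iff] at hv
  rw [h x v]
  have e1 : G x v = ∫ s in (0 : ℝ)..1, G x v := by simp
  have hi : IntervalIntegrable (fun s : ℝ => G (x + s • v) v) volume 0 1 := by
    apply Continuous.intervalIntegrable
    fun_prop
  rw [e1, ← intervalIntegral.integral_sub hi (by simp)]
  have := intervalIntegral.norm_integral_le_of_norm_le_const (a := (0 : ℝ)) (b := 1)
    (C := c * ‖v‖) (f := fun s : ℝ => G (x + s • v) v - G x v) ?_
  · simpa using this
  · intro s hs
    rw [uIoc_of_le zero_le_one] at hs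
    rw [← sub_apply]
    refine (ContinuousLinearMap.le_opNorm _ _).trans ?_
    apply mul_le_mul_of_nonneg_right _ (norm_nonneg _)
    rw [← dist_eq_norm]
    apply (hδ' _).le
    rw [dist_eq_norm, add_sub_cancel_left, norm_smul, Real.norm_eq_abs, abs_of_pos hs.1]
    calc s * ‖v‖ ≤ 1 * ‖v‖ := mul_le_mul_of_nonneg_right hs.2 (norm_nonneg _)
      _ < δ := by rwa [one_mul]

theorem ae_not_mem_line (x v : ℂ) : ∀ᵐ t : ℂ, ∀ s : ℝ, x + s • v - t ≠ 0 := by
  have h1 : volume ((AffineSubspace.mk' x (Submodule.span ℝ {v}) : AffineSubspace ℝ ℂ) : Set ℂ)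
      = 0 := by
    apply Measure.addHaar_affineSubspace
    intro h
    have h2 : Submodule.span ℝ {v} = ⊤ := by
      have := congrArg AffineSubspace.direction h
      simpa using this
    have h3 : Module.finrank ℝ (Submodule.span ℝ {v}) ≤ 1 := by
      have := finrank_span_le_card (R := ℝ) ({v} : Set ℂ)
      simpa using this
    rw [h2, finrank_top, Complex.finrank_real_complex] at h3
    norm_num at h3
  have h2 : ∀ᵐ t : ℂ, t ∉ ((AffineSubspace.mk' x (Submodule.span ℝ {v}) : AffineSubspace ℝ ℂ) :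
      Set ℂ) := compl_mem_ae_iff.mpr h1
  filter_upwards [h2] with t ht s hs
  apply ht
  have : t = x + s • v := by
    have := sub_eq_zero.mp hs
    exact this.symm
  rw [this]
  simp only [SetLike.mem_coe, AffineSubspace.mem_mk', vsub_eq_sub, add_sub_cancel_left]
  exact Submodule.smul_mem _ _ (Submodule.mem_span_singleton_self v)

theorem log_segment {x v t : ℂ} (ht : ∀ s : ℝ, x + s • v - t ≠ 0) :
    Real.log ‖x + v - t‖ - Real.log ‖x - t‖ = ∫ s in (0 : ℝ)..1, gk (x + s • v - t) v := by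
  have hd : ∀ s : ℝ, HasDerivAt (fun s : ℝ => Real.log ‖x + s • v - t‖)
      (gk (x + s • v - t) v) s := by
    intro s
    have h1 : HasDerivAt (fun s : ℝ => x + s • v - t) v s := by
      have := (((hasDerivAt_id s).smul_const v).const_add x).sub_const t
      simpa using this
    exact (hasFDerivAt_log_norm (ht s)).comp_hasDerivAt s h1
  have hc : Continuous (fun s : ℝ => gk (x + s • v - t) v) := by
    rw [continuous_iff_continuousAt]
    intro s
    have h1 : ContinuousAt (fun s : ℝ => x + s • v - t) s := by fun_prop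
    have h2 : ContinuousAt (fun s : ℝ => gk (x + s • v - t)) s :=
      ContinuousAt.comp (f := fun s : ℝ => x + s • v - t) (gk_continuousAt (ht s)) h1
    exact h2.clm_apply continuousAt_const
  rw [intervalIntegral.integral_eq_sub_of_hasDerivAt (fun s _ => hd s)
    (hc.intervalIntegrable _ _)]
  simp

variable {h : ℂ → ℝ} {C : ℝ}

theorem integrable_gk_apply (hc : Continuous h) (hb : ∀ z, ‖h z‖ ≤ C * mo z) (y v : ℂ) :
    Integrable (fun t => h t * gk (y - t) v) ∧ ∫ t, ‖h t * gk (y - t) v‖ ≤ C * c0 * ‖v‖ := by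
  have hC : 0 ≤ C := nonneg_of_mul_nonneg_left ((norm_nonneg _).trans (hb 0)) (mo_pos 0)
  have hb1 : ∀ t, ‖h (y - t) * gk t v‖ ≤ C * ‖v‖ * (‖t‖⁻¹ * mo (y - t)) := by
    intro t
    rw [norm_mul]
    have e1 := (gk t).le_opNorm v
    rw [norm_gk] at e1
    calc ‖h (y - t)‖ * ‖gk t v‖ ≤ (C * mo (y - t)) * (‖t‖⁻¹ * ‖v‖) :=
          mul_le_mul (hb _) e1 (norm_nonneg _) (mul_nonneg hC (mo_pos _).le)
      _ = _ := by ring
  have hm : AEStronglyMeasurable (fun t => h (y - t) * gk t v) := by
    apply Measurable.aestronglyMeasurable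
    exact (hc.measurable.comp (by fun_prop)).mul (measurable_gk.apply_continuousLinearMap v)
  have hi : Integrable (fun t => h (y - t) * gk t v) :=
    ((integral_inv_norm_mul_mo_le y).1.const_mul (C * ‖v‖)).mono' hm (Eventually.of_forall hb1)
  have hi2 := hi.comp_sub_left y
  simp only [sub_sub_cancel] at hi2
  refine ⟨hi2, ?_⟩
  have e2 : ∫ t, ‖h t * gk (y - t) v‖ = ∫ t, ‖h (y - t) * gk t v‖ := by
    rw [← integral_sub_left_eq_self _ volume y]
    simp only [sub_sub_cancel]
  rw [e2]
  calc ∫ t, ‖h (y - t) * gk t v‖ ≤ ∫ t, C * ‖v‖ * (‖t‖⁻¹ * mo (y - t)) :=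
        integral_mono hi.norm ((integral_inv_norm_mul_mo_le y).1.const_mul _) hb1
    _ = C * ‖v‖ * ∫ t, (‖t‖⁻¹ * mo (y - t)) := integral_const_mul _ _
    _ ≤ C * ‖v‖ * c0 := mul_le_mul_of_nonneg_left (integral_inv_norm_mul_mo_le y).2
        (by positivity)
    _ = _ := by ring

theorem measurable_lognorm : Measurable (fun t : ℂ => Real.log ‖t‖) := by fun_prop

theorem integrable_logpot (hc : Continuous h) (hb : ∀ z, ‖h z‖ ≤ C * mo z) (y : ℂ) :
    Integrable (fun t => Real.log ‖t‖ * h (y - t)) := by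
  have hC : 0 ≤ C := nonneg_of_mul_nonneg_left ((norm_nonneg _).trans (hb 0)) (mo_pos 0)
  refine integrable_conv (p := fun t z => Real.log ‖t‖ * h z) (C := 8 * C) ?_ ?_ y
  · intro ζ
    exact (measurable_lognorm.mul (hc.measurable.comp (by fun_prop))).aestronglyMeasurable
  · intro t z
    rw [norm_mul, Real.norm_eq_abs]
    calc |Real.log ‖t‖| * ‖h z‖ ≤ (8 * kk t) * (C * mo z) :=
          mul_le_mul (abs_log_le_kk t) (hb z) (norm_nonneg _) (by linarith [kk_pos t])
      _ = _ := by ring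

theorem logpot_segment (hc : Continuous h) (hb : ∀ z, ‖h z‖ ≤ C * mo z) (x v : ℂ) :
    (∫ t, Real.log ‖t‖ * h (x + v - t)) - ∫ t, Real.log ‖t‖ * h (x - t) =
      ∫ s in (0 : ℝ)..1, ∫ t, h t * gk (x + s • v - t) v := by
  have e1 : ∀ y : ℂ, (∫ t, Real.log ‖t‖ * h (y - t)) = ∫ t, Real.log ‖y - t‖ * h t := by
    intro y
    rw [← integral_sub_left_eq_self _ volume y]
    simp only [sub_sub_cancel]
  have i1 : ∀ y : ℂ, Integrable (fun t => Real.log ‖y - t‖ * h t) := by
    intro y
    have := (integrable_logpot hc hb y).comp_sub_left y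
    simpa only [sub_sub_cancel] using this
  rw [e1, e1, ← integral_sub (i1 _) (i1 _)]
  have e2 : ∀ᵐ t : ℂ, Real.log ‖x + v - t‖ * h t - Real.log ‖x - t‖ * h t =
      ∫ s in (0 : ℝ)..1, h t * gk (x + s • v - t) v := by
    filter_upwards [ae_not_mem_line x v] with t ht
    rw [intervalIntegral.integral_const_mul, ← log_segment ht]
    ring
  rw [integral_congr_ae e2]
  simp only [intervalIntegral.integral_of_le zero_le_one]
  apply integral_integral_swap
  obtain ⟨f, hf⟩ : ∃ f : ℂ × ℝ → ℝ, f = fun q : ℂ × ℝ => h q.1 * gk (x + q.2 • v - q.1) v :=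
    ⟨_, rfl⟩
  have hm : Measurable f := by
    rw [hf]
    apply Measurable.mul (hc.measurable.comp measurable_fst)
    have : Measurable (fun q : ℂ × ℝ => gk (x + q.2 • v - q.1)) :=
      measurable_gk.comp (by fun_prop)
    exact this.apply_continuousLinearMap v
  have hf' : Function.uncurry (fun (t : ℂ) (s : ℝ) => h t * gk (x + s • v - t) v) = f := by
    rw [hf]; rfl
  rw [hf']
  have hm' : AEStronglyMeasurable f (volume.prod (volume.restrict (Ioc (0 : ℝ) 1))) :=
    hm.aestronglyMeasurable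
  rw [integrable_prod_iff' hm']
  constructor
  · refine Eventually.of_forall fun s => ?_
    rw [hf]
    exact (integrable_gk_apply hc hb (x + s • v) v).1
  · refine Integrable.of_bound (C := C * c0 * ‖v‖) ?_ ?_
    · exact hm.norm.stronglyMeasurable.integral_prod_left'.aestronglyMeasurable
    · refine Eventually.of_forall fun s => ?_
      rw [Real.norm_eq_abs, abs_of_nonneg (integral_nonneg fun t => norm_nonneg _), hf]
      exact (integrable_gk_apply hc hb (x + s • v) v).2

end Pool.Agent.Helper26.HS
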