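import Pool.Agent.Helper26.HS3

open MeasureTheory Filter Topology Set Real
open scoped ENNReal NNReal

set_option maxSynthPendingDepth 3

namespace Pool.Agent.Helper26.HS

variable {h : ℂ → ℝ} {C : ℝ}

/-- gradient of the logarithmic potential -/
noncomputable def gpot (h : ℂ → ℝ) (ζ : ℂ) : ℂ →L[ℝ] ℝ := ∫ t, h (ζ - t) • gk t

theorem cnonneg (hb : ∀ z, ‖h z‖ ≤ C * mo z) : 0 ≤ C :=
  nonneg_of_mul_nonneg_left ((norm_nonneg _).trans (hb 0)) (mo_pos 0)

theorem gpot_meas (hc : Continuous h) (ζ : ℂ) :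
    AEStronglyMeasurable (fun t => h (ζ - t) • gk t) := by
  have h1 : Measurable fun t => h (ζ - t) := hc.measurable.comp (by fun_prop)
  exact (h1.smul measurable_gk).aestronglyMeasurable

theorem gpot_bound (hb : ∀ z, ‖h z‖ ≤ C * mo z) (t z : ℂ) :
    ‖h z • gk t‖ ≤ C * (kk t * mo z) := by
  rw [norm_smul]
  calc ‖h z‖ * ‖gk t‖ ≤ (C * mo z) * kk t :=
        mul_le_mul (hb z) (norm_gk_le t) (norm_nonneg _) (mul_nonneg (cnonneg hb) (mo_pos z).le)
    _ = _ := by ring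

theorem gpot_integrable (hc : Continuous h) (hb : ∀ z, ‖h z‖ ≤ C * mo z) (ζ : ℂ) :
    Integrable (fun t => h (ζ - t) • gk t) :=
  integrable_conv (p := fun t z => h z • gk t) (gpot_meas hc) (gpot_bound hb) ζ

theorem continuous_gpot (hc : Continuous h) (hb : ∀ z, ‖h z‖ ≤ C * mo z) :
    Continuous (gpot h) :=
  continuous_conv (p := fun t z => h z • gk t) (gpot_meas hc) (cnonneg hb) (gpot_bound hb)
    (fun _ => hc.smul continuous_const)

theorem norm_gpot_le (hc : Continuous h) (hb : ∀ z, ‖h z‖ ≤ C * mo z) (ζ : ℂ) :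
    ‖gpot h ζ‖ ≤ C * c0 := by
  unfold gpot
  calc ‖∫ t, h (ζ - t) • gk t‖ ≤ ∫ t, ‖h (ζ - t) • gk t‖ := norm_integral_le_integral_norm _
    _ ≤ ∫ t, C * (‖t‖⁻¹ * mo (ζ - t)) := by
        apply integral_mono (gpot_integrable hc hb ζ).norm
          ((integral_inv_norm_mul_mo_le ζ).1.const_mul _)
        intro t
        simp only
        rw [norm_smul, norm_gk]
        calc ‖h (ζ - t)‖ * ‖t‖⁻¹ ≤ (C * mo (ζ - t)) * ‖t‖⁻¹ :=
              mul_le_mul_of_nonneg_right (hb _) (by positivity)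
          _ = _ := by ring
    _ = C * ∫ t, ‖t‖⁻¹ * mo (ζ - t) := integral_const_mul _ _
    _ ≤ C * c0 := mul_le_mul_of_nonneg_left (integral_inv_norm_mul_mo_le ζ).2 (cnonneg hb)

theorem gpot_apply (hc : Continuous h) (hb : ∀ z, ‖h z‖ ≤ C * mo z) (ζ v : ℂ) :
    gpot h ζ v = ∫ t, h t * gk (ζ - t) v := by
  unfold gpot
  rw [ContinuousLinearMap.integral_apply (gpot_integrable hc hb ζ) v,
    ← integral_sub_left_eq_self _ volume ζ]
  simp

theorem hasFDerivAt_logpot (hc : Continuous h) (hb : ∀ z, ‖h z‖ ≤ C * mo z) (x : ℂ) :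
    HasFDerivAt (fun ζ => ∫ t, Real.log ‖t‖ * h (ζ - t)) (gpot h x) x := by
  apply hasFDerivAt_of_segment (continuous_gpot hc hb)
  intro x v
  rw [logpot_segment hc hb x v]
  apply intervalIntegral.integral_congr
  intro s _
  simp only
  rw [gpot_apply hc hb]

/-- Hessian of the logarithmic potential -/
noncomputable def hpot (h' : ℂ → ℂ →L[ℝ] ℝ) (ζ : ℂ) : ℂ →L[ℝ] (ℂ →L[ℝ] ℝ) :=
  ∫ t, (h' (ζ - t)).smulRight (gk t)

variable {h' : ℂ → ℂ →L[ℝ] ℝ} {C' : ℝ}

theorem cnonneg' (hb : ∀ z, ‖h' z‖ ≤ C' * mo z) : 0 ≤ C' :=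
  nonneg_of_mul_nonneg_left ((norm_nonneg _).trans (hb 0)) (mo_pos 0)

theorem hpot_meas (hc : Continuous h') (ζ : ℂ) :
    AEStronglyMeasurable (fun t => (h' (ζ - t)).smulRight (gk t)) := by
  have h1 : StronglyMeasurable fun t => h' (ζ - t) := by
    have : Continuous fun t => h' (ζ - t) := by fun_prop
    exact this.stronglyMeasurable
  have h2 : StronglyMeasurable fun t => gk t := measurable_gk.stronglyMeasurable
  have h3 : Continuous fun q : (ℂ →L[ℝ] ℝ) × (ℂ →L[ℝ] ℝ) =>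
      (q.1.smulRight q.2 : ℂ →L[ℝ] (ℂ →L[ℝ] ℝ)) :=
    ((ContinuousLinearMap.smulRightL ℝ ℂ (ℂ →L[ℝ] ℝ)).continuous.comp continuous_fst).clm_apply
      continuous_snd
  exact (h3.comp_stronglyMeasurable (h1.prodMk h2)).aestronglyMeasurable

theorem hpot_bound (hb : ∀ z, ‖h' z‖ ≤ C' * mo z) (t z : ℂ) :
    ‖(h' z).smulRight (gk t)‖ ≤ C' * (kk t * mo z) := by
  rw [ContinuousLinearMap.norm_smulRight_apply]
  calc ‖h' z‖ * ‖gk t‖ ≤ (C' * mo z) * kk t :=
        mul_le_mul (hb z) (norm_gk_le t) (norm_nonneg _) (mul_nonneg (cnonneg' hb) (mo_pos z).le)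
    _ = _ := by ring

theorem hpot_integrable (hc : Continuous h') (hb : ∀ z, ‖h' z‖ ≤ C' * mo z) (ζ : ℂ) :
    Integrable (fun t => (h' (ζ - t)).smulRight (gk t)) :=
  integrable_conv (p := fun t z => (h' z).smulRight (gk t)) (hpot_meas hc) (hpot_bound hb) ζ

theorem continuous_hpot (hc : Continuous h') (hb : ∀ z, ‖h' z‖ ≤ C' * mo z) :
    Continuous (hpot h') :=
  continuous_conv (p := fun t z => (h' z).smulRight (gk t)) (hpot_meas hc) (cnonneg' hb)
    (hpot_bound hb) (fun _ => ((ContinuousLinearMap.smulRightL ℝ ℂ (ℂ →L[ℝ] ℝ)).continuous.comp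
      hc).clm_apply continuous_const)

theorem hasFDerivAt_gpot (hd : ∀ z, HasFDerivAt h (h' z) z) (hc' : Continuous h')
    (hb : ∀ z, ‖h z‖ ≤ C * mo z) (hb' : ∀ z, ‖h' z‖ ≤ C' * mo z) (x : ℂ) :
    HasFDerivAt (gpot h) (hpot h' x) x := by
  have hc : Continuous h := continuous_iff_continuousAt.mpr fun z => (hd z).continuousAt
  refine hasFDerivAt_conv (p := fun t z => h z • gk t) (gpot_meas hc) (gpot_bound hb)
    (p' := fun t z => (h' z).smulRight (gk t)) (hpot_meas hc') (cnonneg' hb') (hpot_bound hb')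
    ?_ x
  intro t z
  exact (hd z).smul_const (gk t)

theorem hpot_apply (hc' : Continuous h') (hb' : ∀ z, ‖h' z‖ ≤ C' * mo z) (ζ v w : ℂ) :
    hpot h' ζ v w = ∫ t, h' (ζ - t) v * gk t w := by
  unfold hpot
  have hi := hpot_integrable hc' hb' ζ
  rw [ContinuousLinearMap.integral_apply hi v,
    ContinuousLinearMap.integral_apply (hi.apply_continuousLinearMap v) w]
  simp

end Pool.Agent.Helper26.HS
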