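import Pool.Agent.Helper26.HS4

open MeasureTheory Filter Topology Set Real
open scoped ENNReal NNReal

set_option maxSynthPendingDepth 3

namespace Pool.Agent.Helper26.HS

theorem mm_le_radial (z : ℂ) : mm z ≤ (1 + ‖z‖) ^ (-(3 / 2) : ℝ) := by
  unfold mm
  have h1 : (1 + |z.re|) ^ (-2 : ℝ) ≤ (1 + |z.re|) ^ (-(3 / 2) : ℝ) :=
    Real.rpow_le_rpow_of_exponent_le (by linarith [abs_nonneg z.re]) (by norm_num)
  calc _ ≤ (1 + |z.re|) ^ (-(3 / 2) : ℝ) * (1 + |z.im|) ^ (-(3 / 2) : ℝ) :=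
        mul_le_mul_of_nonneg_right h1 (by positivity)
    _ = ((1 + |z.re|) * (1 + |z.im|)) ^ (-(3 / 2) : ℝ) :=
        (Real.mul_rpow (by positivity) (by positivity)).symm
    _ ≤ (1 + ‖z‖) ^ (-(3 / 2) : ℝ) := by
        apply Real.rpow_le_rpow_of_nonpos (by positivity) _ (by norm_num)
        have := Complex.norm_le_abs_re_add_abs_im z
        nlinarith [abs_nonneg z.re, abs_nonneg z.im, mul_nonneg (abs_nonneg z.re) (abs_nonneg z.im)]

theorem mo_le_shift_radial (ζ t : ℂ) :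
    mo (ζ - t) ≤ (1 + |‖t‖ - ‖ζ‖|) ^ (-(3 / 2) : ℝ) := by
  refine (mo_le_mm _).trans ((mm_le_radial _).trans ?_)
  apply Real.rpow_le_rpow_of_nonpos (by positivity) _ (by norm_num)
  have := abs_norm_sub_norm_le t ζ
  rw [norm_sub_rev] at this
  linarith

variable {h : ℂ → ℝ} {C : ℝ} {h' : ℂ → ℂ →L[ℝ] ℝ} {C' : ℝ}

theorem integrable_radial_bound (a : ℝ) :
    Integrable (fun r : ℝ => (1 + |r - a|) ^ (-(3 / 2) : ℝ)) := by
  have h2 : Integrable (fun x : ℝ => (1 + ‖x‖) ^ (-(3 / 2 : ℝ))) :=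
    integrable_one_add_norm (by simp; norm_num)
  exact h2.comp_sub_right a

theorem ray_integral (hd : ∀ z, HasFDerivAt h (h' z) z)
    (hb : ∀ z, ‖h z‖ ≤ C * mo z) (hb' : ∀ z, ‖h' z‖ ≤ C' * mo z) (hc' : Continuous h')
    (ζ e : ℂ) (he : ‖e‖ = 1) :
    ∫ r in Ioi (0 : ℝ), h' (ζ - r • e) e = h ζ := by
  have hC := cnonneg hb
  have hC' := cnonneg' hb'
  have hnorm : ∀ r : ℝ, 0 < r → ‖r • e‖ = r := by
    intro r hr
    rw [norm_smul, he, mul_one, Real.norm_eq_abs, abs_of_pos hr]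
  have hderiv : ∀ r : ℝ, HasDerivAt (fun r : ℝ => - h (ζ - r • e)) (h' (ζ - r • e) e) r := by
    intro r
    have h1 : HasDerivAt (fun s : ℝ => ζ - s • e) (-e) r := by
      have := ((hasDerivAt_id r).smul_const e).const_sub ζ
      simpa using this
    have h2 := ((hd (ζ - r • e)).comp_hasDerivAt r h1).neg
    have h3 : -(h' (ζ - r • e)) (-e) = h' (ζ - r • e) e := by rw [map_neg, neg_neg]
    rw [h3] at h2
    exact h2
  have hint : IntegrableOn (fun r : ℝ => h' (ζ - r • e) e) (Ioi 0) := by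
    have h1 : IntegrableOn (fun r : ℝ => C' * (1 + |r - ‖ζ‖|) ^ (-(3 / 2) : ℝ)) (Ioi 0) :=
      ((integrable_radial_bound ‖ζ‖).const_mul C').integrableOn
    apply Integrable.mono' h1
    · apply Continuous.aestronglyMeasurable
      exact (hc'.comp (by fun_prop)).clm_apply continuous_const
    · rw [ae_restrict_iff' measurableSet_Ioi]
      refine Eventually.of_forall fun r hr => ?_
      have e1 := (h' (ζ - r • e)).le_opNorm e
      rw [he, mul_one] at e1
      have e2 := mo_le_shift_radial ζ (r • e)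
      rw [hnorm r hr] at e2
      calc _ ≤ ‖h' (ζ - r • e)‖ := e1
        _ ≤ C' * mo (ζ - r • e) := hb' _
        _ ≤ _ := mul_le_mul_of_nonneg_left e2 hC'
  have hlim : Tendsto (fun r : ℝ => - h (ζ - r • e)) atTop (𝓝 0) := by
    have h1 : Tendsto (fun r : ℝ => C * (1 + |r - ‖ζ‖|) ^ (-(3 / 2) : ℝ)) atTop (𝓝 (C * 0)) := by
      apply Tendsto.const_mul
      have h2 : Tendsto (fun r : ℝ => 1 + |r - ‖ζ‖|) atTop atTop := by
        apply tendsto_atTop_add_const_left
        exact tendsto_abs_atTop_atTop.comp (tendsto_atTop_add_const_right _ _ tendsto_id)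
      exact (tendsto_rpow_neg_atTop (by norm_num : (0 : ℝ) < 3 / 2)).comp h2
    rw [mul_zero] at h1
    apply squeeze_zero_norm' _ h1
    filter_upwards [eventually_gt_atTop (0 : ℝ)] with r hr
    have e2 := mo_le_shift_radial ζ (r • e)
    rw [hnorm r hr] at e2
    rw [norm_neg]
    calc _ ≤ C * mo (ζ - r • e) := hb _
      _ ≤ _ := mul_le_mul_of_nonneg_left e2 hC
  have := integral_Ioi_of_hasDerivAt_of_tendsto (a := (0 : ℝ)) (m := 0)
    (hderiv 0).continuousAt.continuousWithinAt (fun r _ => hderiv r) hint hlim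
  rw [this]
  simp

theorem polar_identity (hd : ∀ z, HasFDerivAt h (h' z) z)
    (hb : ∀ z, ‖h z‖ ≤ C * mo z) (hb' : ∀ z, ‖h' z‖ ≤ C' * mo z) (hc' : Continuous h')
    (ζ : ℂ) :
    ∫ t, h' (ζ - t) ((‖t‖ ^ 2)⁻¹ • t) = 2 * π * h ζ := by
  have hC' := cnonneg' hb'
  rw [← Complex.integral_comp_polarCoord_symm]
  have h2 : polarCoord.target = Ioi (0 : ℝ) ×ˢ Ioo (-π) π := rfl
  rw [h2]
  have hcongr : ∀ p ∈ Ioi (0 : ℝ) ×ˢ Ioo (-π) π,
      p.1 • h' (ζ - Complex.polarCoord.symm p)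
        ((‖Complex.polarCoord.symm p‖ ^ 2)⁻¹ • Complex.polarCoord.symm p) =
      h' (ζ - p.1 • Complex.exp (p.2 * Complex.I)) (Complex.exp (p.2 * Complex.I)) := by
    rintro ⟨r, θ⟩ ⟨hr, -⟩
    have hr0 : (0 : ℝ) < r := hr
    have e1 : Complex.polarCoord.symm (r, θ) = r • Complex.exp (θ * Complex.I) := by
      rw [Complex.polarCoord_symm_apply, Complex.exp_mul_I, Complex.real_smul]
      push_cast
      ring
    simp only
    rw [e1, norm_smul, Complex.norm_exp_ofReal_mul_I, mul_one, Real.norm_eq_abs, abs_of_pos hr0,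
      smul_smul, map_smul, smul_smul]
    have : r * ((r ^ 2)⁻¹ * r) = 1 := by field_simp
    rw [this, one_smul]
  rw [setIntegral_congr_fun (measurableSet_Ioi.prod measurableSet_Ioo) hcongr]
  set H : ℝ × ℝ → ℝ := fun p => h' (ζ - p.1 • Complex.exp (p.2 * Complex.I))
    (Complex.exp (p.2 * Complex.I)) with hH
  have hHc : Continuous H := by
    have h1 : Continuous fun p : ℝ × ℝ => h' (ζ - p.1 • Complex.exp (p.2 * Complex.I)) :=
      hc'.comp (by fun_prop)
    have h2 : Continuous fun p : ℝ × ℝ => Complex.exp (p.2 * Complex.I) := by fun_prop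
    exact h1.clm_apply h2
  have hHb : ∀ p ∈ Ioi (0 : ℝ) ×ˢ Ioo (-π) π, ‖H p‖ ≤
      C' * (1 + |p.1 - ‖ζ‖|) ^ (-(3 / 2) : ℝ) := by
    rintro ⟨r, θ⟩ ⟨hr, -⟩
    have hr0 : (0 : ℝ) < r := hr
    have he : ‖Complex.exp (θ * Complex.I)‖ = 1 := Complex.norm_exp_ofReal_mul_I θ
    have e1 := (h' (ζ - r • Complex.exp (θ * Complex.I))).le_opNorm (Complex.exp (θ * Complex.I))
    rw [he, mul_one] at e1
    have e2 := mo_le_shift_radial ζ (r • Complex.exp (θ * Complex.I))
    rw [norm_smul, he, mul_one, Real.norm_eq_abs, abs_of_pos hr0] at e2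
    calc _ ≤ ‖h' (ζ - r • Complex.exp (θ * Complex.I))‖ := e1
      _ ≤ C' * mo (ζ - r • Complex.exp (θ * Complex.I)) := hb' _
      _ ≤ _ := mul_le_mul_of_nonneg_left e2 hC'
  have hHi : IntegrableOn H (Ioi (0 : ℝ) ×ˢ Ioo (-π) π) (volume.prod volume) := by
    have h3 : Integrable (fun p : ℝ × ℝ => C' * (1 + |p.1 - ‖ζ‖|) ^ (-(3 / 2) : ℝ))
        ((volume.restrict (Ioi (0 : ℝ))).prod (volume.restrict (Ioo (-π) π))) := by
      have h4 : Integrable (fun r : ℝ => C' * (1 + |r - ‖ζ‖|) ^ (-(3 / 2) : ℝ))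
        (volume.restrict (Ioi (0 : ℝ))) :=
        ((integrable_radial_bound ‖ζ‖).const_mul C').integrableOn
      exact h4.comp_fst _
    rw [IntegrableOn, ← Measure.prod_restrict]
    apply h3.mono' hHc.aestronglyMeasurable
    rw [Measure.prod_restrict]
    rw [ae_restrict_iff' (measurableSet_Ioi.prod measurableSet_Ioo)]
    exact Eventually.of_forall hHb
  rw [Measure.volume_eq_prod, ← Measure.prod_restrict, integral_prod_symm]
  · have h5 : ∀ θ : ℝ, ∫ r in Ioi (0 : ℝ), H (r, θ) = h ζ := by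
      intro θ
      exact ray_integral hd hb hb' hc' ζ _ (Complex.norm_exp_ofReal_mul_I θ)
    calc ∫ θ in Ioo (-π) π, ∫ r in Ioi (0 : ℝ), H (r, θ) = ∫ _ in Ioo (-π) π, h ζ := by
          congr 1
          ext θ
          exact h5 θ
      _ = 2 * π * h ζ := by
          rw [setIntegral_const, Real.volume_real_Ioo_of_le (by linarith [pi_pos]), smul_eq_mul]
          ring
  · rw [IntegrableOn, ← Measure.prod_restrict] at hHi
    exact hHi

theorem trace_hpot (hd : ∀ z, HasFDerivAt h (h' z) z)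
    (hb : ∀ z, ‖h z‖ ≤ C * mo z) (hb' : ∀ z, ‖h' z‖ ≤ C' * mo z) (hc' : Continuous h')
    (ζ w : ℂ) :
    hpot h' ζ w w + hpot h' ζ (Complex.I * w) (Complex.I * w) = ‖w‖ ^ 2 * (2 * π * h ζ) := by
  rw [hpot_apply hc' hb', hpot_apply hc' hb']
  have hi : ∀ v u : ℂ, Integrable (fun t => h' (ζ - t) v * gk t u) := by
    intro v u
    have := ((hpot_integrable hc' hb' ζ).apply_continuousLinearMap v).apply_continuousLinearMap u
    simpa using this
  rw [← integral_add (hi _ _) (hi _ _), ← polar_identity hd hb hb' hc' ζ, ← integral_const_mul]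
  congr 1
  ext t
  have e1 : ∀ v : ℂ, gk t v = (‖t‖ ^ 2)⁻¹ * (t.re * v.re + t.im * v.im) := by
    intro v
    unfold gk
    simp only [smul_apply, innerSL_apply_apply, smul_eq_mul, Complex.inner]
    simp
    left
    ring
  have e2 : ∀ v : ℂ, h' (ζ - t) v = v.re * h' (ζ - t) 1 + v.im * h' (ζ - t) Complex.I := by
    intro v
    have e : v = v.re • (1 : ℂ) + v.im • Complex.I := by
      simp [Complex.re_add_im]
    conv_lhs => rw [e]
    rw [map_add, map_smul, map_smul, smul_eq_mul, smul_eq_mul]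
  rw [e1, e1, e2 w, e2 (Complex.I * w), e2 ((‖t‖ ^ 2)⁻¹ • t)]
  have e3 : ‖w‖ ^ 2 = w.re ^ 2 + w.im ^ 2 := by
    rw [← Complex.normSq_eq_norm_sq, Complex.normSq_apply]; ring
  rw [e3]
  simp only [Complex.mul_re, Complex.mul_im, Complex.I_re, Complex.I_im, Complex.smul_re,
    Complex.smul_im, smul_eq_mul]
  ring

end Pool.Agent.Helper26.HS
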