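import Pool.Agent.Helper26.HS5

open MeasureTheory Filter Topology Set Real
open scoped ENNReal NNReal BoundedContinuousFunction

set_option maxSynthPendingDepth 3

namespace Pool.Agent.Helper26.HS

/-- data of the nonlinearity: `f` vanishes off `[-B,B]`, is bounded by `M` and `M`-Lipschitz -/
structure NL (f : ℝ → ℝ) (B M : ℝ) : Prop where
  hB : 0 ≤ B
  hM : 0 < M
  zero : ∀ s, B < |s| → f s = 0
  bd : ∀ s, |f s| ≤ M
  lip : ∀ s t, |f s - f t| ≤ M * |s - t|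

theorem exists_NL {f : ℝ → ℝ} (hf : ContDiff ℝ 1 f) (hc : HasCompactSupport f) :
    ∃ B M, NL f B M ∧ (∀ s, |deriv f s| ≤ M) ∧ ∀ s, B < |s| → deriv f s = 0 := by
  obtain ⟨B, hB0, hB⟩ : ∃ B, 0 ≤ B ∧ tsupport f ⊆ Metric.closedBall 0 B := by
    obtain ⟨B, hB⟩ := hc.isCompact.isBounded.subset_closedBall (0 : ℝ)
    exact ⟨max B 0, le_max_right _ _, hB.trans (Metric.closedBall_subset_closedBall
      (le_max_left _ _))⟩
  have hcd : Continuous (deriv f) := hf.continuous_deriv le_rfl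
  obtain ⟨M1, hM1⟩ := hc.exists_bound_of_continuous hf.continuous
  obtain ⟨M2, hM2⟩ := hc.deriv.exists_bound_of_continuous hcd
  set M := max (max M1 M2) 1 with hM
  have hMpos : 0 < M := lt_of_lt_of_le one_pos (le_max_right _ _)
  have h1 : ∀ s, |f s| ≤ M := fun s => (hM1 s).trans ((le_max_left _ _).trans (le_max_left _ _))
  have h2 : ∀ s, |deriv f s| ≤ M :=
    fun s => (hM2 s).trans ((le_max_right _ _).trans (le_max_left _ _))
  have h3 : ∀ s t, |f s - f t| ≤ M * |s - t| := by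
    intro s t
    have := Convex.norm_image_sub_le_of_norm_deriv_le (f := f) (C := M) (s := univ)
      (fun x _ => (hf.differentiable one_ne_zero).differentiableAt) (fun x _ => h2 x) convex_univ
      (mem_univ t) (mem_univ s)
    simpa [Real.norm_eq_abs] using this
  have h4 : ∀ s, B < |s| → s ∉ tsupport f := by
    intro s hs hs'
    have := hB hs'
    rw [mem_closedBall_zero_iff, Real.norm_eq_abs] at this
    linarith
  refine ⟨B, M, ⟨hB0, hMpos, fun s hs => image_eq_zero_of_notMem_tsupport (h4 s hs), h1, h3⟩, h2,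
    fun s hs => ?_⟩
  have : s ∉ tsupport (deriv f) := fun h => h4 s hs (tsupport_deriv_subset h)
  exact image_eq_zero_of_notMem_tsupport this

/-- the strip constant -/
noncomputable def c1 (B : ℝ) : ℝ := 4 * (2 * B + 7) ^ 2

theorem c1_pos {B : ℝ} (hB : 0 ≤ B) : 0 < c1 B := by unfold c1; positivity

theorem om_le_two {ζ : ℂ} (h : ‖ζ‖ ≤ 2) : om ζ ≤ 2 := by
  unfold om
  calc (1 + ‖ζ‖) ^ (1 / 8 : ℝ) ≤ ((2 : ℝ) ^ (8 : ℝ)) ^ (1 / 8 : ℝ) := by
        apply Real.rpow_le_rpow (by positivity) _ (by norm_num)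
        norm_num; linarith
    _ = 2 := by
        rw [← Real.rpow_mul (by norm_num)]; norm_num

theorem strip_norm {B : ℝ} {ζ : ℂ} {s : ℝ} (hs : |s| ≤ om ζ)
    (h : |ζ.re - (B + 5) + s| ≤ B) : 2 < ‖ζ‖ := by
  by_contra h2
  push Not at h2
  have h3 := om_le_two h2
  have h4 := (abs_le.mp h).1
  have h5 := (abs_le.mp hs).2
  have h6 : ζ.re ≤ 2 := (Complex.re_le_norm ζ).trans h2
  linarith

theorem strip_weight {B : ℝ} (hB : 0 ≤ B) {ζ : ℂ} {s : ℝ} (hs : |s| ≤ om ζ)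
    (h : |ζ.re - (B + 5) + s| ≤ B) : (‖ζ‖ ^ 2)⁻¹ * om ζ ≤ c1 B * mo ζ := by
  have hn := strip_norm hs h
  have hom := one_le_om ζ
  have h1 : 1 + |ζ.re| ≤ (2 * B + 7) * om ζ := by
    have h4 := abs_le.mp h
    have h5 := abs_le.mp hs
    have : |ζ.re| ≤ 2 * B + 5 + om ζ := by
      rw [abs_le]; constructor <;> linarith
    nlinarith
  have hp : 0 < 1 + |ζ.re| := by positivity
  have hpn : 0 < 1 + ‖ζ‖ := by positivity
  have h2 : (‖ζ‖ ^ 2)⁻¹ ≤ 4 * ((1 + ‖ζ‖) ^ 2)⁻¹ := by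
    have : (1 + ‖ζ‖) ^ 2 ≤ 4 * ‖ζ‖ ^ 2 := by nlinarith
    rw [inv_eq_one_div, inv_eq_one_div, mul_one_div, div_le_div_iff₀ (by positivity)
      (by positivity)]
    linarith
  have h3 : mm ζ ≥ ((1 + |ζ.re|) ^ 2)⁻¹ * (1 + ‖ζ‖) ^ (-(3 / 2) : ℝ) := by
    unfold mm
    have e1 : (1 + |ζ.re|) ^ (-2 : ℝ) = ((1 + |ζ.re|) ^ 2)⁻¹ := by
      rw [Real.rpow_neg hp.le]
      norm_num
    rw [e1]
    apply mul_le_mul_of_nonneg_left _ (by positivity)
    apply Real.rpow_le_rpow_of_nonpos (by positivity) _ (by norm_num)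
    have := Complex.abs_im_le_norm ζ
    linarith
  have h4 : om ζ ^ 4 * ((1 + ‖ζ‖) ^ 2)⁻¹ = (1 + ‖ζ‖) ^ (-(3 / 2) : ℝ) := by
    unfold om
    rw [← Real.rpow_natCast ((1 + ‖ζ‖) ^ (1 / 8 : ℝ)) 4, ← Real.rpow_mul hpn.le,
      ← Real.rpow_natCast (1 + ‖ζ‖) 2, ← Real.rpow_neg hpn.le, ← Real.rpow_add hpn]
    norm_num
  have h5 : 1 ≤ (2 * B + 7) ^ 2 * om ζ ^ 2 * ((1 + |ζ.re|) ^ 2)⁻¹ := by
    rw [← div_eq_mul_inv, le_div_iff₀ (by positivity), one_mul, ← mul_pow]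
    exact pow_le_pow_left₀ hp.le h1 2
  unfold c1 mo
  rw [mul_div_assoc', le_div_iff₀ (om_pos ζ)]
  calc (‖ζ‖ ^ 2)⁻¹ * om ζ * om ζ ≤ 4 * ((1 + ‖ζ‖) ^ 2)⁻¹ * om ζ * om ζ := by
        apply mul_le_mul_of_nonneg_right _ (om_pos ζ).le
        exact mul_le_mul_of_nonneg_right h2 (om_pos ζ).le
    _ = 4 * (om ζ ^ 2 * ((1 + ‖ζ‖) ^ 2)⁻¹) * 1 := by ring
    _ ≤ 4 * (om ζ ^ 2 * ((1 + ‖ζ‖) ^ 2)⁻¹) * ((2 * B + 7) ^ 2 * om ζ ^ 2 *
          ((1 + |ζ.re|) ^ 2)⁻¹) := mul_le_mul_of_nonneg_left h5 (by positivity)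
    _ = 4 * (2 * B + 7) ^ 2 * (((1 + |ζ.re|) ^ 2)⁻¹ * (om ζ ^ 4 * ((1 + ‖ζ‖) ^ 2)⁻¹)) := by ring
    _ ≤ 4 * (2 * B + 7) ^ 2 * mm ζ := by
        rw [h4]
        exact mul_le_mul_of_nonneg_left h3 (by positivity)

/-- the source term -/
noncomputable def src (κ : ℝ) (f : ℝ → ℝ) (B : ℝ) (W : ℂ → ℝ) (ζ : ℂ) : ℝ :=
  κ * ((‖ζ‖ ^ 2)⁻¹ * f (ζ.re - (B + 5) + W ζ))

variable {f : ℝ → ℝ} {B M κ : ℝ}

theorem src_bound (hN : NL f B M) (hκ : 0 ≤ κ) {W : ℂ → ℝ} {ζ : ℂ} (hW : |W ζ| ≤ om ζ) :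
    ‖src κ f B W ζ‖ ≤ κ * M * c1 B * mo ζ := by
  have hc1 := c1_pos hN.hB
  have hmo := mo_pos ζ
  have hM := hN.hM
  unfold src
  by_cases h : |ζ.re - (B + 5) + W ζ| ≤ B
  · have h1 := strip_weight hN.hB hW h
    have h2 : (‖ζ‖ ^ 2)⁻¹ ≤ c1 B * mo ζ := by
      refine le_trans ?_ h1
      exact le_mul_of_one_le_right (by positivity) (one_le_om ζ)
    rw [norm_mul, norm_mul, Real.norm_eq_abs, Real.norm_eq_abs, Real.norm_eq_abs, abs_of_nonneg hκ,
      abs_of_nonneg (by positivity : 0 ≤ (‖ζ‖ ^ 2)⁻¹)]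
    calc κ * ((‖ζ‖ ^ 2)⁻¹ * |f (ζ.re - (B + 5) + W ζ)|) ≤ κ * ((c1 B * mo ζ) * M) := by
          apply mul_le_mul_of_nonneg_left _ hκ
          exact mul_le_mul h2 (hN.bd _) (abs_nonneg _) (by positivity)
      _ = _ := by ring
  · rw [hN.zero _ (not_le.mp h)]
    simp
    positivity

theorem src_diff (hN : NL f B M) (hκ : 0 ≤ κ) {ζ : ℂ} {x y : ℝ} (hx : |x| ≤ 1) (hy : |y| ≤ 1) :
    |src κ f B (fun ζ => om ζ * x) ζ - src κ f B (fun ζ => om ζ * y) ζ| ≤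
      κ * M * c1 B * |x - y| * mo ζ := by
  have hc1 := c1_pos hN.hB
  have hmo := mo_pos ζ
  have hM := hN.hM
  have hom := om_pos ζ
  unfold src
  have hx' : |om ζ * x| ≤ om ζ := by
    rw [abs_mul, abs_of_pos hom]; exact mul_le_of_le_one_right hom.le hx
  have hy' : |om ζ * y| ≤ om ζ := by
    rw [abs_mul, abs_of_pos hom]; exact mul_le_of_le_one_right hom.le hy
  have key : (‖ζ‖ ^ 2)⁻¹ * om ζ ≤ c1 B * mo ζ → 
      |κ * ((‖ζ‖ ^ 2)⁻¹ * f (ζ.re - (B + 5) + om ζ * x)) -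
        κ * ((‖ζ‖ ^ 2)⁻¹ * f (ζ.re - (B + 5) + om ζ * y))| ≤ κ * M * c1 B * |x - y| * mo ζ := by
    intro h1
    rw [← mul_sub, ← mul_sub, abs_mul, abs_mul, abs_of_nonneg hκ,
      abs_of_nonneg (by positivity : 0 ≤ (‖ζ‖ ^ 2)⁻¹)]
    have h2 := hN.lip (ζ.re - (B + 5) + om ζ * x) (ζ.re - (B + 5) + om ζ * y)
    have h3 : ζ.re - (B + 5) + om ζ * x - (ζ.re - (B + 5) + om ζ * y) = om ζ * (x - y) := by ring
    rw [h3, abs_mul, abs_of_pos hom] at h2
    calc _ ≤ κ * ((‖ζ‖ ^ 2)⁻¹ * (M * (om ζ * |x - y|))) := by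
          apply mul_le_mul_of_nonneg_left _ hκ
          exact mul_le_mul_of_nonneg_left h2 (by positivity)
      _ = κ * M * |x - y| * ((‖ζ‖ ^ 2)⁻¹ * om ζ) := by ring
      _ ≤ κ * M * |x - y| * (c1 B * mo ζ) := mul_le_mul_of_nonneg_left h1 (by positivity)
      _ = _ := by ring
  by_cases h : |ζ.re - (B + 5) + om ζ * x| ≤ B
  · exact key (strip_weight hN.hB hx' h)
  · by_cases h' : |ζ.re - (B + 5) + om ζ * y| ≤ B
    · exact key (strip_weight hN.hB hy' h')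
    · rw [hN.zero _ (not_le.mp h), hN.zero _ (not_le.mp h')]
      simp
      positivity

theorem src_zero_near {W : ℂ → ℝ} {ζ : ℂ} (hW : |W ζ| ≤ om ζ) (hζ : ‖ζ‖ < 2) :
    B < |ζ.re - (B + 5) + W ζ| := by
  by_contra h
  have := strip_norm hW (not_lt.mp h)
  linarith

theorem continuous_src (hN : NL f B M) {W : ℂ → ℝ} (hc : Continuous W)
    (hW : ∀ ζ, |W ζ| ≤ om ζ) : Continuous (src κ f B W) := by
  have hf : Continuous f := by
    have : LipschitzWith ⟨M, hN.hM.le⟩ f := by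
      apply LipschitzWith.of_dist_le_mul
      intro x y
      rw [Real.dist_eq, Real.dist_eq]
      exact hN.lip x y
    exact this.continuous
  rw [continuous_iff_continuousAt]
  intro ζ
  by_cases h : ‖ζ‖ < 2
  · have h1 : src κ f B W =ᶠ[𝓝 ζ] fun _ => 0 := by
      have h2 : ∀ᶠ z in 𝓝 ζ, ‖z‖ < 2 := (isOpen_lt continuous_norm continuous_const).mem_nhds h
      filter_upwards [h2] with z hz
      unfold src
      rw [hN.zero _ (src_zero_near (hW z) hz)]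
      simp
    exact (continuousAt_const).congr h1.symm
  · have hζ : ‖ζ‖ ≠ 0 := by
      push Not at h
      linarith
    unfold src
    have h1 : ContinuousAt (fun z : ℂ => (‖z‖ ^ 2)⁻¹) ζ := by
      apply ContinuousAt.inv₀ (by fun_prop)
      positivity
    have h2 : Continuous (fun z : ℂ => f (z.re - (B + 5) + W z)) :=
      hf.comp ((Complex.continuous_re.sub continuous_const).add hc)
    exact continuousAt_const.mul (h1.mul h2.continuousAt)

/-- clamp to `[-1,1]` -/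
noncomputable def clp (x : ℝ) : ℝ := max (-1) (min 1 x)

theorem abs_clp_le (x : ℝ) : |clp x| ≤ 1 := by
  unfold clp
  rw [abs_le]
  exact ⟨le_max_left _ _, max_le (by norm_num) (min_le_left _ _)⟩

theorem continuous_clp : Continuous clp := by unfold clp; fun_prop

theorem clp_sub_le (x y : ℝ) : |clp x - clp y| ≤ |x - y| := by
  unfold clp
  refine (abs_max_sub_max_le_max _ _ _ _).trans ?_
  refine max_le (by simp) ?_
  refine (abs_min_sub_min_le_max _ _ _ _).trans ?_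
  exact max_le (by simp) le_rfl

theorem clp_eq {x : ℝ} (h : |x| ≤ 1) : clp x = x := by
  unfold clp
  have := abs_le.mp h
  rw [min_eq_right this.2, max_eq_right this.1]

theorem logconv_bound {g : ℂ → ℝ} {G : ℝ} (hG : 0 ≤ G) (hb : ∀ z, ‖g z‖ ≤ G * mo z) (ζ : ℂ) :
    |∫ t, Real.log ‖t‖ * g (ζ - t)| ≤ 8 * G * c0 * om ζ := by
  have h1 : ∀ t, ‖Real.log ‖t‖ * g (ζ - t)‖ ≤ 8 * G * (kk t * mo (ζ - t)) := by
    intro t
    rw [norm_mul, Real.norm_eq_abs]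
    calc |Real.log ‖t‖| * ‖g (ζ - t)‖ ≤ (8 * kk t) * (G * mo (ζ - t)) :=
          mul_le_mul (abs_log_le_kk t) (hb _) (norm_nonneg _) (by linarith [kk_pos t])
      _ = _ := by ring
  calc |∫ t, Real.log ‖t‖ * g (ζ - t)| = ‖∫ t, Real.log ‖t‖ * g (ζ - t)‖ := rfl
    _ ≤ ∫ t, 8 * G * (kk t * mo (ζ - t)) :=
        norm_integral_le_of_norm_le ((integrable_kk_mul_mo ζ).const_mul _)
          (Eventually.of_forall h1)
    _ = 8 * G * ∫ t, kk t * mo (ζ - t) := integral_const_mul _ _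
    _ ≤ 8 * G * (c0 * om ζ) := mul_le_mul_of_nonneg_left (integral_kk_mul_mo_le ζ) (by positivity)
    _ = _ := by ring

theorem exists_fixed (hN : NL f B M) :
    ∃ κ > 0, κ * M * c1 B * c0 ≤ 1 / 2 ∧ ∃ W : ℂ → ℝ, Continuous W ∧ (∀ ζ, |W ζ| ≤ om ζ) ∧
      ∀ ζ, W ζ = (2 * π)⁻¹ * ∫ t, Real.log ‖t‖ * src κ f B W (ζ - t) := by
  have hc1 := c1_pos hN.hB
  have hM := hN.hM
  have hc0 := c0_nonneg
  set κ : ℝ := (2 * (8 * c0 + 1) * M * c1 B)⁻¹ with hκdef
  have hκ : 0 < κ := by positivity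
  have hκ8 : κ * M * c1 B * (8 * c0) ≤ 1 / 2 := by
    have : κ * M * c1 B * (2 * (8 * c0 + 1)) = 1 := by
      rw [hκdef]; field_simp
    have h2 : 0 < κ * M * c1 B := by positivity
    nlinarith
  have hκ1 : κ * M * c1 B * c0 ≤ 1 / 2 := by
    have h2 : 0 ≤ κ * M * c1 B * c0 := by positivity
    nlinarith
  have h2pi : (2 * π)⁻¹ ≤ 1 := by
    apply inv_le_one_of_one_le₀
    linarith [pi_gt_three]
  have h2pi0 : 0 < (2 * π)⁻¹ := by positivity
  -- the operator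
  let Wf : (ℂ →ᵇ ℝ) → ℂ → ℝ := fun v ζ => om ζ * clp (v ζ)
  have hWc : ∀ v, Continuous (Wf v) := fun v => continuous_om.mul (continuous_clp.comp v.continuous)
  have hWb : ∀ v ζ, |Wf v ζ| ≤ om ζ := by
    intro v ζ
    simp only [Wf]
    rw [abs_mul, abs_of_pos (om_pos ζ)]
    exact mul_le_of_le_one_right (om_pos ζ).le (abs_clp_le _)
  have hsb : ∀ v z, ‖src κ f B (Wf v) z‖ ≤ κ * M * c1 B * mo z :=
    fun v z => src_bound hN hκ.le (hWb v z)
  have hsc : ∀ v, Continuous (src κ f B (Wf v)) := fun v => continuous_src hN (hWc v) (hWb v)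
  let N : (ℂ →ᵇ ℝ) → ℂ → ℝ := fun v ζ => (2 * π)⁻¹ * ∫ t, Real.log ‖t‖ * src κ f B (Wf v) (ζ - t)
  have hNc : ∀ v, Continuous (N v) := by
    intro v
    apply continuous_const.mul
    rw [continuous_iff_continuousAt]
    intro x
    exact (hasFDerivAt_logpot (hsc v) (hsb v) x).continuousAt
  have hNb : ∀ v ζ, ‖N v ζ / om ζ‖ ≤ 1 := by
    intro v ζ
    rw [norm_div, Real.norm_eq_abs, Real.norm_eq_abs, abs_of_pos (om_pos ζ),
      div_le_one (om_pos ζ)]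
    simp only [N]
    rw [abs_mul, abs_of_pos h2pi0]
    have h1 := logconv_bound (by positivity) (hsb v) ζ
    have h3 : 8 * (κ * M * c1 B) * c0 * om ζ ≤ om ζ := by
      have : 8 * (κ * M * c1 B) * c0 ≤ 1 := by linarith
      exact mul_le_of_le_one_left (om_pos ζ).le this
    calc _ ≤ 1 * |∫ t, Real.log ‖t‖ * src κ f B (Wf v) (ζ - t)| :=
          mul_le_mul_of_nonneg_right h2pi (abs_nonneg _)
      _ ≤ om ζ := by rw [one_mul]; exact h1.trans h3
  let T : (ℂ →ᵇ ℝ) → (ℂ →ᵇ ℝ) := fun v =>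
    BoundedContinuousFunction.ofNormedAddCommGroup (fun ζ => N v ζ / om ζ)
      ((hNc v).div continuous_om (fun z => (om_pos z).ne')) 1 (hNb v)
  have hT : ContractingWith (1 / 2 : ℝ≥0) T := by
    refine ⟨by norm_num, ?_⟩
    apply LipschitzWith.of_dist_le_mul
    intro v w
    rw [BoundedContinuousFunction.dist_le (by positivity)]
    intro ζ
    simp only [T, BoundedContinuousFunction.coe_ofNormedAddCommGroup]
    rw [Real.dist_eq, ← sub_div, abs_div, abs_of_pos (om_pos ζ), div_le_iff₀ (om_pos ζ)]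
    simp only [N]
    rw [← mul_sub, ← integral_sub (integrable_logpot (hsc v) (hsb v) ζ)
      (integrable_logpot (hsc w) (hsb w) ζ), abs_mul, abs_of_pos h2pi0]
    have hdb : ∀ z, ‖src κ f B (Wf v) z - src κ f B (Wf w) z‖ ≤
        (κ * M * c1 B * dist v w) * mo z := by
      intro z
      have h1 := src_diff (ζ := z) hN hκ.le (abs_clp_le (v z)) (abs_clp_le (w z))
      have h2 : |clp (v z) - clp (w z)| ≤ dist v w := by
        refine (clp_sub_le _ _).trans ?_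
        rw [← Real.dist_eq]
        exact BoundedContinuousFunction.dist_coe_le_dist z
      refine h1.trans ?_
      apply mul_le_mul_of_nonneg_right _ (mo_pos z).le
      exact mul_le_mul_of_nonneg_left h2 (by positivity)
    have h5 := logconv_bound (by positivity) hdb ζ
    have h6 : (∫ t, (Real.log ‖t‖ * src κ f B (Wf v) (ζ - t) -
        Real.log ‖t‖ * src κ f B (Wf w) (ζ - t))) =
        ∫ t, Real.log ‖t‖ * (src κ f B (Wf v) (ζ - t) - src κ f B (Wf w) (ζ - t)) := by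
      congr 1; ext t; ring
    rw [h6]
    calc _ ≤ 1 * |∫ t, Real.log ‖t‖ * (src κ f B (Wf v) (ζ - t) - src κ f B (Wf w) (ζ - t))| :=
          mul_le_mul_of_nonneg_right h2pi (abs_nonneg _)
      _ ≤ 8 * (κ * M * c1 B * dist v w) * c0 * om ζ := by rw [one_mul]; exact h5
      _ = (κ * M * c1 B * (8 * c0)) * (dist v w * om ζ) := by ring
      _ ≤ (1 / 2) * (dist v w * om ζ) :=
          mul_le_mul_of_nonneg_right hκ8 (mul_nonneg dist_nonneg (om_pos ζ).le)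
      _ = _ := by push_cast; ring
  have hfp : Function.IsFixedPt T (ContractingWith.fixedPoint T hT) :=
    hT.fixedPoint_isFixedPt
  set v := ContractingWith.fixedPoint T hT with hv
  have hv1 : ∀ ζ, v ζ = N v ζ / om ζ := by
    intro ζ
    have : (T v) ζ = v ζ := by rw [hfp]
    rw [← this]
    rfl
  have hv2 : ∀ ζ, |v ζ| ≤ 1 := by
    intro ζ
    rw [hv1]
    exact hNb v ζ
  refine ⟨κ, hκ, hκ1, Wf v, hWc v, hWb v, fun ζ => ?_⟩
  have : Wf v ζ = N v ζ := by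
    simp only [Wf]
    rw [clp_eq (hv2 ζ), hv1 ζ]
    field_simp [(om_pos ζ).ne']
  exact this

end Pool.Agent.Helper26.HS
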