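import Pool.Agent.Helper26.HS6

open MeasureTheory Filter Topology Set Real
open scoped ENNReal NNReal BoundedContinuousFunction

set_option maxSynthPendingDepth 3

namespace Pool.Agent.Helper26.HS

variable {f : ℝ → ℝ} {B M κ : ℝ}

/-- derivative of the source -/
noncomputable def dsrc (κ : ℝ) (f : ℝ → ℝ) (B : ℝ) (W : ℂ → ℝ) (W' : ℂ → ℂ →L[ℝ] ℝ) (ζ : ℂ) :
    ℂ →L[ℝ] ℝ :=
  κ • ((‖ζ‖ ^ 2)⁻¹ • (deriv f (ζ.re - (B + 5) + W ζ) • (Complex.reCLM + W' ζ)) +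
    f (ζ.re - (B + 5) + W ζ) • ((-((‖ζ‖ ^ 2) ^ 2)⁻¹) • (2 • (innerSL ℝ ζ : ℂ →L[ℝ] ℝ))))

theorem hasFDerivAt_src (hf : ContDiff ℝ 1 f) (hN : NL f B M) (hdz : ∀ s, B < |s| → deriv f s = 0)
    {W : ℂ → ℝ} {W' : ℂ → ℂ →L[ℝ] ℝ} (hW : ∀ ζ, |W ζ| ≤ om ζ)
    (hd : ∀ ζ, HasFDerivAt W (W' ζ) ζ) (ζ : ℂ) :
    HasFDerivAt (src κ f B W) (dsrc κ f B W W' ζ) ζ := by
  by_cases h : ‖ζ‖ < 2
  · have h1 : src κ f B W =ᶠ[𝓝 ζ] fun _ => 0 := by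
      have h2 : ∀ᶠ z in 𝓝 ζ, ‖z‖ < 2 := (isOpen_lt continuous_norm continuous_const).mem_nhds h
      filter_upwards [h2] with z hz
      unfold src
      rw [hN.zero _ (src_zero_near (hW z) hz)]
      simp
    have h2 : dsrc κ f B W W' ζ = 0 := by
      unfold dsrc
      rw [hN.zero _ (src_zero_near (hW ζ) h), hdz _ (src_zero_near (hW ζ) h)]
      simp
    rw [h2]
    exact (hasFDerivAt_const (0 : ℝ) ζ).congr_of_eventuallyEq h1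
  · have hζ : ‖ζ‖ ≠ 0 := by
      push Not at h
      linarith
    have hζ2 : ‖ζ‖ ^ 2 ≠ 0 := by positivity
    have h1 : HasFDerivAt (fun z : ℂ => ‖z‖ ^ 2) (2 • (innerSL ℝ ζ)) ζ :=
      (hasStrictFDerivAt_norm_sq ζ).hasFDerivAt
    have h2 : HasFDerivAt (fun z : ℂ => (‖z‖ ^ 2)⁻¹)
        ((-((‖ζ‖ ^ 2) ^ 2)⁻¹) • (2 • (innerSL ℝ ζ : ℂ →L[ℝ] ℝ))) ζ := by
      exact (hasDerivAt_inv hζ2).comp_hasFDerivAt ζ h1
    have h3 : HasFDerivAt (fun z : ℂ => z.re - (B + 5) + W z) (Complex.reCLM + W' ζ) ζ := by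
      have e1 : HasFDerivAt (fun z : ℂ => z.re) Complex.reCLM ζ := Complex.reCLM.hasFDerivAt
      exact (e1.sub_const (B + 5)).add (hd ζ)
    have h4 : HasFDerivAt (fun z : ℂ => f (z.re - (B + 5) + W z))
        (deriv f (ζ.re - (B + 5) + W ζ) • (Complex.reCLM + W' ζ)) ζ := by
      have e1 : HasDerivAt f (deriv f (ζ.re - (B + 5) + W ζ)) (ζ.re - (B + 5) + W ζ) :=
        ((hf.differentiable one_ne_zero) _).hasDerivAt
      exact e1.comp_hasFDerivAt ζ h3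
    exact (h2.mul h4).const_mul κ

theorem continuous_dsrc (hf : ContDiff ℝ 1 f) (hN : NL f B M)
    (hdz : ∀ s, B < |s| → deriv f s = 0)
    {W : ℂ → ℝ} {W' : ℂ → ℂ →L[ℝ] ℝ} (hW : ∀ ζ, |W ζ| ≤ om ζ) (hWc : Continuous W)
    (hWc' : Continuous W') : Continuous (dsrc κ f B W W') := by
  rw [continuous_iff_continuousAt]
  intro ζ
  by_cases h : ‖ζ‖ < 2
  · have h1 : dsrc κ f B W W' =ᶠ[𝓝 ζ] fun _ => 0 := by
      have h2 : ∀ᶠ z in 𝓝 ζ, ‖z‖ < 2 := (isOpen_lt continuous_norm continuous_const).mem_nhds h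
      filter_upwards [h2] with z hz
      unfold dsrc
      rw [hN.zero _ (src_zero_near (hW z) hz), hdz _ (src_zero_near (hW z) hz)]
      simp
    exact (continuousAt_const).congr h1.symm
  · have hζ : ‖ζ‖ ≠ 0 := by
      push Not at h
      linarith
    have h1 : ContinuousAt (fun z : ℂ => (‖z‖ ^ 2)⁻¹) ζ := by
      apply ContinuousAt.inv₀ (by fun_prop)
      positivity
    have h1' : ContinuousAt (fun z : ℂ => -((‖z‖ ^ 2) ^ 2)⁻¹) ζ := by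
      apply ContinuousAt.neg
      apply ContinuousAt.inv₀ (by fun_prop)
      positivity
    have hc0 : Continuous (fun z : ℂ => z.re - (B + 5) + W z) :=
      (Complex.continuous_re.sub continuous_const).add hWc
    have h2 : Continuous (fun z : ℂ => f (z.re - (B + 5) + W z)) := hf.continuous.comp hc0
    have h3 : Continuous (fun z : ℂ => deriv f (z.re - (B + 5) + W z)) :=
      (hf.continuous_deriv le_rfl).comp hc0
    have h4 : Continuous (fun z : ℂ => (2 • (innerSL ℝ z : ℂ →L[ℝ] ℝ))) := by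
      have : Continuous (fun z : ℂ => (innerSL ℝ z : ℂ →L[ℝ] ℝ)) := (innerSL ℝ (E := ℂ)).continuous
      exact this.const_smul 2
    have h5 : Continuous (fun z : ℂ => Complex.reCLM + W' z) := continuous_const.add hWc'
    have e1 := h1.smul (h3.smul h5).continuousAt
    have e2 := (h2.continuousAt (x := ζ)).smul (h1'.smul h4.continuousAt)
    exact (e1.add e2).const_smul κ

theorem dsrc_bound (hN : NL f B M) (hdb : ∀ s, |deriv f s| ≤ M)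
    (hdz : ∀ s, B < |s| → deriv f s = 0) (hκ : 0 ≤ κ)
    {W : ℂ → ℝ} {W' : ℂ → ℂ →L[ℝ] ℝ} (hW : ∀ ζ, |W ζ| ≤ om ζ) (hW' : ∀ ζ, ‖W' ζ‖ ≤ 1) (ζ : ℂ) :
    ‖dsrc κ f B W W' ζ‖ ≤ (4 * κ * M * c1 B) * mo ζ := by
  have hc1 := c1_pos hN.hB
  have hmo := mo_pos ζ
  have hM := hN.hM
  unfold dsrc
  by_cases h : |ζ.re - (B + 5) + W ζ| ≤ B
  · have h1 := strip_weight hN.hB (hW ζ) h
    have h2 : (‖ζ‖ ^ 2)⁻¹ ≤ c1 B * mo ζ := by
      refine le_trans ?_ h1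
      exact le_mul_of_one_le_right (by positivity) (one_le_om ζ)
    have hn := strip_norm (hW ζ) h
    have hre : ‖Complex.reCLM + W' ζ‖ ≤ 2 := by
      refine (norm_add_le _ _).trans ?_
      have e1 : ‖(Complex.reCLM : ℂ →L[ℝ] ℝ)‖ = 1 := Complex.reCLM_norm
      rw [e1]; linarith [hW' ζ]
    rw [norm_smul, Real.norm_eq_abs, abs_of_nonneg hκ]
    have e1 : ‖(‖ζ‖ ^ 2)⁻¹ • (deriv f (ζ.re - (B + 5) + W ζ) • (Complex.reCLM + W' ζ))‖ ≤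
        (‖ζ‖ ^ 2)⁻¹ * (M * 2) := by
      rw [norm_smul, norm_smul, Real.norm_eq_abs, Real.norm_eq_abs,
        abs_of_nonneg (by positivity : 0 ≤ (‖ζ‖ ^ 2)⁻¹)]
      apply mul_le_mul_of_nonneg_left _ (by positivity)
      exact mul_le_mul (hdb _) hre (norm_nonneg _) hM.le
    have e2 : ‖f (ζ.re - (B + 5) + W ζ) • ((-((‖ζ‖ ^ 2) ^ 2)⁻¹) •
        (2 • (innerSL ℝ ζ : ℂ →L[ℝ] ℝ)))‖ ≤ (‖ζ‖ ^ 2)⁻¹ * (M * 2) := by
      rw [norm_smul, norm_smul, Real.norm_eq_abs, norm_neg, norm_inv, Real.norm_eq_abs,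
        abs_of_nonneg (by positivity : 0 ≤ (‖ζ‖ ^ 2) ^ 2), ← Nat.cast_smul_eq_nsmul ℝ, norm_smul,
        innerSL_apply_norm]
      have e3 : ((‖ζ‖ ^ 2) ^ 2)⁻¹ * (‖((2 : ℕ) : ℝ)‖ * ‖ζ‖) ≤ (‖ζ‖ ^ 2)⁻¹ * 2 := by
        have hz : 0 < ‖ζ‖ := by linarith
        have : ((‖ζ‖ ^ 2) ^ 2)⁻¹ * (‖((2 : ℕ) : ℝ)‖ * ‖ζ‖) = (‖ζ‖ ^ 2)⁻¹ * (2 * ‖ζ‖⁻¹) := by
          simp
          field_simp
        rw [this]
        apply mul_le_mul_of_nonneg_left _ (by positivity)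
        have : ‖ζ‖⁻¹ ≤ 1 := inv_le_one_of_one_le₀ (by linarith)
        linarith
      calc |f (ζ.re - (B + 5) + W ζ)| * (((‖ζ‖ ^ 2) ^ 2)⁻¹ * (‖((2 : ℕ) : ℝ)‖ * ‖ζ‖)) ≤
            M * ((‖ζ‖ ^ 2)⁻¹ * 2) := mul_le_mul (hN.bd _) e3 (by positivity) hM.le
        _ = _ := by ring
    calc _ ≤ κ * ((‖ζ‖ ^ 2)⁻¹ * (M * 2) + (‖ζ‖ ^ 2)⁻¹ * (M * 2)) :=
          mul_le_mul_of_nonneg_left ((norm_add_le _ _).trans (add_le_add e1 e2)) hκ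
      _ = (4 * κ * M) * (‖ζ‖ ^ 2)⁻¹ := by ring
      _ ≤ (4 * κ * M) * (c1 B * mo ζ) := mul_le_mul_of_nonneg_left h2 (by positivity)
      _ = _ := by ring
  · rw [hN.zero _ (not_le.mp h), hdz _ (not_le.mp h)]
    simp
    positivity

/-- The planar solution: `U = Re ζ - (B+5) + W`. -/
theorem exists_planar (hf : ContDiff ℝ 1 f) (hc : HasCompactSupport f) :
    ∃ κ > 0, ∃ c ≥ 5, ∃ (U : ℂ → ℝ) (U' : ℂ → ℂ →L[ℝ] ℝ) (U'' : ℂ → ℂ →L[ℝ] (ℂ →L[ℝ] ℝ)),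
      (∀ ζ, |U ζ - (ζ.re - c)| ≤ om ζ) ∧
      (∀ ζ, HasFDerivAt U (U' ζ) ζ) ∧ (∀ ζ, HasFDerivAt U' (U'' ζ) ζ) ∧ Continuous U'' ∧
      (∀ ζ, ‖U' ζ - Complex.reCLM‖ ≤ 1 / 2) ∧
      ∀ ζ w, U'' ζ w w + U'' ζ (Complex.I * w) (Complex.I * w) =
        ‖w‖ ^ 2 * (κ * ((‖ζ‖ ^ 2)⁻¹ * f (U ζ))) := by
  obtain ⟨B, M, hN, hdb, hdz⟩ := exists_NL hf hc
  obtain ⟨κ, hκ, hκ1, W, hWc, hWb, hW⟩ := exists_fixed hN
  have hB := hN.hB
  have hM := hN.hM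
  have hc1 := c1_pos hN.hB
  have hsb : ∀ z, ‖src κ f B W z‖ ≤ κ * M * c1 B * mo z := fun z => src_bound hN hκ.le (hWb z)
  have hsc : Continuous (src κ f B W) := continuous_src hN hWc hWb
  have h2pi : (2 * π)⁻¹ ≤ 1 := by
    apply inv_le_one_of_one_le₀
    linarith [pi_gt_three]
  have h2pi0 : 0 < (2 * π)⁻¹ := by positivity
  set W' : ℂ → ℂ →L[ℝ] ℝ := fun ζ => (2 * π)⁻¹ • gpot (src κ f B W) ζ with hW'
  have hWd : ∀ ζ, HasFDerivAt W (W' ζ) ζ := by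
    intro ζ
    have h1 := (hasFDerivAt_logpot hsc hsb ζ).const_mul (2 * π)⁻¹
    have h2 : W = fun ζ => (2 * π)⁻¹ * ∫ t, Real.log ‖t‖ * src κ f B W (ζ - t) := funext hW
    rw [← h2] at h1
    exact h1
  have hWc' : Continuous W' := (continuous_gpot hsc hsb).const_smul ((2 * π)⁻¹ : ℝ)
  have hWn : ∀ ζ, ‖W' ζ‖ ≤ 1 / 2 := by
    intro ζ
    simp only [hW']
    rw [norm_smul, Real.norm_eq_abs, abs_of_pos h2pi0]
    have := norm_gpot_le hsc hsb ζ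
    calc (2 * π)⁻¹ * ‖gpot (src κ f B W) ζ‖ ≤ 1 * (κ * M * c1 B * c0) :=
          mul_le_mul h2pi this (norm_nonneg _) (by norm_num)
      _ ≤ 1 / 2 := by rw [one_mul]; exact hκ1
  have hsd : ∀ ζ, HasFDerivAt (src κ f B W) (dsrc κ f B W W' ζ) ζ :=
    hasFDerivAt_src hf hN hdz hWb hWd
  have hsc' : Continuous (dsrc κ f B W W') := continuous_dsrc hf hN hdz hWb hWc hWc'
  have hsb' : ∀ z, ‖dsrc κ f B W W' z‖ ≤ (4 * κ * M * c1 B) * mo z :=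
    dsrc_bound hN hdb hdz hκ.le hWb (fun z => (hWn z).trans (by norm_num))
  have hWd' : ∀ ζ, HasFDerivAt W' ((2 * π)⁻¹ • hpot (dsrc κ f B W W') ζ) ζ := by
    intro ζ
    exact (hasFDerivAt_gpot hsd hsc' hsb hsb' ζ).const_smul (2 * π)⁻¹
  refine ⟨κ, hκ, B + 5, by linarith, fun ζ => ζ.re - (B + 5) + W ζ,
    fun ζ => Complex.reCLM + W' ζ, fun ζ => (2 * π)⁻¹ • hpot (dsrc κ f B W W') ζ,
    ?_, ?_, ?_, ?_, ?_, ?_⟩
  · intro ζ
    simp only [add_sub_cancel_left]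
    exact hWb ζ
  · intro ζ
    have e1 : HasFDerivAt (fun z : ℂ => z.re) Complex.reCLM ζ := Complex.reCLM.hasFDerivAt
    exact (e1.sub_const (B + 5)).add (hWd ζ)
  · intro ζ
    exact (hWd' ζ).const_add _
  · exact (continuous_hpot hsc' hsb').const_smul ((2 * π)⁻¹ : ℝ)
  · intro ζ
    simp only [add_sub_cancel_left]
    exact hWn ζ
  · intro ζ w
    have h1 := trace_hpot hsd hsb hsb' hsc' ζ w
    simp only [smul_apply, smul_eq_mul]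
    rw [← mul_add, h1]
    unfold src
    field_simp

end Pool.Agent.Helper26.HS
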