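import Pool.Agent.Helper26.HS7

open MeasureTheory Filter Topology Set Real InnerProductSpace
open scoped ENNReal NNReal ContDiff Laplacian Gradient

set_option maxSynthPendingDepth 3

namespace Pool.Agent.Helper26.HS

/-- three-space -/
abbrev E3 := EuclideanSpace ℝ (Fin 3)

/-- `x ↦ x₀ + i x₁` -/
noncomputable def pr : E3 →L[ℝ] ℂ :=
  (EuclideanSpace.proj (0 : Fin 3) : E3 →L[ℝ] ℝ).smulRight (1 : ℂ) +
    (EuclideanSpace.proj (1 : Fin 3) : E3 →L[ℝ] ℝ).smulRight Complex.I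

theorem pr_apply (x : E3) : pr x = (x 0 : ℂ) + (x 1 : ℂ) * Complex.I := by
  unfold pr
  simp

/-- `x ↦ exp (l (x₀ + i x₁))` -/
noncomputable def psi (l : ℝ) (x : E3) : ℂ := Complex.exp ((l • pr) x)

theorem norm_psi (l : ℝ) (x : E3) : ‖psi l x‖ = Real.exp (l * x 0) := by
  unfold psi
  rw [Complex.norm_exp, smul_apply, pr_apply]
  simp

theorem psi_ne_zero (l : ℝ) (x : E3) : psi l x ≠ 0 := Complex.exp_ne_zero _

theorem contDiff_psi (l : ℝ) {n : WithTop ℕ∞} : ContDiff ℝ n (psi l) :=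
  (l • pr).contDiff.cexp

theorem hasFDerivAt_psi (l : ℝ) (x : E3) : HasFDerivAt (psi l) (psi l x • (l • pr)) x :=
  (l • pr).hasFDerivAt.cexp

theorem hasFDerivAt_psi' (l : ℝ) (x : E3) :
    HasFDerivAt (fun x => psi l x • (l • pr))
      ((psi l x • (l • pr)).smulRight (l • pr)) x :=
  (hasFDerivAt_psi l x).smul_const (l • pr)

variable {f : ℝ → ℝ} {κ c : ℝ} {U : ℂ → ℝ} {U' : ℂ → ℂ →L[ℝ] ℝ}
  {U'' : ℂ → ℂ →L[ℝ] (ℂ →L[ℝ] ℝ)}

theorem contDiff_two (hU : ∀ ζ, HasFDerivAt U (U' ζ) ζ) (hU' : ∀ ζ, HasFDerivAt U' (U'' ζ) ζ)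
    (hc : Continuous U'') : ContDiff ℝ 2 U := by
  have h1 : ContDiff ℝ 1 U' := contDiff_one_iff_hasFDerivAt.mpr ⟨U'', hc, hU'⟩
  have := (contDiff_succ_iff_hasFDerivAt (𝕜 := ℝ) (n := 1) (f := U)).mpr ⟨U', h1, hU⟩
  exact this

theorem laplacian_comp (hU : ∀ ζ, HasFDerivAt U (U' ζ) ζ)
    (hU' : ∀ ζ, HasFDerivAt U' (U'' ζ) ζ) {l : ℝ} (hl : l ^ 2 * κ = 1)
    (htr : ∀ ζ w, U'' ζ w w + U'' ζ (Complex.I * w) (Complex.I * w) =
        ‖w‖ ^ 2 * (κ * ((‖ζ‖ ^ 2)⁻¹ * f (U ζ)))) (x : E3) :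
    Δ (fun x => U (psi l x)) x = f (U (psi l x)) := by
  have hd1 : ∀ x, HasFDerivAt (fun x => U (psi l x)) ((U' (psi l x)).comp (psi l x • (l • pr))) x :=
    fun x => (hU (psi l x)).comp x (hasFDerivAt_psi l x)
  have hf1 : fderiv ℝ (fun x => U (psi l x)) = fun x => (U' (psi l x)).comp (psi l x • (l • pr)) :=
    funext fun x => (hd1 x).fderiv
  have hd2 := ((hU' (psi l x)).comp x (hasFDerivAt_psi l x)).clm_comp (hasFDerivAt_psi' l x)
  have hf2 := hd2.fderiv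
  have key : ∀ v : E3, iteratedFDeriv ℝ 2 (fun x => U (psi l x)) x ![v, v] =
      U'' (psi l x) (psi l x * (l * pr v)) (psi l x * (l * pr v)) +
        U' (psi l x) (psi l x * (l * pr v) * (l * pr v)) := by
    intro v
    rw [iteratedFDeriv_two_apply, hf1]
    have : fderiv ℝ (fun x => (U' (psi l x)).comp (psi l x • (l • pr))) x = _ := hf2
    rw [this]
    simp
    ring
  rw [laplacian_eq_iteratedFDeriv_orthonormalBasis _ (EuclideanSpace.basisFun (Fin 3) ℝ)]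
  simp only [key]
  rw [Fin.sum_univ_three]
  have e0 : pr (EuclideanSpace.basisFun (Fin 3) ℝ 0) = 1 := by rw [pr_apply]; simp
  have e1 : pr (EuclideanSpace.basisFun (Fin 3) ℝ 1) = Complex.I := by rw [pr_apply]; simp
  have e2 : pr (EuclideanSpace.basisFun (Fin 3) ℝ 2) = 0 := by rw [pr_apply]; simp
  rw [e0, e1, e2]
  have h1 := htr (psi l x) (psi l x * l)
  have h2 : psi l x * (l * 1) = psi l x * l := by ring
  have h3 : psi l x * (l * Complex.I) = Complex.I * (psi l x * l) := by ring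
  have h4 : Complex.I * (psi l x * l) * (l * Complex.I) = -(psi l x * l * l) := by
    have : Complex.I * Complex.I = -1 := Complex.I_mul_I
    linear_combination (psi l x * l * l) * this
  have h5 : psi l x * l * (l * 1) = psi l x * l * l := by ring
  rw [h2, h3, h4, h5, map_neg]
  have h6 : psi l x * (l * 0) = 0 := by ring
  rw [h6]
  simp only [map_zero, zero_mul]
  have hn : ‖psi l x‖ ≠ 0 := norm_ne_zero_iff.mpr (psi_ne_zero l x)
  have h7 : ‖psi l x * l‖ ^ 2 * (κ * ((‖psi l x‖ ^ 2)⁻¹ * f (U (psi l x)))) =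
      f (U (psi l x)) := by
    rw [norm_mul, Complex.norm_real, mul_pow, Real.norm_eq_abs, sq_abs]
    field_simp
    linear_combination f (U (psi l x)) * hl
  rw [h7] at h1
  linarith

end Pool.Agent.Helper26.HS
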