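import Pool.Agent.Helper26.HS8

open MeasureTheory Filter Topology Set Real InnerProductSpace
open scoped ENNReal NNReal ContDiff Laplacian Gradient

set_option maxSynthPendingDepth 3

namespace Pool.Agent.Helper26.HS

theorem inner_E3 (e x : E3) : ⟪e, x⟫_ℝ = e 0 * x 0 + e 1 * x 1 + e 2 * x 2 := by
  rw [PiLp.inner_apply, Fin.sum_univ_three]
  simp
  ring

theorem main_exists {f : ℝ → ℝ} (hf : ContDiff ℝ 1 f) (hc : HasCompactSupport f) :
    ∃ u : E3 → ℝ, ContDiff ℝ 2 u ∧ (∀ x, Δ u x = f (u x)) ∧ (∀ x, ∇ u x ≠ 0) ∧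
      (∀ x, 0 < u x → 0 < x 0) ∧ (∃ x, 0 < u x) ∧
      ¬ ∃ (e : E3) (c : ℝ) (V : ℝ → ℝ), ‖e‖ = 1 ∧ ∀ x, u x = V (⟪e, x⟫_ℝ + c) := by
  obtain ⟨κ, hκ, c, hc5, U, U', U'', hUb, hU, hU', hU'', hUn, htr⟩ := exists_planar hf hc
  set l : ℝ := (Real.sqrt κ)⁻¹ with hl
  have hl0 : 0 < l := by
    rw [hl]
    exact inv_pos.mpr (Real.sqrt_pos.mpr hκ)
  have hlκ : l ^ 2 * κ = 1 := by
    rw [hl, inv_pow, Real.sq_sqrt hκ.le]
    field_simp
  have hlC : (l : ℂ) ≠ 0 := Complex.ofReal_ne_zero.mpr hl0.ne'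
  have hpos : ∃ x : E3, 0 < U (psi l x) := by
    refine ⟨!₂[Real.log ((c + 3) ^ 2) / l, 0, 0], ?_⟩
    have h1 : psi l !₂[Real.log ((c + 3) ^ 2) / l, 0, 0] = (((c + 3) ^ 2 : ℝ) : ℂ) := by
      unfold psi
      rw [smul_apply, pr_apply]
      have h2 : ((l : ℝ) • (((!₂[Real.log ((c + 3) ^ 2) / l, 0, 0] : E3) 0 : ℂ) +
          ((!₂[Real.log ((c + 3) ^ 2) / l, 0, 0] : E3) 1 : ℂ) * Complex.I)) =
          ((Real.log ((c + 3) ^ 2) : ℝ) : ℂ) := by
        simp
        field_simp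
      rw [h2, ← Complex.ofReal_exp, Real.exp_log (by positivity)]
    rw [h1]
    have h2 := abs_le.mp (hUb (((c + 3) ^ 2 : ℝ) : ℂ))
    have h3 : om (((c + 3) ^ 2 : ℝ) : ℂ) ≤ c + 4 := by
      unfold om
      rw [Complex.norm_real, Real.norm_eq_abs, abs_of_nonneg (by positivity)]
      calc (1 + (c + 3) ^ 2) ^ (1 / 8 : ℝ) ≤ (1 + (c + 3) ^ 2) ^ (1 / 2 : ℝ) :=
            Real.rpow_le_rpow_of_exponent_le (by nlinarith) (by norm_num)
        _ = Real.sqrt (1 + (c + 3) ^ 2) := (Real.sqrt_eq_rpow _).symm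
        _ ≤ c + 4 := by
            rw [Real.sqrt_le_left (by linarith)]
            nlinarith
    rw [Complex.ofReal_re] at h2
    nlinarith [h2.1]
  have hhalf : ∀ x : E3, 0 < U (psi l x) → 0 < x 0 := by
    intro x hx
    by_contra h
    push Not at h
    have h1 : ‖psi l x‖ ≤ 1 := by
      rw [norm_psi, Real.exp_le_one_iff]
      nlinarith
    have h2 := abs_le.mp (hUb (psi l x))
    have h3 := om_le_two (h1.trans (by norm_num : (1 : ℝ) ≤ 2))
    have h4 : (psi l x).re ≤ 1 := (Complex.re_le_norm _).trans h1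
    linarith [h2.2]
  refine ⟨fun x => U (psi l x), (contDiff_two hU hU' hU'').comp (contDiff_psi l), ?_, ?_, ?_, ?_,
    ?_⟩
  · intro x
    exact laplacian_comp hU hU' hlκ htr x
  · intro x hx
    have hd : HasFDerivAt (fun x => U (psi l x)) ((U' (psi l x)).comp (psi l x • (l • pr))) x :=
      (hU (psi l x)).comp x (hasFDerivAt_psi l x)
    unfold gradient at hx
    rw [hd.fderiv] at hx
    have hx2 : (U' (psi l x)).comp (psi l x • (l • pr)) = 0 := by
      have := congrArg (toDual ℝ E3) hx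
      simpa using this
    set w : ℂ := (psi l x * l)⁻¹ with hw
    have hw1 : psi l x * l ≠ 0 :=
      mul_ne_zero (psi_ne_zero l x) (Complex.ofReal_ne_zero.mpr hl0.ne')
    have hpv : pr !₂[w.re, w.im, 0] = w := by
      rw [pr_apply]
      simp [Complex.re_add_im]
    have h1 := congrArg (fun φ : E3 →L[ℝ] ℝ => φ !₂[w.re, w.im, 0]) hx2
    simp only [ContinuousLinearMap.comp_apply, smul_apply, hpv, zero_apply] at h1
    have h2 : psi l x • (l • w) = 1 := by
      rw [smul_eq_mul, Complex.real_smul, ← mul_assoc, hw]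
      exact mul_inv_cancel₀ hw1
    rw [h2] at h1
    have h3 := (U' (psi l x) - Complex.reCLM).le_opNorm 1
    rw [norm_one, mul_one] at h3
    have h4 := h3.trans (hUn (psi l x))
    rw [sub_apply, h1, Complex.reCLM_apply, Complex.one_re, zero_sub, norm_neg, norm_one] at h4
    norm_num at h4
  · exact hhalf
  · exact hpos
  · rintro ⟨e, c', V, he, hV'⟩
    have hV : ∀ x, U (psi l x) = V (⟪e, x⟫_ℝ + c') := hV'
    obtain ⟨xs, hxs⟩ := hpos
    have hn : e 0 ^ 2 + e 1 ^ 2 + e 2 ^ 2 = 1 := by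
      have := EuclideanSpace.norm_sq_eq e
      rw [he, Fin.sum_univ_three] at this
      simp only [Real.norm_eq_abs, sq_abs] at this
      linarith
    have h0 : e 0 ^ 2 = 1 := by
      by_contra hne
      have ha : 1 - e 0 ^ 2 ≠ 0 := fun h => hne (by linarith)
      set s : ℝ := - (xs 0) / (1 - e 0 ^ 2) with hs
      set y : E3 := xs + s • (!₂[1, 0, 0] - e 0 • e) with hy
      have hy0 : y 0 = 0 := by
        have : y 0 = xs 0 + s * (1 - e 0 * e 0) := by
          rw [hy]; simp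
        rw [this, hs]
        field_simp
        ring
      have hye : ⟪e, y⟫_ℝ = ⟪e, xs⟫_ℝ := by
        rw [hy, inner_add_right, inner_smul_right, inner_sub_right, inner_smul_right,
          real_inner_self_eq_norm_sq, he]
        have : ⟪e, (!₂[1, 0, 0] : E3)⟫_ℝ = e 0 := by
          rw [inner_E3]; simp
        rw [this]
        ring
      have h1 : U (psi l y) = U (psi l xs) := by
        rw [hV y, hV xs, hye]
      have h2 := hhalf y (by rw [h1]; exact hxs)
      rw [hy0] at h2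
      exact lt_irrefl _ h2
    have h1 : e 1 = 0 := by nlinarith [sq_nonneg (e 1), sq_nonneg (e 2)]
    set z : E3 := !₂[0, π / l, 0] with hz
    have h2 : U (psi l z) = U (psi l 0) := by
      rw [hV z, hV 0]
      congr 2
      rw [inner_E3, inner_E3, hz, h1]
      simp
    have h3 : psi l 0 = 1 := by
      unfold psi; simp
    have h4 : psi l z = -1 := by
      unfold psi
      rw [smul_apply, pr_apply]
      have h5 : ((l : ℝ) • ((z 0 : ℂ) + (z 1 : ℂ) * Complex.I)) = π * Complex.I := by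
        rw [hz]
        simp
        field_simp
      rw [h5, Complex.exp_pi_mul_I]
    rw [h3, h4] at h2
    have h6 : ‖(U 1 - (1 : ℂ).re) - (U (-1) - (-1 : ℂ).re)‖ ≤ 1 / 2 * ‖(1 : ℂ) - (-1)‖ := by
      apply Convex.norm_image_sub_le_of_norm_hasFDerivWithin_le (𝕜 := ℝ) (s := (univ : Set ℂ))
        (f := fun ζ : ℂ => U ζ - ζ.re) (f' := fun ζ => U' ζ - Complex.reCLM)
      · intro ζ _
        have e1 : HasFDerivAt (fun z : ℂ => z.re) Complex.reCLM ζ := Complex.reCLM.hasFDerivAt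
        exact ((hU ζ).sub e1).hasFDerivWithinAt
      · intro ζ _
        exact hUn ζ
      · exact convex_univ
      · exact mem_univ _
      · exact mem_univ _
    rw [h2] at h6
    have h7 : ‖(1 : ℂ) - (-1)‖ = 2 := by norm_num
    rw [h7, Real.norm_eq_abs] at h6
    simp at h6
    have := (abs_le.mp h6).1
    linarith

end Pool.Agent.Helper26.HS
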