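import Pool.Agent.Helper26.Flux2

open MeasureTheory Filter Topology Set Real
open scoped ENNReal NNReal

namespace Pool.Agent.Helper26

/-- The truncated logarithmic kernel `log max(|z - w|, ρ)`. -/
noncomputable def lk (ρ : ℝ) (w z : ℂ) : ℝ := Real.log (max ‖z - w‖ ρ)

theorem lk_symm (ρ : ℝ) (w z : ℂ) : lk ρ w z = lk ρ z w := by
  unfold lk
  rw [norm_sub_rev]

theorem log_le_lk {ρ : ℝ} (hρ : 0 < ρ) (w z : ℂ) : Real.log ρ ≤ lk ρ w z :=
  Real.log_le_log hρ (le_max_right _ _)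

theorem abs_log_sub_log_le {ρ x y : ℝ} (hρ : 0 < ρ) (hx : ρ ≤ x) (hy : ρ ≤ y) :
    |Real.log x - Real.log y| ≤ ρ⁻¹ * |x - y| := by
  wlog h : y ≤ x generalizing x y
  · rw [abs_sub_comm, abs_sub_comm x y]
    exact this hy hx (le_of_not_ge h)
  have hx0 : 0 < x := hρ.trans_le hx
  have hy0 : 0 < y := hρ.trans_le hy
  rw [abs_of_nonneg (sub_nonneg.mpr (Real.log_le_log hy0 h)), abs_of_nonneg (sub_nonneg.mpr h),
    ← Real.log_div hx0.ne' hy0.ne']
  have h1 := Real.log_le_sub_one_of_pos (div_pos hx0 hy0)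
  have h2 : x / y - 1 = y⁻¹ * (x - y) := by
    field_simp
  rw [h2] at h1
  refine h1.trans ?_
  apply mul_le_mul_of_nonneg_right _ (sub_nonneg.mpr h)
  exact inv_anti₀ hρ hy

theorem lk_lipschitz {ρ : ℝ} (hρ : 0 < ρ) (w : ℂ) : LipschitzWith (Real.toNNReal ρ⁻¹) (lk ρ w) := by
  apply LipschitzWith.of_dist_le_mul
  intro x y
  rw [Real.coe_toNNReal _ (by positivity), Real.dist_eq]
  unfold lk
  refine (abs_log_sub_log_le hρ (le_max_right _ _) (le_max_right _ _)).trans ?_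
  apply mul_le_mul_of_nonneg_left _ (by positivity)
  refine (abs_max_sub_max_le_abs _ _ _).trans ?_
  refine (abs_norm_sub_norm_le _ _).trans ?_
  rw [dist_eq_norm]
  simp

theorem continuous_lk {ρ : ℝ} (hρ : 0 < ρ) (w : ℂ) : Continuous (lk ρ w) :=
  (lk_lipschitz hρ w).continuous

theorem hasFDerivAt_lk {ρ : ℝ} (hρ : 0 < ρ) {w z : ℂ} (h : ‖z - w‖ ≠ ρ) :
    HasFDerivAt (lk ρ w) (innerSL ℝ (fld ρ w z)) z := by
  rcases lt_or_gt_of_ne h with h | h
  · have h1 : fld ρ w z = 0 := by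
      unfold fld
      rw [if_neg (not_lt.mpr h.le)]
    rw [h1, map_zero]
    have h2 : lk ρ w =ᶠ[𝓝 z] fun _ => Real.log ρ := by
      have : ∀ᶠ y in 𝓝 z, ‖y - w‖ < ρ := by
        have hc : Continuous (fun y : ℂ => ‖y - w‖) := by fun_prop
        exact hc.continuousAt.eventually (gt_mem_nhds h)
      filter_upwards [this] with y hy
      unfold lk
      rw [max_eq_right hy.le]
    exact (hasFDerivAt_const (Real.log ρ) z).congr_of_eventuallyEq h2
  · have h0 : 0 < ‖z - w‖ := hρ.trans h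
    have h1 : fld ρ w z = ((‖z - w‖ ^ 2)⁻¹ : ℝ) • (z - w) := by
      unfold fld
      rw [if_pos h]
    rw [h1]
    have h2 : lk ρ w =ᶠ[𝓝 z] fun y => (1 / 2) * Real.log (‖y - w‖ ^ 2) := by
      have : ∀ᶠ y in 𝓝 z, ρ < ‖y - w‖ := by
        have hc : Continuous (fun y : ℂ => ‖y - w‖) := by fun_prop
        exact hc.continuousAt.eventually (lt_mem_nhds h)
      filter_upwards [this] with y hy
      unfold lk
      rw [max_eq_left hy.le, Real.log_pow]
      push_cast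
      ring
    have h3 : HasFDerivAt (fun y : ℂ => ‖y - w‖ ^ 2) (2 • (innerSL ℝ (z - w))) z := by
      have h4 : HasFDerivAt (fun y : ℂ => y - w) (ContinuousLinearMap.id ℝ ℂ) z :=
        (hasFDerivAt_id z).sub_const w
      have h5 := h4.norm_sq
      convert! h5 using 1
    have h6 := (h3.log (by positivity)).const_mul (1 / 2 : ℝ)
    have h7 : (1 / 2 : ℝ) • (‖z - w‖ ^ 2)⁻¹ • (2 : ℕ) • (innerSL ℝ (z - w)) =
        innerSL ℝ (((‖z - w‖ ^ 2)⁻¹ : ℝ) • (z - w)) := by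
      rw [map_smul]
      have : ∀ L : ℂ →L[ℝ] ℝ, (1 / 2 : ℝ) • (‖z - w‖ ^ 2)⁻¹ • (2 : ℕ) • L =
          (‖z - w‖ ^ 2)⁻¹ • L := by
        intro L
        module
      exact this _
    rw [← h7]
    exact h6.congr_of_eventuallyEq h2

end Pool.Agent.Helper26
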