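import Pool.Agent.Helper26.Plates

open MeasureTheory Filter Topology Set Real
open scoped ENNReal NNReal

namespace Pool.Agent.Helper26

variable {n : ℕ}

/-- Admissible functions for the condenser. -/
def Adm (E : Fin n → Set ℂ) (δ : Fin n → ℝ) (u : ℂ → ℝ) : Prop :=
  LocallyLipschitz u ∧ (∃ c : ℝ, Tendsto u (cocompact ℂ) (𝓝 c)) ∧ ∀ k, ∀ x ∈ E k, u x = δ k

theorem lower_bound {z : Fin n → ℂ} {d : ℝ} (hd : 0 < d)
    (hsep : ∀ k l, k ≠ l → d ≤ ‖z k - z l‖) {τ : ℝ} (hτ : 0 < τ) {ε : ℝ}
    (hε1 : 4 * ε ≤ d) (hε2 : 4 * ε / d ≤ τ) (E : Fin n → Set ℂ) (hE : ∀ k, IsCompact (E k))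
    (hne : ∀ k, (E k).Nonempty) (hcap : ∀ k, 0 < tcap (E k))
    (hsub : ∀ k, E k ⊆ Metric.ball (z k) ε) {q : Fin n → ℝ} (hq : ∑ k, q k = 0)
    {δ : Fin n → ℝ} {u : ℂ → ℝ} (hu : Adm E δ u) :
    ENNReal.ofReal ((2 * π * ∑ k, q k * δ k) ^ 2) ≤ Dir u * ENNReal.ofReal
      (2 * π * (EE z (fun k => Real.log (tcap (E k))) q + τ * (∑ k, |q k|) ^ 2)) := by
  obtain ⟨hul, ⟨c, hc⟩, huE⟩ := hu
  obtain ⟨ρ₁, hρ₁, hcfg⟩ := exists_config hd hsep hτ hε1 hε2 E hE hne hcap hsub
  set B : ℝ := 2 * π * (EE z (fun k => Real.log (tcap (E k))) q + τ * (∑ k, |q k|) ^ 2) with hB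
  -- Lipschitz constant near the plates
  set R : ℝ := (∑ k, ‖z k‖) + |ε| + 1 with hR
  obtain ⟨K, v, hv, he⟩ := exists_lipschitz_eqOn hul R
  have key : ∀ ρ, 0 < ρ → ρ < min ρ₁ 1 → ∃ s : ℝ, |s - ∑ k, q k * δ k| ≤ K * ρ * ∑ k, |q k| ∧
      ENNReal.ofReal ((2 * π * s) ^ 2) ≤ Dir u * ENNReal.ofReal B := by
    intro ρ hρ hρρ
    obtain ⟨N, hN, w, hw, -, hen⟩ := hcfg ρ hρ (hρρ.trans_le (min_le_left _ _))
    have hρ1 : ρ < 1 := hρρ.trans_le (min_le_right _ _)
    refine ⟨∑ x, wgt N q x * circleAverage u (pts N w x) ρ, ?_, ?_⟩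
    · have hNr : ∀ k, (0 : ℝ) < N k := fun k => by exact_mod_cast hN k
      have h1 : ∑ x, wgt N q x * circleAverage u (pts N w x) ρ - ∑ k, q k * δ k =
          ∑ x, wgt N q x * (circleAverage u (pts N w x) ρ - δ x.1) := by
        simp_rw [mul_sub, Finset.sum_sub_distrib]
        congr 1
        rw [Fintype.sum_sigma]
        apply Finset.sum_congr rfl
        intro k _
        have := (hNr k).ne'
        simp [wgt]
        field_simp
      rw [h1]
      refine (Finset.abs_sum_le_sum_abs _ _).trans ?_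
      have h2 : ∀ x ∈ (Finset.univ : Finset (Σ k, Fin (N k))),
          |wgt N q x * (circleAverage u (pts N w x) ρ - δ x.1)| ≤
          |q x.1| * ((N x.1 : ℝ))⁻¹ * (K * ρ) := by
        rintro ⟨k, i⟩ -
        rw [abs_mul]
        have h3 : |wgt N q ⟨k, i⟩| = |q k| * ((N k : ℝ))⁻¹ := by
          simp [wgt, abs_mul]
        rw [h3]
        simp only
        apply mul_le_mul_of_nonneg_left _ (by positivity)
        have h4 : |circleAverage u (w k i) ρ - circleAverage (fun _ => δ k) (w k i) ρ| ≤ K * ρ := by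
          apply circleAverage_sub_le hul.continuous continuous_const
          intro y hy
          rw [Metric.mem_sphere, abs_of_pos hρ] at hy
          have h5 := hw k i
          rw [← huE k _ h5]
          have h6 : ‖w k i‖ ≤ (∑ k, ‖z k‖) + |ε| := by
            have h7 := hsub k h5
            rw [Metric.mem_ball, dist_eq_norm] at h7
            have h8 : ‖z k‖ ≤ ∑ k, ‖z k‖ :=
              Finset.single_le_sum (f := fun k => ‖z k‖) (fun j _ => norm_nonneg _)
                (Finset.mem_univ k)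
            have h9 : ‖w k i‖ ≤ ‖w k i - z k‖ + ‖z k‖ := by
              have := norm_add_le (w k i - z k) (z k)
              simpa using this
            have := le_abs_self ε
            linarith
          have h7 : w k i ∈ Metric.closedBall (0 : ℂ) R := by
            rw [mem_closedBall_zero_iff]
            linarith
          have h8 : y ∈ Metric.closedBall (0 : ℂ) R := by
            rw [mem_closedBall_zero_iff]
            have : ‖y‖ ≤ ‖y - w k i‖ + ‖w k i‖ := by
              have := norm_add_le (y - w k i) (w k i)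
              simpa using this
            rw [dist_eq_norm] at hy
            linarith
          rw [he h7, he h8, ← Real.dist_eq]
          refine (hv.dist_le_mul _ _).trans ?_
          rw [hy]
        rwa [circleAverage_const] at h4
      refine (Finset.sum_le_sum h2).trans ?_
      rw [Fintype.sum_sigma, Finset.mul_sum]
      apply le_of_eq
      apply Finset.sum_congr rfl
      intro k _
      have := (hNr k).ne'
      simp
      field_simp
    · refine (thomson hul hc hρ (pts N w) (wgt N q) (by rw [sum_wgt hN, hq])).trans ?_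
      rw [dir_pot hρ _ (by rw [sum_wgt hN, hq])]
      gcongr
      exact hen q hq
  -- pass to the limit
  have hpos : 0 < min ρ₁ 1 := by positivity
  choose! s hs1 hs2 using key
  have hlim : Tendsto (fun ρ : ℝ => ENNReal.ofReal ((2 * π * s ρ) ^ 2)) (𝓝[>] 0)
      (𝓝 (ENNReal.ofReal ((2 * π * ∑ k, q k * δ k) ^ 2))) := by
    apply (ENNReal.continuous_ofReal.tendsto _).comp
    apply Tendsto.pow
    apply Tendsto.const_mul
    rw [tendsto_iff_norm_sub_tendsto_zero]
    have h1 : Tendsto (fun ρ : ℝ => K * ρ * ∑ k, |q k|) (𝓝[>] 0) (𝓝 0) := by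
      have : Tendsto (fun ρ : ℝ => K * ρ * ∑ k, |q k|) (𝓝 0) (𝓝 (K * 0 * ∑ k, |q k|)) := by
        apply Continuous.tendsto
        fun_prop
      rw [mul_zero, zero_mul] at this
      exact this.mono_left nhdsWithin_le_nhds
    apply squeeze_zero' _ _ h1
    · exact Eventually.of_forall (fun _ => norm_nonneg _)
    · filter_upwards [Ioo_mem_nhdsGT hpos] with ρ hρ
      exact hs1 ρ hρ.1 hρ.2
  apply le_of_tendsto hlim
  filter_upwards [Ioo_mem_nhdsGT hpos] with ρ hρ
  exact hs2 ρ hρ.1 hρ.2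

end Pool.Agent.Helper26
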