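import Pool.Agent.Helper26.Fekete

open MeasureTheory Filter Topology Set Real
open scoped ENNReal NNReal

namespace Pool.Agent.Helper26

variable {n : ℕ}

/-- Weights on the points of a configuration. -/
noncomputable def wgt (N : Fin n → ℕ) (m : Fin n → ℝ) (x : Σ k, Fin (N k)) : ℝ :=
  m x.1 * ((N x.1 : ℝ))⁻¹

/-- The points of a configuration. -/
def pts (N : Fin n → ℕ) (w : (k : Fin n) → Fin (N k) → ℂ) (x : Σ k, Fin (N k)) : ℂ := w x.1 x.2

theorem sum_wgt {N : Fin n → ℕ} (hN : ∀ k, 0 < N k) (m : Fin n → ℝ) :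
    ∑ x, wgt N m x = ∑ k, m k := by
  rw [Fintype.sum_sigma]
  apply Finset.sum_congr rfl
  intro k _
  have : (N k : ℝ) ≠ 0 := by exact_mod_cast (hN k).ne'
  simp [wgt]
  field_simp

/-- Averaged potential of one plate. -/
noncomputable def pk (ρ : ℝ) (N : Fin n → ℕ) (w : (k : Fin n) → Fin (N k) → ℂ) (k : Fin n)
    (z : ℂ) : ℝ := pot ρ (w k) (fun _ => ((N k : ℝ))⁻¹) z

/-- Averaged field of one plate. -/
noncomputable def vk (ρ : ℝ) (N : Fin n → ℕ) (w : (k : Fin n) → Fin (N k) → ℂ) (k : Fin n)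
    (z : ℂ) : ℂ := vf ρ (w k) (fun _ => ((N k : ℝ))⁻¹) z

theorem pot_pts (ρ : ℝ) (N : Fin n → ℕ) (w : (k : Fin n) → Fin (N k) → ℂ) (m : Fin n → ℝ)
    (z : ℂ) : pot ρ (pts N w) (wgt N m) z = ∑ k, m k * pk ρ N w k z := by
  unfold pot pk pot
  rw [Fintype.sum_sigma]
  apply Finset.sum_congr rfl
  intro k _
  rw [Finset.mul_sum]
  apply Finset.sum_congr rfl
  intro i _
  simp only [wgt, pts]
  ring

theorem vf_pts (ρ : ℝ) (N : Fin n → ℕ) (w : (k : Fin n) → Fin (N k) → ℂ) (m : Fin n → ℝ)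
    (z : ℂ) : vf ρ (pts N w) (wgt N m) z = ∑ k, m k • vk ρ N w k z := by
  unfold vf vk vf
  rw [Fintype.sum_sigma]
  apply Finset.sum_congr rfl
  intro k _
  rw [Finset.smul_sum]
  apply Finset.sum_congr rfl
  intro i _
  simp only [wgt, pts, smul_smul]

/-- The limiting energy form. -/
noncomputable def EE (z : Fin n → ℂ) (lc : Fin n → ℝ) (m : Fin n → ℝ) : ℝ :=
  ∑ k, m k ^ 2 * (-lc k) - ∑ k, ∑ l ∈ Finset.univ.erase k, m k * m l * Real.log ‖z k - z l‖

theorem exists_sep {z : Fin n → ℂ} (hz : Function.Injective z) :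
    ∃ d > 0, ∀ k l, k ≠ l → d ≤ ‖z k - z l‖ := by
  classical
  set S : Finset (Fin n × Fin n) := Finset.univ.filter (fun p => p.1 ≠ p.2) with hS
  by_cases hne : S.Nonempty
  · obtain ⟨p, hp, hmin⟩ := S.exists_min_image (fun p => ‖z p.1 - z p.2‖) hne
    refine ⟨‖z p.1 - z p.2‖, ?_, ?_⟩
    · rw [gt_iff_lt, norm_pos_iff, sub_ne_zero]
      intro h
      simp only [hS, Finset.mem_filter] at hp
      exact hp.2 (hz h)
    · intro k l hkl
      exact hmin (k, l) (by simp [hS, hkl])
  · refine ⟨1, one_pos, ?_⟩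
    intro k l hkl
    exact absurd ⟨(k, l), by simp [hS, hkl]⟩ hne

theorem abs_log_norm_sub_le {d ε : ℝ} (hd : 0 < d) (hε : 4 * ε ≤ d) {z z' w w' : ℂ}
    (hz : d ≤ ‖z - z'‖) (hw : ‖w - z‖ ≤ ε) (hw' : ‖w' - z'‖ ≤ ε) :
    |Real.log ‖w - w'‖ - Real.log ‖z - z'‖| ≤ 4 * ε / d := by
  have hε0 : 0 ≤ ε := (norm_nonneg _).trans hw
  have h1 : |‖w - w'‖ - ‖z - z'‖| ≤ 2 * ε := by
    refine (abs_norm_sub_norm_le _ _).trans ?_
    have : w - w' - (z - z') = (w - z) - (w' - z') := by ring
    rw [this]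
    refine (norm_sub_le _ _).trans ?_
    linarith
  have h2 : d / 2 ≤ ‖w - w'‖ := by
    have := (abs_le.mp h1).1
    linarith
  have h3 := abs_log_sub_log_le (ρ := d / 2) (by positivity) h2 (by linarith : d / 2 ≤ ‖z - z'‖)
  refine h3.trans ?_
  calc (d / 2)⁻¹ * |‖w - w'‖ - ‖z - z'‖| ≤ (d / 2)⁻¹ * (2 * ε) := by gcongr
    _ = 4 * ε / d := by field_simp; ring

/-- Existence of good configurations on small plates. -/
theorem exists_config {z : Fin n → ℂ} {d : ℝ} (hd : 0 < d)
    (hsep : ∀ k l, k ≠ l → d ≤ ‖z k - z l‖) {τ : ℝ} (hτ : 0 < τ) {ε : ℝ}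
    (hε1 : 4 * ε ≤ d) (hε2 : 4 * ε / d ≤ τ) (E : Fin n → Set ℂ) (hE : ∀ k, IsCompact (E k))
    (hne : ∀ k, (E k).Nonempty) (hcap : ∀ k, 0 < tcap (E k))
    (hsub : ∀ k, E k ⊆ Metric.ball (z k) ε) :
    ∃ ρ₁ > 0, ∀ ρ, 0 < ρ → ρ < ρ₁ → ∃ N : Fin n → ℕ, (∀ k, 0 < N k) ∧
      ∃ w : (k : Fin n) → Fin (N k) → ℂ, (∀ k i, w k i ∈ E k) ∧
      (∀ k, ∀ ζ ∈ E k, pk ρ N w k ζ ≤ Real.log (tcap (E k)) + τ) ∧
      (∀ m : Fin n → ℝ, ∑ k, m k = 0 → ∫ ζ, ‖vf ρ (pts N w) (wgt N m) ζ‖ ^ 2 ≤
        2 * π * (EE z (fun k => Real.log (tcap (E k))) m + τ * (∑ k, |m k|) ^ 2)) := by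
  classical
  have hfek := fun k => fekete (hE k) (hne k) (hcap k) hτ
  choose ρf hρf hfek using hfek
  obtain ⟨ρ₂, hρ₂, hρ₂f⟩ : ∃ ρ₂ > 0, ∀ k, ρ₂ ≤ ρf k := by
    by_cases hn : Nonempty (Fin n)
    · obtain ⟨k, hk⟩ := Finite.exists_min ρf
      exact ⟨ρf k, hρf k, hk⟩
    · exact ⟨1, one_pos, fun k => absurd ⟨k⟩ hn⟩
  refine ⟨min ρ₂ (d / 8), by positivity, ?_⟩
  intro ρ hρ hρρ
  have hρ2 : ρ < ρ₂ := hρρ.trans_le (min_le_left _ _)
  have hρ8 : ρ < d / 8 := hρρ.trans_le (min_le_right _ _)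
  have h1 := fun k => hfek k ρ hρ (hρ2.trans_le (hρ₂f k))
  choose N hN w hw hpot hen using h1
  refine ⟨N, hN, w, hw, ?_, ?_⟩
  · intro k ζ hζ
    have := hpot k ζ hζ
    unfold pk pot
    rw [← Finset.mul_sum]
    exact this
  · intro m hm
    have hNr : ∀ k, (0 : ℝ) < N k := fun k => by exact_mod_cast hN k
    rw [integral_norm_vf_sq hρ _ (by rw [sum_wgt hN, hm])]
    -- block structure
    set M : ℂ → ℂ → ℝ := fun a b => circleAverage (lk ρ b) a ρ with hM
    set Q : Fin n → Fin n → ℝ := fun k l =>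
      ((N k : ℝ))⁻¹ * ((N l : ℝ))⁻¹ * ∑ i, ∑ j, M (w k i) (w l j) with hQ
    have hsum : ∑ x, ∑ y, wgt N m x * wgt N m y * circleAverage (lk ρ (pts N w y)) (pts N w x) ρ
        = ∑ k, ∑ l, m k * m l * Q k l := by
      rw [Fintype.sum_sigma]
      apply Finset.sum_congr rfl
      intro k _
      simp_rw [Fintype.sum_sigma]
      rw [Finset.sum_comm]
      apply Finset.sum_congr rfl
      intro l _
      simp only [hQ, Finset.mul_sum]
      apply Finset.sum_congr rfl
      intro i _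
      apply Finset.sum_congr rfl
      intro j _
      simp only [wgt, pts, hM]
      ring
    rw [hsum]
    -- diagonal blocks
    have hdiag : ∀ k, Real.log (tcap (E k)) - τ ≤ Q k k := by
      intro k
      have h2 := hen k
      have h3 : dbl ρ (w k) ≤ ∑ i, ∑ j, M (w k i) (w k j) := by
        unfold dbl
        apply Finset.sum_le_sum
        intro i _
        apply Finset.sum_le_sum
        intro j _
        have := circleAverage_lk_ge hρ (w k i) (w k j)
        rw [lk_symm]
        exact this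
      have h4 : (((N k : ℝ))⁻¹) ^ 2 * dbl ρ (w k) ≤ Q k k := by
        simp only [hQ]
        rw [sq]
        apply mul_le_mul_of_nonneg_left h3 (by positivity)
      linarith
    -- off-diagonal blocks
    have hoff : ∀ k l, k ≠ l → |Q k l - Real.log ‖z k - z l‖| ≤ τ := by
      intro k l hkl
      have hkl' := hsep k l hkl
      have h2 : ∀ i j, |M (w k i) (w l j) - Real.log ‖z k - z l‖| ≤ τ := by
        intro i j
        have hwi : ‖w k i - z k‖ ≤ ε := by
          have := hsub k (hw k i)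
          rw [Metric.mem_ball, dist_eq_norm] at this
          exact this.le
        have hwj : ‖w l j - z l‖ ≤ ε := by
          have := hsub l (hw l j)
          rw [Metric.mem_ball, dist_eq_norm] at this
          exact this.le
        have h3 : 2 * ρ ≤ ‖w k i - w l j‖ := by
          have h4 : ‖z k - z l‖ ≤ ‖w k i - w l j‖ + (ε + ε) := by
            have : z k - z l = (w k i - w l j) - ((w k i - z k) - (w l j - z l)) := by ring
            rw [this]
            refine (norm_sub_le _ _).trans ?_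
            have := norm_sub_le (w k i - z k) (w l j - z l)
            linarith
          linarith
        simp only [hM]
        rw [circleAverage_lk_eq hρ h3]
        exact (abs_log_norm_sub_le hd hε1 hkl' hwi hwj).trans hε2
      have h5 : Q k l - Real.log ‖z k - z l‖ = ((N k : ℝ))⁻¹ * ((N l : ℝ))⁻¹ *
          ∑ i, ∑ j, (M (w k i) (w l j) - Real.log ‖z k - z l‖) := by
        simp only [hQ, Finset.sum_sub_distrib, Finset.sum_const, Finset.card_univ,
          Fintype.card_fin, nsmul_eq_mul]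
        have h6 := (hNr k).ne'
        have h7 := (hNr l).ne'
        field_simp
      rw [h5, abs_mul, abs_of_nonneg (by positivity)]
      have h6 : |∑ i, ∑ j, (M (w k i) (w l j) - Real.log ‖z k - z l‖)| ≤ N k * (N l * τ) := by
        refine (Finset.abs_sum_le_sum_abs _ _).trans ?_
        calc ∑ i, |∑ j, (M (w k i) (w l j) - Real.log ‖z k - z l‖)| ≤
            ∑ i : Fin (N k), ((N l : ℝ) * τ) := by
              apply Finset.sum_le_sum
              intro i _
              refine (Finset.abs_sum_le_sum_abs _ _).trans ?_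
              calc ∑ j, |M (w k i) (w l j) - Real.log ‖z k - z l‖| ≤ ∑ j : Fin (N l), τ :=
                    Finset.sum_le_sum (fun j _ => h2 i j)
                _ = _ := by simp
          _ = _ := by simp
      calc ((N k : ℝ))⁻¹ * ((N l : ℝ))⁻¹ *
          |∑ i, ∑ j, (M (w k i) (w l j) - Real.log ‖z k - z l‖)| ≤
          ((N k : ℝ))⁻¹ * ((N l : ℝ))⁻¹ * (N k * (N l * τ)) := by
            gcongr
        _ = τ := by
            have h6 := (hNr k).ne'
            have h7 := (hNr l).ne'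
            field_simp
    -- assemble
    have hkey : -∑ k, ∑ l, m k * m l * Q k l ≤
        EE z (fun k => Real.log (tcap (E k))) m + τ * (∑ k, |m k|) ^ 2 := by
      have h2 : ∀ k, ∑ l, m k * m l * Q k l =
          m k * m k * Q k k + ∑ l ∈ Finset.univ.erase k, m k * m l * Q k l := fun k =>
        (Finset.add_sum_erase _ _ (Finset.mem_univ k)).symm
      have h3 : (∑ k, |m k|) ^ 2 =
          ∑ k, (|m k| * |m k| + ∑ l ∈ Finset.univ.erase k, |m k| * |m l|) := by
        rw [sq, Finset.sum_mul]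
        apply Finset.sum_congr rfl
        intro k _
        rw [Finset.mul_sum]
        exact (Finset.add_sum_erase _ _ (Finset.mem_univ k)).symm
      unfold EE
      rw [h3, Finset.mul_sum, ← Finset.sum_neg_distrib, ← Finset.sum_sub_distrib,
        ← Finset.sum_add_distrib]
      apply Finset.sum_le_sum
      intro k _
      rw [h2 k]
      have h4 : -(m k * m k * Q k k) ≤ m k ^ 2 * (-Real.log (tcap (E k))) + τ * (|m k| * |m k|) := by
        have h5 := hdiag k
        have h6 : |m k| * |m k| = m k ^ 2 := by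
          rw [← sq, sq_abs]
        rw [h6]
        nlinarith [sq_nonneg (m k)]
      have h5 : -(∑ l ∈ Finset.univ.erase k, m k * m l * Q k l) ≤
          -(∑ l ∈ Finset.univ.erase k, m k * m l * Real.log ‖z k - z l‖) +
          τ * ∑ l ∈ Finset.univ.erase k, |m k| * |m l| := by
        rw [← Finset.sum_neg_distrib, ← Finset.sum_neg_distrib, Finset.mul_sum,
          ← Finset.sum_add_distrib]
        apply Finset.sum_le_sum
        intro l hl
        have hkl : k ≠ l := (Finset.ne_of_mem_erase hl).symm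
        have h6 := hoff k l hkl
        have h7 : |m k * m l * (Q k l - Real.log ‖z k - z l‖)| ≤ |m k| * |m l| * τ := by
          rw [abs_mul, abs_mul]
          gcongr
        have h8 := (abs_le.mp h7).1
        nlinarith
      linarith
    have hpi := Real.pi_pos
    calc -(2 * π) * ∑ k, ∑ l, m k * m l * Q k l = 2 * π * (-∑ k, ∑ l, m k * m l * Q k l) := by ring
      _ ≤ _ := by gcongr

end Pool.Agent.Helper26
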