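import Pool.Agent.Helper26.Lk

open MeasureTheory Filter Topology Set Real
open scoped ENNReal NNReal

namespace Pool.Agent.Helper26

theorem circleIntegrable_of_continuous {f : ℂ → ℝ} (hf : Continuous f) (c : ℂ) (R : ℝ) :
    CircleIntegrable f c R :=
  (hf.continuousOn).circleIntegrable'

theorem circleAverage_lk_self {ρ : ℝ} (hρ : 0 < ρ) (w : ℂ) :
    circleAverage (lk ρ w) w ρ = Real.log ρ := by
  rw [circleAverage_congr_sphere (f₂ := fun _ => Real.log ρ), circleAverage_const]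
  intro z hz
  rw [Metric.mem_sphere, abs_of_pos hρ, dist_eq_norm] at hz
  simp only [lk, hz, max_self]

theorem circleAverage_log_eq {ρ : ℝ} (hρ : 0 < ρ) {w w' : ℂ} (h : ρ ≤ ‖w - w'‖) :
    circleAverage (fun z => Real.log ‖z - w'‖) w ρ = Real.log ‖w - w'‖ := by
  rw [circleAverage_log_norm_sub_const_eq_log_radius_add_posLog hρ.ne']
  have h1 : 1 ≤ |ρ⁻¹ * ‖w - w'‖| := by
    rw [abs_of_nonneg (by positivity), ← div_eq_inv_mul, le_div_iff₀ hρ]
    linarith
  have h0 : 0 < ‖w - w'‖ := hρ.trans_le h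
  rw [posLog_eq_log h1, Real.log_mul (by positivity) (by positivity), Real.log_inv]
  ring

theorem circleAverage_lk_ge {ρ : ℝ} (hρ : 0 < ρ) (w w' : ℂ) :
    Real.log (max ‖w - w'‖ ρ) ≤ circleAverage (lk ρ w') w ρ := by
  rcases le_or_gt ‖w - w'‖ ρ with h | h
  · rw [max_eq_right h]
    have h1 : circleAverage (fun _ => Real.log ρ) w ρ ≤ circleAverage (lk ρ w') w ρ := by
      apply circleAverage_mono (circleIntegrable_const _ _ _)
        (circleIntegrable_of_continuous (continuous_lk hρ w') _ _)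
      intro z _
      exact log_le_lk hρ w' z
    rwa [circleAverage_const] at h1
  · rw [max_eq_left h.le, ← circleAverage_log_eq hρ h.le]
    apply circleAverage_mono
    · exact circleIntegrable_log_norm_sub_const ρ
    · exact circleIntegrable_of_continuous (continuous_lk hρ w') _ _
    · intro z hz
      rw [Metric.mem_sphere, abs_of_pos hρ, dist_eq_norm] at hz
      unfold lk
      have h0 : 0 < ‖z - w'‖ := by
        have h2 : ‖w - w'‖ ≤ ‖z - w'‖ + ‖z - w‖ := by
          have : w - w' = (z - w') - (z - w) := by ring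
          rw [this]
          exact norm_sub_le _ _
        linarith
      exact Real.log_le_log h0 (le_max_left _ _)

theorem circleAverage_lk_eq {ρ : ℝ} (hρ : 0 < ρ) {w w' : ℂ} (h : 2 * ρ ≤ ‖w - w'‖) :
    circleAverage (lk ρ w') w ρ = Real.log ‖w - w'‖ := by
  rw [← circleAverage_log_eq hρ (by linarith)]
  apply circleAverage_congr_sphere
  intro z hz
  rw [Metric.mem_sphere, abs_of_pos hρ, dist_eq_norm] at hz
  unfold lk
  have h2 : ‖w - w'‖ ≤ ‖z - w'‖ + ‖z - w‖ := by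
    have : w - w' = (z - w') - (z - w) := by ring
    rw [this]
    exact norm_sub_le _ _
  rw [max_eq_left (by linarith)]

variable {ι : Type*} [Fintype ι]

/-- The discrete potential `∑ aᵢ log max(|z - wᵢ|, ρ)`. -/
noncomputable def pot (ρ : ℝ) (w : ι → ℂ) (a : ι → ℝ) (z : ℂ) : ℝ := ∑ i, a i * lk ρ (w i) z

/-- The gradient field of the discrete potential. -/
noncomputable def vf (ρ : ℝ) (w : ι → ℂ) (a : ι → ℝ) (z : ℂ) : ℂ := ∑ i, a i • fld ρ (w i) z

theorem ae_norm_sub_ne {ρ : ℝ} (w : ℂ) : ∀ᵐ z : ℂ, ‖z - w‖ ≠ ρ := by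
  have h : volume (Metric.sphere w ρ) = 0 := Measure.addHaar_sphere _ _ _
  rw [measure_eq_zero_iff_ae_notMem] at h
  filter_upwards [h] with z hz
  simpa [Metric.mem_sphere, dist_eq_norm] using hz

theorem ae_hasFDerivAt_pot {ρ : ℝ} (hρ : 0 < ρ) (w : ι → ℂ) (a : ι → ℝ) :
    ∀ᵐ z : ℂ, HasFDerivAt (pot ρ w a) (innerSL ℝ (vf ρ w a z)) z := by
  have h : ∀ᵐ z : ℂ, ∀ i, ‖z - w i‖ ≠ ρ := by
    rw [ae_all_iff]
    intro i
    exact ae_norm_sub_ne (w i)
  filter_upwards [h] with z hz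
  have h1 : innerSL ℝ (vf ρ w a z) = ∑ i, a i • innerSL ℝ (fld ρ (w i) z) := by
    unfold vf
    rw [map_sum]
    simp only [map_smul]
  rw [h1]
  unfold pot
  apply HasFDerivAt.fun_sum
  intro i _
  exact (hasFDerivAt_lk hρ (hz i)).const_mul (a i)

theorem pot_lipschitz {ρ : ℝ} (hρ : 0 < ρ) (w : ι → ℂ) (a : ι → ℝ) :
    LipschitzWith (Real.toNNReal ((∑ i, |a i|) * ρ⁻¹)) (pot ρ w a) := by
  apply LipschitzWith.of_dist_le_mul
  intro x y
  rw [Real.coe_toNNReal _ (by positivity), Real.dist_eq]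
  unfold pot
  rw [← Finset.sum_sub_distrib, Finset.sum_mul, Finset.sum_mul]
  refine (Finset.abs_sum_le_sum_abs _ _).trans ?_
  apply Finset.sum_le_sum
  intro i _
  rw [← mul_sub, abs_mul, mul_assoc]
  apply mul_le_mul_of_nonneg_left _ (abs_nonneg _)
  have := (lk_lipschitz hρ (w i)).dist_le_mul x y
  rwa [Real.coe_toNNReal _ (by positivity), Real.dist_eq] at this

theorem continuous_pot {ρ : ℝ} (hρ : 0 < ρ) (w : ι → ℂ) (a : ι → ℝ) :
    Continuous (pot ρ w a) := (pot_lipschitz hρ w a).continuous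

theorem measurable_vf (ρ : ℝ) (w : ι → ℂ) (a : ι → ℝ) : Measurable (vf ρ w a) := by
  unfold vf
  apply Finset.measurable_fun_sum
  intro i _
  exact (measurable_fld ρ (w i)).const_smul (a i)

theorem circleAverage_pot {ρ : ℝ} (hρ : 0 < ρ) (w : ι → ℂ) (a : ι → ℝ) (c : ℂ) (R : ℝ) :
    circleAverage (pot ρ w a) c R = ∑ j, a j * circleAverage (lk ρ (w j)) c R := by
  have : pot ρ w a = fun z => ∑ j, a j * lk ρ (w j) z := rfl
  rw [this, circleAverage_fun_sum]
  · apply Finset.sum_congr rfl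
    intro j _
    have := circleAverage_fun_smul (a := a j) (f := lk ρ (w j)) (c := c) (R := R)
    simpa [smul_eq_mul] using this
  · intro i _
    exact circleIntegrable_of_continuous ((continuous_lk hρ (w i)).const_mul _) _ _

/-- `lk ρ w z - log ‖z‖ → 0` at infinity. -/
theorem tendsto_lk_sub_log (ρ : ℝ) (w : ℂ) :
    Tendsto (fun z => lk ρ w z - Real.log ‖z‖) (cocompact ℂ) (𝓝 0) := by
  have hn : Tendsto (fun z : ℂ => ‖z‖) (cocompact ℂ) atTop := tendsto_norm_cocompact_atTop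
  have h1 : Tendsto (fun z : ℂ => Real.log (1 + ‖w‖ / (‖z‖ - ‖w‖))) (cocompact ℂ) (𝓝 0) := by
    have h2 : Tendsto (fun z : ℂ => 1 + ‖w‖ / (‖z‖ - ‖w‖)) (cocompact ℂ) (𝓝 (1 + 0)) := by
      apply Tendsto.const_add
      apply Tendsto.div_atTop tendsto_const_nhds
      exact tendsto_atTop_add_const_right _ _ hn
    rw [add_zero] at h2
    have := (Real.continuousAt_log one_ne_zero).tendsto.comp h2
    rwa [Real.log_one] at this
  apply squeeze_zero_norm' _ h1
  filter_upwards [hn.eventually (eventually_gt_atTop (‖w‖ + |ρ| + 1))] with z hz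
  have hz1 : 0 < ‖z‖ - ‖w‖ := by
    have := abs_nonneg ρ
    linarith
  have hz0 : 0 < ‖z‖ := by
    have := norm_nonneg w
    linarith
  have h2 : ‖z‖ - ‖w‖ ≤ ‖z - w‖ := norm_sub_norm_le _ _
  have h3 : ‖z - w‖ ≤ ‖z‖ + ‖w‖ := norm_sub_le _ _
  have h4 : ρ ≤ ‖z - w‖ := by
    have := le_abs_self ρ
    linarith
  unfold lk
  rw [max_eq_left h4, Real.norm_eq_abs, abs_le]
  have h5 : 0 < ‖z - w‖ := by linarith
  have h6 : 1 + ‖w‖ / (‖z‖ - ‖w‖) = ‖z‖ / (‖z‖ - ‖w‖) := by
    field_simp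
    ring
  rw [h6, Real.log_div hz0.ne' hz1.ne']
  constructor
  · have := Real.log_le_log hz1 h2
    linarith
  · have h7 : Real.log ‖z - w‖ ≤ Real.log (‖z‖ + ‖w‖) := Real.log_le_log h5 h3
    have h8 : Real.log (‖z‖ + ‖w‖) + Real.log (‖z‖ - ‖w‖) ≤ Real.log ‖z‖ + Real.log ‖z‖ := by
      rw [← Real.log_mul (by positivity) hz1.ne', ← Real.log_mul hz0.ne' hz0.ne']
      apply Real.log_le_log (by positivity)
      nlinarith [norm_nonneg w]
    linarith

theorem tendsto_pot {ρ : ℝ} (w : ι → ℂ) {a : ι → ℝ} (ha : ∑ i, a i = 0) :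
    Tendsto (pot ρ w a) (cocompact ℂ) (𝓝 0) := by
  have h1 : ∀ z, pot ρ w a z = ∑ i, a i * (lk ρ (w i) z - Real.log ‖z‖) := by
    intro z
    unfold pot
    simp only [mul_sub, Finset.sum_sub_distrib]
    rw [← Finset.sum_mul, ha]
    simp
  have h2 : Tendsto (fun z => ∑ i, a i * (lk ρ (w i) z - Real.log ‖z‖)) (cocompact ℂ)
      (𝓝 (∑ i, a i * 0)) := by
    apply tendsto_finsetSum
    intro i _
    exact (tendsto_lk_sub_log ρ (w i)).const_mul (a i)
  simp only [mul_zero, Finset.sum_const_zero] at h2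
  exact h2.congr (fun z => (h1 z).symm)

end Pool.Agent.Helper26
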