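import Pool.Agent.Helper26.Energy

open MeasureTheory Filter Topology Set Real
open scoped ENNReal NNReal

namespace Pool.Agent.Helper26

theorem fderiv_eq_zero_of_outside {v : ℂ → ℝ} {R : ℝ} (h0 : ∀ z, R < ‖z‖ → v z = 0) {z : ℂ}
    (hz : R < ‖z‖) : fderiv ℝ v z = 0 := by
  have : v =ᶠ[𝓝 z] fun _ => (0 : ℝ) := by
    have hc : Continuous (fun y : ℂ => ‖y‖) := continuous_norm
    filter_upwards [hc.continuousAt.eventually (lt_mem_nhds hz)] with y hy
    exact h0 y hy
  rw [this.fderiv_eq]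
  simp

theorem integrable_fderiv_fld_of_compact {v : ℂ → ℝ} (hv : LocallyLipschitz v) {R : ℝ}
    (h0 : ∀ z, R < ‖z‖ → v z = 0) {ρ : ℝ} (hρ : 0 < ρ) (w : ℂ) :
    Integrable (fun z => fderiv ℝ v z (fld ρ w z)) := by
  obtain ⟨K, u, hu, he⟩ := exists_lipschitz_eqOn hv (R + 1)
  have hmeas : Measurable (fun z => fderiv ℝ v z (fld ρ w z)) :=
    measurable_clm_apply (measurable_fderiv ℝ _) (measurable_fld ρ w)
  have h1 : IntegrableOn (fun z => fderiv ℝ v z (fld ρ w z)) (Metric.ball 0 (R + 1)) := by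
    refine Measure.integrableOn_of_bounded (M := K * ρ⁻¹) ?_ hmeas.aestronglyMeasurable ?_
    · exact measure_ball_lt_top.ne
    · rw [ae_restrict_iff' Metric.isOpen_ball.measurableSet]
      apply Eventually.of_forall
      intro z hz
      have h2 : v =ᶠ[𝓝 z] u := by
        filter_upwards [Metric.isOpen_ball.mem_nhds hz] with y hy
        exact he (Metric.ball_subset_closedBall hy)
      rw [h2.fderiv_eq]
      refine (norm_fderiv_apply_le hu z _).trans ?_
      gcongr
      exact norm_fld_le hρ w z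
  apply h1.integrable_of_forall_notMem_eq_zero
  intro z hz
  have hz' : R < ‖z‖ := by
    simp only [Metric.mem_ball, dist_zero_right, not_lt] at hz
    linarith
  simp [fderiv_eq_zero_of_outside h0 hz']

theorem integral_fderiv_fld_of_compact {v : ℂ → ℝ} (hv : LocallyLipschitz v) {R : ℝ}
    (h0 : ∀ z, R < ‖z‖ → v z = 0) {ρ : ℝ} (hρ : 0 < ρ) (w : ℂ) :
    ∫ z, fderiv ℝ v z (fld ρ w z) = -(2 * π) * circleAverage v w ρ := by
  set T : ℝ := max ρ (|R| + ‖w‖ + 1) with hT
  have hT1 : ρ ≤ T := le_max_left _ _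
  have hT2 : |R| + ‖w‖ + 1 ≤ T := le_max_right _ _
  have hT0 : 0 < T := hρ.trans_le hT1
  have h1 : ∫ z in Metric.ball w T, fderiv ℝ v z (fld ρ w z) =
      ∫ z, fderiv ℝ v z (fld ρ w z) := by
    apply setIntegral_eq_integral_of_forall_compl_eq_zero
    intro z hz
    have hz' : R < ‖z‖ := by
      simp only [Metric.mem_ball, dist_eq_norm, not_lt] at hz
      have h2 : ‖z - w‖ ≤ ‖z‖ + ‖w‖ := norm_sub_le _ _
      have h3 := le_abs_self R
      linarith
    simp [fderiv_eq_zero_of_outside h0 hz']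
  have h2 : circleAverage v w T = 0 := by
    rw [circleAverage_congr_sphere (f₂ := fun _ => (0 : ℝ)), circleAverage_const]
    intro z hz
    rw [Metric.mem_sphere, abs_of_pos hT0, dist_eq_norm] at hz
    apply h0
    have h2 : ‖z - w‖ ≤ ‖z‖ + ‖w‖ := norm_sub_le _ _
    have h3 := le_abs_self R
    linarith
  rw [← h1, flux_ball_loc hv w hρ hT1, h2]
  ring

variable {ι : Type*} [Fintype ι]

theorem thomson_compact {v : ℂ → ℝ} (hv : LocallyLipschitz v) {R : ℝ}
    (h0 : ∀ z, R < ‖z‖ → v z = 0) {ρ : ℝ} (hρ : 0 < ρ) (w : ι → ℂ) (a : ι → ℝ)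
    (ha : ∑ i, a i = 0) :
    ENNReal.ofReal ((2 * π * ∑ i, a i * circleAverage v (w i) ρ) ^ 2) ≤
      Dir v * Dir (pot ρ w a) := by
  have h1 : ∫ z, fderiv ℝ v z (vf ρ w a z) =
      -(2 * π) * ∑ i, a i * circleAverage v (w i) ρ := by
    have e1 : ∀ z, fderiv ℝ v z (vf ρ w a z) = ∑ i, a i * fderiv ℝ v z (fld ρ (w i) z) := by
      intro z
      rw [vf, map_sum]
      simp only [map_smul, smul_eq_mul]
    simp_rw [e1]
    rw [integral_finsetSum _
      (fun i _ => (integrable_fderiv_fld_of_compact hv h0 hρ (w i)).const_mul _), Finset.mul_sum]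
    apply Finset.sum_congr rfl
    intro i _
    rw [integral_const_mul, integral_fderiv_fld_of_compact hv h0 hρ]
    ring
  have h2 : ‖∫ z, fderiv ℝ v z (vf ρ w a z)‖ₑ ≤
      ∫⁻ z, ‖fderiv ℝ v z‖ₑ * ‖vf ρ w a z‖ₑ := by
    refine (enorm_integral_le_lintegral_enorm _).trans ?_
    apply lintegral_mono
    intro z
    exact (fderiv ℝ v z).le_opENorm _
  have hm1 : AEMeasurable (fun z => ‖fderiv ℝ v z‖ₑ) volume :=
    (measurable_fderiv ℝ v).enorm.aemeasurable
  have hm2 : AEMeasurable (fun z => ‖vf ρ w a z‖ₑ) volume :=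
    (measurable_vf ρ w a).enorm.aemeasurable
  have h3 := ENNReal.lintegral_mul_le_Lp_mul_Lq volume
    (Real.HolderConjugate.two_two) hm1 hm2
  have h4 : Dir v = ∫⁻ z, ‖fderiv ℝ v z‖ₑ ^ (2 : ℝ) := by
    unfold Dir
    congr 1
    ext z
    norm_cast
  have h5 : Dir (pot ρ w a) = ∫⁻ z, ‖vf ρ w a z‖ₑ ^ (2 : ℝ) := by
    rw [dir_pot hρ w ha, ofReal_integral_eq_lintegral_ofReal (integrable_norm_vf_sq hρ w ha)
      (Eventually.of_forall fun z => by positivity)]
    congr 1
    ext z
    rw [ENNReal.ofReal_pow (norm_nonneg _), ofReal_norm]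
    norm_cast
  have h6 : ENNReal.ofReal ((2 * π * ∑ i, a i * circleAverage v (w i) ρ) ^ 2) =
      ‖∫ z, fderiv ℝ v z (vf ρ w a z)‖ₑ ^ 2 := by
    rw [h1, ← ofReal_norm, ← ENNReal.ofReal_pow (norm_nonneg _)]
    congr 1
    rw [Real.norm_eq_abs, sq_abs]
    ring
  rw [h6]
  calc ‖∫ z, fderiv ℝ v z (vf ρ w a z)‖ₑ ^ 2
      ≤ ((∫⁻ z, ‖fderiv ℝ v z‖ₑ ^ (2 : ℝ)) ^ (1 / (2 : ℝ)) *
        (∫⁻ z, ‖vf ρ w a z‖ₑ ^ (2 : ℝ)) ^ (1 / (2 : ℝ))) ^ 2 := by
        gcongr
        exact h2.trans h3
    _ = Dir v * Dir (pot ρ w a) := by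
        rw [h4, h5, mul_pow, ← ENNReal.rpow_natCast, ← ENNReal.rpow_natCast, ← ENNReal.rpow_mul,
          ← ENNReal.rpow_mul]
        norm_num

theorem circleAverage_sub_le {f g : ℂ → ℝ} (hf : Continuous f) (hg : Continuous g) {η : ℝ}
    {c : ℂ} {R : ℝ} (h : ∀ z ∈ Metric.sphere c |R|, |f z - g z| ≤ η) :
    |circleAverage f c R - circleAverage g c R| ≤ η := by
  have h1 : circleAverage f c R - circleAverage g c R = circleAverage (fun z => f z - g z) c R := by
    rw [circleAverage_fun_sub (circleIntegrable_of_continuous hf _ _)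
      (circleIntegrable_of_continuous hg _ _)]
  rw [h1, abs_le]
  constructor
  · have h2 := circleAverage_mono (c := c) (R := R) (circleIntegrable_const (-η) _ _)
      (circleIntegrable_of_continuous (hf.sub hg) c R)
      (fun z hz => (abs_le.mp (h z hz)).1)
    rwa [circleAverage_const] at h2
  · exact circleAverage_mono_on_of_le_circle (circleIntegrable_of_continuous (hf.sub hg) c R)
      (fun z hz => (abs_le.mp (h z hz)).2)

/-- **Thomson's principle**: lower bound for the Dirichlet energy of an admissible function. -/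
theorem thomson {u : ℂ → ℝ} (hu : LocallyLipschitz u) {c : ℝ}
    (hc : Tendsto u (cocompact ℂ) (𝓝 c)) {ρ : ℝ} (hρ : 0 < ρ) (w : ι → ℂ) (a : ι → ℝ)
    (ha : ∑ i, a i = 0) :
    ENNReal.ofReal ((2 * π * ∑ i, a i * circleAverage u (w i) ρ) ^ 2) ≤
      Dir u * Dir (pot ρ w a) := by
  have hucont : Continuous u := hu.continuous
  -- the truncated functions
  have key : ∀ η : ℝ, 0 < η → ENNReal.ofReal
      ((2 * π * ∑ i, a i * circleAverage (fun z => soft η (u z - c)) (w i) ρ) ^ 2) ≤
      Dir u * Dir (pot ρ w a) := by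
    intro η hη
    have h1 : ∀ᶠ z in cocompact ℂ, |u z - c| < η := by
      have := hc.eventually (Metric.ball_mem_nhds c hη)
      filter_upwards [this] with z hz
      simpa [Real.dist_eq] using hz
    obtain ⟨R, hR⟩ : ∃ R : ℝ, ∀ z, R ≤ ‖z‖ → |u z - c| < η := by
      rw [← Metric.cobounded_eq_cocompact] at h1
      obtain ⟨R, -, hR⟩ := (hasBasis_cobounded_norm (E := ℂ)).eventually_iff.mp h1
      exact ⟨R, fun z hz => hR hz⟩
    have hφ : LipschitzWith 1 (fun s : ℝ => soft η (s - c)) := by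
      have h2 : LipschitzWith 1 (fun s : ℝ => s - c) := by
        apply LipschitzWith.of_dist_le_mul
        intro x y
        simp [Real.dist_eq]
      simpa [Function.comp_def] using (soft_lipschitz hη.le).comp h2
    have hv : LocallyLipschitz (fun z => soft η (u z - c)) :=
      (hφ.locallyLipschitz).comp hu
    have h3 := thomson_compact (R := R) hv (fun z hz => soft_eq_zero (hR z hz.le).le) hρ w a ha
    refine h3.trans ?_
    gcongr
    have h4 := dir_comp_le hφ hu
    simpa [Function.comp_def] using h4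
  have hlim : Tendsto (fun η : ℝ => ENNReal.ofReal
      ((2 * π * ∑ i, a i * circleAverage (fun z => soft η (u z - c)) (w i) ρ) ^ 2))
      (𝓝[>] 0) (𝓝 (ENNReal.ofReal
      ((2 * π * ∑ i, a i * circleAverage u (w i) ρ) ^ 2))) := by
    apply (ENNReal.continuous_ofReal.tendsto _).comp
    have h5 : ∑ i, a i * circleAverage u (w i) ρ =
        ∑ i, a i * circleAverage (fun z => u z - c) (w i) ρ := by
      have h6 : ∀ i, circleAverage (fun z => u z - c) (w i) ρ =
          circleAverage u (w i) ρ - c := by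
        intro i
        rw [circleAverage_fun_sub (circleIntegrable_of_continuous hucont _ _)
          (circleIntegrable_const _ _ _), circleAverage_const]
      simp_rw [h6, mul_sub, Finset.sum_sub_distrib]
      rw [← Finset.sum_mul, ha]
      ring
    rw [h5]
    apply Tendsto.pow
    apply Tendsto.const_mul
    apply tendsto_finsetSum
    intro i _
    apply Tendsto.const_mul
    rw [Metric.tendsto_nhdsWithin_nhds]
    intro ε hε
    refine ⟨ε, hε, fun η hη0 hη => ?_⟩
    have hη0' : (0 : ℝ) < η := hη0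
    rw [dist_zero_right, Real.norm_eq_abs, abs_of_pos hη0'] at hη
    rw [Real.dist_eq]
    refine lt_of_le_of_lt (circleAverage_sub_le ?_ ?_ (fun z _ => abs_soft_sub_le hη0'.le _)) hη
    · exact (soft_lipschitz hη0'.le).continuous.comp (hucont.sub continuous_const)
    · exact hucont.sub continuous_const
  exact le_of_tendsto hlim (by
    filter_upwards [self_mem_nhdsWithin] with η hη
    exact key η hη)

end Pool.Agent.Helper26
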