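import Pool.Agent.Helper26.Lower

open MeasureTheory Filter Topology Set Real
open scoped ENNReal NNReal

namespace Pool.Agent.Helper26

variable {n : ℕ}

theorem tcap_le_two {E : Set ℂ} {a : ℂ} {ε : ℝ} (hne : E.Nonempty) (hsub : E ⊆ Metric.ball a ε) :
    tcap E ≤ 2 * ε := by
  refine (tcap_le E 0).trans ?_
  unfold tdm
  have : Nonempty E := hne.to_subtype
  apply ciSup_le
  intro w
  have h1 : ((2:ℝ) / ((((0 : ℕ):ℝ) + 2) * (((0:ℕ):ℝ) + 1))) = 1 := by norm_num
  rw [h1, Real.rpow_one]
  have h2 : ∏ i : Fin (0+2), ∏ j ∈ Finset.Ioi i, ‖(w i : ℂ) - (w j : ℂ)‖ =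
      ‖(w 0 : ℂ) - (w 1 : ℂ)‖ := by
    have e0 : Finset.Ioi (0 : Fin 2) = {1} := by decide
    have e1 : Finset.Ioi (1 : Fin 2) = ∅ := by decide
    change ∏ i : Fin 2, ∏ j ∈ Finset.Ioi i, ‖(w i : ℂ) - (w j : ℂ)‖ = _
    rw [Fin.prod_univ_two, e0, e1]
    simp
  rw [h2]
  have h3 := hsub (w 0).2
  have h4 := hsub (w 1).2
  rw [Metric.mem_ball, dist_eq_norm] at h3 h4
  have h5 : (w 0 : ℂ) - (w 1 : ℂ) = ((w 0 : ℂ) - a) - ((w 1 : ℂ) - a) := by ring
  rw [h5]
  refine (norm_sub_le _ _).trans ?_
  linarith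

theorem norm_fld_le' {ρ c : ℝ} {w z : ℂ} (hc : 0 < c) (h : c ≤ ‖z - w‖) :
    ‖fld ρ w z‖ ≤ c⁻¹ := by
  unfold fld
  split_ifs with h1
  · have h4 : 0 < ‖z - w‖ := hc.trans_le h
    rw [norm_smul, norm_inv, norm_pow, norm_norm, sq, mul_inv, mul_assoc,
      inv_mul_cancel₀ h4.ne', mul_one]
    exact inv_anti₀ hc h
  · rw [norm_zero]
    positivity

theorem fderiv_max_const {p : ℂ → ℝ} {C : ℝ} {ζ : ℂ} (hp : Continuous p) :
    (C < p ζ → fderiv ℝ (fun x => max (p x) C) ζ = fderiv ℝ p ζ) ∧
    (p ζ ≤ C → fderiv ℝ (fun x => max (p x) C) ζ = 0) := by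
  constructor
  · intro h
    apply Filter.EventuallyEq.fderiv_eq
    filter_upwards [hp.continuousAt.eventually (lt_mem_nhds h)] with y hy
    exact max_eq_left hy.le
  · intro h
    apply IsLocalMin.fderiv_eq_zero
    apply Eventually.of_forall
    intro y
    simp only [max_eq_right h]
    exact le_max_right _ _

theorem upper_trial {z : Fin n → ℂ} {d : ℝ} (hd : 0 < d)
    (hsep : ∀ k l, k ≠ l → d ≤ ‖z k - z l‖) {τ : ℝ} (hτ : 0 < τ) {ε r : ℝ}
    (hε1 : 4 * ε ≤ d) (hε2 : 4 * ε / d ≤ τ) (hr : 0 < r) (hr1 : 4 * r ≤ d) (hεr : 2 * ε ≤ r)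
    (hlog : Real.log (2 * ε) + τ < Real.log (r / 2)) (harea : n * (4 * r ^ 2 / d ^ 2) ≤ 2 * τ)
    (E : Fin n → Set ℂ) (hE : ∀ k, IsCompact (E k))
    (hne : ∀ k, (E k).Nonempty) (hcap : ∀ k, 0 < tcap (E k))
    (hsub : ∀ k, E k ⊆ Metric.ball (z k) ε) {m : Fin n → ℝ} (hm : ∑ k, m k = 0) :
    ∃ U : ℂ → ℝ, LocallyLipschitz U ∧ Tendsto U (cocompact ℂ) (𝓝 0) ∧
      (∀ k, ∀ ζ ∈ E k, |U ζ - (-(m k * Real.log (tcap (E k)))
        - ∑ l ∈ Finset.univ.erase k, m l * Real.log ‖z k - z l‖)| ≤ τ * ∑ k, |m k|) ∧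
      Dir U ≤ ENNReal.ofReal (2 * π * (EE z (fun k => Real.log (tcap (E k))) m
        + 2 * τ * (∑ k, |m k|) ^ 2)) := by
  classical
  obtain ⟨ρ₁, hρ₁, hcfg⟩ := exists_config hd hsep hτ hε1 hε2 E hE hne hcap hsub
  obtain ⟨ρ, hρ, hρρ⟩ : ∃ ρ, 0 < ρ ∧ ρ < min ρ₁ (d / 8) := exists_between (by positivity)
  have hρ1 : ρ < ρ₁ := hρρ.trans_le (min_le_left _ _)
  have hρ8 : ρ < d / 8 := hρρ.trans_le (min_le_right _ _)
  obtain ⟨N, hN, w, hw, hpot, hen⟩ := hcfg ρ hρ hρ1
  have hNr : ∀ k, (0 : ℝ) < N k := fun k => by exact_mod_cast hN k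
  set p : Fin n → ℂ → ℝ := fun k => pk ρ N w k with hp
  set C : Fin n → ℝ := fun k => Real.log (tcap (E k)) + τ with hC
  set g : Fin n → ℂ → ℝ := fun k ζ => max (p k ζ) (C k) with hg
  have hpl : ∀ k, LipschitzWith _ (p k) := fun k => pot_lipschitz hρ (w k) (fun _ => ((N k : ℝ))⁻¹)
  have hpc : ∀ k, Continuous (p k) := fun k => (hpl k).continuous
  have hgl : ∀ k, LipschitzWith _ (g k) := fun k => (hpl k).max_const (C k)
  -- distance to the plates' points
  have hwz : ∀ k i, ‖w k i - z k‖ ≤ ε := by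
    intro k i
    have := hsub k (hw k i)
    rw [Metric.mem_ball, dist_eq_norm] at this
    exact this.le
  have hC2 : ∀ k, C k < Real.log (r / 2) := by
    intro k
    have h1 := tcap_le_two (hne k) (hsub k)
    have h2 := Real.log_le_log (hcap k) h1
    simp only [hC]
    linarith
  -- averages
  have havg : ∀ k (f : Fin (N k) → ℝ) (b : ℝ), (∀ i, b ≤ f i) → b ≤ ∑ i, ((N k : ℝ))⁻¹ * f i := by
    intro k f b hb
    rw [← Finset.mul_sum]
    have h1 : (N k : ℝ) * b ≤ ∑ i, f i := by
      calc (N k : ℝ) * b = ∑ i : Fin (N k), b := by simp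
        _ ≤ _ := Finset.sum_le_sum (fun i _ => hb i)
    rw [← div_eq_inv_mul, le_div_iff₀ (hNr k)]
    linarith
  have hfar : ∀ k ζ, ζ ∉ Metric.ball (z k) r → C k < p k ζ := by
    intro k ζ hζ
    rw [Metric.mem_ball, not_lt, dist_eq_norm] at hζ
    refine (hC2 k).trans_le ?_
    simp only [hp, pk, pot]
    apply havg
    intro i
    unfold lk
    apply Real.log_le_log (by positivity)
    refine le_trans ?_ (le_max_left _ _)
    have h1 : ‖ζ - z k‖ ≤ ‖ζ - w k i‖ + ‖w k i - z k‖ := by
      have := norm_add_le (ζ - w k i) (w k i - z k)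
      simpa using this
    have := hwz k i
    linarith
  have hgp : ∀ k ζ, ζ ∉ Metric.ball (z k) r → g k ζ = p k ζ := by
    intro k ζ hζ
    exact max_eq_left (hfar k ζ hζ).le
  set U : ℂ → ℝ := fun ζ => -∑ k, m k * g k ζ with hU
  have hUl : LipschitzWith (∑ k, Real.toNNReal |m k| *
      (Real.toNNReal ((∑ i : Fin (N k), |((N k : ℝ))⁻¹|) * ρ⁻¹))) U := by
    apply LipschitzWith.of_dist_le_mul
    intro x y
    rw [Real.dist_eq]
    simp only [hU]
    have h1 : -∑ k, m k * g k x - -∑ k, m k * g k y = ∑ k, m k * (g k y - g k x) := by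
      simp_rw [mul_sub, Finset.sum_sub_distrib]
      ring
    rw [h1]
    refine (Finset.abs_sum_le_sum_abs _ _).trans ?_
    push_cast
    rw [Finset.sum_mul]
    apply Finset.sum_le_sum
    intro k _
    rw [abs_mul, Real.coe_toNNReal _ (abs_nonneg _), mul_assoc]
    apply mul_le_mul_of_nonneg_left _ (abs_nonneg _)
    have := (hgl k).dist_le_mul y x
    rw [Real.dist_eq, dist_comm y x] at this
    exact this
  refine ⟨U, hUl.locallyLipschitz, ?_, ?_, ?_⟩
  · -- limit at infinity
    have h1 : ∀ k, Tendsto (fun ζ => g k ζ - Real.log ‖ζ‖) (cocompact ℂ) (𝓝 0) := by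
      intro k
      have h2 : Tendsto (fun ζ => p k ζ - Real.log ‖ζ‖) (cocompact ℂ) (𝓝 0) := by
        have h3 : Tendsto (fun ζ => ∑ i, ((N k : ℝ))⁻¹ * (lk ρ (w k i) ζ - Real.log ‖ζ‖))
            (cocompact ℂ) (𝓝 (∑ i : Fin (N k), ((N k : ℝ))⁻¹ * 0)) := by
          apply tendsto_finsetSum
          intro i _
          exact (tendsto_lk_sub_log ρ (w k i)).const_mul _
        simp only [mul_zero, Finset.sum_const_zero] at h3
        refine h3.congr ?_
        intro ζ
        simp_rw [mul_sub, Finset.sum_sub_distrib]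
        simp only [hp, pk, pot, Finset.sum_const, Finset.card_univ, Fintype.card_fin, nsmul_eq_mul]
        have := (hNr k).ne'
        field_simp
      refine h2.congr' ?_
      have h3 : ∀ᶠ ζ in cocompact ℂ, ζ ∉ Metric.ball (z k) r := by
        have h4 := (isCompact_closedBall (z k) r).compl_mem_cocompact
        filter_upwards [h4] with ζ hζ hmem
        exact hζ (Metric.ball_subset_closedBall hmem)
      filter_upwards [h3] with ζ hζ
      rw [hgp k ζ hζ]
    have h2 : Tendsto (fun ζ => -∑ k, m k * (g k ζ - Real.log ‖ζ‖)) (cocompact ℂ)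
        (𝓝 (-∑ k, m k * 0)) := by
      apply Tendsto.neg
      apply tendsto_finsetSum
      intro k _
      exact (h1 k).const_mul _
    simp only [mul_zero, Finset.sum_const_zero, neg_zero] at h2
    refine h2.congr ?_
    intro ζ
    simp_rw [mul_sub, Finset.sum_sub_distrib]
    rw [← Finset.sum_mul, hm]
    simp [hU]
  · -- values on the plates
    intro k ζ hζ
    have hζz : ‖ζ - z k‖ ≤ ε := by
      have := hsub k hζ
      rw [Metric.mem_ball, dist_eq_norm] at this
      exact this.le
    have hgk : g k ζ = C k := max_eq_right (hpot k ζ hζ)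
    have hgl' : ∀ l, l ≠ k → |g l ζ - Real.log ‖z k - z l‖| ≤ τ := by
      intro l hlk
      have hs := hsep k l hlk.symm
      have h1 : ζ ∉ Metric.ball (z l) r := by
        rw [Metric.mem_ball, not_lt, dist_eq_norm]
        have h2 : ‖z k - z l‖ ≤ ‖ζ - z l‖ + ‖ζ - z k‖ := by
          have : z k - z l = (ζ - z l) - (ζ - z k) := by ring
          rw [this]
          exact norm_sub_le _ _
        linarith
      rw [hgp l ζ h1]
      have h2 : ∀ j, |lk ρ (w l j) ζ - Real.log ‖z k - z l‖| ≤ τ := by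
        intro j
        have h3 : ρ ≤ ‖ζ - w l j‖ := by
          have h2 : ‖z k - z l‖ ≤ ‖ζ - w l j‖ + (‖ζ - z k‖ + ‖w l j - z l‖) := by
            have : z k - z l = (ζ - w l j) - ((ζ - z k) - (w l j - z l)) := by ring
            rw [this]
            refine (norm_sub_le _ _).trans ?_
            have := norm_sub_le (ζ - z k) (w l j - z l)
            linarith
          have := hwz l j
          linarith
        unfold lk
        rw [max_eq_left h3]
        exact (abs_log_norm_sub_le hd hε1 hs hζz (hwz l j)).trans hε2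
      have h3 : p l ζ - Real.log ‖z k - z l‖ =
          ∑ j, ((N l : ℝ))⁻¹ * (lk ρ (w l j) ζ - Real.log ‖z k - z l‖) := by
        simp_rw [mul_sub, Finset.sum_sub_distrib]
        simp only [hp, pk, pot, Finset.sum_const, Finset.card_univ, Fintype.card_fin, nsmul_eq_mul]
        have := (hNr l).ne'
        field_simp
      rw [h3]
      refine (Finset.abs_sum_le_sum_abs _ _).trans ?_
      calc ∑ j, |((N l : ℝ))⁻¹ * (lk ρ (w l j) ζ - Real.log ‖z k - z l‖)| ≤
          ∑ j : Fin (N l), ((N l : ℝ))⁻¹ * τ := by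
            apply Finset.sum_le_sum
            intro j _
            rw [abs_mul, abs_of_nonneg (by positivity : (0 : ℝ) ≤ ((N l : ℝ))⁻¹)]
            exact mul_le_mul_of_nonneg_left (h2 j) (by positivity)
        _ = τ := by
            have := (hNr l).ne'
            simp
            field_simp
    have h1 : U ζ - (-(m k * Real.log (tcap (E k)))
        - ∑ l ∈ Finset.univ.erase k, m l * Real.log ‖z k - z l‖) =
        -(m k * τ) - ∑ l ∈ Finset.univ.erase k, m l * (g l ζ - Real.log ‖z k - z l‖) := by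
      simp only [hU]
      rw [← Finset.add_sum_erase _ _ (Finset.mem_univ k), hgk]
      simp_rw [mul_sub, Finset.sum_sub_distrib]
      simp only [hC]
      ring
    rw [h1]
    have h2 : |∑ l ∈ Finset.univ.erase k, m l * (g l ζ - Real.log ‖z k - z l‖)| ≤
        ∑ l ∈ Finset.univ.erase k, |m l| * τ := by
      refine (Finset.abs_sum_le_sum_abs _ _).trans ?_
      apply Finset.sum_le_sum
      intro l hl
      rw [abs_mul]
      exact mul_le_mul_of_nonneg_left (hgl' l (Finset.ne_of_mem_erase hl)) (abs_nonneg _)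
    have h3 : ∑ k, |m k| = |m k| + ∑ l ∈ Finset.univ.erase k, |m l| :=
      (Finset.add_sum_erase _ _ (Finset.mem_univ k)).symm
    rw [h3, mul_add, Finset.mul_sum]
    refine (abs_sub _ _).trans ?_
    rw [abs_neg, abs_mul, abs_of_pos hτ]
    have h4 : ∑ l ∈ Finset.univ.erase k, |m l| * τ = ∑ l ∈ Finset.univ.erase k, τ * |m l| :=
      Finset.sum_congr rfl (fun l _ => mul_comm _ _)
    rw [h4] at h2
    linarith
  · -- energy
    set S : ℝ := 2 / d * ∑ k, |m k| with hS
    have hS0 : 0 ≤ S := by positivity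
    set V : ℂ → ℂ := vf ρ (pts N w) (wgt N m) with hV
    have hpt : ∀ᵐ ζ : ℂ, ‖fderiv ℝ U ζ‖ ^ 2 ≤
        ‖V ζ‖ ^ 2 + ∑ k, (Metric.ball (z k) r).indicator (fun _ => S ^ 2) ζ := by
      have hd1 : ∀ᵐ ζ : ℂ, ∀ k, HasFDerivAt (p k) (innerSL ℝ (vk ρ N w k ζ)) ζ := by
        rw [ae_all_iff]
        intro k
        exact ae_hasFDerivAt_pot hρ (w k) (fun _ => ((N k : ℝ))⁻¹)
      have hd2 : ∀ᵐ ζ : ℂ, ∀ k, DifferentiableAt ℝ (g k) ζ := by
        rw [ae_all_iff]
        intro k
        exact (hgl k).ae_differentiableAt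
      filter_upwards [hd1, hd2] with ζ h1 h2
      have hfU : fderiv ℝ U ζ = -∑ k, m k • fderiv ℝ (g k) ζ := by
        have h3 : HasFDerivAt U (-∑ k, m k • fderiv ℝ (g k) ζ) ζ := by
          apply HasFDerivAt.neg
          apply HasFDerivAt.fun_sum
          intro k _
          exact (h2 k).hasFDerivAt.const_mul (m k)
        exact h3.fderiv
      have hcase : ∀ k, C k < p k ζ → fderiv ℝ (g k) ζ = innerSL ℝ (vk ρ N w k ζ) := by
        intro k hk
        rw [← (h1 k).fderiv]
        exact (fderiv_max_const (hpc k)).1 hk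
      have hcase0 : ∀ k, p k ζ ≤ C k → fderiv ℝ (g k) ζ = 0 := by
        intro k hk
        exact (fderiv_max_const (hpc k)).2 hk
      have hVn : ‖V ζ‖ = ‖∑ k, m k • innerSL ℝ (vk ρ N w k ζ)‖ := by
        have h3 : innerSL ℝ (V ζ) = ∑ k, m k • innerSL ℝ (vk ρ N w k ζ) := by
          simp only [hV]
          rw [vf_pts, map_sum]
          simp only [map_smul]
        rw [← h3, innerSL_apply_norm]
      by_cases hall : ∀ k, C k < p k ζ
      · have h3 : fderiv ℝ U ζ = -∑ k, m k • innerSL ℝ (vk ρ N w k ζ) := by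
          rw [hfU]
          congr 1
          apply Finset.sum_congr rfl
          intro k _
          rw [hcase k (hall k)]
        rw [h3, norm_neg, ← hVn]
        have : 0 ≤ ∑ k, (Metric.ball (z k) r).indicator (fun _ => S ^ 2) ζ :=
          Finset.sum_nonneg (fun k _ => indicator_nonneg (fun _ _ => by positivity) _)
        linarith
      · push Not at hall
        obtain ⟨k, hk⟩ := hall
        have hζk : ζ ∈ Metric.ball (z k) r := by
          by_contra h
          exact absurd (hfar k ζ h) (not_lt.mpr hk)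
        rw [Metric.mem_ball, dist_eq_norm] at hζk
        have hfarl : ∀ l, l ≠ k → ∀ j, d / 2 ≤ ‖ζ - w l j‖ := by
          intro l hlk j
          have hs := hsep k l hlk.symm
          have h2 : ‖z k - z l‖ ≤ ‖ζ - w l j‖ + (‖ζ - z k‖ + ‖w l j - z l‖) := by
            have : z k - z l = (ζ - w l j) - ((ζ - z k) - (w l j - z l)) := by ring
            rw [this]
            refine (norm_sub_le _ _).trans ?_
            have := norm_sub_le (ζ - z k) (w l j - z l)
            linarith
          have := hwz l j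
          linarith
        have hCl : ∀ l, l ≠ k → C l < p l ζ := by
          intro l hlk
          apply hfar
          rw [Metric.mem_ball, not_lt, dist_eq_norm]
          have hs := hsep k l hlk.symm
          have h2 : ‖z k - z l‖ ≤ ‖ζ - z l‖ + ‖ζ - z k‖ := by
            have : z k - z l = (ζ - z l) - (ζ - z k) := by ring
            rw [this]
            exact norm_sub_le _ _
          linarith
        have hvk : ∀ l, l ≠ k → ‖vk ρ N w l ζ‖ ≤ 2 / d := by
          intro l hlk
          unfold vk vf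
          refine (norm_sum_le _ _).trans ?_
          calc ∑ j, ‖((N l : ℝ))⁻¹ • fld ρ (w l j) ζ‖ ≤ ∑ j : Fin (N l), ((N l : ℝ))⁻¹ * (2 / d) := by
                apply Finset.sum_le_sum
                intro j _
                rw [norm_smul, Real.norm_eq_abs, abs_of_nonneg (by positivity)]
                apply mul_le_mul_of_nonneg_left _ (by positivity)
                have := norm_fld_le' (ρ := ρ) (by positivity : 0 < d / 2) (hfarl l hlk j)
                rwa [inv_div] at this
            _ = 2 / d := by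
                have := (hNr l).ne'
                simp
                field_simp
        have h3 : fderiv ℝ U ζ = -∑ l ∈ Finset.univ.erase k, m l • innerSL ℝ (vk ρ N w l ζ) := by
          rw [hfU]
          congr 1
          rw [← Finset.add_sum_erase _ _ (Finset.mem_univ k), hcase0 k hk, smul_zero, zero_add]
          apply Finset.sum_congr rfl
          intro l hl
          rw [hcase l (hCl l (Finset.ne_of_mem_erase hl))]
        have h4 : ‖fderiv ℝ U ζ‖ ≤ S := by
          rw [h3, norm_neg]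
          refine (norm_sum_le _ _).trans ?_
          calc ∑ l ∈ Finset.univ.erase k, ‖m l • innerSL ℝ (vk ρ N w l ζ)‖ ≤
              ∑ l ∈ Finset.univ.erase k, |m l| * (2 / d) := by
                apply Finset.sum_le_sum
                intro l hl
                rw [norm_smul, Real.norm_eq_abs, innerSL_apply_norm]
                exact mul_le_mul_of_nonneg_left (hvk l (Finset.ne_of_mem_erase hl)) (abs_nonneg _)
            _ ≤ ∑ l, |m l| * (2 / d) := by
                apply Finset.sum_le_sum_of_subset_of_nonneg (Finset.erase_subset _ _)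
                intro l _ _
                positivity
            _ = S := by
                rw [hS, ← Finset.sum_mul]
                ring
        have h5 : S ^ 2 ≤ ∑ k, (Metric.ball (z k) r).indicator (fun _ => S ^ 2) ζ := by
          have h6 : (Metric.ball (z k) r).indicator (fun _ => S ^ 2) ζ = S ^ 2 := by
            rw [indicator_of_mem]
            rw [Metric.mem_ball, dist_eq_norm]
            exact hζk
          calc S ^ 2 = (Metric.ball (z k) r).indicator (fun _ => S ^ 2) ζ := h6.symm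
            _ ≤ ∑ k, (Metric.ball (z k) r).indicator (fun _ => S ^ 2) ζ :=
              Finset.single_le_sum
                (f := fun k => (Metric.ball (z k) r).indicator (fun _ => S ^ 2) ζ)
                (fun l _ => indicator_nonneg (fun _ _ => by positivity) _) (Finset.mem_univ k)
        have h6 : ‖fderiv ℝ U ζ‖ ^ 2 ≤ S ^ 2 := by gcongr
        have h7 : 0 ≤ ‖V ζ‖ ^ 2 := by positivity
        linarith
    have hVi : Integrable (fun ζ => ‖V ζ‖ ^ 2) :=
      integrable_norm_vf_sq hρ _ (by rw [sum_wgt hN, hm])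
    have hii : ∀ k, Integrable ((Metric.ball (z k) r).indicator (fun _ : ℂ => S ^ 2)) := by
      intro k
      rw [integrable_indicator_iff Metric.isOpen_ball.measurableSet]
      exact integrableOn_const (measure_ball_lt_top).ne
    have hGi : Integrable (fun ζ => ‖V ζ‖ ^ 2 +
        ∑ k, (Metric.ball (z k) r).indicator (fun _ => S ^ 2) ζ) :=
      hVi.add (integrable_finsetSum _ (fun k _ => hii k))
    have h1 : Dir U ≤ ENNReal.ofReal (∫ ζ, (‖V ζ‖ ^ 2 +
        ∑ k, (Metric.ball (z k) r).indicator (fun _ => S ^ 2) ζ)) := by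
      rw [ofReal_integral_eq_lintegral_ofReal hGi (Eventually.of_forall fun ζ => by
        have : 0 ≤ ∑ k, (Metric.ball (z k) r).indicator (fun _ => S ^ 2) ζ :=
          Finset.sum_nonneg (fun k _ => indicator_nonneg (fun _ _ => by positivity) _)
        positivity)]
      unfold Dir
      apply lintegral_mono_ae
      filter_upwards [hpt] with ζ hζ
      have h2 : (‖fderiv ℝ U ζ‖₊ : ℝ≥0∞) ^ 2 = ENNReal.ofReal (‖fderiv ℝ U ζ‖ ^ 2) := by
        rw [ENNReal.ofReal_pow (norm_nonneg _), ofReal_norm]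
        rfl
      rw [h2]
      exact ENNReal.ofReal_le_ofReal hζ
    refine h1.trans (ENNReal.ofReal_le_ofReal ?_)
    rw [integral_add hVi (integrable_finsetSum _ (fun k _ => hii k)),
      integral_finsetSum _ (fun k _ => hii k)]
    have h2 : ∀ k, ∫ ζ, (Metric.ball (z k) r).indicator (fun _ : ℂ => S ^ 2) ζ =
        π * r ^ 2 * S ^ 2 := by
      intro k
      rw [integral_indicator_const _ Metric.isOpen_ball.measurableSet, smul_eq_mul,
        Measure.real, Complex.volume_ball]
      simp only [ENNReal.toReal_mul, ENNReal.toReal_pow, ENNReal.coe_toReal]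
      rw [ENNReal.toReal_ofReal hr.le, NNReal.coe_real_pi]
      ring
    simp_rw [h2]
    simp only [Finset.sum_const, Finset.card_univ, Fintype.card_fin, nsmul_eq_mul]
    have h3 := hen m hm
    have h4 : (n : ℝ) * (π * r ^ 2 * S ^ 2) = π * (n * (4 * r ^ 2 / d ^ 2)) * (∑ k, |m k|) ^ 2 := by
      rw [hS]
      field_simp
      ring
    rw [h4]
    have h5 : π * (n * (4 * r ^ 2 / d ^ 2)) * (∑ k, |m k|) ^ 2 ≤
        π * (2 * τ) * (∑ k, |m k|) ^ 2 := by
      have := Real.pi_pos
      gcongr
    simp only [hV]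
    nlinarith

end Pool.Agent.Helper26
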